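import Mathlib
set_option autoImplicit false

/-!
# MP_b10815_co_flt, block KC, part 1: a quadrature formula for the derivative at 0

For every `K ≥ 1` there are nodes `ρ j ∈ [-1,1]` and weights `c j` with `∑ |c j| ≤ 2 K` and
`∑ c j (ρ j)^k = [k = 1]` for all `k ≤ K` (M. Riesz).
-/

namespace Pool.Agent.Work.MP_b10815_co_flt.KC

open Finset

/-- exponentials -/
noncomputable def E (m : ℤ) (θ : ℝ) : ℂ := Complex.exp ((m : ℂ) * θ * Complex.I)

lemma E_mul (m l : ℤ) (θ : ℝ) : E m θ * E l θ = E (m + l) θ := by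
  unfold E
  rw [← Complex.exp_add]
  congr 1
  push_cast
  ring

lemma E_conj (m : ℤ) (θ : ℝ) : (starRingEnd ℂ) (E m θ) = E (-m) θ := by
  unfold E
  rw [← Complex.exp_conj]
  congr 1
  simp

lemma E_sin (K : ℤ) (θ : ℝ) :
    ((Real.sin (K * θ) : ℝ) : ℂ) = (E (-K) θ - E K θ) * Complex.I / 2 := by
  rw [Complex.ofReal_sin, Complex.sin]
  unfold E
  push_cast
  congr 3
  congr 1
  ring

/-- trigonometric polynomials of degree `≤ k` -/
def W (k : ℕ) : Submodule ℂ (ℝ → ℂ) := Submodule.span ℂ {T | ∃ m : ℤ, |m| ≤ k ∧ T = E m}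

lemma E_mem (k : ℕ) (m : ℤ) (hm : |m| ≤ k) : E m ∈ W k :=
  Submodule.subset_span ⟨m, hm, rfl⟩

lemma sin_mul_mem (k : ℕ) (T : ℝ → ℂ) (hT : T ∈ W k) :
    (fun θ => (Real.sin θ : ℂ) * T θ) ∈ W (k + 1) := by
  refine Submodule.span_induction
    (p := fun T _ => (fun θ => (Real.sin θ : ℂ) * T θ) ∈ W (k + 1)) ?_ ?_ ?_ ?_ hT
  · rintro T ⟨m, hm, rfl⟩
    have h : (fun θ => (Real.sin θ : ℂ) * E m θ) =
        (-(Complex.I / 2)) • E (m + 1) + (Complex.I / 2) • E (m - 1) := by
      funext θ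
      have h1 := E_sin 1 θ
      simp only [Int.cast_one, one_mul] at h1
      rw [h1]
      simp only [Pi.add_apply, Pi.smul_apply, smul_eq_mul]
      have h2 : E (m + 1) θ = E 1 θ * E m θ := by rw [E_mul]; congr 1; ring
      have h3 : E (m - 1) θ = E (-1) θ * E m θ := by rw [E_mul]; congr 1; ring
      rw [h2, h3]
      ring
    rw [h]
    refine Submodule.add_mem _ (Submodule.smul_mem _ _ (E_mem _ _ ?_))
      (Submodule.smul_mem _ _ (E_mem _ _ ?_))
    · have := abs_le.mp hm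
      push_cast
      rw [abs_le]
      omega
    · have := abs_le.mp hm
      push_cast
      rw [abs_le]
      omega
  · simp only [Pi.zero_apply, mul_zero]
    exact Submodule.zero_mem _
  · intro S T _ _ hS hT
    have h : (fun θ => (Real.sin θ : ℂ) * (S + T) θ) =
        (fun θ => (Real.sin θ : ℂ) * S θ) + (fun θ => (Real.sin θ : ℂ) * T θ) := by
      funext θ
      simp only [Pi.add_apply]
      ring
    rw [h]
    exact Submodule.add_mem _ hS hT
  · intro a T _ hT
    have h : (fun θ => (Real.sin θ : ℂ) * (a • T) θ) =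
        a • (fun θ => (Real.sin θ : ℂ) * T θ) := by
      funext θ
      simp only [Pi.smul_apply, smul_eq_mul]
      ring
    rw [h]
    exact Submodule.smul_mem _ _ hT

lemma sin_pow_mem (k : ℕ) : (fun θ : ℝ => (Real.sin θ : ℂ) ^ k) ∈ W k := by
  induction k with
  | zero =>
    have h : (fun θ : ℝ => (Real.sin θ : ℂ) ^ 0) = E 0 := by
      funext θ
      simp [E]
    rw [h]
    exact E_mem _ _ (by simp)
  | succ k ih =>
    have h : (fun θ : ℝ => (Real.sin θ : ℂ) ^ (k + 1)) =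
        (fun θ : ℝ => (Real.sin θ : ℂ) * (Real.sin θ : ℂ) ^ k) := by
      funext θ
      ring
    rw [h]
    exact sin_mul_mem k _ ih

lemma W_mono (k l : ℕ) (h : k ≤ l) : W k ≤ W l := by
  apply Submodule.span_mono
  rintro T ⟨m, hm, rfl⟩
  exact ⟨m, hm.trans (by exact_mod_cast h), rfl⟩

/-- the nodes -/
noncomputable def nd (M j : ℕ) : ℝ := 2 * Real.pi * j / M

lemma sum_E (M : ℕ) (hM : 1 ≤ M) (m : ℤ) (hm : |m| < M) :
    ∑ j ∈ range M, E m (nd M j) = if m = 0 then (M : ℂ) else 0 := by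
  have hM0 : (M : ℂ) ≠ 0 := by exact_mod_cast (by omega : M ≠ 0)
  have hpow : ∀ j : ℕ, E m (nd M j) = (Complex.exp (2 * Real.pi * Complex.I * (m / M))) ^ j := by
    intro j
    unfold E nd
    rw [← Complex.exp_nat_mul]
    congr 1
    push_cast
    field_simp
  split_ifs with h0
  · subst h0
    simp [E]
  · set w := Complex.exp (2 * Real.pi * Complex.I * (m / M)) with hw
    have hw1 : w ≠ 1 := by
      intro h1
      rw [hw, Complex.exp_eq_one_iff] at h1
      obtain ⟨q, hq⟩ := h1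
      have hpi : (2 * (Real.pi : ℂ) * Complex.I) ≠ 0 := by
        simp [Real.pi_ne_zero]
      have h2 : ((m : ℂ) / M) = q := by
        apply mul_left_cancel₀ hpi
        rw [hq]
        ring
      have h3 : (m : ℂ) = q * M := by
        rw [← h2]
        field_simp
      have h4 : m = q * M := by exact_mod_cast h3
      have hq0 : q ≠ 0 := by
        rintro rfl
        simp at h4
        exact h0 h4
      have h5 : (M : ℤ) ≤ |m| := by
        rw [h4, abs_mul]
        have : 1 ≤ |q| := Int.one_le_abs hq0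
        have h6 : |(M : ℤ)| = M := abs_of_nonneg (by positivity)
        rw [h6]
        nlinarith [show (0 : ℤ) ≤ M by positivity]
      omega
    have hwM : w ^ M = 1 := by
      rw [hw, ← Complex.exp_nat_mul, Complex.exp_eq_one_iff]
      refine ⟨m, ?_⟩
      field_simp
    have hg := mul_neg_geom_sum w M
    rw [hwM, sub_self] at hg
    simp only [hpow]
    rcases mul_eq_zero.mp hg with h | h
    · exact absurd (sub_eq_zero.mp h).symm hw1
    · exact h

/-- the Dirichlet sum -/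
noncomputable def Dr (K : ℕ) (θ : ℝ) : ℂ := ∑ a ∈ range K, E a θ

lemma Dr_normSq (K : ℕ) (θ : ℝ) :
    ((Complex.normSq (Dr K θ) : ℝ) : ℂ) = ∑ a ∈ range K, ∑ b ∈ range K, E ((a : ℤ) - b) θ := by
  rw [← Complex.mul_conj]
  unfold Dr
  rw [map_sum, Finset.sum_mul_sum]
  refine Finset.sum_congr rfl fun a _ => Finset.sum_congr rfl fun b _ => ?_
  rw [E_conj, E_mul]
  congr 1

/-- the weights -/
noncomputable def wt (K j : ℕ) : ℝ :=
  2 / (3 * K : ℕ) * Complex.normSq (Dr K (nd (3 * K) j)) * Real.sin ((K : ℤ) * nd (3 * K) j)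

lemma count (K s : ℕ) :
    ∑ a ∈ range K, ∑ b ∈ range K, (if b = a + s then (1 : ℤ) else 0) = ((K - s : ℕ) : ℤ) := by
  have h : ∀ a ∈ range K, ∑ b ∈ range K, (if b = a + s then (1 : ℤ) else 0) =
      if a + s < K then 1 else 0 := by
    intro a _
    rw [Finset.sum_ite_eq']
    simp
  rw [Finset.sum_congr rfl h, Finset.sum_ite, Finset.sum_const_zero, add_zero,
    Finset.sum_const]
  have h2 : (range K).filter (fun a => a + s < K) = range (K - s) := by
    ext a
    simp only [mem_filter, mem_range]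
    omega
  rw [h2]
  simp

lemma sum_normSq (K : ℕ) (hK : 1 ≤ K) :
    ∑ j ∈ range (3 * K), Complex.normSq (Dr K (nd (3 * K) j)) = (3 * K : ℕ) * K := by
  have h : ((∑ j ∈ range (3 * K), Complex.normSq (Dr K (nd (3 * K) j)) : ℝ) : ℂ) =
      (((3 * K : ℕ) * K : ℝ) : ℂ) := by
    rw [Complex.ofReal_sum]
    simp only [Dr_normSq]
    rw [Finset.sum_comm]
    have h1 : ∀ a ∈ range K, ∑ j ∈ range (3 * K), ∑ b ∈ range K,
        E ((a : ℤ) - b) (nd (3 * K) j) = (3 * K : ℕ) := by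
      intro a ha
      rw [Finset.sum_comm]
      have h2 : ∀ b ∈ range K, ∑ j ∈ range (3 * K), E ((a : ℤ) - b) (nd (3 * K) j) =
          if b = a then ((3 * K : ℕ) : ℂ) else 0 := by
        intro b hb
        rw [mem_range] at ha hb
        rw [sum_E (3 * K) (by omega) _ (by rw [abs_lt]; push_cast; omega)]
        by_cases hab : b = a
        · rw [if_pos hab, if_pos (by omega)]
        · rw [if_neg hab, if_neg (by omega)]
      rw [Finset.sum_congr rfl h2, Finset.sum_ite_eq', if_pos ha]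
    rw [Finset.sum_congr rfl h1, Finset.sum_const, card_range]
    push_cast
    ring
  exact_mod_cast h

lemma sum_wt (K : ℕ) (hK : 1 ≤ K) : ∑ j ∈ range (3 * K), |wt K j| ≤ 2 * K := by
  have hpos : (0 : ℝ) < (3 * K : ℕ) := by positivity
  calc ∑ j ∈ range (3 * K), |wt K j|
      ≤ ∑ j ∈ range (3 * K), 2 / (3 * K : ℕ) * Complex.normSq (Dr K (nd (3 * K) j)) := by
        refine Finset.sum_le_sum fun j _ => ?_
        unfold wt
        rw [abs_mul, abs_of_nonneg (by
          have := Complex.normSq_nonneg (Dr K (nd (3 * K) j))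
          positivity)]
        have h1 := Real.abs_sin_le_one ((K : ℤ) * nd (3 * K) j)
        have h2 : 0 ≤ 2 / ((3 * K : ℕ) : ℝ) * Complex.normSq (Dr K (nd (3 * K) j)) := by
          have := Complex.normSq_nonneg (Dr K (nd (3 * K) j))
          positivity
        calc _ ≤ 2 / ((3 * K : ℕ) : ℝ) * Complex.normSq (Dr K (nd (3 * K) j)) * 1 :=
              mul_le_mul_of_nonneg_left h1 h2
          _ = _ := by ring
    _ = 2 * K := by
        rw [← Finset.mul_sum, sum_normSq K hK]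
        field_simp
    _ ≤ 2 * K := le_refl _

/-- the quadrature functional -/
noncomputable def Q (K : ℕ) (T : ℝ → ℂ) : ℂ :=
  ∑ j ∈ range (3 * K), (wt K j : ℂ) * T (nd (3 * K) j)

lemma Q_E (K : ℕ) (hK : 1 ≤ K) (m : ℤ) (hm : |m| ≤ K) : Q K (E m) = m * Complex.I := by
  have hpos : ((3 * K : ℕ) : ℂ) ≠ 0 := by
    exact_mod_cast (by omega : 3 * K ≠ 0)
  have hm' := abs_le.mp hm
  obtain ⟨s, hs⟩ : ∃ s : ℕ, (s : ℤ) = K - m := ⟨(K - m : ℤ).toNat, by omega⟩
  obtain ⟨t, ht⟩ : ∃ t : ℕ, (t : ℤ) = K + m := ⟨(K + m : ℤ).toNat, by omega⟩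
  have h1 : ∀ j ∈ range (3 * K), (wt K j : ℂ) * E m (nd (3 * K) j) =
      Complex.I / (3 * K : ℕ) * ∑ a ∈ range K, ∑ b ∈ range K,
        (E ((a : ℤ) - b - K + m) (nd (3 * K) j) - E ((a : ℤ) - b + K + m) (nd (3 * K) j)) := by
    intro j _
    set θ := nd (3 * K) j
    have h2 : ∀ a ∈ range K, ∀ b ∈ range K,
        E ((a : ℤ) - b - K + m) θ - E ((a : ℤ) - b + K + m) θ =
        E ((a : ℤ) - b) θ * ((E (-(K : ℤ)) θ - E K θ) * E m θ) := by
      intro a _ b _
      have e1 : E ((a : ℤ) - b - K + m) θ = E ((a : ℤ) - b) θ * (E (-(K : ℤ)) θ * E m θ) := by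
        rw [E_mul, E_mul]; congr 1; ring
      have e2 : E ((a : ℤ) - b + K + m) θ = E ((a : ℤ) - b) θ * (E (K : ℤ) θ * E m θ) := by
        rw [E_mul, E_mul]; congr 1; ring
      rw [e1, e2]
      ring
    have h3 : ∑ a ∈ range K, ∑ b ∈ range K,
        (E ((a : ℤ) - b - K + m) θ - E ((a : ℤ) - b + K + m) θ) =
        (∑ a ∈ range K, ∑ b ∈ range K, E ((a : ℤ) - b) θ) *
          ((E (-(K : ℤ)) θ - E K θ) * E m θ) := by
      rw [Finset.sum_mul]
      refine Finset.sum_congr rfl fun a ha => ?_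
      rw [Finset.sum_mul]
      exact Finset.sum_congr rfl fun b hb => h2 a ha b hb
    rw [h3, ← Dr_normSq]
    unfold wt
    rw [show nd (3 * K) j = θ from rfl, Complex.ofReal_mul, E_sin (K : ℤ) θ]
    push_cast
    field_simp
  unfold Q
  rw [Finset.sum_congr rfl h1, ← Finset.mul_sum]
  have h4 : ∑ j ∈ range (3 * K), ∑ a ∈ range K, ∑ b ∈ range K,
        (E ((a : ℤ) - b - K + m) (nd (3 * K) j) - E ((a : ℤ) - b + K + m) (nd (3 * K) j)) =
      ((3 * K : ℕ) : ℂ) * m := by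
    rw [Finset.sum_comm]
    have h5 : ∀ a ∈ range K, ∑ j ∈ range (3 * K), ∑ b ∈ range K,
        (E ((a : ℤ) - b - K + m) (nd (3 * K) j) - E ((a : ℤ) - b + K + m) (nd (3 * K) j)) =
        ∑ b ∈ range K, ((3 * K : ℕ) : ℂ) *
          (((if a = b + s then (1 : ℤ) else 0) - (if b = a + t then (1 : ℤ) else 0) : ℤ) : ℂ) := by
      intro a ha
      rw [Finset.sum_comm]
      refine Finset.sum_congr rfl fun b hb => ?_
      rw [mem_range] at ha hb
      rw [Finset.sum_sub_distrib,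
        sum_E (3 * K) (by omega) _ (by rw [abs_lt]; push_cast; omega),
        sum_E (3 * K) (by omega) _ (by rw [abs_lt]; push_cast; omega)]
      have c1 : ((a : ℤ) - b - K + m = 0) ↔ a = b + s := by omega
      have c2 : ((a : ℤ) - b + K + m = 0) ↔ b = a + t := by omega
      simp only [c1, c2]
      split_ifs <;> push_cast <;> ring
    rw [Finset.sum_congr rfl h5]
    have h6 : ∑ a ∈ range K, ∑ b ∈ range K, ((3 * K : ℕ) : ℂ) *
          (((if a = b + s then (1 : ℤ) else 0) - (if b = a + t then (1 : ℤ) else 0) : ℤ) : ℂ) =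
        ((3 * K : ℕ) : ℂ) * ((∑ a ∈ range K, ∑ b ∈ range K,
          ((if a = b + s then (1 : ℤ) else 0) - (if b = a + t then (1 : ℤ) else 0)) : ℤ) : ℂ) := by
      rw [Int.cast_sum, Finset.mul_sum]
      refine Finset.sum_congr rfl fun a _ => ?_
      rw [Int.cast_sum, Finset.mul_sum]
    rw [h6]
    congr 1
    have h7 : ∑ a ∈ range K, ∑ b ∈ range K,
          ((if a = b + s then (1 : ℤ) else 0) - (if b = a + t then (1 : ℤ) else 0)) =
        ((K - s : ℕ) : ℤ) - ((K - t : ℕ) : ℤ) := by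
      simp only [Finset.sum_sub_distrib]
      rw [count K t]
      congr 1
      rw [Finset.sum_comm]
      exact count K s
    rw [h7]
    have h8 : ((K - s : ℕ) : ℤ) - ((K - t : ℕ) : ℤ) = m := by omega
    rw [h8]
  rw [h4]
  field_simp

lemma Q_deriv (K : ℕ) (hK : 1 ≤ K) (T : ℝ → ℂ) (hT : T ∈ W K) : HasDerivAt T (Q K T) 0 := by
  refine Submodule.span_induction (p := fun T _ => HasDerivAt T (Q K T) 0) ?_ ?_ ?_ ?_ hT
  · rintro T ⟨m, hm, rfl⟩
    rw [Q_E K hK m hm]
    have h1 : HasDerivAt (fun θ : ℝ => (m : ℂ) * (θ : ℂ) * Complex.I) ((m : ℂ) * 1 * Complex.I) 0 :=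
      ((Complex.ofRealCLM.hasDerivAt (x := (0 : ℝ))).const_mul (m : ℂ)).mul_const Complex.I
    have h2 := h1.cexp
    have h3 : Complex.exp ((m : ℂ) * ((0 : ℝ) : ℂ) * Complex.I) * ((m : ℂ) * 1 * Complex.I) =
        m * Complex.I := by simp
    rw [h3] at h2
    exact h2
  · have h0 : Q K 0 = 0 := by simp [Q]
    rw [h0]
    exact hasDerivAt_const (0 : ℝ) (0 : ℂ)
  · intro S T _ _ hS hT
    have h0 : Q K (S + T) = Q K S + Q K T := by
      simp only [Q, Pi.add_apply, mul_add, Finset.sum_add_distrib]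
    rw [h0]
    exact hS.add hT
  · intro a T _ hT
    have h0 : Q K (a • T) = a * Q K T := by
      simp only [Q, Pi.smul_apply, smul_eq_mul, Finset.mul_sum]
      refine Finset.sum_congr rfl fun j _ => ?_
      ring
    rw [h0]
    exact hT.const_mul a

/-- **the quadrature formula** -/
theorem quad (K : ℕ) (hK : 1 ≤ K) : ∃ (M : ℕ) (ρ c : ℕ → ℝ), (∀ j, |ρ j| ≤ 1) ∧
    ∑ j ∈ range M, |c j| ≤ 2 * K ∧
    ∀ k, k ≤ K → ∑ j ∈ range M, c j * ρ j ^ k = if k = 1 then 1 else 0 := by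
  refine ⟨3 * K, fun j => Real.sin (nd (3 * K) j), wt K,
    fun j => Real.abs_sin_le_one _, sum_wt K hK, fun k hk => ?_⟩
  have h1 := Q_deriv K hK _ (W_mono k K hk (sin_pow_mem k))
  have h2 : HasDerivAt (fun θ : ℝ => (Real.sin θ : ℂ) ^ k)
      ((k : ℂ) * ((Real.sin 0 : ℝ) : ℂ) ^ (k - 1) * ((Real.cos 0 : ℝ) : ℂ)) 0 := by
    have h3 : HasDerivAt (fun θ : ℝ => ((Real.sin θ : ℝ) : ℂ)) ((Real.cos 0 : ℝ) : ℂ) 0 :=
      (Real.hasDerivAt_sin 0).ofReal_comp
    exact h3.pow k
  have h4 := h1.unique h2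
  have h5 : Q K (fun θ : ℝ => (Real.sin θ : ℂ) ^ k) =
      ((∑ j ∈ range (3 * K), wt K j * Real.sin (nd (3 * K) j) ^ k : ℝ) : ℂ) := by
    unfold Q
    push_cast
    rfl
  rw [h5] at h4
  have h6 : ((k : ℂ) * ((Real.sin 0 : ℝ) : ℂ) ^ (k - 1) * ((Real.cos 0 : ℝ) : ℂ)) =
      (((if k = 1 then 1 else 0 : ℝ)) : ℂ) := by
    rw [Real.sin_zero, Real.cos_zero]
    rcases k with _ | _ | k
    · simp
    · simp
    · simp
  rw [h6] at h4
  exact_mod_cast h4

end Pool.Agent.Work.MP_b10815_co_flt.KC
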