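import Pool.Agent.Work.MP_b10815_co_flt.Interface
import Pool.Agent.Work.MP_b10815_co_flt.KCQuad
set_option autoImplicit false

/-!
# MP_b10815_co_flt, block KC: K-convexity on the discrete cube

Auerbach basis, the noise operator on the cube, Bessel's inequality for the level `k` parts,
and the quadrature formula of `KCQuad`.
-/

namespace Pool.Agent.Work.MP_b10815_co_flt.KC

open Finset Matrix

/-! ### Auerbach basis -/

lemma auerbach (hN : Stmt_NRM) (n : ℕ) (N : Seminorm ℝ (Fin n → ℝ)) (h : IsNorm N) :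
    ∃ (b : Fin n → Fin n → ℝ) (c : Fin n → (Fin n → ℝ) →ₗ[ℝ] ℝ), (∀ i, N (b i) ≤ 1) ∧
      (∀ i x, |c i x| ≤ N x) ∧ ∀ x, x = ∑ i, c i x • b i := by
  obtain ⟨hcomp, -, -, hcont, -, -, -⟩ := (hN (Fin n)).2 N h
  have hS : IsCompact (Set.pi Set.univ (fun _ : Fin n => {x : Fin n → ℝ | N x ≤ 1})) :=
    isCompact_univ_pi (fun _ => hcomp)
  have hne : (Set.pi Set.univ (fun _ : Fin n => {x : Fin n → ℝ | N x ≤ 1})).Nonempty :=
    ⟨fun _ => 0, fun i _ => by simp⟩
  have hdc : Continuous (fun V : Fin n → Fin n → ℝ => |(Matrix.of V).det|) := by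
    refine continuous_abs.comp (Continuous.matrix_det ?_)
    exact continuous_id
  obtain ⟨V, hV, hmax⟩ := hS.exists_isMaxOn hne hdc.continuousOn
  have hV1 : ∀ i, N (V i) ≤ 1 := fun i => hV i (Set.mem_univ i)
  have hmax' : ∀ U : Fin n → Fin n → ℝ, (∀ i, N (U i) ≤ 1) →
      |(Matrix.of U).det| ≤ |(Matrix.of V).det| := fun U hU => hmax (fun i _ => hU i)
  -- the determinant is nonzero
  have hdet : (Matrix.of V).det ≠ 0 := by
    obtain ⟨B, hB⟩ : ∃ B : ℝ, ∀ i : Fin n, N (Pi.single i 1) ≤ B :=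
      ⟨∑ i : Fin n, N (Pi.single i 1), fun i =>
        Finset.single_le_sum (f := fun i : Fin n => N (Pi.single i (1 : ℝ)))
          (fun _ _ => apply_nonneg _ _) (mem_univ i)⟩
    set δ : ℝ := (|B| + 1)⁻¹ with hδ
    have hδ0 : 0 < δ := by positivity
    have h1 := hmax' (fun i => δ • Pi.single i (1 : ℝ)) (fun i => by
      rw [map_smul_eq_mul, Real.norm_of_nonneg hδ0.le]
      calc δ * N (Pi.single i 1) ≤ δ * (|B| + 1) := by
            refine mul_le_mul_of_nonneg_left ?_ hδ0.le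
            have := hB i
            have := le_abs_self B
            linarith
        _ = 1 := by rw [hδ]; field_simp)
    have h2 : Matrix.of (fun i : Fin n => δ • (Pi.single i (1 : ℝ) : Fin n → ℝ)) =
        δ • (1 : Matrix (Fin n) (Fin n) ℝ) := by
      ext i j
      simp only [Matrix.of_apply, Matrix.smul_apply, Pi.smul_apply, Matrix.one_apply,
        Pi.single_apply, smul_eq_mul]
      by_cases hij : i = j
      · subst hij; simp
      · rw [if_neg hij, if_neg (fun h => hij h.symm)]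
    rw [h2, Matrix.det_smul, Matrix.det_one, mul_one, Fintype.card_fin] at h1
    intro h0
    rw [h0, abs_zero] at h1
    have : 0 < |δ ^ n| := abs_pos.mpr (by positivity)
    linarith
  set D := (Matrix.of V).det with hD
  refine ⟨V, fun i => D⁻¹ • (LinearMap.proj i ∘ₗ Matrix.cramer (Matrix.of V)ᵀ), hV1, ?_, ?_⟩
  · intro i x
    have key : ∀ y : Fin n → ℝ, N y ≤ 1 → |D⁻¹ * Matrix.cramer (Matrix.of V)ᵀ y i| ≤ 1 := by
      intro y hy
      rw [Matrix.cramer_transpose_apply]
      have h1 := hmax' (Function.update V i y) (fun j => by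
        by_cases hj : j = i
        · subst hj; simpa using hy
        · simpa [Function.update_of_ne hj] using hV1 j)
      have h2 : Matrix.of (Function.update V i y) = (Matrix.of V).updateRow i y := by
        ext a b
        by_cases hj : a = i
        · subst hj; simp
        · simp [Function.update_of_ne hj, Matrix.updateRow_ne hj]
      rw [h2] at h1
      rw [abs_mul, abs_inv, inv_mul_le_iff₀ (abs_pos.mpr hdet), mul_one]
      exact h1
    have hval : (D⁻¹ • (LinearMap.proj i ∘ₗ Matrix.cramer (Matrix.of V)ᵀ)) x =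
        D⁻¹ * Matrix.cramer (Matrix.of V)ᵀ x i := rfl
    rw [hval]
    by_cases hx : N x = 0
    · have := h x hx
      subst this
      simp
    · have hpos : 0 < N x := lt_of_le_of_ne (apply_nonneg N x) (Ne.symm hx)
      have h3 := key ((N x)⁻¹ • x) (by
        rw [map_smul_eq_mul, Real.norm_of_nonneg (by positivity)]
        exact (inv_mul_cancel₀ hx).le)
      rw [map_smul, Pi.smul_apply, smul_eq_mul] at h3
      have h4 : D⁻¹ * ((N x)⁻¹ * Matrix.cramer (Matrix.of V)ᵀ x i) =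
          (N x)⁻¹ * (D⁻¹ * Matrix.cramer (Matrix.of V)ᵀ x i) := by ring
      rw [h4, abs_mul, abs_of_pos (inv_pos.mpr hpos), inv_mul_le_iff₀ hpos, mul_one] at h3
      exact h3
  · intro x
    have h1 := Matrix.mulVec_cramer (Matrix.of V)ᵀ x
    rw [Matrix.det_transpose] at h1
    ext j
    have h2 := congrFun h1 j
    simp only [Matrix.mulVec, dotProduct, Matrix.transpose_apply, Matrix.of_apply,
      Pi.smul_apply, smul_eq_mul] at h2
    simp only [Finset.sum_apply, Pi.smul_apply, smul_eq_mul]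
    have hval : ∀ i, (D⁻¹ • (LinearMap.proj i ∘ₗ Matrix.cramer (Matrix.of V)ᵀ)) x =
        D⁻¹ * Matrix.cramer (Matrix.of V)ᵀ x i := fun i => rfl
    simp only [hval]
    have h3 : ∑ i, D⁻¹ * Matrix.cramer (Matrix.of V)ᵀ x i * V i j =
        D⁻¹ * ∑ i, V i j * Matrix.cramer (Matrix.of V)ᵀ x i := by
      rw [Finset.mul_sum]
      refine Finset.sum_congr rfl fun i _ => ?_
      ring
    rw [h3, h2, ← hD]
    field_simp

/-! ### Walsh analysis on the cube -/

section Cube

variable {n : ℕ}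

/-- the Walsh function -/
def w (S : Finset (Fin n)) (e : Fin n → Bool) : ℝ := ∏ i ∈ S, sv e i

lemma sum_prod (F : Fin n → Bool → ℝ) :
    ∑ e : Fin n → Bool, ∏ i, F i (e i) = ∏ i, (F i true + F i false) := by
  have h := Finset.prod_univ_sum (fun _ : Fin n => (Finset.univ : Finset Bool)) F
  rw [Fintype.piFinset_univ] at h
  rw [← h]
  refine Finset.prod_congr rfl fun i _ => ?_
  rw [Fintype.sum_bool]

lemma sgn_sq (b : Bool) : sgn b * sgn b = 1 := by cases b <;> simp [sgn]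

lemma w_orth (S T : Finset (Fin n)) : ∑ e, w S e * w T e = if S = T then (2 : ℝ) ^ n else 0 := by
  have h : ∀ e : Fin n → Bool, w S e * w T e =
      ∏ i, ((if i ∈ S then sgn (e i) else 1) * (if i ∈ T then sgn (e i) else 1)) := by
    intro e
    rw [Finset.prod_mul_distrib]
    congr 1
    · unfold w sv
      rw [Finset.prod_ite_mem, Finset.univ_inter]
    · unfold w sv
      rw [Finset.prod_ite_mem, Finset.univ_inter]
  simp only [h]
  rw [sum_prod (fun i b => (if i ∈ S then sgn b else 1) * (if i ∈ T then sgn b else 1))]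
  split_ifs with hST
  · subst hST
    have : ∀ i : Fin n, ((if i ∈ S then sgn true else 1) * (if i ∈ S then sgn true else 1) +
        (if i ∈ S then sgn false else 1) * (if i ∈ S then sgn false else 1)) = (2 : ℝ) := by
      intro i
      by_cases hi : i ∈ S
      · simp only [if_pos hi, sgn_sq]; norm_num
      · simp only [if_neg hi]; norm_num
    simp only [this, Finset.prod_const, card_univ, Fintype.card_fin]
  · have : ∃ i, ¬ (i ∈ S ↔ i ∈ T) := by
      by_contra hcon
      push Not at hcon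
      exact hST (Finset.ext hcon)
    obtain ⟨i, hi⟩ := this
    apply Finset.prod_eq_zero (mem_univ i)
    by_cases h1 : i ∈ S <;> by_cases h2 : i ∈ T
    · exact absurd (by simp [h1, h2]) hi
    · simp [h1, h2, sgn]
    · simp [h1, h2, sgn]
    · exact absurd (by simp [h1, h2]) hi

/-- kernel of the projection to level `k` -/
def pk (k : ℕ) (x y : Fin n → Bool) : ℝ := ∑ S ∈ powersetCard k univ, w S x * w S y

lemma pk_symm (k : ℕ) (x y : Fin n → Bool) : pk k x y = pk k y x := by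
  unfold pk
  exact Finset.sum_congr rfl fun S _ => mul_comm _ _

lemma pk_repr (k : ℕ) (y z : Fin n → Bool) :
    ∑ x, pk k x y * pk k x z = 2 ^ n * pk k y z := by
  unfold pk
  have h : ∀ x : Fin n → Bool, (∑ S ∈ powersetCard k univ, w S x * w S y) *
      (∑ S ∈ powersetCard k univ, w S x * w S z) =
      ∑ S ∈ powersetCard k univ, ∑ T ∈ powersetCard k univ,
        (w S y * w T z) * (w S x * w T x) := by
    intro x
    rw [Finset.sum_mul_sum]
    refine Finset.sum_congr rfl fun S _ => Finset.sum_congr rfl fun T _ => ?_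
    ring
  simp only [h]
  rw [Finset.sum_comm, Finset.mul_sum]
  refine Finset.sum_congr rfl fun S hS => ?_
  rw [Finset.sum_comm]
  have h2 : ∀ T ∈ powersetCard k (univ : Finset (Fin n)),
      ∑ x : Fin n → Bool, (w S y * w T z) * (w S x * w T x) =
      if S = T then 2 ^ n * (w S y * w T z) else 0 := by
    intro T _
    rw [← Finset.mul_sum, w_orth]
    split_ifs <;> ring
  rw [Finset.sum_congr rfl h2, Finset.sum_ite_eq, if_pos hS]

/-- the kernel of the noise operator -/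
def tk (ρ : ℝ) (x y : Fin n → Bool) : ℝ := ∏ i, (1 + ρ * (sv x i * sv y i))

lemma tk_expand (ρ : ℝ) (x y : Fin n → Bool) :
    tk ρ x y = ∑ k ∈ range (n + 1), ρ ^ k * pk k x y := by
  unfold tk pk
  have h1 : ∏ i : Fin n, (1 + ρ * (sv x i * sv y i)) =
      ∑ S ∈ (univ : Finset (Fin n)).powerset, ρ ^ S.card * (w S x * w S y) := by
    rw [Finset.prod_one_add]
    refine Finset.sum_congr rfl fun S _ => ?_
    unfold w
    rw [Finset.prod_mul_distrib, Finset.prod_const, Finset.prod_mul_distrib]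
  rw [h1, Finset.sum_powerset, Finset.card_univ, Fintype.card_fin]
  refine Finset.sum_congr rfl fun k _ => ?_
  rw [Finset.mul_sum]
  refine Finset.sum_congr rfl fun S hS => ?_
  rw [(mem_powersetCard.mp hS).2]

lemma tk_nonneg (ρ : ℝ) (hρ : |ρ| ≤ 1) (x y : Fin n → Bool) : 0 ≤ tk ρ x y := by
  unfold tk
  refine Finset.prod_nonneg fun i _ => ?_
  have h := abs_le.mp hρ
  unfold sv sgn
  split_ifs <;> linarith

lemma tk_sum (ρ : ℝ) (x : Fin n → Bool) : ∑ y, tk ρ x y = 2 ^ n := by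
  unfold tk
  have h := sum_prod (fun (i : Fin n) (b : Bool) => 1 + ρ * (sv x i * sgn b))
  have h2 : ∀ y : Fin n → Bool, ∏ i, (1 + ρ * (sv x i * sv y i)) =
      ∏ i, (1 + ρ * (sv x i * sgn (y i))) := fun y => rfl
  simp only [h2]
  rw [h]
  have h3 : ∀ i : Fin n, (1 + ρ * (sv x i * sgn true)) + (1 + ρ * (sv x i * sgn false)) = (2 : ℝ) := by
    intro i
    simp only [sgn]
    norm_num
    ring
  simp only [h3, Finset.prod_const, card_univ, Fintype.card_fin]

/-- Bessel: the level `k` part of a function bounded by one has mean square at most one -/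
lemma bessel (k : ℕ) (g : (Fin n → Bool) → ℝ) (hg : ∀ y, |g y| ≤ 1) :
    ∑ x, (∑ y, pk k x y / 2 ^ n * g y) ^ 2 ≤ 2 ^ n := by
  have hp : (0 : ℝ) < 2 ^ n := by positivity
  set P : (Fin n → Bool) → ℝ := fun x => ∑ y, pk k x y / 2 ^ n * g y with hP
  have h1 : ∑ x, P x ^ 2 = ∑ x, g x * P x := by
    have h2 : ∀ x, P x ^ 2 = ∑ y, ∑ z, (pk k x y * pk k x z) * (g y * g z) / (2 ^ n * 2 ^ n) := by
      intro x
      rw [hP, sq]
      simp only
      rw [Finset.sum_mul_sum]
      refine Finset.sum_congr rfl fun y _ => Finset.sum_congr rfl fun z _ => ?_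
      field_simp
    simp only [h2]
    rw [Finset.sum_comm]
    refine Finset.sum_congr rfl fun y _ => ?_
    rw [Finset.sum_comm, hP]
    simp only
    rw [Finset.mul_sum]
    refine Finset.sum_congr rfl fun z _ => ?_
    rw [← Finset.sum_div, ← Finset.sum_mul, pk_repr]
    field_simp
  have h3 : ∑ x, P x ^ 2 ≤ ∑ x, (g x ^ 2 + P x ^ 2) / 2 := by
    rw [h1]
    refine Finset.sum_le_sum fun x _ => ?_
    nlinarith [sq_nonneg (g x - P x)]
  have h4 : ∑ x, (g x ^ 2 + P x ^ 2) / 2 ≤ ∑ x : Fin n → Bool, (1 + P x ^ 2) / 2 := by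
    refine Finset.sum_le_sum fun x _ => ?_
    have := (sq_le_one_iff_abs_le_one (g x)).mpr (hg x)
    linarith
  have h5 : ∑ x : Fin n → Bool, (1 + P x ^ 2) / 2 = (2 ^ n + ∑ x, P x ^ 2) / 2 := by
    rw [← Finset.sum_div, Finset.sum_add_distrib]
    simp
  rw [h5] at h4
  linarith

end Cube

/-! ### application of a scalar kernel to a vector valued function -/

section Ap

variable {n : ℕ}

/-- `∑ a y • f y` -/
def ap (f : (Fin n → Bool) → Fin n → ℝ) (a : (Fin n → Bool) → ℝ) : Fin n → ℝ := ∑ y, a y • f y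

lemma ap_add (f : (Fin n → Bool) → Fin n → ℝ) (a b : (Fin n → Bool) → ℝ) :
    ap f (fun y => a y + b y) = ap f a + ap f b := by
  unfold ap
  rw [← Finset.sum_add_distrib]
  exact Finset.sum_congr rfl fun y _ => add_smul _ _ _

lemma ap_smul (f : (Fin n → Bool) → Fin n → ℝ) (r : ℝ) (a : (Fin n → Bool) → ℝ) :
    ap f (fun y => r * a y) = r • ap f a := by
  unfold ap
  rw [Finset.smul_sum]
  exact Finset.sum_congr rfl fun y _ => mul_smul _ _ _

lemma ap_sum {ι : Type*} (s : Finset ι) (f : (Fin n → Bool) → Fin n → ℝ)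
    (a : ι → (Fin n → Bool) → ℝ) :
    ap f (fun y => ∑ j ∈ s, a j y) = ∑ j ∈ s, ap f (a j) := by
  unfold ap
  rw [Finset.sum_comm]
  exact Finset.sum_congr rfl fun y _ => Finset.sum_smul

lemma N_sum_le {ι : Type*} (N : Seminorm ℝ (Fin n → ℝ)) (s : Finset ι) (v : ι → Fin n → ℝ) :
    N (∑ j ∈ s, v j) ≤ ∑ j ∈ s, N (v j) :=
  Finset.le_sum_of_subadditive N (map_zero N).le (map_add_le_add N) s v

lemma N_smul (N : Seminorm ℝ (Fin n → ℝ)) (r : ℝ) (v : Fin n → ℝ) : N (r • v) = |r| * N v := by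
  rw [map_smul_eq_mul, Real.norm_eq_abs]

lemma N_ap_tk (N : Seminorm ℝ (Fin n → ℝ)) (f : (Fin n → Bool) → Fin n → ℝ)
    (hf : ∀ e, N (f e) ≤ 1) (ρ : ℝ) (hρ : |ρ| ≤ 1) (x : Fin n → Bool) :
    N (ap f (fun y => tk ρ x y / 2 ^ n)) ≤ 1 := by
  have hp : (0 : ℝ) < 2 ^ n := by positivity
  unfold ap
  refine (N_sum_le N _ _).trans ?_
  calc ∑ y, N ((tk ρ x y / 2 ^ n) • f y) ≤ ∑ y, tk ρ x y / 2 ^ n := by
        refine Finset.sum_le_sum fun y _ => ?_
        rw [N_smul, abs_of_nonneg (div_nonneg (tk_nonneg ρ hρ x y) hp.le)]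
        calc _ ≤ tk ρ x y / 2 ^ n * 1 :=
              mul_le_mul_of_nonneg_left (hf y) (div_nonneg (tk_nonneg ρ hρ x y) hp.le)
          _ = _ := mul_one _
    _ = 1 := by
        rw [← Finset.sum_div, tk_sum]
        exact div_self hp.ne'

/-- the level `k` part has mean square norm at most `n²` -/
lemma level_bound (hN : Stmt_NRM) (N : Seminorm ℝ (Fin n → ℝ)) (h : IsNorm N)
    (f : (Fin n → Bool) → Fin n → ℝ) (hf : ∀ e, N (f e) ≤ 1) (k : ℕ) :
    ∑ x, N (ap f (fun y => pk k x y / 2 ^ n)) ^ 2 ≤ (n : ℝ) ^ 2 * 2 ^ n := by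
  obtain ⟨b, c, hb, hc, hrep⟩ := auerbach hN n N h
  have h1 : ∀ x : Fin n → Bool, N (ap f (fun y => pk k x y / 2 ^ n)) ≤
      ∑ i, |∑ y, pk k x y / 2 ^ n * c i (f y)| := by
    intro x
    rw [hrep (ap f (fun y => pk k x y / 2 ^ n))]
    refine (N_sum_le N _ _).trans ?_
    refine Finset.sum_le_sum fun i _ => ?_
    rw [N_smul]
    have h2 : c i (ap f (fun y => pk k x y / 2 ^ n)) = ∑ y, pk k x y / 2 ^ n * c i (f y) := by
      unfold ap
      rw [map_sum]
      refine Finset.sum_congr rfl fun y _ => ?_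
      rw [map_smul, smul_eq_mul]
    rw [h2]
    calc _ ≤ |∑ y, pk k x y / 2 ^ n * c i (f y)| * 1 :=
          mul_le_mul_of_nonneg_left (hb i) (abs_nonneg _)
      _ = _ := mul_one _
  calc ∑ x, N (ap f (fun y => pk k x y / 2 ^ n)) ^ 2
      ≤ ∑ x, (n : ℝ) * ∑ i, (∑ y, pk k x y / 2 ^ n * c i (f y)) ^ 2 := by
        refine Finset.sum_le_sum fun x _ => ?_
        have h3 : N (ap f (fun y => pk k x y / 2 ^ n)) ^ 2 ≤
            (∑ i, |∑ y, pk k x y / 2 ^ n * c i (f y)|) ^ 2 :=
          pow_le_pow_left₀ (apply_nonneg _ _) (h1 x) 2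
        refine h3.trans ?_
        have h4 := sq_sum_le_card_mul_sum_sq (s := (univ : Finset (Fin n)))
          (f := fun i => |∑ y, pk k x y / 2 ^ n * c i (f y)|)
        rw [card_univ, Fintype.card_fin] at h4
        simpa only [sq_abs] using h4
    _ = (n : ℝ) * ∑ i, ∑ x, (∑ y, pk k x y / 2 ^ n * c i (f y)) ^ 2 := by
        rw [← Finset.mul_sum, Finset.sum_comm]
    _ ≤ (n : ℝ) * ∑ i : Fin n, (2 : ℝ) ^ n := by
        refine mul_le_mul_of_nonneg_left (Finset.sum_le_sum fun i _ => ?_) (Nat.cast_nonneg n)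
        exact bessel k (fun y => c i (f y)) (fun y => (hc i (f y)).trans (hf y))
    _ = (n : ℝ) ^ 2 * 2 ^ n := by
        rw [Finset.sum_const, card_univ, Fintype.card_fin, nsmul_eq_mul]
        ring

/-- level one part = `fc f *ᵥ sv x` -/
lemma level_one (f : (Fin n → Bool) → Fin n → ℝ) (x : Fin n → Bool) :
    ap f (fun y => pk 1 x y / 2 ^ n) = fc f *ᵥ sv x := by
  ext j
  have hpk : ∀ y : Fin n → Bool, pk 1 x y = ∑ i, sv x i * sv y i := by
    intro y
    unfold pk w
    rw [Finset.powersetCard_one, Finset.sum_map]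
    refine Finset.sum_congr rfl fun i _ => ?_
    simp
  unfold ap fc avg
  simp only [Finset.sum_apply, Pi.smul_apply, smul_eq_mul, Matrix.mulVec, dotProduct,
    Fintype.card_fin, hpk]
  simp only [Finset.sum_div, Finset.sum_mul]
  rw [Finset.sum_comm]
  refine Finset.sum_congr rfl fun i _ => Finset.sum_congr rfl fun y _ => ?_
  ring

/-- weighted Cauchy-Schwarz for the tail -/
lemma tail_sq (s : Finset ℕ) (u : ℕ → ℝ) :
    (∑ k ∈ s, (1 / 2 : ℝ) ^ k * u k) ^ 2 ≤
      (∑ k ∈ s, (1 / 2 : ℝ) ^ k) * ∑ k ∈ s, (1 / 2 : ℝ) ^ k * u k ^ 2 := by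
  refine Finset.sum_sq_le_sum_mul_sum_of_sq_le_mul s (fun k _ => by positivity)
    (fun k _ => by positivity) (fun k _ => le_of_eq (by ring))

lemma geom_tail (K n : ℕ) : ∑ k ∈ Ioc K n, (1 / 2 : ℝ) ^ k ≤ (1 / 2) ^ K := by
  by_cases h : K ≤ n
  · obtain ⟨d, rfl⟩ := Nat.exists_eq_add_of_le h
    clear h
    have key : ∀ d : ℕ, ∑ k ∈ Ioc K (K + d), (1 / 2 : ℝ) ^ k = (1 / 2) ^ K - (1 / 2) ^ (K + d) := by
      intro d
      induction d with
      | zero => simp
      | succ d ih =>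
        rw [← Nat.add_assoc, Finset.sum_Ioc_succ_top (by omega : K ≤ K + d), ih]
        ring
    rw [key]
    have : (0 : ℝ) ≤ (1 / 2) ^ (K + d) := by positivity
    linarith
  · rw [Finset.Ioc_eq_empty (by omega)]
    simp

/-- the decomposition of the level one kernel -/
lemma kernel_id (K M : ℕ) (hK : 1 ≤ K) (hn : 1 ≤ n) (ρ c : ℕ → ℝ)
    (hq : ∀ k, k ≤ K → ∑ j ∈ range M, c j * ρ j ^ k = if k = 1 then 1 else 0)
    (x y : Fin n → Bool) :
    pk 1 x y / 2 ^ n = (∑ j ∈ range M, (2 * c j) * (tk (ρ j / 2) x y / 2 ^ n)) +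
      ∑ k ∈ Ioc K n, (-(2 * (∑ j ∈ range M, c j * ρ j ^ k) * (1 / 2) ^ k)) *
        (pk k x y / 2 ^ n) := by
  have h1 : ∑ j ∈ range M, (2 * c j) * (tk (ρ j / 2) x y / 2 ^ n) =
      ∑ k ∈ range (n + 1), (2 * (∑ j ∈ range M, c j * ρ j ^ k) * (1 / 2) ^ k) *
        (pk k x y / 2 ^ n) := by
    have h2 : ∀ j ∈ range M, (2 * c j) * (tk (ρ j / 2) x y / 2 ^ n) =
        ∑ k ∈ range (n + 1), (2 * (c j * ρ j ^ k) * (1 / 2) ^ k) * (pk k x y / 2 ^ n) := by
      intro j _
      rw [tk_expand, Finset.sum_div, Finset.mul_sum]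
      refine Finset.sum_congr rfl fun k _ => ?_
      rw [div_pow, div_pow, one_pow]
      ring
    rw [Finset.sum_congr rfl h2, Finset.sum_comm]
    refine Finset.sum_congr rfl fun k _ => ?_
    rw [← Finset.sum_mul, ← Finset.sum_mul, ← Finset.mul_sum]
  rw [h1, ← Finset.sum_filter_add_sum_filter_not (range (n + 1)) (fun k => k ≤ K)]
  have h3 : (range (n + 1)).filter (fun k => ¬ k ≤ K) = Ioc K n := by
    ext k
    simp only [mem_filter, mem_range, mem_Ioc]
    omega
  rw [h3]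
  have h4 : ∑ k ∈ (range (n + 1)).filter (fun k => k ≤ K),
      (2 * (∑ j ∈ range M, c j * ρ j ^ k) * (1 / 2) ^ k) * (pk k x y / 2 ^ n) =
      ∑ k ∈ (range (n + 1)).filter (fun k => k ≤ K), if k = 1 then pk 1 x y / 2 ^ n else 0 := by
    refine Finset.sum_congr rfl fun k hk => ?_
    rw [hq k (mem_filter.mp hk).2]
    by_cases hk1 : k = 1
    · subst hk1
      rw [if_pos rfl, if_pos rfl]
      ring
    · rw [if_neg hk1, if_neg hk1]
      ring
  rw [h4, Finset.sum_ite_eq', if_pos (by simp only [mem_filter, mem_range]; omega), add_assoc,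
    ← Finset.sum_add_distrib]
  have h5 : ∑ k ∈ Ioc K n, ((2 * (∑ j ∈ range M, c j * ρ j ^ k) * (1 / 2) ^ k) *
        (pk k x y / 2 ^ n) + (-(2 * (∑ j ∈ range M, c j * ρ j ^ k) * (1 / 2) ^ k)) *
        (pk k x y / 2 ^ n)) = 0 := by
    refine Finset.sum_eq_zero fun k _ => ?_
    ring
  rw [h5, add_zero]

end Ap

/-- **K-convexity with logarithmic constant** -/
theorem stmt_KC (hN : Stmt_NRM) : Stmt_KC := by
  have hlog2 : 0 < Real.log 2 := Real.log_pos (by norm_num)
  refine ⟨16 / Real.log 2, by positivity, fun n hn N h f hf => ?_⟩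
  set K := Nat.log 2 n + 1 with hK
  have hK1 : 1 ≤ K := by omega
  have hnK : n ≤ 2 ^ K := (Nat.lt_pow_succ_log_self (by norm_num) n).le
  obtain ⟨M, ρ, c, hρ, hc, hq⟩ := quad K hK1
  have hKpos : (0 : ℝ) < K := by exact_mod_cast hK1
  -- the moments are bounded
  have hmu : ∀ k, |∑ j ∈ range M, c j * ρ j ^ k| ≤ 2 * K := by
    intro k
    refine (Finset.abs_sum_le_sum_abs _ _).trans (le_trans ?_ hc)
    refine Finset.sum_le_sum fun j _ => ?_
    rw [abs_mul, abs_pow]
    calc _ ≤ |c j| * 1 :=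
          mul_le_mul_of_nonneg_left (pow_le_one₀ (abs_nonneg _) (hρ j)) (abs_nonneg _)
      _ = _ := mul_one _
  set P : ℕ → (Fin n → Bool) → Fin n → ℝ := fun k x => ap f (fun y => pk k x y / 2 ^ n) with hP
  set A : (Fin n → Bool) → ℝ := fun x => ∑ k ∈ Ioc K n, (1 / 2 : ℝ) ^ k * N (P k x) with hA
  have hA0 : ∀ x, 0 ≤ A x := fun x =>
    Finset.sum_nonneg fun k _ => mul_nonneg (by positivity) (apply_nonneg _ _)
  -- pointwise bound
  have hpt : ∀ x, N (P 1 x) ≤ 4 * K * (1 + A x) := by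
    intro x
    have h1 : P 1 x = (∑ j ∈ range M, (2 * c j) • ap f (fun y => tk (ρ j / 2) x y / 2 ^ n)) +
        ∑ k ∈ Ioc K n, (-(2 * (∑ j ∈ range M, c j * ρ j ^ k) * (1 / 2) ^ k)) • P k x := by
      rw [hP]
      simp only
      have h2 : (fun y => pk 1 x y / 2 ^ n) = (fun y =>
          (∑ j ∈ range M, (2 * c j) * (tk (ρ j / 2) x y / 2 ^ n)) +
          ∑ k ∈ Ioc K n, (-(2 * (∑ j ∈ range M, c j * ρ j ^ k) * (1 / 2) ^ k)) *
            (pk k x y / 2 ^ n)) := by
        funext y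
        exact kernel_id K M hK1 hn ρ c hq x y
      rw [h2, ap_add f (fun y => ∑ j ∈ range M, (2 * c j) * (tk (ρ j / 2) x y / 2 ^ n))
        (fun y => ∑ k ∈ Ioc K n, (-(2 * (∑ j ∈ range M, c j * ρ j ^ k) * (1 / 2) ^ k)) *
            (pk k x y / 2 ^ n)),
        ap_sum (range M) f (fun j y => (2 * c j) * (tk (ρ j / 2) x y / 2 ^ n)),
        ap_sum (Ioc K n) f (fun k y => (-(2 * (∑ j ∈ range M, c j * ρ j ^ k) * (1 / 2) ^ k)) *
            (pk k x y / 2 ^ n))]
      congr 1
      · exact Finset.sum_congr rfl fun j _ => ap_smul f _ _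
      · exact Finset.sum_congr rfl fun k _ => ap_smul f _ _
    have h3 : N (∑ j ∈ range M, (2 * c j) • ap f (fun y => tk (ρ j / 2) x y / 2 ^ n)) ≤ 4 * K := by
      refine (N_sum_le N _ _).trans ?_
      calc _ ≤ ∑ j ∈ range M, 2 * |c j| := by
            refine Finset.sum_le_sum fun j _ => ?_
            rw [N_smul, abs_mul, abs_two]
            have h4 : |ρ j / 2| ≤ 1 := by
              rw [abs_div, abs_two]
              have := hρ j
              linarith
            calc _ ≤ 2 * |c j| * 1 := mul_le_mul_of_nonneg_left (N_ap_tk N f hf _ h4 x)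
                  (by positivity)
              _ = _ := mul_one _
        _ = 2 * ∑ j ∈ range M, |c j| := by rw [Finset.mul_sum]
        _ ≤ 4 * K := by linarith
    have h5 : N (∑ k ∈ Ioc K n, (-(2 * (∑ j ∈ range M, c j * ρ j ^ k) * (1 / 2) ^ k)) • P k x) ≤
        4 * K * A x := by
      refine (N_sum_le N _ _).trans ?_
      rw [hA]
      simp only
      rw [Finset.mul_sum]
      refine Finset.sum_le_sum fun k _ => ?_
      rw [N_smul, abs_neg, abs_mul, abs_mul, abs_two, abs_of_nonneg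
        (by positivity : (0 : ℝ) ≤ (1 / 2) ^ k)]
      have h6 : 2 * |∑ j ∈ range M, c j * ρ j ^ k| ≤ 4 * K := by
        have := hmu k
        linarith
      have h7 : 0 ≤ (1 / 2 : ℝ) ^ k * N (P k x) := mul_nonneg (by positivity) (apply_nonneg _ _)
      calc 2 * |∑ j ∈ range M, c j * ρ j ^ k| * (1 / 2) ^ k * N (P k x)
          = 2 * |∑ j ∈ range M, c j * ρ j ^ k| * ((1 / 2) ^ k * N (P k x)) := by ring
        _ ≤ 4 * K * ((1 / 2) ^ k * N (P k x)) := mul_le_mul_of_nonneg_right h6 h7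
    rw [h1]
    refine (map_add_le_add N _ _).trans ?_
    linarith
  -- mean square of the tail
  have hA2 : ∑ x, A x ^ 2 ≤ 2 ^ n := by
    calc ∑ x, A x ^ 2 ≤ ∑ x, (∑ k ∈ Ioc K n, (1 / 2 : ℝ) ^ k) *
          ∑ k ∈ Ioc K n, (1 / 2 : ℝ) ^ k * N (P k x) ^ 2 :=
          Finset.sum_le_sum fun x _ => tail_sq _ _
      _ = (∑ k ∈ Ioc K n, (1 / 2 : ℝ) ^ k) *
          ∑ k ∈ Ioc K n, (1 / 2 : ℝ) ^ k * ∑ x, N (P k x) ^ 2 := by
          rw [← Finset.mul_sum, Finset.sum_comm]
          congr 1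
          refine Finset.sum_congr rfl fun k _ => ?_
          rw [Finset.mul_sum]
      _ ≤ (∑ k ∈ Ioc K n, (1 / 2 : ℝ) ^ k) *
          ∑ k ∈ Ioc K n, (1 / 2 : ℝ) ^ k * ((n : ℝ) ^ 2 * 2 ^ n) := by
          refine mul_le_mul_of_nonneg_left (Finset.sum_le_sum fun k _ => ?_)
            (Finset.sum_nonneg fun k _ => by positivity)
          exact mul_le_mul_of_nonneg_left (level_bound hN N h f hf k) (by positivity)
      _ = (∑ k ∈ Ioc K n, (1 / 2 : ℝ) ^ k) ^ 2 * ((n : ℝ) ^ 2 * 2 ^ n) := by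
          rw [← Finset.sum_mul]
          ring
      _ ≤ ((1 / 2 : ℝ) ^ K) ^ 2 * ((n : ℝ) ^ 2 * 2 ^ n) := by
          refine mul_le_mul_of_nonneg_right (pow_le_pow_left₀
            (Finset.sum_nonneg fun k _ => by positivity) (geom_tail K n) 2) (by positivity)
      _ = ((1 / 2 : ℝ) ^ K * n) ^ 2 * 2 ^ n := by ring
      _ ≤ 1 ^ 2 * 2 ^ n := by
          refine mul_le_mul_of_nonneg_right (pow_le_pow_left₀ (by positivity) ?_ 2)
            (by positivity)
          have h1 : (n : ℝ) ≤ 2 ^ K := by exact_mod_cast hnK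
          calc (1 / 2 : ℝ) ^ K * n ≤ (1 / 2 : ℝ) ^ K * 2 ^ K :=
                mul_le_mul_of_nonneg_left h1 (by positivity)
            _ = 1 := by rw [← mul_pow]; norm_num
      _ = 2 ^ n := by ring
  -- conclusion
  have hmain : ∑ x, N (P 1 x) ^ 2 ≤ (8 * K) ^ 2 * 2 ^ n := by
    calc ∑ x, N (P 1 x) ^ 2 ≤ ∑ x, (32 * (K : ℝ) ^ 2) * (1 + A x ^ 2) := by
          refine Finset.sum_le_sum fun x _ => ?_
          have h1 : N (P 1 x) ^ 2 ≤ (4 * K * (1 + A x)) ^ 2 :=
            pow_le_pow_left₀ (apply_nonneg _ _) (hpt x) 2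
          refine h1.trans ?_
          have h2 : (1 + A x) ^ 2 ≤ 2 * (1 + A x ^ 2) := by
            nlinarith [sq_nonneg (1 - A x)]
          calc (4 * (K : ℝ) * (1 + A x)) ^ 2 = 16 * (K : ℝ) ^ 2 * (1 + A x) ^ 2 := by ring
            _ ≤ 16 * (K : ℝ) ^ 2 * (2 * (1 + A x ^ 2)) :=
                mul_le_mul_of_nonneg_left h2 (by positivity)
            _ = _ := by ring
      _ = (32 * (K : ℝ) ^ 2) * (2 ^ n + ∑ x, A x ^ 2) := by
          rw [← Finset.mul_sum, Finset.sum_add_distrib]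
          simp
      _ ≤ (32 * (K : ℝ) ^ 2) * (2 ^ n + 2 ^ n) :=
          mul_le_mul_of_nonneg_left (by linarith) (by positivity)
      _ = (8 * K) ^ 2 * 2 ^ n := by ring
  have hKlog : (8 * (K : ℝ)) ≤ 16 / Real.log 2 * Real.log (n + 1) := by
    have h1 : (Nat.log 2 n : ℝ) ≤ Real.log n / Real.log 2 := by
      have := Real.natLog_le_logb n 2
      simpa [Real.logb] using this
    have hnpos : (0 : ℝ) < n := by exact_mod_cast hn
    have h2 : Real.log n ≤ Real.log (n + 1) := Real.log_le_log hnpos (by linarith)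
    have h3 : Real.log 2 ≤ Real.log (n + 1) := by
      refine Real.log_le_log (by norm_num) ?_
      have : (1 : ℝ) ≤ n := by exact_mod_cast hn
      linarith
    have h4 : (K : ℝ) = Nat.log 2 n + 1 := by rw [hK]; push_cast; ring
    rw [h4, div_mul_eq_mul_div, le_div_iff₀ hlog2]
    rw [le_div_iff₀ hlog2] at h1
    nlinarith
  have hfin : avg (fun e => N (fc f *ᵥ sv e) ^ 2) ≤ (8 * K) ^ 2 := by
    unfold avg
    rw [Fintype.card_fin, div_le_iff₀ (by positivity)]
    refine le_trans (le_of_eq ?_) hmain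
    refine Finset.sum_congr rfl fun x _ => ?_
    rw [hP]
    simp only
    rw [level_one]
  refine hfin.trans ?_
  exact pow_le_pow_left₀ (by positivity) hKlog 2

end Pool.Agent.Work.MP_b10815_co_flt.KC
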