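import Pool.Agent.Work.MP_b10815_co_flt.Interface
set_option autoImplicit false

/-!
# Block NRM: symmetric convex bodies are unit balls of norms; dual norms are norms
-/

namespace Pool.Agent.Work.MP_b10815_co_flt

open MeasureTheory Matrix Topology

namespace NRMaux

variable {ι : Type} [Fintype ι]

lemma smn_le_sum [DecidableEq ι] (N : Seminorm ℝ (ι → ℝ)) (x : ι → ℝ) :
    N x ≤ (∑ i, N (Pi.single i 1)) * ‖x‖ := by
  have h1 : x = ∑ i, x i • (Pi.single i (1 : ℝ) : ι → ℝ) := by
    funext j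
    simp [Finset.sum_apply, Pi.single_apply]
  have h2 : N (∑ i, x i • (Pi.single i (1 : ℝ) : ι → ℝ)) ≤
      ∑ i, N (x i • (Pi.single i (1 : ℝ) : ι → ℝ)) := by
    classical
    refine Finset.le_sum_of_subadditive N (map_zero N).le (fun a b => map_add_le_add N a b) _ _
  rw [← h1] at h2
  refine h2.trans ?_
  rw [Finset.sum_mul]
  refine Finset.sum_le_sum fun i _ => ?_
  rw [map_smul_eq_mul, mul_comm]
  exact mul_le_mul_of_nonneg_left (norm_le_pi_norm x i) (apply_nonneg N _)

lemma smn_continuous (N : Seminorm ℝ (ι → ℝ)) : Continuous N := by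
  classical
  apply Seminorm.continuous_of_continuousAt_zero
  rw [ContinuousAt, map_zero]
  refine squeeze_zero (fun x => apply_nonneg N x) (fun x => smn_le_sum N x) ?_
  have : Continuous (fun x : ι → ℝ => (∑ i, N (Pi.single i 1)) * ‖x‖) :=
    continuous_const.mul continuous_norm
  have h := this.tendsto 0
  simpa using h

/-- a norm on a finite dimensional space dominates the sup norm -/
lemma exists_lower (N : Seminorm ℝ (ι → ℝ)) (hN : IsNorm N) :
    ∃ c : ℝ, 0 < c ∧ ∀ x, c * ‖x‖ ≤ N x := by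
  rcases isEmpty_or_nonempty ι with he | hne
  · refine ⟨1, one_pos, fun x => ?_⟩
    have : x = 0 := Subsingleton.elim _ _
    simp [this]
  · have hcomp : IsCompact (Metric.sphere (0 : ι → ℝ) 1) := isCompact_sphere _ _
    have hnon : (Metric.sphere (0 : ι → ℝ) 1).Nonempty := NormedSpace.sphere_nonempty.2 zero_le_one
    obtain ⟨x0, hx0, hmin⟩ := hcomp.exists_isMinOn hnon (smn_continuous N).continuousOn
    have hx0' : ‖x0‖ = 1 := by simpa using hx0
    have hpos : 0 < N x0 := by
      rcases (apply_nonneg N x0).lt_or_eq with h | h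
      · exact h
      · have := hN x0 h.symm
        rw [this] at hx0'
        simp at hx0'
    refine ⟨N x0, hpos, fun x => ?_⟩
    rcases eq_or_ne x 0 with rfl | hx
    · simp
    · have hnx : 0 < ‖x‖ := norm_pos_iff.2 hx
      have hmem : (‖x‖⁻¹ • x) ∈ Metric.sphere (0 : ι → ℝ) 1 := by
        simp [norm_smul, hnx.ne']
      have h1 := hmin hmem
      simp only [Set.mem_ofPred_eq] at h1
      rw [map_smul_eq_mul, norm_inv, norm_norm] at h1
      rw [inv_mul_eq_div, le_div_iff₀ hnx] at h1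
      exact h1

lemma isCompact_ball (N : Seminorm ℝ (ι → ℝ)) (hN : IsNorm N) : IsCompact {x | N x ≤ 1} := by
  obtain ⟨c, hc, hcx⟩ := exists_lower N hN
  refine Metric.isCompact_of_isClosed_isBounded
    (isClosed_le (smn_continuous N) continuous_const) ?_
  refine (Metric.isBounded_closedBall (x := (0 : ι → ℝ)) (r := c⁻¹)).subset ?_
  intro x hx
  rw [mem_closedBall_zero_iff]
  have h1 := (hcx x).trans hx
  rw [← le_div_iff₀' hc] at h1
  simpa using h1

omit [Fintype ι] in
lemma convex_ball (N : Seminorm ℝ (ι → ℝ)) : Convex ℝ {x | N x ≤ 1} := by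
  have := N.convex_closedBall 0 1
  simpa [Seminorm.closedBall] using this

lemma interior_ball (N : Seminorm ℝ (ι → ℝ)) : (0 : ι → ℝ) ∈ interior {x | N x ≤ 1} := by
  rw [mem_interior]
  refine ⟨{x | N x < 1}, fun x hx => ?_, isOpen_lt (smn_continuous N) continuous_const, ?_⟩
  · rw [Set.mem_ofPred_eq] at hx ⊢
    exact hx.le
  · simp

lemma dual_attained (N : Seminorm ℝ (ι → ℝ)) (hN : IsNorm N) (y : ι → ℝ) :
    ∃ x, N x ≤ 1 ∧ y ⬝ᵥ x = dualN N y := by
  have hcont : Continuous (fun x : ι → ℝ => y ⬝ᵥ x) := by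
    unfold dotProduct
    fun_prop
  obtain ⟨x, hx, hs⟩ := (isCompact_ball N hN).exists_sSup_image_eq ⟨0, by simp⟩ hcont.continuousOn
  exact ⟨x, hx, hs.symm⟩

lemma le_dual (N : Seminorm ℝ (ι → ℝ)) (hN : IsNorm N) (y x : ι → ℝ) (hx : N x ≤ 1) :
    y ⬝ᵥ x ≤ dualN N y := by
  have hcont : Continuous (fun x : ι → ℝ => y ⬝ᵥ x) := by
    unfold dotProduct
    fun_prop
  have hb : BddAbove ((fun x : ι → ℝ => y ⬝ᵥ x) '' {x | N x ≤ 1}) :=
    ((isCompact_ball N hN).image hcont).bddAbove
  exact le_csSup hb ⟨x, hx, rfl⟩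

lemma dual_nonneg (N : Seminorm ℝ (ι → ℝ)) (hN : IsNorm N) (y : ι → ℝ) : 0 ≤ dualN N y := by
  have := le_dual N hN y 0 (by simp)
  simpa using this

lemma le_dual_mul (N : Seminorm ℝ (ι → ℝ)) (hN : IsNorm N) (x y : ι → ℝ) :
    y ⬝ᵥ x ≤ dualN N y * N x := by
  rcases (apply_nonneg N x).lt_or_eq with h | h
  · have h1 := le_dual N hN y ((N x)⁻¹ • x) (by
      rw [map_smul_eq_mul, norm_inv, Real.norm_of_nonneg h.le, inv_mul_cancel₀ h.ne'])
    rw [dotProduct_smul, smul_eq_mul, inv_mul_eq_div, div_le_iff₀ h] at h1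
    exact h1
  · have := hN x h.symm
    simp [this]

lemma dual_add (N : Seminorm ℝ (ι → ℝ)) (hN : IsNorm N) (y z : ι → ℝ) :
    dualN N (y + z) ≤ dualN N y + dualN N z := by
  obtain ⟨x, hx, hxe⟩ := dual_attained N hN (y + z)
  rw [← hxe, add_dotProduct]
  exact add_le_add (le_dual N hN y x hx) (le_dual N hN z x hx)

lemma dual_smul_le (N : Seminorm ℝ (ι → ℝ)) (hN : IsNorm N) (a : ℝ) (y : ι → ℝ) :
    dualN N (a • y) ≤ ‖a‖ * dualN N y := by
  obtain ⟨x, hx, hxe⟩ := dual_attained N hN (a • y)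
  rw [← hxe, smul_dotProduct, smul_eq_mul]
  rcases le_total 0 a with ha | ha
  · rw [Real.norm_of_nonneg ha]
    exact mul_le_mul_of_nonneg_left (le_dual N hN y x hx) ha
  · rw [Real.norm_of_nonpos ha]
    have h1 := le_dual N hN y (-x) (by rwa [map_neg_eq_map])
    rw [dotProduct_neg] at h1
    nlinarith

lemma dual_smul (N : Seminorm ℝ (ι → ℝ)) (hN : IsNorm N) (a : ℝ) (y : ι → ℝ) :
    dualN N (a • y) = ‖a‖ * dualN N y := by
  refine le_antisymm (dual_smul_le N hN a y) ?_
  rcases eq_or_ne a 0 with rfl | ha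
  · simpa using dual_nonneg N hN _
  · have h1 := dual_smul_le N hN a⁻¹ (a • y)
    rw [smul_smul, inv_mul_cancel₀ ha, one_smul, norm_inv, inv_mul_eq_div,
      le_div_iff₀ (norm_pos_iff.2 ha)] at h1
    linarith

/-- the dual norm -/
noncomputable def dualS (N : Seminorm ℝ (ι → ℝ)) (hN : IsNorm N) : Seminorm ℝ (ι → ℝ) :=
  Seminorm.of (dualN N) (dual_add N hN) (dual_smul N hN)

lemma dualS_isNorm (N : Seminorm ℝ (ι → ℝ)) (hN : IsNorm N) : IsNorm (dualS N hN) := by
  intro y hy
  have hy' : dualN N y = 0 := hy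
  have h1 := le_dual_mul N hN y y
  rw [hy', zero_mul] at h1
  have h2 : y ⬝ᵥ y = 0 := le_antisymm h1 (by
    unfold dotProduct
    exact Finset.sum_nonneg fun i _ => mul_self_nonneg _)
  exact dotProduct_self_eq_zero.1 h2

end NRMaux

open NRMaux in
theorem stmt_NRM : Stmt_NRM := by
  intro ι _ _
  refine ⟨?_, ?_⟩
  · intro K hK hconv hsymm hint
    obtain ⟨x, hx⟩ := hint
    have h0 : (0 : ι → ℝ) ∈ interior K := by
      have h1 := hconv.combo_interior_self_mem_interior hx (hsymm x (interior_subset hx))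
        (a := 1 / 2) (b := 1 / 2) (by norm_num) (by norm_num) (by norm_num)
      have h2 : (1 / 2 : ℝ) • x + (1 / 2 : ℝ) • (-x) = 0 := by
        rw [smul_neg, add_neg_cancel]
      rwa [h2] at h1
    have hnhds : K ∈ 𝓝 (0 : ι → ℝ) := mem_interior_iff_mem_nhds.1 h0
    have habs : Absorbent ℝ K := absorbent_nhds_zero hnhds
    have hbal : Balanced ℝ K := by
      intro a ha
      rintro _ ⟨y, hy, rfl⟩
      have ha' : |a| ≤ 1 := ha
      obtain ⟨h1, h2⟩ := abs_le.1 ha'
      have h3 := hconv hy (hsymm y hy) (a := (1 + a) / 2) (b := (1 - a) / 2) (by linarith)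
        (by linarith) (by ring)
      have h4 : ((1 + a) / 2) • y + ((1 - a) / 2) • (-y) = a • y := by
        rw [smul_neg, ← sub_eq_add_neg, ← sub_smul]
        congr 1
        ring
      rwa [h4] at h3
    refine ⟨gaugeSeminorm hbal hconv habs, ?_, ?_⟩
    · intro y hy
      by_contra hne
      have hb : Bornology.IsVonNBounded ℝ K := (NormedSpace.isVonNBounded_iff ℝ).2 hK.isBounded
      have hp := (gauge_pos habs hb (x := y)).2 hne
      have : gauge K y = 0 := hy
      linarith
    · ext y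
      have : gaugeSeminorm hbal hconv habs y = gauge K y := rfl
      rw [Set.mem_ofPred_eq, this, gauge_le_one_iff_mem_closure hconv hnhds, hK.isClosed.closure_eq]
  · intro N hN
    exact ⟨isCompact_ball N hN, convex_ball N, ⟨0, interior_ball N⟩, smn_continuous N,
      ⟨dualS N hN, dualS_isNorm N hN, fun y => rfl⟩, fun x y => le_dual_mul N hN x y,
      fun y => dual_attained N hN y⟩

end Pool.Agent.Work.MP_b10815_co_flt
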