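import Pool.Agent.Work.MP_b10815_co_flt.Interface
set_option autoImplicit false
set_option linter.unusedSectionVars false
set_option linter.style.haveILetI false

/-! # Block BLK: Schur complements and Gram determinants -/

namespace Pool.Agent.Work.MP_b10815_co_flt

open Matrix

namespace BLKaux

variable {ι κ μ : Type} [Fintype ι] [Fintype κ] [Fintype μ]

theorem qf_pos {H : Matrix ι ι ℝ} (hH : H.PosDef) {v : ι → ℝ} (hv : v ≠ 0) : 0 < qf H v := by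
  have := hH.dotProduct_mulVec_pos hv
  simpa [qf] using this

theorem posDef_of_qf {H : Matrix ι ι ℝ} (hs : Hᵀ = H) (h : ∀ v : ι → ℝ, v ≠ 0 → 0 < qf H v) :
    H.PosDef := by
  refine Matrix.PosDef.of_dotProduct_mulVec_pos ?_ fun {v} hv => ?_
  · rw [IsHermitian, conjTranspose_eq_transpose_of_trivial, hs]
  · have := h v hv
    simpa [qf] using this

theorem isHermitian_iff {H : Matrix ι ι ℝ} : H.IsHermitian ↔ Hᵀ = H := by
  rw [IsHermitian, conjTranspose_eq_transpose_of_trivial]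

theorem toBlocks₂₁_eq {H : Matrix (ι ⊕ κ) (ι ⊕ κ) ℝ} (hs : Hᵀ = H) :
    H.toBlocks₂₁ = H.toBlocks₁₂ᵀ := by
  ext i j
  have := congrFun (congrFun hs (Sum.inr i)) (Sum.inl j)
  simp only [transpose_apply] at this
  simp [toBlocks₂₁, toBlocks₁₂, this]

theorem posDef_toBlocks₁₁ {H : Matrix (ι ⊕ κ) (ι ⊕ κ) ℝ} (hH : H.PosDef) : H.toBlocks₁₁.PosDef :=
  hH.submatrix (e := Sum.inl) Sum.inl_injective

theorem qf_blk [DecidableEq ι] {H : Matrix (ι ⊕ κ) (ι ⊕ κ) ℝ} (hs : Hᵀ = H)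
    (hd : IsUnit H.toBlocks₁₁.det) (u : ι ⊕ κ → ℝ) :
    qf H u = qf H.toBlocks₁₁
      ((u ∘ Sum.inl) + (H.toBlocks₁₁)⁻¹ *ᵥ (H.toBlocks₁₂ *ᵥ (u ∘ Sum.inr))) +
      qf (schur H) (u ∘ Sum.inr) := by
  letI := H.toBlocks₁₁.invertibleOfIsUnitDet hd
  have hA : H.toBlocks₁₁.IsHermitian := by
    rw [isHermitian_iff]
    ext i j
    have := congrFun (congrFun hs (Sum.inl i)) (Sum.inl j)
    simpa [toBlocks₁₁] using this
  have h1 := schur_complement_eq₁₁ H.toBlocks₁₂ H.toBlocks₂₂ (u ∘ Sum.inl) (u ∘ Sum.inr) hA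
  simp only [star_trivial, conjTranspose_eq_transpose_of_trivial, Sum.elim_comp_inl_inr] at h1
  rw [← toBlocks₂₁_eq hs, fromBlocks_toBlocks] at h1
  simp only [← dotProduct_mulVec, ← mulVec_mulVec] at h1
  exact h1

theorem posDef_schur [DecidableEq ι] {H : Matrix (ι ⊕ κ) (ι ⊕ κ) ℝ} (hH : H.PosDef) :
    (schur H).PosDef := by
  have hs : Hᵀ = H := isHermitian_iff.1 hH.1
  have h11 := posDef_toBlocks₁₁ hH
  have hd : IsUnit H.toBlocks₁₁.det := isUnit_iff_ne_zero.2 h11.det_pos.ne'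
  have hs11 : H.toBlocks₁₁ᵀ = H.toBlocks₁₁ := isHermitian_iff.1 h11.1
  refine posDef_of_qf ?_ fun v hv => ?_
  · unfold schur
    rw [transpose_sub, transpose_mul, transpose_mul, toBlocks₂₁_eq hs, transpose_transpose,
      transpose_nonsing_inv, hs11]
    have h22 : H.toBlocks₂₂ᵀ = H.toBlocks₂₂ := by
      ext i j
      have := congrFun (congrFun hs (Sum.inr i)) (Sum.inr j)
      simpa [toBlocks₂₂] using this
    rw [h22, Matrix.mul_assoc]
  · have h1 := qf_blk hs hd (Sum.elim (-((H.toBlocks₁₁)⁻¹ *ᵥ (H.toBlocks₁₂ *ᵥ v))) v)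
    rw [Sum.elim_comp_inl, Sum.elim_comp_inr, neg_add_cancel] at h1
    have h2 : qf H.toBlocks₁₁ 0 = 0 := by simp [qf]
    rw [h2, zero_add] at h1
    rw [← h1]
    refine qf_pos hH ?_
    intro h0
    apply hv
    funext i
    have := congrFun h0 (Sum.inr i)
    simpa using this

theorem det_blk [DecidableEq ι] [DecidableEq κ] {H : Matrix (ι ⊕ κ) (ι ⊕ κ) ℝ}
    (hd : IsUnit H.toBlocks₁₁.det) : H.det = H.toBlocks₁₁.det * (schur H).det := by
  letI := H.toBlocks₁₁.invertibleOfIsUnitDet hd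
  have h1 := det_fromBlocks₁₁ H.toBlocks₁₁ H.toBlocks₁₂ H.toBlocks₂₁ H.toBlocks₂₂
  rw [fromBlocks_toBlocks, invOf_eq_nonsing_inv] at h1
  exact h1

theorem inv_blk [DecidableEq ι] [DecidableEq κ] {H : Matrix (ι ⊕ κ) (ι ⊕ κ) ℝ}
    (hd : IsUnit H.toBlocks₁₁.det) (hS : IsUnit (schur H).det) :
    (H⁻¹).toBlocks₂₂ = (schur H)⁻¹ := by
  letI := H.toBlocks₁₁.invertibleOfIsUnitDet hd
  letI : Invertible (H.toBlocks₂₂ - H.toBlocks₂₁ * ⅟(H.toBlocks₁₁) * H.toBlocks₁₂) :=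
    Matrix.invertibleOfIsUnitDet _ (by rw [invOf_eq_nonsing_inv]; exact hS)
  letI : Invertible (fromBlocks H.toBlocks₁₁ H.toBlocks₁₂ H.toBlocks₂₁ H.toBlocks₂₂) :=
    fromBlocks₁₁Invertible _ _ _ _
  have h1 := invOf_fromBlocks₁₁_eq H.toBlocks₁₁ H.toBlocks₁₂ H.toBlocks₂₁ H.toBlocks₂₂
  rw [invOf_eq_nonsing_inv, fromBlocks_toBlocks] at h1
  rw [h1, toBlocks_fromBlocks₂₂, invOf_eq_nonsing_inv, invOf_eq_nonsing_inv]
  rfl

theorem cR_fromBlocks {α β : Type} (A : Matrix ι α ℤ) (B : Matrix ι β ℤ) (C : Matrix κ α ℤ)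
    (D : Matrix κ β ℤ) : cR (fromBlocks A B C D) = fromBlocks (cR A) (cR B) (cR C) (cR D) :=
  fromBlocks_map _ _ _ _ _

theorem cR_one [DecidableEq ι] : cR (1 : Matrix ι ι ℤ) = 1 := by
  unfold cR
  rw [Matrix.map_one] <;> simp

theorem cR_zero {α β : Type} : cR (0 : Matrix α β ℤ) = 0 := by
  unfold cR
  ext i j
  simp

theorem gram_blk [DecidableEq ι] {k : ℕ} (H : Matrix (ι ⊕ κ) (ι ⊕ κ) ℝ) (Z : Matrix κ (Fin k) ℤ) :
    gram H (fromBlocks (1 : Matrix ι ι ℤ) 0 0 Z) =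
      fromBlocks H.toBlocks₁₁ (H.toBlocks₁₂ * cR Z) ((cR Z)ᵀ * H.toBlocks₂₁)
        ((cR Z)ᵀ * H.toBlocks₂₂ * cR Z) := by
  unfold gram
  rw [cR_fromBlocks, cR_one, cR_zero, cR_zero, fromBlocks_transpose]
  conv_lhs => rw [← fromBlocks_toBlocks H]
  rw [fromBlocks_multiply, fromBlocks_multiply]
  simp

theorem exists_W [DecidableEq ι] [DecidableEq κ] {H : Matrix (ι ⊕ κ) (ι ⊕ κ) ℝ}
    (hd : IsUnit H.toBlocks₁₁.det) (k : ℕ) (Z : Matrix κ (Fin k) ℤ) (hZ : FullRank Z) :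
    ∃ W : Matrix (ι ⊕ κ) (ι ⊕ Fin k) ℤ, FullRank W ∧
      (gram H W).det = H.toBlocks₁₁.det * (gram (schur H) Z).det := by
  refine ⟨fromBlocks 1 0 0 Z, ?_, ?_⟩
  · unfold FullRank at hZ ⊢
    rw [fromBlocks_transpose, fromBlocks_multiply]
    simpa using hZ
  · have h2 : (gram H (fromBlocks (1 : Matrix ι ι ℤ) 0 0 Z)).toBlocks₁₁ = H.toBlocks₁₁ := by
      rw [gram_blk, toBlocks_fromBlocks₁₁]
    have hd' : IsUnit (gram H (fromBlocks (1 : Matrix ι ι ℤ) 0 0 Z)).toBlocks₁₁.det := by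
      rw [h2]; exact hd
    rw [det_blk hd', h2]
    congr 2
    rw [gram_blk]
    unfold schur gram
    rw [toBlocks_fromBlocks₁₁, toBlocks_fromBlocks₁₂, toBlocks_fromBlocks₂₁, toBlocks_fromBlocks₂₂]
    simp only [Matrix.mul_sub, Matrix.sub_mul, Matrix.mul_assoc]

end BLKaux

open BLKaux in
theorem stmt_BLK : Stmt_BLK := by
  intro ι κ _ _ _ _ H hH
  have hs : Hᵀ = H := isHermitian_iff.1 hH.1
  have h11 := posDef_toBlocks₁₁ hH
  have hS := posDef_schur hH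
  have hd : IsUnit H.toBlocks₁₁.det := isUnit_iff_ne_zero.2 h11.det_pos.ne'
  have hdS : IsUnit (schur H).det := isUnit_iff_ne_zero.2 hS.det_pos.ne'
  exact ⟨h11, hS, det_blk hd, inv_blk hd hdS, fun k Z hZ => exists_W hd k Z hZ,
    fun u => qf_blk hs hd u⟩

end Pool.Agent.Work.MP_b10815_co_flt
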