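import Pool.Agent.Work.MP_b10815_co_flt.LatAux
set_option autoImplicit false
set_option linter.unusedSectionVars false
set_option linter.unusedSimpArgs false

/-!
# Block CMP: compactness of the space of stable forms modulo unimodular matrices
-/

namespace Pool.Agent.Work.MP_b10815_co_flt

open MeasureTheory Matrix

namespace CMP

open LatAux

variable {n : ℕ}

theorem posSemidef_entry {H : Matrix (Fin n) (Fin n) ℝ} (hH : H.PosSemidef) {R : ℝ}
    (hR : ∀ i, H i i ≤ R) (i j : Fin n) : |H i j| ≤ R := by
  have hsymm : H j i = H i j := by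
    have := hH.isHermitian.apply i j
    simpa using this
  have key : ∀ s : ℝ, s ^ 2 = 1 → 0 ≤ H i i + 2 * s * H i j + H j j := by
    intro s hs
    have h1 := hH.dotProduct_mulVec_nonneg (Pi.single i 1 + Pi.single j s)
    simp only [star_trivial, Matrix.mulVec_add, dotProduct_add, add_dotProduct,
      Matrix.mulVec_single, dotProduct_smul, single_dotProduct, MulOpposite.op_one, one_smul,
      Matrix.col_apply, one_mul, Pi.smul_apply, smul_eq_mul, MulOpposite.smul_eq_mul_unop,
      MulOpposite.unop_op] at h1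
    rw [hsymm] at h1
    have h2 : H i i + s * H i j + (H i j + s * H j j) * s =
        H i i + 2 * s * H i j + s ^ 2 * H j j := by ring
    rw [h2, hs, one_mul] at h1
    exact h1
  have h1 := key 1 (by norm_num)
  have h2 := key (-1) (by norm_num)
  have h3 := hR i
  have h4 := hR j
  rw [abs_le]
  constructor <;> linarith

theorem isClosed_posSemidef : IsClosed {H : Matrix (Fin n) (Fin n) ℝ | H.PosSemidef} := by
  have h : {H : Matrix (Fin n) (Fin n) ℝ | H.PosSemidef} =
      {H | Hᵀ = H} ∩ ⋂ x : Fin n → ℝ, {H | 0 ≤ x ⬝ᵥ (H *ᵥ x)} := by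
    ext H
    simp only [Set.mem_ofPred_eq, Set.mem_inter_iff, Set.mem_iInter,
      Matrix.posSemidef_iff_dotProduct_mulVec, star_trivial, Matrix.IsHermitian,
      Matrix.conjTranspose_eq_transpose_of_trivial]
  rw [h]
  refine IsClosed.inter (isClosed_eq (Continuous.matrix_transpose continuous_id) continuous_id) ?_
  refine isClosed_iInter fun x => ?_
  refine isClosed_le continuous_const ?_
  exact Continuous.dotProduct continuous_const
    (Continuous.matrix_mulVec continuous_id continuous_const)

theorem continuous_gram {ι κ : Type} [Fintype ι] [Fintype κ] (Z : Matrix ι κ ℤ) :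
    Continuous fun H : Matrix ι ι ℝ => gram H Z := by
  unfold gram
  exact Continuous.matrix_mul (Continuous.matrix_mul continuous_const continuous_id)
    continuous_const

theorem isClosed_subDet (t : ℝ) : IsClosed {H : Matrix (Fin n) (Fin n) ℝ | SubDet H t} := by
  have h : {H : Matrix (Fin n) (Fin n) ℝ | SubDet H t} =
      ⋂ (k : ℕ) (Z : Matrix (Fin n) (Fin k) ℤ) (_ : FullRank Z),
        {H | t ^ k ≤ (gram H Z).det} := by
    ext H
    simp only [Set.mem_ofPred_eq, Set.mem_iInter, SubDet]
  rw [h]
  refine isClosed_iInter fun k => isClosed_iInter fun Z => isClosed_iInter fun _ => ?_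
  exact isClosed_le continuous_const (Continuous.matrix_det (continuous_gram Z))

theorem isClosed_stable : IsClosed {H : Matrix (Fin n) (Fin n) ℝ | Stable H} := by
  have h : {H : Matrix (Fin n) (Fin n) ℝ | Stable H} =
      ({H | H.PosSemidef} ∩ {H | H.det = 1}) ∩ {H | SubDet H 1} := by
    ext H
    simp only [Set.mem_ofPred_eq, Set.mem_inter_iff, Stable]
    constructor
    · rintro ⟨h1, h2, h3⟩
      exact ⟨⟨h1.posSemidef, h2⟩, h3⟩
    · rintro ⟨⟨h1, h2⟩, h3⟩
      refine ⟨?_, h2, h3⟩
      rw [h1.posDef_iff_isUnit, Matrix.isUnit_iff_isUnit_det, h2]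
      exact isUnit_one
  rw [h]
  exact (isClosed_posSemidef.inter
    (isClosed_eq (Continuous.matrix_det continuous_id) continuous_const)).inter
      (isClosed_subDet 1)

theorem isCompact_S (R : ℝ) :
    IsCompact {H : Matrix (Fin n) (Fin n) ℝ | Stable H ∧ ∀ i, H i i ≤ R} := by
  have hb : IsCompact (Set.univ.pi fun _ : Fin n => Set.univ.pi fun _ : Fin n => Set.Icc (-R) R :
      Set (Fin n → Fin n → ℝ)) :=
    isCompact_univ_pi fun _ => isCompact_univ_pi fun _ => isCompact_Icc
  refine IsCompact.of_isClosed_subset hb ?_ ?_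
  · have h : {H : Matrix (Fin n) (Fin n) ℝ | Stable H ∧ ∀ i, H i i ≤ R} =
        {H | Stable H} ∩ ⋂ i, {H | H i i ≤ R} := by
      ext H
      simp only [Set.mem_ofPred_eq, Set.mem_inter_iff, Set.mem_iInter]
    have h2 : IsClosed ({H : Matrix (Fin n) (Fin n) ℝ | Stable H} ∩ ⋂ i, {H | H i i ≤ R}) := by
      refine isClosed_stable.inter (isClosed_iInter fun i => ?_)
      refine isClosed_le ?_ continuous_const
      exact Continuous.matrix_elem continuous_id i i
    rw [← h] at h2
    exact h2
  · intro H hH i _ j _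
    have := posSemidef_entry hH.1.1.posSemidef hH.2 i j
    rw [abs_le] at this
    exact this

end CMP

theorem stmt_CMP (hRED : Stmt_RED) : Stmt_CMP := by
  intro n
  obtain ⟨R, hR⟩ := hRED n 1
  refine ⟨{H | Stable H ∧ ∀ i, H i i ≤ R}, CMP.isCompact_S R, fun H hH => hH.1, ?_⟩
  intro H hH
  obtain ⟨U, hU, hUR⟩ := hR H hH.1 hH.2.2 hH.2.1.le
  exact ⟨U, hU, LatAux.stable_gram hH hU, hUR⟩

end Pool.Agent.Work.MP_b10815_co_flt
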