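import Pool.Agent.Work.MP_b10815_co_flt.Interface
set_option autoImplicit false

namespace Pool.Agent.Work.MP_b10815_co_flt

open MeasureTheory Matrix

namespace GB

variable {ι κ : Type} [Fintype ι] [Fintype κ]

lemma gd_eq_prod (x : ι → ℝ) : gd x = ∏ i, Real.exp (-Real.pi * (x i) ^ 2) := by
  unfold gd
  rw [← Real.exp_sum, dotProduct, Finset.mul_sum]
  congr 1
  exact Finset.sum_congr rfl fun i _ => by ring

lemma gd_pos (x : ι → ℝ) : 0 < gd x := Real.exp_pos _

lemma gd_continuous : Continuous (gd : (ι → ℝ) → ℝ) := by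
  unfold gd
  simp only [dotProduct]
  fun_prop

lemma gd_integrable : Integrable (gd : (ι → ℝ) → ℝ) := by
  have h : (gd : (ι → ℝ) → ℝ) = fun x => ∏ i, Real.exp (-Real.pi * (x i) ^ 2) := by
    funext x; exact gd_eq_prod x
  rw [h]
  exact Integrable.fintype_prod (f := fun _ t => Real.exp (-Real.pi * t ^ 2))
    (fun i => integrable_exp_neg_mul_sq Real.pi_pos)

lemma gd_integral : ∫ x : ι → ℝ, gd x = 1 := by
  have h : (gd : (ι → ℝ) → ℝ) = fun x => ∏ i, Real.exp (-Real.pi * (x i) ^ 2) := by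
    funext x; exact gd_eq_prod x
  rw [h, integral_fintype_prod_volume_eq_pow (fun t => Real.exp (-Real.pi * t ^ 2)),
    integral_gaussian, div_self Real.pi_ne_zero, Real.sqrt_one, one_pow]

lemma exists_factor [DecidableEq ι] (H : Matrix ι ι ℝ) (hH : H.PosDef) :
    ∃ B : Matrix ι ι ℝ, IsUnit B.det ∧ H = Bᵀ * B := by
  have h := hH.posSemidef
  open scoped MatrixOrder in
  obtain ⟨X, hX, -, hXX⟩ :=
        sub_zero H ▸ CFC.exists_sqrt_of_isSelfAdjoint_of_quasispectrumRestricts h.isHermitian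
          (QuasispectrumRestricts.nnreal_of_nonneg h.nonneg)
  have h1 : H = Xᵀ * X := by
    have : star X = X := hX.star_eq
    have h2 : star X = Xᵀ := by
      rw [Matrix.star_eq_conjTranspose, conjTranspose_eq_transpose_of_trivial]
    rw [← h2, this, hXX, sub_zero]
  refine ⟨X, ?_, h1⟩
  rw [isUnit_iff_ne_zero]
  intro h0
  have := hH.det_pos
  rw [h1, det_mul, h0, mul_zero] at this
  exact lt_irrefl _ this

/-- linear change of variables, arbitrary function -/
lemma integral_mulVec [DecidableEq ι] (B : Matrix ι ι ℝ) (hB : B.det ≠ 0) (F : (ι → ℝ) → ℝ) :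
    ∫ v, F (B *ᵥ v) = |B.det|⁻¹ * ∫ x, F x := by
  have hB' : IsUnit B.det := isUnit_iff_ne_zero.2 hB
  let e : (ι → ℝ) ≃ₗ[ℝ] (ι → ℝ) := Matrix.toLinearEquiv' B
    (Matrix.invertibleOfIsUnitDet B hB')
  have he : ∀ v, e v = B *ᵥ v := fun v => rfl
  have hemb : MeasurableEmbedding (toLin' B) := by
    have := e.toContinuousLinearEquiv.toHomeomorph.measurableEmbedding
    exact this
  have h1 : ∫ v, F (B *ᵥ v) = ∫ x, F x ∂(Measure.map (toLin' B) volume) := by
    rw [hemb.integral_map]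
    rfl
  rw [h1, Real.map_matrix_volume_pi_eq_smul_volume_pi hB, integral_smul_measure, abs_inv,
    ENNReal.toReal_ofReal (by positivity), smul_eq_mul]

lemma qf_mul (B : Matrix ι ι ℝ) (v : ι → ℝ) : qf (Bᵀ * B) v = (B *ᵥ v) ⬝ᵥ (B *ᵥ v) := by
  unfold qf
  rw [← Matrix.mulVec_mulVec, Matrix.mulVec_transpose, dotProduct_comm, Matrix.dotProduct_mulVec]

lemma gH_factor [DecidableEq ι] (B : Matrix ι ι ℝ) (v : ι → ℝ) :
    gH (Bᵀ * B) v = |B.det| * gd (B *ᵥ v) := by
  unfold gH gd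
  rw [qf_mul, det_mul, det_transpose, ← sq, Real.sqrt_sq_eq_abs]

lemma change [DecidableEq ι] (B : Matrix ι ι ℝ) (hB : IsUnit B.det) (f : (ι → ℝ) → ℝ) :
    ∫ v, f v * gH (Bᵀ * B) v = ∫ x, f (B⁻¹ *ᵥ x) * gd x := by
  have hB' : B.det ≠ 0 := isUnit_iff_ne_zero.1 hB
  have h := integral_mulVec B hB' (fun x => f (B⁻¹ *ᵥ x) * gd x)
  have h2 : ∀ v, B⁻¹ *ᵥ (B *ᵥ v) = v := fun v => by
    rw [Matrix.mulVec_mulVec, Matrix.nonsing_inv_mul B hB, Matrix.one_mulVec]
  simp only [h2] at h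
  have h3 : ∫ v, f v * gH (Bᵀ * B) v = |B.det| * ∫ v, f v * gd (B *ᵥ v) := by
    rw [← integral_const_mul]
    congr 1
    funext v
    rw [gH_factor]
    ring
  rw [h3, h, ← mul_assoc, mul_inv_cancel₀ (abs_ne_zero.2 hB'), one_mul]

lemma qf_nonneg_posDef (H : Matrix ι ι ℝ) (hH : H.PosDef) (v : ι → ℝ) : 0 ≤ qf H v := by
  have := hH.posSemidef.dotProduct_mulVec_nonneg v
  simpa [qf] using this

lemma seminorm_bound (N : Seminorm ℝ (ι → ℝ)) : ∃ C : ℝ, 0 ≤ C ∧ ∀ x, N x ≤ C * ∑ i, |x i| := by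
  classical
  refine ⟨∑ i, N (Pi.single i 1), Finset.sum_nonneg fun i _ => apply_nonneg _ _, fun x => ?_⟩
  have hx : x = ∑ i, x i • (Pi.single i (1 : ℝ) : ι → ℝ) := by
    funext j
    simp [Finset.sum_apply, Pi.single_apply]
  have h1 : N x ≤ ∑ i, |x i| * N (Pi.single i 1) := by
    conv_lhs => rw [hx]
    refine (Finset.le_sum_of_subadditive N (map_zero N).le (map_add_le_add N) _ _).trans ?_
    refine Finset.sum_le_sum fun i _ => ?_
    rw [map_smul_eq_mul, Real.norm_eq_abs]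
  refine h1.trans ?_
  rw [Finset.mul_sum]
  refine Finset.sum_le_sum fun i _ => ?_
  rw [mul_comm]
  refine mul_le_mul_of_nonneg_right ?_ (abs_nonneg _)
  exact Finset.single_le_sum (f := fun i => N (Pi.single i (1 : ℝ)))
    (fun j _ => apply_nonneg _ _) (Finset.mem_univ i)

lemma seminorm_continuous (N : Seminorm ℝ (ι → ℝ)) : Continuous N := by
  obtain ⟨C, hC, h⟩ := seminorm_bound N
  rw [continuous_iff_continuousAt]
  intro x
  rw [ContinuousAt, tendsto_iff_norm_sub_tendsto_zero]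
  have hlim : Filter.Tendsto (fun y : ι → ℝ => C * ∑ i, |(y - x) i|) (nhds x) (nhds 0) := by
    have : Continuous (fun y : ι → ℝ => C * ∑ i, |(y - x) i|) := by
      simp only [Pi.sub_apply]
      fun_prop
    have h0 := this.tendsto x
    simpa using h0
  refine squeeze_zero (fun y => norm_nonneg _) (fun y => ?_) hlim
  refine le_trans ?_ (h (y - x))
  rw [Real.norm_eq_abs]
  exact abs_sub_map_le_sub N y x

lemma abs_le_gauss (t : ℝ) : |t| ≤ 2 * Real.exp (Real.pi / 2 * t ^ 2) := by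
  have h1 : |t| ≤ 1 + t ^ 2 := by
    rw [abs_le]
    constructor <;> nlinarith [sq_nonneg (t - 1), sq_nonneg (t + 1)]
  have h2 : Real.pi / 2 * t ^ 2 + 1 ≤ Real.exp (Real.pi / 2 * t ^ 2) := Real.add_one_le_exp _
  have h3 : t ^ 2 ≤ Real.pi / 2 * t ^ 2 := by
    have : (1 : ℝ) ≤ Real.pi / 2 := by linarith [Real.pi_gt_three]
    nlinarith [sq_nonneg t]
  linarith [Real.exp_pos (Real.pi / 2 * t ^ 2), sq_nonneg t]

lemma integrable_half : Integrable (fun x : ι → ℝ => Real.exp (-(Real.pi / 2) * (x ⬝ᵥ x))) := by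
  have h : (fun x : ι → ℝ => Real.exp (-(Real.pi / 2) * (x ⬝ᵥ x))) =
      fun x => ∏ i, Real.exp (-(Real.pi / 2) * (x i) ^ 2) := by
    funext x
    rw [← Real.exp_sum, dotProduct, Finset.mul_sum]
    congr 1
    exact Finset.sum_congr rfl fun i _ => by ring
  rw [h]
  exact Integrable.fintype_prod (f := fun _ t => Real.exp (-(Real.pi / 2) * t ^ 2))
    (fun i => integrable_exp_neg_mul_sq (by positivity))

lemma abs_coord_gd (x : ι → ℝ) (i : ι) :
    |x i| * gd x ≤ 2 * Real.exp (-(Real.pi / 2) * (x ⬝ᵥ x)) := by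
  have h1 := abs_le_gauss (x i)
  have h2 : (x i) ^ 2 ≤ x ⬝ᵥ x := by
    rw [dotProduct]
    have := Finset.single_le_sum (f := fun i => x i * x i) (fun j _ => mul_self_nonneg _)
      (Finset.mem_univ i)
    calc (x i) ^ 2 = x i * x i := sq _
      _ ≤ _ := this
  have h3 : Real.exp (Real.pi / 2 * (x i) ^ 2) ≤ Real.exp (Real.pi / 2 * (x ⬝ᵥ x)) := by
    apply Real.exp_le_exp.2
    exact mul_le_mul_of_nonneg_left h2 (by positivity)
  calc |x i| * gd x ≤ (2 * Real.exp (Real.pi / 2 * (x ⬝ᵥ x))) * gd x :=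
        mul_le_mul_of_nonneg_right (h1.trans (mul_le_mul_of_nonneg_left h3 (by norm_num)))
          (gd_pos x).le
    _ = 2 * Real.exp (-(Real.pi / 2) * (x ⬝ᵥ x)) := by
        unfold gd
        rw [mul_assoc, ← Real.exp_add]
        congr 2
        ring

lemma integrable_seminorm_gd (N : Seminorm ℝ (ι → ℝ)) : Integrable (fun v => N v * gd v) := by
  obtain ⟨C, hC, h⟩ := seminorm_bound N
  have hint : Integrable (fun x : ι → ℝ =>
      C * (Fintype.card ι * (2 * Real.exp (-(Real.pi / 2) * (x ⬝ᵥ x))))) :=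
    ((integrable_half.const_mul 2).const_mul _).const_mul _
  refine hint.mono' ?_ ?_
  · exact ((seminorm_continuous N).mul gd_continuous).aestronglyMeasurable
  · refine Filter.Eventually.of_forall fun x => ?_
    rw [Real.norm_eq_abs, abs_of_nonneg (mul_nonneg (apply_nonneg _ _) (gd_pos x).le)]
    calc N x * gd x ≤ (C * ∑ i, |x i|) * gd x := mul_le_mul_of_nonneg_right (h x) (gd_pos x).le
      _ = C * ∑ i, |x i| * gd x := by rw [mul_assoc, Finset.sum_mul]
      _ ≤ C * ∑ _i : ι, 2 * Real.exp (-(Real.pi / 2) * (x ⬝ᵥ x)) :=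
          mul_le_mul_of_nonneg_left (Finset.sum_le_sum fun i _ => abs_coord_gd x i) hC
      _ = _ := by
          rw [Finset.sum_const, Finset.card_univ, nsmul_eq_mul]

/-- linear change of variables for integrability -/
lemma integrable_mulVec [DecidableEq ι] (B : Matrix ι ι ℝ) (hB : B.det ≠ 0) (F : (ι → ℝ) → ℝ)
    (hF : Integrable F) : Integrable (fun v => F (B *ᵥ v)) := by
  have hB' : IsUnit B.det := isUnit_iff_ne_zero.2 hB
  let e : (ι → ℝ) ≃ₗ[ℝ] (ι → ℝ) := Matrix.toLinearEquiv' B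
    (Matrix.invertibleOfIsUnitDet B hB')
  have hemb : MeasurableEmbedding (toLin' B) := by
    have := e.toContinuousLinearEquiv.toHomeomorph.measurableEmbedding
    exact this
  have h1 : Integrable F (Measure.map (toLin' B) volume) := by
    rw [Real.map_matrix_volume_pi_eq_smul_volume_pi hB]
    exact hF.smul_measure ENNReal.ofReal_ne_top
  exact (hemb.integrable_map_iff.1 h1)

lemma integrable_gH [DecidableEq ι] (H : Matrix ι ι ℝ) (hH : H.PosDef) :
    Integrable (gH H) ∧ ∫ v, gH H v = 1 := by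
  obtain ⟨B, hB, rfl⟩ := exists_factor H hH
  constructor
  · have h : gH (Bᵀ * B) = fun v => |B.det| * gd (B *ᵥ v) := by
      funext v; exact gH_factor B v
    rw [h]
    exact (integrable_mulVec B hB.ne_zero gd gd_integrable).const_mul _
  · have := change B hB (fun _ => 1)
    simp only [one_mul] at this
    rw [this, gd_integral]

lemma integrable_seminorm_gH [DecidableEq ι] (N : Seminorm ℝ (ι → ℝ)) (H : Matrix ι ι ℝ)
    (hH : H.PosDef) : Integrable (fun v => N v * gH H v) := by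
  obtain ⟨B, hB, rfl⟩ := exists_factor H hH
  have h1 := integrable_mulVec B hB.ne_zero _ (integrable_seminorm_gd (N.comp (toLin' B⁻¹)))
  have h2 : (fun v => N v * gH (Bᵀ * B) v) =
      fun v => |B.det| * ((N.comp (toLin' B⁻¹)) (B *ᵥ v) * gd (B *ᵥ v)) := by
    funext v
    rw [gH_factor, Seminorm.comp_apply, toLin'_apply, Matrix.mulVec_mulVec,
      Matrix.nonsing_inv_mul B hB, Matrix.one_mulVec]
    ring
  rw [h2]
  exact h1.const_mul _

lemma integral_exp_qf [DecidableEq ι] (H : Matrix ι ι ℝ) (hH : H.PosDef) :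
    Integrable (fun v => Real.exp (-Real.pi * qf H v)) ∧
    Real.sqrt H.det * ∫ v, Real.exp (-Real.pi * qf H v) = 1 := by
  obtain ⟨h1, h2⟩ := integrable_gH H hH
  have hs : 0 < Real.sqrt H.det := Real.sqrt_pos.2 hH.det_pos
  constructor
  · have := h1.const_mul (Real.sqrt H.det)⁻¹
    refine this.congr (Filter.Eventually.of_forall fun v => ?_)
    simp only [gH]
    field_simp
  · rw [← integral_const_mul]
    exact h2

lemma det_mono [DecidableEq ι] (A B : Matrix ι ι ℝ) (hA : A.PosDef) (hB : B.PosDef)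
    (h : ∀ v, qf B v ≤ qf A v) : B.det ≤ A.det := by
  obtain ⟨iA, eA⟩ := integral_exp_qf A hA
  obtain ⟨iB, eB⟩ := integral_exp_qf B hB
  have hle : ∫ v, Real.exp (-Real.pi * qf A v) ≤ ∫ v, Real.exp (-Real.pi * qf B v) := by
    refine integral_mono iA iB fun v => Real.exp_le_exp.2 ?_
    have := mul_le_mul_of_nonneg_left (h v) Real.pi_pos.le
    linarith
  have sA : 0 < Real.sqrt A.det := Real.sqrt_pos.2 hA.det_pos
  have sB : 0 < Real.sqrt B.det := Real.sqrt_pos.2 hB.det_pos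
  have pA : 0 < ∫ v, Real.exp (-Real.pi * qf A v) := by
    by_contra hneg
    push Not at hneg
    have := mul_nonpos_of_nonneg_of_nonpos sA.le hneg
    linarith
  have hsq : Real.sqrt B.det ≤ Real.sqrt A.det := by
    by_contra hlt
    push Not at hlt
    have : Real.sqrt A.det * ∫ v, Real.exp (-Real.pi * qf A v) <
        Real.sqrt B.det * ∫ v, Real.exp (-Real.pi * qf B v) :=
      lt_of_lt_of_le (mul_lt_mul_of_pos_right hlt pA) (mul_le_mul_of_nonneg_left hle sB.le)
    rw [eA, eB] at this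
    exact lt_irrefl _ this
  exact (Real.sqrt_le_sqrt_iff hA.det_pos.le).1 hsq

end GB

theorem stmt_GB1 : Stmt_GB1 := by
  intro ι _ _
  exact ⟨⟨GB.gd_integrable, GB.gd_integral⟩, GB.exists_factor, GB.change, GB.integrable_gH,
    GB.det_mono, GB.integrable_seminorm_gH, GB.integrable_seminorm_gd⟩

end Pool.Agent.Work.MP_b10815_co_flt
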