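import Pool.Agent.Work.MP_b10815_co_flt.Interface

/-!
# Volume comparisons (blocks VOL1, VOL2, VOL3)
-/

open MeasureTheory Matrix Set
open scoped ENNReal

namespace Pool.Agent.Work.MP_b10815_co_flt

namespace VOL

variable {ι κ : Type} [Fintype ι] [Fintype κ]

theorem vol_smul (r : ℝ) (hr : r ≠ 0) (s : Set (ι → ℝ)) :
    volume ((fun x : ι → ℝ => r • x) ⁻¹' s) =
      ENNReal.ofReal |(r ^ Fintype.card ι)⁻¹| * volume s := by
  have := Measure.addHaar_preimage_smul (volume : Measure (ι → ℝ)) hr s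
  rwa [Module.finrank_fintype_fun_eq_card] at this

theorem vol_sub (a : ι → ℝ) {s : Set (ι → ℝ)} (hs : MeasurableSet s) :
    volume ((fun x : ι → ℝ => x - a) ⁻¹' s) = volume s :=
  (measurePreserving_sub_right volume a).measure_preimage hs.nullMeasurableSet

theorem vol_aff (r : ℝ) (hr : r ≠ 0) (a : ι → ℝ) {s : Set (ι → ℝ)} (hs : MeasurableSet s) :
    volume {x : ι → ℝ | r • x - a ∈ s} = ENNReal.ofReal |(r ^ Fintype.card ι)⁻¹| * volume s := by
  have h : {x : ι → ℝ | r • x - a ∈ s} =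
      (fun x : ι → ℝ => r • x) ⁻¹' ((fun x : ι → ℝ => x - a) ⁻¹' s) := rfl
  rw [h, vol_smul r hr, vol_sub a hs]

theorem abs_two (n : ℕ) : ENNReal.ofReal |((2 : ℝ) ^ n)⁻¹| = (2 ^ n)⁻¹ := by
  rw [abs_of_pos (by positivity), ENNReal.ofReal_inv_of_pos (by positivity),
    ENNReal.ofReal_pow (by norm_num)]
  norm_num

theorem abs_half (n : ℕ) : ENNReal.ofReal |(((1 : ℝ) / 2) ^ n)⁻¹| = 2 ^ n := by
  rw [← inv_pow, abs_of_pos (by positivity), ENNReal.ofReal_pow (by norm_num)]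
  norm_num

theorem two_pow_ne_zero (n : ℕ) : (2 : ℝ≥0∞) ^ n ≠ 0 := pow_ne_zero _ (by norm_num)

theorem two_pow_ne_top (n : ℕ) : (2 : ℝ≥0∞) ^ n ≠ ⊤ := ENNReal.pow_ne_top (by norm_num)

theorem swap_lemma (K : Set (ι → ℝ)) (hK : MeasurableSet K)
    (φ : (ι → ℝ) × (ι → ℝ) → (ι → ℝ)) (hφ : Measurable φ) (c : ℝ≥0∞)
    (hc : ∀ y ∈ K, volume {x | φ (x, y) ∈ K} = c) :
    ∫⁻ x, volume (K ∩ {y | φ (x, y) ∈ K}) = c * volume K := by
  obtain ⟨S, hS⟩ : ∃ S : Set ((ι → ℝ) × (ι → ℝ)), S = {p | p.2 ∈ K ∧ φ p ∈ K} := ⟨_, rfl⟩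
  have hSm : MeasurableSet S := by
    rw [hS]
    exact (measurable_snd hK).inter (hφ hK)
  have h1 := Measure.prod_apply (μ := (volume : Measure (ι → ℝ)))
    (ν := (volume : Measure (ι → ℝ))) hSm
  have h2 := Measure.prod_apply_symm (μ := (volume : Measure (ι → ℝ)))
    (ν := (volume : Measure (ι → ℝ))) hSm
  have e1 : ∀ x, Prod.mk x ⁻¹' S = K ∩ {y | φ (x, y) ∈ K} := fun x => by rw [hS]; rfl
  have e2 : ∀ y, volume ((fun x => (x, y)) ⁻¹' S) = K.indicator (fun _ => c) y := by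
    intro y
    by_cases hy : y ∈ K
    · rw [indicator_of_mem hy, ← hc y hy]
      congr 1
      ext x
      simp [hS, hy]
    · rw [indicator_of_notMem hy]
      have : (fun x => (x, y)) ⁻¹' S = ∅ := by
        ext x
        simp [hS, hy]
      rw [this, measure_empty]
  simp only [e1] at h1
  simp only [e2] at h2
  rw [← h1, h2, lintegral_indicator hK, setLIntegral_const]

theorem le_real_of {A B : Set (ι → ℝ)} {m : ℕ} (hB : volume B ≠ ⊤)
    (h : volume A ≤ 2 ^ m * volume B) : volume.real A ≤ 2 ^ m * volume.real B := by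
  unfold Measure.real
  have h1 : (2 : ℝ≥0∞) ^ m * volume B ≠ ⊤ := ENNReal.mul_ne_top (two_pow_ne_top m) hB
  have h2 := ENNReal.toReal_mono h1 h
  rw [ENNReal.toReal_mul, ENNReal.toReal_pow] at h2
  simpa using h2

/-- VOL1 -/
theorem stmt_VOL1 : Stmt_VOL1 := by
  intro ι _ K hKc hKx hKi
  have hKm : MeasurableSet K := hKc.isClosed.measurableSet
  have hK0 : volume K ≠ 0 := by
    have h1 : 0 < volume (interior K) := isOpen_interior.measure_pos volume hKi
    exact (h1.trans_le (measure_mono interior_subset)).ne'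
  have hKt : volume K ≠ ⊤ := hKc.measure_lt_top.ne
  have key := swap_lemma K hKm (fun p => (2 : ℝ) • p.1 - p.2)
    ((measurable_fst.const_smul (2 : ℝ)).sub measurable_snd)
    ((2 ^ Fintype.card ι)⁻¹ * volume K) (fun y _ => by
      have := vol_aff (2 : ℝ) two_ne_zero y hKm
      rw [abs_two] at this
      exact this)
  have hz : ∀ x ∉ K, volume (K ∩ {y | (2 : ℝ) • x - y ∈ K}) = 0 := by
    intro x hx
    have : K ∩ {y | (2 : ℝ) • x - y ∈ K} = ∅ := by
      ext y
      simp only [mem_inter_iff, mem_ofPred_eq, mem_empty_iff_false, iff_false, not_and]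
      intro hy hy2
      apply hx
      have := hKx hy hy2 (show (0 : ℝ) ≤ 1 / 2 by norm_num) (show (0 : ℝ) ≤ 1 / 2 by norm_num)
        (by norm_num)
      have e : (1 / 2 : ℝ) • y + (1 / 2 : ℝ) • ((2 : ℝ) • x - y) = x := by
        ext i
        simp
        ring
      rwa [e] at this
    rw [this, measure_empty]
  have hset : ∫⁻ x in K, volume (K ∩ {y | (2 : ℝ) • x - y ∈ K}) =
      ∫⁻ x, volume (K ∩ {y | (2 : ℝ) • x - y ∈ K}) := by
    rw [← lintegral_indicator hKm]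
    refine lintegral_congr fun x => ?_
    by_cases hx : x ∈ K
    · rw [indicator_of_mem hx]
    · rw [indicator_of_notMem hx, hz x hx]
  have hfin : ∫⁻ x in K, volume (K ∩ {y | (2 : ℝ) • x - y ∈ K}) ≠ ⊤ := by
    rw [hset, key]
    refine ENNReal.mul_ne_top (ENNReal.mul_ne_top ?_ hKt) hKt
    exact ENNReal.inv_ne_top.2 (two_pow_ne_zero _)
  obtain ⟨c, hc, hc2⟩ := exists_setLAverage_le hK0 hKm.nullMeasurableSet hfin
  refine ⟨c, hc, ?_⟩
  rw [setLAverage_eq, hset, key, mul_div_assoc, ENNReal.div_self hK0 hKt, mul_one] at hc2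
  refine le_real_of (ne_top_of_le_ne_top hKt (measure_mono inter_subset_left)) ?_
  have h3 : volume K = 2 ^ Fintype.card ι * ((2 ^ Fintype.card ι)⁻¹ * volume K) := by
    rw [← mul_assoc, ENNReal.mul_inv_cancel (two_pow_ne_zero _) (two_pow_ne_top _), one_mul]
  rw [h3]
  gcongr

/-- VOL2 -/
theorem stmt_VOL2 : Stmt_VOL2 := by
  intro ι _ K hKc hKx hKi
  have hKm : MeasurableSet K := hKc.isClosed.measurableSet
  have hK0 : volume K ≠ 0 := by
    have h1 : 0 < volume (interior K) := isOpen_interior.measure_pos volume hKi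
    exact (h1.trans_le (measure_mono interior_subset)).ne'
  have hKt : volume K ≠ ⊤ := hKc.measure_lt_top.ne
  obtain ⟨D, hD⟩ : ∃ D : Set (ι → ℝ), D = {x | ∃ a ∈ K, ∃ b ∈ K, x = a - b} := ⟨_, rfl⟩
  rw [← hD]
  have hDc : IsCompact D := by
    have : D = (fun p : (ι → ℝ) × (ι → ℝ) => p.1 - p.2) '' (K ×ˢ K) := by
      rw [hD]
      ext x
      constructor
      · rintro ⟨a, ha, b, hb, rfl⟩
        exact ⟨(a, b), ⟨ha, hb⟩, rfl⟩
      · rintro ⟨⟨a, b⟩, ⟨ha, hb⟩, rfl⟩
        exact ⟨a, ha, b, hb, rfl⟩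
    rw [this]
    exact (hKc.prod hKc).image (continuous_fst.sub continuous_snd)
  have hDm : MeasurableSet D := hDc.isClosed.measurableSet
  have key := swap_lemma K hKm (fun p => p.2 - p.1)
    (measurable_snd.sub measurable_fst) (volume K) (fun y _ =>
      (Measure.measurePreserving_sub_left volume y).measure_preimage hKm.nullMeasurableSet)
  have hge : ∀ x ∈ (fun x : ι → ℝ => (2 : ℝ) • x) ⁻¹' D,
      (2 ^ Fintype.card ι)⁻¹ * volume K ≤ volume (K ∩ {y | y - x ∈ K}) := by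
    intro x hx
    rw [hD] at hx
    obtain ⟨a, ha, b, hb, hab⟩ := hx
    have h1 := vol_aff (2 : ℝ) two_ne_zero a hKm
    rw [abs_two] at h1
    rw [← h1]
    refine measure_mono fun z hz => ⟨?_, ?_⟩
    · have := hKx hz ha (show (0 : ℝ) ≤ 1 / 2 by norm_num) (show (0 : ℝ) ≤ 1 / 2 by norm_num)
        (by norm_num)
      have e : (1 / 2 : ℝ) • ((2 : ℝ) • z - a) + (1 / 2 : ℝ) • a = z := by
        ext i
        simp
        ring
      rwa [e] at this
    · have := hKx hz hb (show (0 : ℝ) ≤ 1 / 2 by norm_num) (show (0 : ℝ) ≤ 1 / 2 by norm_num)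
        (by norm_num)
      have e : (1 / 2 : ℝ) • ((2 : ℝ) • z - a) + (1 / 2 : ℝ) • b = z - x := by
        ext i
        have := congrFun hab i
        simp at this ⊢
        linarith
      rwa [e] at this
  have h2 : (2 ^ Fintype.card ι)⁻¹ * volume K * ((2 ^ Fintype.card ι)⁻¹ * volume D) ≤
      volume K * volume K := by
    rw [← key, ← abs_two, ← vol_smul (2 : ℝ) two_ne_zero D, abs_two, ← setLIntegral_const]
    calc ∫⁻ _ in (fun x : ι → ℝ => (2 : ℝ) • x) ⁻¹' D, (2 ^ Fintype.card ι)⁻¹ * volume K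
        ≤ ∫⁻ x in (fun x : ι → ℝ => (2 : ℝ) • x) ⁻¹' D, volume (K ∩ {y | y - x ∈ K}) :=
          setLIntegral_mono' ((measurable_id.const_smul (2 : ℝ)) hDm) hge
      _ ≤ ∫⁻ x, volume (K ∩ {y | y - x ∈ K}) := setLIntegral_le_lintegral _ _
  have h3 : volume D ≤ 2 ^ (2 * Fintype.card ι) * volume K := by
    have e1 : volume K * ((2 ^ Fintype.card ι)⁻¹ * ((2 ^ Fintype.card ι)⁻¹ * volume D)) ≤
        volume K * volume K := by
      refine le_of_eq_of_le ?_ h2
      ring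
    have e2 := (ENNReal.mul_le_mul_iff_right hK0 hKt).1 e1
    have e3 : volume D = 2 ^ Fintype.card ι * (2 ^ Fintype.card ι *
        ((2 ^ Fintype.card ι)⁻¹ * ((2 ^ Fintype.card ι)⁻¹ * volume D))) := by
      rw [← mul_assoc (2 ^ Fintype.card ι) ((2 ^ Fintype.card ι)⁻¹),
        ENNReal.mul_inv_cancel (two_pow_ne_zero _) (two_pow_ne_top _), one_mul, ← mul_assoc,
        ENNReal.mul_inv_cancel (two_pow_ne_zero _) (two_pow_ne_top _), one_mul]
    rw [e3, two_mul, pow_add, mul_assoc]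
    gcongr
  have h4 := le_real_of hKt h3
  have e4 : (2 : ℝ) ^ (2 * Fintype.card ι) = 4 ^ Fintype.card ι := by
    rw [pow_mul]; norm_num
  rwa [e4] at h4

/-- Fubini for sum types. -/
theorem vol_sum (K : Set (ι ⊕ κ → ℝ)) (hK : MeasurableSet K) :
    volume K = ∫⁻ x : ι → ℝ, volume {w : κ → ℝ | (Sum.elim x w : ι ⊕ κ → ℝ) ∈ K} := by
  have h1 := (volume_measurePreserving_sumPiEquivProdPi_symm (fun _ : ι ⊕ κ => ℝ)).measure_preimage
    hK.nullMeasurableSet
  have h2 : MeasurableSet ((MeasurableEquiv.sumPiEquivProdPi (fun _ : ι ⊕ κ => ℝ)).symm ⁻¹' K) :=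
    (MeasurableEquiv.sumPiEquivProdPi (fun _ : ι ⊕ κ => ℝ)).symm.measurable hK
  rw [← h1]
  rw [show (volume : Measure ((ι → ℝ) × (κ → ℝ))) = (volume : Measure (ι → ℝ)).prod volume from rfl,
    Measure.prod_apply h2]
  refine lintegral_congr fun x => ?_
  congr 1

omit [Fintype ι] [Fintype κ] in
theorem elim_comb (a b : ℝ) (x y : ι → ℝ) (z w : κ → ℝ) :
    a • (Sum.elim x z : ι ⊕ κ → ℝ) + b • (Sum.elim y w : ι ⊕ κ → ℝ) =
      Sum.elim (a • x + b • y) (a • z + b • w) := by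
  ext i
  rcases i with i | i <;> simp

omit [Fintype ι] [Fintype κ] in
theorem elim_self (v : ι ⊕ κ → ℝ) : (Sum.elim (v ∘ Sum.inl) (v ∘ Sum.inr) : ι ⊕ κ → ℝ) = v := by
  ext i
  rcases i with i | i <;> simp

/-- VOL3 -/
theorem stmt_VOL3 : Stmt_VOL3 := by
  intro ι κ _ _ K hKc hKx hKi hsym
  obtain ⟨d, hd⟩ : ∃ d, d = Fintype.card ι := ⟨_, rfl⟩
  obtain ⟨e, he⟩ : ∃ e, e = Fintype.card κ := ⟨_, rfl⟩
  have hN : Fintype.card (ι ⊕ κ) = d + e := by rw [Fintype.card_sum, hd, he]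
  rw [hN] at hsym ⊢
  have hKm : MeasurableSet K := hKc.isClosed.measurableSet
  have hK0 : volume K ≠ 0 := by
    have h1 : 0 < volume (interior K) := isOpen_interior.measure_pos volume hKi
    exact (h1.trans_le (measure_mono interior_subset)).ne'
  have hKt : volume K ≠ ⊤ := hKc.measure_lt_top.ne
  obtain ⟨K', hK'⟩ : ∃ K' : Set (ι ⊕ κ → ℝ), K' = K ∩ {x | -x ∈ K} := ⟨_, rfl⟩
  rw [← hK'] at hsym ⊢
  have hK'c : IsCompact K' := by
    rw [hK']
    exact hKc.inter_right (hKc.isClosed.preimage continuous_neg)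
  have hK'm : MeasurableSet K' := hK'c.isClosed.measurableSet
  have hK't : volume K' ≠ ⊤ := hK'c.measure_lt_top.ne
  have hK'x : Convex ℝ K' := by
    rw [hK']
    refine hKx.inter ?_
    intro x hx y hy a b ha hb hab
    have := hKx hx hy ha hb hab
    have e : a • (-x) + b • (-y) = -(a • x + b • y) := by
      rw [smul_neg, smul_neg]; abel
    rw [e] at this
    exact this
  have hK's : ∀ x ∈ K', -x ∈ K' := by
    intro x hx
    rw [hK'] at hx ⊢
    exact ⟨hx.2, by simpa using hx.1⟩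
  have hsub : K' ⊆ K := by rw [hK']; exact inter_subset_left
  -- the inequality between volumes in `ENNReal`
  have hsym' : volume K ≤ 2 ^ (d + e) * volume K' := by
    unfold Measure.real at hsym
    rw [← ENNReal.toReal_le_toReal hKt (ENNReal.mul_ne_top (two_pow_ne_top _) hK't),
      ENNReal.toReal_mul, ENNReal.toReal_pow]
    simpa using hsym
  -- projections
  obtain ⟨D, hD⟩ : ∃ D : Set (ι → ℝ), D = (fun v : ι ⊕ κ → ℝ => v ∘ Sum.inl) '' K := ⟨_, rfl⟩
  obtain ⟨D', hD'⟩ : ∃ D' : Set (ι → ℝ), D' = (fun v : ι ⊕ κ → ℝ => v ∘ Sum.inl) '' K' :=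
    ⟨_, rfl⟩
  have hcont : Continuous (fun v : ι ⊕ κ → ℝ => v ∘ Sum.inl) :=
    continuous_pi fun i => continuous_apply (Sum.inl i)
  have hDm : MeasurableSet D := by
    rw [hD]; exact (hKc.image hcont).isClosed.measurableSet
  have hD'c : IsCompact D' := by rw [hD']; exact hK'c.image hcont
  have hD'm : MeasurableSet D' := hD'c.isClosed.measurableSet
  rw [← hD, ← hD']
  have hel : ∀ x : ι → ℝ, Continuous (fun w : κ → ℝ => (Sum.elim x w : ι ⊕ κ → ℝ)) := by
    intro x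
    refine continuous_pi fun i => ?_
    rcases i with i | i
    · exact continuous_const
    · exact continuous_apply i
  -- sections over zero
  obtain ⟨K₀, hK₀⟩ : ∃ K₀ : Set (κ → ℝ), K₀ = {w | (Sum.elim (0 : ι → ℝ) w : ι ⊕ κ → ℝ) ∈ K} := ⟨_, rfl⟩
  obtain ⟨K₀', hK₀'⟩ : ∃ K₀' : Set (κ → ℝ), K₀' = {w | (Sum.elim (0 : ι → ℝ) w : ι ⊕ κ → ℝ) ∈ K'} :=
    ⟨_, rfl⟩
  have hK₀m : MeasurableSet K₀ := by
    rw [hK₀]; exact (hKc.isClosed.preimage (hel 0)).measurableSet
  have hK₀'m : MeasurableSet K₀' := by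
    rw [hK₀']; exact (hK'c.isClosed.preimage (hel 0)).measurableSet
  have hK₀s : K₀' ⊆ K₀ := by
    rw [hK₀, hK₀']; exact fun w hw => hsub hw
  -- lower bound for `vol K`
  have lower : (2 ^ e)⁻¹ * volume K₀ * ((2 ^ d)⁻¹ * volume D) ≤ volume K := by
    rw [vol_sum K hKm]
    have hge : ∀ x ∈ (fun x : ι → ℝ => (2 : ℝ) • x) ⁻¹' D,
        (2 ^ e)⁻¹ * volume K₀ ≤ volume {w : κ → ℝ | (Sum.elim x w : ι ⊕ κ → ℝ) ∈ K} := by
      intro x hx
      rw [hD] at hx
      obtain ⟨b, hb, hbx⟩ := hx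
      have h1 := vol_aff (2 : ℝ) two_ne_zero (b ∘ Sum.inr) hK₀m
      rw [abs_two, ← he] at h1
      rw [← h1]
      refine measure_mono fun w hw => ?_
      rw [hK₀] at hw
      have := hKx hw hb (show (0 : ℝ) ≤ 1 / 2 by norm_num) (show (0 : ℝ) ≤ 1 / 2 by norm_num)
        (by norm_num)
      have e : (1 / 2 : ℝ) • (Sum.elim (0 : ι → ℝ) ((2 : ℝ) • w - b ∘ Sum.inr) : ι ⊕ κ → ℝ) +
          (1 / 2 : ℝ) • b = Sum.elim x w := by
        ext i
        rcases i with i | i
        · have := congrFun hbx i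
          simp at this ⊢
          linarith
        · simp
          ring
      rwa [e] at this
    have e1 := vol_smul (2 : ℝ) two_ne_zero D
    rw [abs_two, ← hd] at e1
    rw [← e1, ← setLIntegral_const]
    calc ∫⁻ _ in (fun x : ι → ℝ => (2 : ℝ) • x) ⁻¹' D, (2 ^ e)⁻¹ * volume K₀
        ≤ ∫⁻ x in (fun x : ι → ℝ => (2 : ℝ) • x) ⁻¹' D,
            volume {w : κ → ℝ | (Sum.elim x w : ι ⊕ κ → ℝ) ∈ K} :=
          setLIntegral_mono' ((measurable_id.const_smul (2 : ℝ)) hDm) hge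
      _ ≤ _ := setLIntegral_le_lintegral _ _
  -- upper bound for `vol K'`
  have upper : volume K' ≤ 2 ^ e * volume K₀' * volume D' := by
    rw [vol_sum K' hK'm]
    have hle : ∀ x : ι → ℝ, volume {w : κ → ℝ | (Sum.elim x w : ι ⊕ κ → ℝ) ∈ K'} ≤
        D'.indicator (fun _ => 2 ^ e * volume K₀') x := by
      intro x
      by_cases hx : x ∈ D'
      · rw [indicator_of_mem hx]
        rw [hD'] at hx
        obtain ⟨b, hb, hbx⟩ := hx
        have h1 := vol_aff ((1 : ℝ) / 2) (by norm_num) ((1 / 2 : ℝ) • (b ∘ Sum.inr)) hK₀'m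
        rw [abs_half, ← he] at h1
        rw [← h1]
        refine measure_mono fun w hw => ?_
        have := hK'x hw (hK's b hb) (show (0 : ℝ) ≤ 1 / 2 by norm_num)
          (show (0 : ℝ) ≤ 1 / 2 by norm_num) (by norm_num)
        have e : (1 / 2 : ℝ) • (Sum.elim x w : ι ⊕ κ → ℝ) + (1 / 2 : ℝ) • (-b) =
            Sum.elim (0 : ι → ℝ) ((1 / 2 : ℝ) • w - (1 / 2 : ℝ) • (b ∘ Sum.inr)) := by
          ext i
          rcases i with i | i
          · have := congrFun hbx i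
            simp at this ⊢
            linarith
          · simp
            ring
        rw [e] at this
        rw [hK₀']
        exact this
      · rw [indicator_of_notMem hx]
        have : {w : κ → ℝ | (Sum.elim x w : ι ⊕ κ → ℝ) ∈ K'} = ∅ := by
          ext w
          simp only [mem_ofPred_eq, mem_empty_iff_false, iff_false]
          intro hw
          apply hx
          rw [hD']
          exact ⟨Sum.elim x w, hw, by ext i; simp⟩
        rw [this, measure_empty]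
    refine (lintegral_mono hle).trans (le_of_eq ?_)
    rw [lintegral_indicator hD'm, setLIntegral_const]
  have hK'0 : volume K' ≠ 0 := by
    intro h
    rw [h, mul_zero] at hsym'
    exact hK0 (le_antisymm hsym' (zero_le))
  have hK₀0 : volume K₀ ≠ 0 := by
    intro h
    have h2 : volume K₀' = 0 := le_antisymm ((measure_mono hK₀s).trans h.le) (zero_le)
    rw [h2, mul_zero, zero_mul] at upper
    exact hK'0 (le_antisymm upper (zero_le))
  have hK₀t : volume K₀ ≠ ⊤ := by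
    have : IsCompact K₀ := by
      have h3 : K₀ = (fun v : ι ⊕ κ → ℝ => v ∘ Sum.inr) '' (K ∩ {v | v ∘ Sum.inl = 0}) := by
        ext w
        rw [hK₀]
        constructor
        · intro hw
          exact ⟨Sum.elim (0 : ι → ℝ) w, ⟨hw, by ext i; simp⟩, by ext i; simp⟩
        · rintro ⟨v, ⟨hv, hv0⟩, rfl⟩
          have : (Sum.elim (0 : ι → ℝ) (v ∘ Sum.inr) : ι ⊕ κ → ℝ) = v := by
            rw [← (show v ∘ Sum.inl = 0 from hv0), elim_self]
          show (Sum.elim (0 : ι → ℝ) (v ∘ Sum.inr) : ι ⊕ κ → ℝ) ∈ K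
          rw [this]; exact hv
      rw [h3]
      refine (hKc.inter_right ?_).image (continuous_pi fun i => continuous_apply (Sum.inr i))
      exact isClosed_eq hcont continuous_const
    exact this.measure_lt_top.ne
  have h5 : (2 ^ e)⁻¹ * volume K₀ * ((2 ^ d)⁻¹ * volume D) ≤
      2 ^ (d + e) * (2 ^ e * volume K₀ * volume D') := by
    refine lower.trans (hsym'.trans ?_)
    gcongr
    refine upper.trans ?_
    gcongr
  have h6 : volume D ≤ 2 ^ (2 * d + 3 * e) * volume D' := by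
    have e1 : volume K₀ * ((2 ^ e)⁻¹ * ((2 ^ d)⁻¹ * volume D)) ≤
        volume K₀ * (2 ^ (d + e) * (2 ^ e * volume D')) := by
      refine (le_of_eq ?_).trans (h5.trans (le_of_eq ?_)) <;> ring
    have e2 := (ENNReal.mul_le_mul_iff_right hK₀0 hK₀t).1 e1
    have e3 : volume D = 2 ^ d * (2 ^ e * ((2 ^ e)⁻¹ * ((2 ^ d)⁻¹ * volume D))) := by
      rw [← mul_assoc (2 ^ e) ((2 ^ e)⁻¹),
        ENNReal.mul_inv_cancel (two_pow_ne_zero _) (two_pow_ne_top _), one_mul, ← mul_assoc,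
        ENNReal.mul_inv_cancel (two_pow_ne_zero _) (two_pow_ne_top _), one_mul]
    rw [e3]
    calc 2 ^ d * (2 ^ e * ((2 ^ e)⁻¹ * ((2 ^ d)⁻¹ * volume D)))
        ≤ 2 ^ d * (2 ^ e * (2 ^ (d + e) * (2 ^ e * volume D'))) := by gcongr
      _ = 2 ^ (2 * d + 3 * e) * volume D' := by ring
  have h7 := le_real_of hD'c.measure_lt_top.ne h6
  refine h7.trans ?_
  have e8 : (8 : ℝ) ^ (d + e) = 2 ^ (3 * (d + e)) := by rw [pow_mul]; norm_num
  rw [e8]
  refine mul_le_mul_of_nonneg_right (pow_le_pow_right₀ (by norm_num) (by omega)) ?_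
  exact measureReal_nonneg

end VOL

theorem stmt_VOL1 : Stmt_VOL1 := VOL.stmt_VOL1
theorem stmt_VOL2 : Stmt_VOL2 := VOL.stmt_VOL2
theorem stmt_VOL3 : Stmt_VOL3 := VOL.stmt_VOL3

end Pool.Agent.Work.MP_b10815_co_flt
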