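import Pool.Agent.Work.MP_b10815_co_flt.DHC
set_option autoImplicit false
set_option linter.unusedSectionVars false

/-!
# Voronoi cells (block VOR)
-/

namespace Pool.Agent.Work.MP_b10815_co_flt

open MeasureTheory Matrix

namespace VOR

variable {ι : Type} [Fintype ι]

/-- The lattice as an additive subgroup. -/
noncomputable def zcHom (ι : Type) : (ι → ℤ) →+ (ι → ℝ) where
  toFun := zc
  map_zero' := by ext i; simp [zc]
  map_add' := fun z w => by ext i; simp [zc]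

/-- The lattice `ℤ^ι`. -/
noncomputable def Lat (ι : Type) : AddSubgroup (ι → ℝ) := (zcHom ι).range

theorem mem_Lat {x : ι → ℝ} : x ∈ Lat ι ↔ ∃ z : ι → ℤ, zc z = x := Iff.rfl

instance : Countable (Lat ι) := by
  have : (Set.range (zc : (ι → ℤ) → ι → ℝ)).Countable := Set.countable_range _
  exact this.to_subtype

theorem measurableSet_cube : MeasurableSet (cube ι) := by
  have : cube ι = ⋂ i, {u : ι → ℝ | 0 ≤ u i ∧ u i < 1} := by
    ext u; simp [cube]
  rw [this]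
  refine MeasurableSet.iInter fun i => ?_
  exact (measurableSet_le measurable_const (measurable_pi_apply i)).inter
    (measurableSet_lt (measurable_pi_apply i) measurable_const)

theorem cube_fund : IsAddFundamentalDomain (Lat ι) (cube ι) volume := by
  refine IsAddFundamentalDomain.mk' measurableSet_cube.nullMeasurableSet fun x => ?_
  refine ⟨⟨zc (fun i => -⌊x i⌋), _, rfl⟩, ?_, ?_⟩
  · show ∀ i, _
    intro i
    rw [AddSubgroup.vadd_def, vadd_eq_add]
    simp only [Pi.add_apply, zc, Int.cast_neg]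
    constructor
    · linarith [Int.floor_le (x i)]
    · linarith [Int.lt_floor_add_one (x i)]
  · rintro ⟨_, z, rfl⟩ h
    apply Subtype.ext
    show zc z = _
    congr 1
    ext i
    have h1 := h i
    rw [AddSubgroup.vadd_def, vadd_eq_add] at h1
    simp only [Pi.add_apply] at h1
    have h2 : (zcHom ι) z i = (z i : ℝ) := rfl
    rw [h2] at h1
    have h3 : ⌊x i⌋ = -z i := by
      rw [Int.floor_eq_iff]
      push_cast
      constructor <;> linarith [h1.1, h1.2]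
    omega

theorem volume_cube : volume.real (cube ι) = 1 := by
  have : cube ι = Set.univ.pi fun _ : ι => Set.Ico (0 : ℝ) 1 := by
    ext u; simp [cube, Set.mem_pi]
  rw [this, measureReal_def, Real.volume_pi_Ico]
  simp

/-- Hyperplanes are null sets. -/
theorem hyperplane_null {w : ι → ℝ} (hw : w ≠ 0) (c : ℝ) :
    volume {v : ι → ℝ | 2 * (v ⬝ᵥ w) = c} = 0 := by
  rcases Set.eq_empty_or_nonempty {v : ι → ℝ | 2 * (v ⬝ᵥ w) = c} with h | ⟨v0, hv0⟩
  · rw [h]; simp
  set f : (ι → ℝ) →ₗ[ℝ] ℝ :=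
    { toFun := fun v => v ⬝ᵥ w
      map_add' := fun a b => add_dotProduct a b w
      map_smul' := fun a b => by simp } with hf
  have hset : {v : ι → ℝ | 2 * (v ⬝ᵥ w) = c} =
      (AffineSubspace.mk' v0 (LinearMap.ker f) : Set (ι → ℝ)) := by
    ext v
    rw [SetLike.mem_coe, AffineSubspace.mem_mk', LinearMap.mem_ker, vsub_eq_sub, map_sub]
    have h1 : 2 * (v0 ⬝ᵥ w) = c := hv0
    have h2 : f v = v ⬝ᵥ w := rfl
    have h3 : f v0 = v0 ⬝ᵥ w := rfl
    rw [h2, h3]
    show 2 * (v ⬝ᵥ w) = c ↔ _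
    constructor <;> intro h <;> linarith
  rw [hset]
  apply Measure.addHaar_affineSubspace
  intro htop
  apply hw
  have h1 : v0 + w ∈ (AffineSubspace.mk' v0 (LinearMap.ker f)) := by
    rw [htop]; trivial
  rw [AffineSubspace.mem_mk', vsub_eq_sub, add_sub_cancel_left, LinearMap.mem_ker] at h1
  have h2 : w ⬝ᵥ w = 0 := h1
  exact dotProduct_self_eq_zero.1 h2

theorem H_zc_ne {H : Matrix ι ι ℝ} (hH : H.PosDef) {w : ι → ℝ} (hw : w ≠ 0) : H *ᵥ w ≠ 0 := by
  intro h
  have := QF.pos hH hw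
  unfold qf at this
  rw [h, dotProduct_zero] at this
  exact lt_irrefl _ this

theorem closed (H : Matrix ι ι ℝ) : IsClosed (Vor H) := by
  have : Vor H = ⋂ z : ι → ℤ, {v : ι → ℝ | 2 * (v ⬝ᵥ (H *ᵥ zc z)) ≤ qf H (zc z)} := by
    ext v; simp [Vor]
  rw [this]
  refine isClosed_iInter fun z => isClosed_le ?_ continuous_const
  unfold dotProduct
  fun_prop

theorem convex (H : Matrix ι ι ℝ) : Convex ℝ (Vor H) := by
  intro v hv w hw a b ha hb hab z
  rw [add_dotProduct, smul_dotProduct, smul_dotProduct, smul_eq_mul, smul_eq_mul]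
  have h1 := hv z
  have h2 := hw z
  calc _ = a * (2 * (v ⬝ᵥ H *ᵥ zc z)) + b * (2 * (w ⬝ᵥ H *ᵥ zc z)) := by ring
    _ ≤ a * qf H (zc z) + b * qf H (zc z) :=
      add_le_add (mul_le_mul_of_nonneg_left h1 ha) (mul_le_mul_of_nonneg_left h2 hb)
    _ = _ := by rw [← add_mul, hab, one_mul]

theorem neg_mem {H : Matrix ι ι ℝ} {v : ι → ℝ} (hv : v ∈ Vor H) : -v ∈ Vor H := by
  intro z
  have h1 := hv (-z)
  rw [QF.zc_neg, QF.neg, mulVec_neg, dotProduct_neg] at h1
  rw [neg_dotProduct]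
  linarith

theorem mem_iff {H : Matrix ι ι ℝ} (hH : H.PosDef) {v : ι → ℝ} :
    v ∈ Vor H ↔ ∀ z : ι → ℤ, qf H v ≤ qf H (v - zc z) := by
  constructor
  · intro h z
    have := h z
    rw [QF.sub hH]
    linarith
  · intro h z
    have := h z
    rw [QF.sub hH] at this
    linarith

theorem dH_eq {H : Matrix ι ι ℝ} (hH : H.PosDef) {v : ι → ℝ} (hv : v ∈ Vor H) :
    dH H v = qf H v := by
  apply le_antisymm
  · have := DHC.le hH v 0
    rwa [QF.zc_zero, sub_zero] at this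
  · exact le_ciInf fun z => (mem_iff hH).1 hv z

theorem dH_lt {H : Matrix ι ι ℝ} (hH : H.PosDef) {v : ι → ℝ} (hv : v ∉ Vor H) :
    dH H v < qf H v := by
  rw [mem_iff hH] at hv
  push Not at hv
  obtain ⟨z, hz⟩ := hv
  exact (DHC.le hH v z).trans_lt hz

theorem covers [DecidableEq ι] {H : Matrix ι ι ℝ} (hH : H.PosDef) (u : ι → ℝ) :
    ∃ z : ι → ℤ, u - zc z ∈ Vor H := by
  obtain ⟨z, hz⟩ := DHC.attained hH u
  refine ⟨z, (mem_iff hH).2 fun w => ?_⟩
  rw [← hz, sub_sub, ← QF.zc_add]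
  exact DHC.le hH u _

/-- Small vectors are in the Voronoi cell. -/
theorem small_mem {H : Matrix ι ι ℝ} (hH : H.PosDef) {m : ℝ}
    (hm : ∀ z : ι → ℤ, z ≠ 0 → m ≤ qf H (zc z)) {v : ι → ℝ} (hv : qf H v ≤ m / 4) :
    v ∈ Vor H := by
  intro z
  by_cases hz : z = 0
  · rw [hz, QF.zc_zero]; simp
  have h1 := hm z hz
  have h2 := QF.nonneg hH ((2 : ℝ) • v - zc z)
  rw [QF.sub hH, QF.smul, smul_dotProduct, smul_eq_mul] at h2
  linarith

theorem min_pos {H : Matrix ι ι ℝ} (hH : H.PosDef) :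
    ∃ c : ℝ, 0 < c ∧ ∀ z : ι → ℤ, z ≠ 0 → c ≤ qf H (zc z) := by
  obtain ⟨c, hc, hcH⟩ := QF.coercive hH
  refine ⟨c, hc, fun z hz => ?_⟩
  obtain ⟨i, hi⟩ := Function.ne_iff.1 hz
  have h1 : (1 : ℝ) ≤ (zc z i) ^ 2 := by
    have h2 : (1 : ℤ) ≤ z i ^ 2 := by
      have h3 : z i ≠ 0 := hi
      have : 0 < z i ^ 2 := by positivity
      omega
    show (1 : ℝ) ≤ (z i : ℝ) ^ 2
    exact_mod_cast h2
  calc c = c * 1 := (mul_one c).symm
    _ ≤ c * (zc z ⬝ᵥ zc z) :=
      mul_le_mul_of_nonneg_left (h1.trans (QF.sq_le_dot _ i)) hc.le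
    _ ≤ qf H (zc z) := hcH _

theorem interior_nonempty {H : Matrix ι ι ℝ} (hH : H.PosDef) : (interior (Vor H)).Nonempty := by
  obtain ⟨c, hc, hmin⟩ := min_pos hH
  refine ⟨0, ?_⟩
  rw [mem_interior]
  refine ⟨{v | qf H v < c / 4}, fun v hv => small_mem hH hmin (le_of_lt hv),
    isOpen_lt (QF.continuous H) continuous_const, ?_⟩
  show qf H 0 < c / 4
  rw [QF.zero]; positivity

theorem bounded {H : Matrix ι ι ℝ} (hH : H.PosDef) : ∃ B : ℝ, 0 < B ∧ ∀ v ∈ Vor H, ‖v‖ ≤ B := by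
  obtain ⟨c, hc, hcH⟩ := QF.coercive hH
  obtain ⟨C, hC, hup⟩ := QF.upper H
  refine ⟨C / c + 1, by positivity, fun v hv => ?_⟩
  rw [pi_norm_le_iff_of_nonneg (by positivity)]
  intro i
  have h1 := (mem_iff hH).1 hv (fun i => round (v i))
  have h2 : ‖v - zc (fun i => round (v i))‖ ≤ 1 := by
    rw [pi_norm_le_iff_of_nonneg zero_le_one]
    intro j
    rw [Real.norm_eq_abs, Pi.sub_apply]
    have h3 : |v j - round (v j)| ≤ 1 / 2 := abs_sub_round (v j)
    have h4 : zc (fun i => round (v i)) j = (round (v j) : ℝ) := rfl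
    rw [h4]
    linarith
  have h3 : qf H v ≤ C := by
    refine h1.trans ((hup _).trans ?_)
    have := norm_nonneg (v - zc (fun i => round (v i)))
    calc C * ‖v - zc (fun i => round (v i))‖ ^ 2 ≤ C * 1 := by
          refine mul_le_mul_of_nonneg_left ?_ hC.le
          nlinarith
      _ = C := mul_one C
  have h4 : c * v i ^ 2 ≤ C := by
    calc c * v i ^ 2 ≤ c * (v ⬝ᵥ v) := mul_le_mul_of_nonneg_left (QF.sq_le_dot v i) hc.le
      _ ≤ _ := hcH v
      _ ≤ C := h3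
  have h5 : v i ^ 2 ≤ C / c := by rw [le_div_iff₀ hc]; linarith
  rw [Real.norm_eq_abs]
  have h6 : |v i| ^ 2 ≤ C / c := by rwa [sq_abs]
  nlinarith [abs_nonneg (v i), sq_nonneg (|v i| - 1)]

theorem compact {H : Matrix ι ι ℝ} (hH : H.PosDef) : IsCompact (Vor H) := by
  obtain ⟨B, hB, hb⟩ := bounded hH
  refine Metric.isCompact_of_isClosed_isBounded (closed H) ?_
  rw [isBounded_iff_forall_norm_le]
  exact ⟨B, hb⟩

theorem ae_strict {H : Matrix ι ι ℝ} (hH : H.PosDef) :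
    ∀ᵐ v : ι → ℝ, v ∈ Vor H → ∀ z : ι → ℤ, z ≠ 0 → 2 * (v ⬝ᵥ (H *ᵥ zc z)) < qf H (zc z) := by
  have h1 : ∀ z : ι → ℤ, ∀ᵐ v : ι → ℝ, z ≠ 0 → 2 * (v ⬝ᵥ (H *ᵥ zc z)) ≠ qf H (zc z) := by
    intro z
    by_cases hz : z = 0
    · exact Filter.Eventually.of_forall fun v h => absurd hz h
    · have h2 := hyperplane_null (H_zc_ne hH (QF.zc_ne_zero hz)) (qf H (zc z))
      have h3 : ∀ᵐ v : ι → ℝ, 2 * (v ⬝ᵥ (H *ᵥ zc z)) ≠ qf H (zc z) := by
        rw [ae_iff]
        simpa using h2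
      filter_upwards [h3] with v hv _
      exact hv
  have h2 := ae_all_iff.2 h1
  filter_upwards [h2] with v hv hvV z hz
  exact lt_of_le_of_ne (hvV z) (hv z hz)

theorem vor_fund [DecidableEq ι] {H : Matrix ι ι ℝ} (hH : H.PosDef) :
    IsAddFundamentalDomain (Lat ι) (Vor H) volume := by
  refine IsAddFundamentalDomain.mk'' (closed H).measurableSet.nullMeasurableSet ?_ ?_ ?_
  · refine Filter.Eventually.of_forall fun x => ?_
    obtain ⟨z, hz⟩ := covers hH x
    refine ⟨⟨zc (-z), -z, rfl⟩, ?_⟩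
    rw [AddSubgroup.vadd_def, vadd_eq_add]
    show zc (-z) + x ∈ Vor H
    rw [QF.zc_neg, neg_add_eq_sub]
    exact hz
  · rintro ⟨_, z, rfl⟩ hg
    have hz : z ≠ 0 := by
      rintro rfl
      apply hg
      apply Subtype.ext
      show zc 0 = (0 : ι → ℝ)
      exact QF.zc_zero
    show volume _ = 0
    refine measure_mono_null ?_
      (hyperplane_null (H_zc_ne hH (QF.zc_ne_zero hz)) (qf H (zc z)))
    rintro v ⟨hv1, hv2⟩
    rw [Set.mem_vadd_set] at hv1
    obtain ⟨w, hw, hwv⟩ := hv1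
    rw [AddSubgroup.vadd_def, vadd_eq_add] at hwv
    have hwv' : zc z + w = v := hwv
    have h1 := hw (-z)
    have h2 := hv2 z
    have h3 : w = v - zc z := by rw [← hwv']; abel
    rw [h3, QF.zc_neg, QF.neg, mulVec_neg, dotProduct_neg, sub_dotProduct] at h1
    show 2 * (v ⬝ᵥ (H *ᵥ zc z)) = qf H (zc z)
    apply le_antisymm h2
    have h4 : zc z ⬝ᵥ (H *ᵥ zc z) = qf H (zc z) := rfl
    rw [h4] at h1
    linarith
  · intro g
    exact (measurePreserving_vadd g volume).quasiMeasurePreserving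

end VOR

/-- VOR. -/
theorem stmt_VOR : Stmt_VOR := by
  intro ι _ _ H hH
  refine ⟨VOR.convex H, VOR.compact hH, fun v hv => VOR.neg_mem hv, VOR.interior_nonempty hH, ?_,
    fun v hv => VOR.dH_eq hH hv, fun v hv => VOR.dH_lt hH hv, fun u => VOR.covers hH u, ?_,
    VOR.ae_strict hH⟩
  · rw [← VOR.volume_cube (ι := ι), measureReal_def, measureReal_def,
      (VOR.vor_fund hH).measure_eq VOR.cube_fund]
  · intro f _ hper
    refine (VOR.vor_fund hH).setIntegral_eq VOR.cube_fund ?_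
    rintro ⟨_, z, rfl⟩ x
    rw [AddSubgroup.vadd_def, vadd_eq_add, add_comm]
    exact hper x z

end Pool.Agent.Work.MP_b10815_co_flt
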