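import Pool.Agent.Work.MP_b10815_co_flt.NRM
import Pool.Agent.Work.MP_b10815_co_flt.GB1
import Pool.Agent.Work.MP_b10815_co_flt.VOR
import Pool.Agent.Work.MP_b10815_co_flt.VOL

/-!
# The contradiction block (block CON)
-/

open MeasureTheory Matrix Set
open scoped ENNReal

namespace Pool.Agent.Work.MP_b10815_co_flt

namespace CON

variable {ι κ : Type} [Fintype ι] [Fintype κ]

/-- the seminorm `x ↦ N (A x)` -/
noncomputable def compM (N : Seminorm ℝ (ι → ℝ)) (A : Matrix ι ι ℝ) : Seminorm ℝ (ι → ℝ) :=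
  N.comp A.mulVecLin

theorem compM_apply (N : Seminorm ℝ (ι → ℝ)) (A : Matrix ι ι ℝ) (x : ι → ℝ) :
    compM N A x = N (A *ᵥ x) := rfl

theorem compM_isNorm [DecidableEq ι] {N : Seminorm ℝ (ι → ℝ)} (hN : IsNorm N) {A : Matrix ι ι ℝ}
    (hA : IsUnit A.det) : IsNorm (compM N A) := by
  intro x hx
  rw [compM_apply] at hx
  have h1 := hN _ hx
  have h2 : A⁻¹ *ᵥ (A *ᵥ x) = x := by
    rw [mulVec_mulVec, nonsing_inv_mul _ hA, one_mulVec]
  rw [← h2, h1, mulVec_zero]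

theorem vol_mulVec [DecidableEq ι] (B : Matrix ι ι ℝ) (hB : B.det ≠ 0) (s : Set (ι → ℝ)) :
    volume {x : ι → ℝ | B *ᵥ x ∈ s} = ENNReal.ofReal |(B.det)⁻¹| * volume s := by
  have h : LinearMap.det (Matrix.toLin' B) ≠ 0 := by rwa [LinearMap.det_toLin']
  have := Measure.addHaar_preimage_linearMap (volume : Measure (ι → ℝ)) h s
  rw [LinearMap.det_toLin'] at this
  exact this

theorem volr_mulVec [DecidableEq ι] (B : Matrix ι ι ℝ) (hB : B.det ≠ 0) (s : Set (ι → ℝ)) :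
    volume.real {x : ι → ℝ | B *ᵥ x ∈ s} = |B.det|⁻¹ * volume.real s := by
  unfold Measure.real
  rw [vol_mulVec B hB, ENNReal.toReal_mul, ENNReal.toReal_ofReal (abs_nonneg _), abs_inv]

theorem volr_smul (r : ℝ) (hr : 0 < r) (s : Set (ι → ℝ)) :
    volume.real {x : ι → ℝ | r • x ∈ s} = (r ^ Fintype.card ι)⁻¹ * volume.real s := by
  unfold Measure.real
  have h := VOL.vol_smul r hr.ne' s
  have h2 : {x : ι → ℝ | r • x ∈ s} = (fun x : ι → ℝ => r • x) ⁻¹' s := rfl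
  rw [h2, h, ENNReal.toReal_mul, ENNReal.toReal_ofReal (abs_nonneg _), abs_of_pos (by positivity)]

omit [Fintype ι] in
theorem ball_scale {N : Seminorm ℝ (ι → ℝ)} {t : ℝ} (ht : 0 < t) :
    {x : ι → ℝ | N x ≤ t} = {x : ι → ℝ | t⁻¹ • x ∈ {x | N x ≤ 1}} := by
  ext x
  simp only [mem_ofPred_eq]
  rw [map_smul_eq_mul, norm_inv, Real.norm_of_nonneg ht.le, inv_mul_le_iff₀ ht, mul_one]

theorem ball_finite {N : Seminorm ℝ (ι → ℝ)} (hN : IsNorm N) {t : ℝ} (ht : 0 < t) :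
    volume {x : ι → ℝ | N x ≤ t} ≠ ⊤ := by
  rw [ball_scale ht]
  have h := VOL.vol_smul t⁻¹ (inv_ne_zero ht.ne') {x : ι → ℝ | N x ≤ 1}
  have h2 : {x : ι → ℝ | t⁻¹ • x ∈ {x : ι → ℝ | N x ≤ 1}} =
    (fun x : ι → ℝ => t⁻¹ • x) ⁻¹' {x : ι → ℝ | N x ≤ 1} := rfl
  rw [h2, h]
  exact ENNReal.mul_ne_top ENNReal.ofReal_ne_top (NRMaux.isCompact_ball N hN).measure_lt_top.ne

theorem volr_ball (N : Seminorm ℝ (ι → ℝ)) {t : ℝ} (ht : 0 < t) :
    volume.real {x : ι → ℝ | N x ≤ t} = t ^ Fintype.card ι * volume.real {x | N x ≤ 1} := by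
  rw [ball_scale ht, volr_smul t⁻¹ (inv_pos.2 ht), inv_pow, inv_inv]

theorem gd_le_one (x : ι → ℝ) : gd x ≤ 1 := by
  unfold gd
  rw [Real.exp_le_one_iff]
  have h1 : 0 ≤ x ⬝ᵥ x := QF.dot_self_nonneg x
  nlinarith [Real.pi_pos]

/-- Markov inequality for Gaussian averages of norms. -/
theorem markov {N : Seminorm ℝ (ι → ℝ)} (hN : IsNorm N) {m t : ℝ} (ht : 0 < t)
    (hm : ∫ x, N x * gd x ≤ m) : 1 - m / t ≤ volume.real {x : ι → ℝ | N x ≤ t} := by
  have hNc := GB.seminorm_continuous N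
  have hSm : MeasurableSet {x : ι → ℝ | N x ≤ t} := (isClosed_le hNc continuous_const).measurableSet
  have h1 : ∫ x : ι → ℝ, gd x = 1 := GB.gd_integral
  have hi := GB.gd_integrable (ι := ι)
  have hiN := GB.integrable_seminorm_gd N
  have h2 : ∫ x : ι → ℝ, gd x ≤ ∫ x : ι → ℝ,
      ({x : ι → ℝ | N x ≤ t}.indicator (fun _ => (1 : ℝ)) x + t⁻¹ * (N x * gd x)) := by
    refine integral_mono hi ?_ fun x => ?_
    · refine Integrable.add ?_ (hiN.const_mul _)
      rw [integrable_indicator_iff hSm]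
      exact integrableOn_const (ball_finite hN ht)
    · by_cases hx : x ∈ {x : ι → ℝ | N x ≤ t}
      · simp only [indicator_of_mem hx]
        have h3 : 0 ≤ t⁻¹ * (N x * gd x) :=
          mul_nonneg (inv_nonneg.2 ht.le) (mul_nonneg (apply_nonneg N x) (GB.gd_pos x).le)
        linarith [gd_le_one x]
      · simp only [indicator_of_notMem hx, zero_add]
        rw [mem_ofPred_eq, not_le] at hx
        have h3 : 1 ≤ t⁻¹ * N x := by
          rw [inv_mul_eq_div, le_div_iff₀ ht, one_mul]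
          exact hx.le
        calc gd x = 1 * gd x := (one_mul _).symm
          _ ≤ t⁻¹ * N x * gd x := mul_le_mul_of_nonneg_right h3 (GB.gd_pos x).le
          _ = _ := by ring
  rw [integral_add, integral_const_mul, integral_indicator hSm, setIntegral_const, smul_eq_mul,
    mul_one, h1] at h2
  · have h3 : t⁻¹ * ∫ x, N x * gd x ≤ t⁻¹ * m := mul_le_mul_of_nonneg_left hm (inv_nonneg.2 ht.le)
    have h4 : m / t = t⁻¹ * m := by ring
    rw [h4]
    linarith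
  · rw [integrable_indicator_iff hSm]
    exact integrableOn_const (ball_finite hN ht)
  · exact hiN.const_mul _

theorem interior_of_vol {K : Set (ι → ℝ)} (hKc : IsCompact K) (hKx : Convex ℝ K)
    (hv : volume K ≠ 0) : (interior K).Nonempty := by
  by_contra h
  rw [not_nonempty_iff_eq_empty] at h
  apply hv
  have h1 := hKx.addHaar_frontier (volume : Measure (ι → ℝ))
  rwa [frontier, h, sdiff_empty, hKc.isClosed.closure_eq] at h1

/-- Minkowski's theorem for the lattice of integer points. -/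
theorem minkowski [DecidableEq ι] {S : Set (ι → ℝ)} (hs : ∀ x ∈ S, -x ∈ S) (hc : Convex ℝ S)
    (hv : 2 ^ Fintype.card ι < volume.real S) : ∃ c : ι → ℤ, c ≠ 0 ∧ zc c ∈ S := by
  have h : (volume : Measure (ι → ℝ)) (cube ι) * 2 ^ Module.finrank ℝ (ι → ℝ) < volume S := by
    rw [Module.finrank_fintype_fun_eq_card]
    have h1 : (volume : Measure (ι → ℝ)) (cube ι) = 1 := by
      have := VOR.volume_cube (ι := ι)
      unfold Measure.real at this
      rwa [ENNReal.toReal_eq_one_iff] at this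
    rw [h1, one_mul]
    rcases eq_or_ne (volume S) ⊤ with ht | ht
    · rw [ht]
      exact lt_top_iff_ne_top.2 (VOL.two_pow_ne_top _)
    · rw [← ENNReal.toReal_lt_toReal (VOL.two_pow_ne_top _) ht, ENNReal.toReal_pow]
      unfold Measure.real at hv
      simpa using hv
  obtain ⟨x, hx0, hx⟩ := exists_ne_zero_mem_lattice_of_measure_mul_two_pow_lt_measure
    (L := VOR.Lat ι) VOR.cube_fund hs hc h
  obtain ⟨z, hz⟩ := VOR.mem_Lat.1 x.2
  refine ⟨z, ?_, ?_⟩
  · rintro rfl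
    apply hx0
    apply Subtype.ext
    rw [← hz]
    exact QF.zc_zero
  · rw [hz]; exact hx

/-- The dual norm after a linear change of coordinates. -/
theorem dual_comp [DecidableEq ι] {N : Seminorm ℝ (ι → ℝ)} (hN : IsNorm N) {B : Matrix ι ι ℝ}
    (hB : IsUnit B.det) (x : ι → ℝ) : dualN (compM N Bᵀ) x = dualN N (B⁻¹ *ᵥ x) := by
  have hBt : IsUnit Bᵀ.det := by rwa [det_transpose]
  have hC := compM_isNorm hN hBt
  apply le_antisymm
  · obtain ⟨w, hw, hw2⟩ := NRMaux.dual_attained _ hC x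
    rw [← hw2]
    have h1 : x ⬝ᵥ w = (B⁻¹ *ᵥ x) ⬝ᵥ (Bᵀ *ᵥ w) := by
      rw [dotProduct_mulVec, ← mulVec_transpose, transpose_transpose, mulVec_mulVec,
        mul_nonsing_inv _ hB, one_mulVec]
    rw [h1]
    exact NRMaux.le_dual N hN _ _ hw
  · obtain ⟨z, hz, hz2⟩ := NRMaux.dual_attained N hN (B⁻¹ *ᵥ x)
    rw [← hz2]
    have h2 : Bᵀ *ᵥ ((B⁻¹)ᵀ *ᵥ z) = z := by
      rw [mulVec_mulVec, ← transpose_mul, nonsing_inv_mul _ hB, transpose_one, one_mulVec]
    have h1 : (B⁻¹ *ᵥ x) ⬝ᵥ z = x ⬝ᵥ ((B⁻¹)ᵀ *ᵥ z) := by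
      rw [dotProduct_mulVec, vecMul_transpose]
    rw [h1]
    refine NRMaux.le_dual _ hC _ _ ?_
    rw [compM_apply, h2]
    exact hz

/-- the main block -/
theorem con (hJEN : Stmt_JEN) (hURY : Stmt_URY) (hLP : Stmt_LP) : Stmt_CON := by
  obtain ⟨C1, hC1, hURY⟩ := hURY
  obtain ⟨C2, hC2, hLP⟩ := hLP
  refine ⟨max 1 (6144 * C1 * C2), le_max_left _ _, ?_⟩
  intro d e hd hed K hKc hKx hKi hsym H hH a τ ha hτ hint hdet
  have hd0 : (0 : ℝ) < d := by exact_mod_cast hd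
  -- the symmetric part
  obtain ⟨K', hK'⟩ : ∃ K' : Set (Fin d ⊕ Fin e → ℝ), K' = K ∩ {x | -x ∈ K} := ⟨_, rfl⟩
  have hsym0 := hsym
  rw [← hK'] at hsym hint
  have hK'c : IsCompact K' := by
    rw [hK']
    exact hKc.inter_right (hKc.isClosed.preimage continuous_neg)
  have hK'x : Convex ℝ K' := by
    rw [hK']
    refine hKx.inter ?_
    intro x hx y hy a b ha hb hab
    have := hKx hx hy ha hb hab
    have e : a • (-x) + b • (-y) = -(a • x + b • y) := by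
      rw [smul_neg, smul_neg]; abel
    rw [e] at this
    exact this
  have hK's : ∀ x ∈ K', -x ∈ K' := by
    intro x hx
    rw [hK'] at hx ⊢
    exact ⟨hx.2, by simpa using hx.1⟩
  have hK'v : volume K' ≠ 0 := by
    intro h0
    have h1 : volume.real K' = 0 := by unfold Measure.real; rw [h0]; rfl
    have h2 : 0 < volume.real K := by
      unfold Measure.real
      refine ENNReal.toReal_pos ?_ hKc.measure_lt_top.ne
      exact ((isOpen_interior.measure_pos volume hKi).trans_le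
        (measure_mono interior_subset)).ne'
    rw [h1, mul_zero] at hsym
    linarith
  have hK'i := interior_of_vol hK'c hK'x hK'v
  obtain ⟨N, hN, hNK⟩ := (stmt_NRM (Fin d ⊕ Fin e)).1 K' hK'c hK'x hK's hK'i
  -- Jensen
  have hM : ∀ y, NRMaux.dualS N hN y = supp K' y := by
    intro y
    show dualN N y = _
    unfold dualN
    rw [hNK]
  have jen := (hJEN (Fin d) (Fin e) H (NRMaux.dualS N hN) hH).2
  have jen2 : ∫ g : Fin d → ℝ, NRMaux.dualS N hN (Sum.elim g 0) * gH H.toBlocks₁₁ g ≤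
      2 * a * d := by
    refine jen.trans ?_
    simp only [hM]
    refine hint.trans ?_
    have : (e : ℝ) ≤ d := by exact_mod_cast hed
    nlinarith
  -- the projection of the symmetric part
  obtain ⟨D', hD'⟩ : ∃ D' : Set (Fin d → ℝ),
    D' = (fun v : Fin d ⊕ Fin e → ℝ => v ∘ Sum.inl) '' K' := ⟨_, rfl⟩
  obtain ⟨D, hD⟩ : ∃ D : Set (Fin d → ℝ),
    D = (fun v : Fin d ⊕ Fin e → ℝ => v ∘ Sum.inl) '' K := ⟨_, rfl⟩
  have hlin : ∃ f : (Fin d ⊕ Fin e → ℝ) →ₗ[ℝ] (Fin d → ℝ), ⇑f = fun v => v ∘ Sum.inl :=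
    ⟨LinearMap.funLeft ℝ ℝ Sum.inl, rfl⟩
  obtain ⟨f, hf⟩ := hlin
  have hfs : Function.Surjective f := by
    intro x
    exact ⟨Sum.elim x 0, by rw [hf]; ext i; simp⟩
  have hfo : IsOpenMap f := f.isOpenMap_of_finiteDimensional hfs
  have hfc : Continuous f := f.continuous_of_finiteDimensional
  rw [← hf] at hD hD'
  have hDc : IsCompact D := by rw [hD]; exact hKc.image hfc
  have hD'c : IsCompact D' := by rw [hD']; exact hK'c.image hfc
  have hDx : Convex ℝ D := by rw [hD]; exact hKx.linear_image f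
  have hD'x : Convex ℝ D' := by rw [hD']; exact hK'x.linear_image f
  have hDi : (interior D).Nonempty := by
    obtain ⟨x, hx⟩ := hKi
    refine ⟨f x, ?_⟩
    rw [hD]
    exact hfo.image_interior_subset K ⟨x, hx, rfl⟩
  have hD'i : (interior D').Nonempty := by
    obtain ⟨x, hx⟩ := hK'i
    refine ⟨f x, ?_⟩
    rw [hD']
    exact hfo.image_interior_subset K' ⟨x, hx, rfl⟩
  have hD's : ∀ x ∈ D', -x ∈ D' := by
    intro x hx
    rw [hD'] at hx ⊢
    obtain ⟨v, hv, rfl⟩ := hx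
    exact ⟨-v, hK's v hv, by rw [map_neg]⟩
  obtain ⟨N1, hN1, hN1D⟩ := (stmt_NRM (Fin d)).1 D' hD'c hD'x hD's hD'i
  have hsup : ∀ g : Fin d → ℝ, dualN N1 g = NRMaux.dualS N hN (Sum.elim g 0) := by
    intro g
    rw [hM]
    unfold dualN supp
    rw [hN1D, hD', image_image]
    congr 1
    refine image_congr fun v _ => ?_
    have h1 : (Sum.elim (v ∘ Sum.inl) (v ∘ Sum.inr) : Fin d ⊕ Fin e → ℝ) = v :=
      VOL.elim_self v
    conv_rhs => rw [← h1]
    rw [sumElim_dotProduct_sumElim, zero_dotProduct, add_zero, hf]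
  -- coordinates for the first block
  have hH11 : H.toBlocks₁₁.PosDef := by
    have := hH.submatrix (Sum.inl_injective : Function.Injective (Sum.inl : Fin d → Fin d ⊕ Fin e))
    exact this
  obtain ⟨B, hB, hHB⟩ := (stmt_GB1 (Fin d)).2.1 H.toBlocks₁₁ hH11
  have hBt : IsUnit Bᵀ.det := by rwa [det_transpose]
  have hN2 := compM_isNorm hN1 hBt
  have hint2 : ∫ x, dualN (compM N1 Bᵀ) x * gd x ≤ 2 * a * d := by
    refine le_trans (le_of_eq ?_) jen2
    rw [hHB, (stmt_GB1 (Fin d)).2.2.1 B hB]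
    refine integral_congr_ae (Filter.Eventually.of_forall fun x => ?_)
    simp only []
    rw [dual_comp hN1 hB, hsup]
  have ury := hURY d hd (compM N1 Bᵀ) hN2
  have hset : {x : Fin d → ℝ | compM N1 Bᵀ x ≤ 1} = {x | Bᵀ *ᵥ x ∈ D'} := by
    rw [← hN1D]; rfl
  rw [hset, volr_mulVec Bᵀ hBt.ne_zero, det_transpose] at ury
  have hint0 : 0 ≤ ∫ x, dualN (compM N1 Bᵀ) x * gd x :=
    integral_nonneg fun x => mul_nonneg (NRMaux.dual_nonneg _ hN2 x) (GB.gd_pos x).le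
  have hv1 : |B.det|⁻¹ * volume.real D' ≤ (2 * C1 * a) ^ d := by
    refine ury.trans (pow_le_pow_left₀ (by positivity) ?_ d)
    rw [div_le_iff₀ hd0]
    calc C1 * ∫ x, dualN (compM N1 Bᵀ) x * gd x ≤ C1 * (2 * a * d) :=
          mul_le_mul_of_nonneg_left hint2 hC1.le
      _ = _ := by ring
  have hBd : 0 < |B.det| := abs_pos.2 hB.ne_zero
  have hBτ : |B.det| ≤ τ ^ d := by
    have h1 : H.toBlocks₁₁.det = B.det ^ 2 := by
      rw [hHB, det_mul, det_transpose]; ring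
    rw [h1] at hdet
    have h2 : B.det ^ 2 ≤ (τ ^ d) ^ 2 := by
      rw [← pow_mul, mul_comm d 2]; exact hdet
    have h3 := sq_le_sq.1 h2
    rwa [abs_of_pos (pow_pos hτ d)] at h3
  have hv2 : volume.real D' ≤ (2 * C1 * a * τ) ^ d := by
    have h1 : volume.real D' = |B.det| * (|B.det|⁻¹ * volume.real D') := by
      rw [← mul_assoc, mul_inv_cancel₀ hBd.ne', one_mul]
    rw [h1, mul_pow (2 * C1 * a) τ, mul_comm _ (τ ^ d)]
    exact mul_le_mul hBτ hv1 (by positivity) (by positivity)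
  -- the difference body
  have hvol3 := stmt_VOL3 (Fin d) (Fin e) K hKc hKx hKi (by
    rw [Fintype.card_sum, Fintype.card_fin, Fintype.card_fin]; exact hsym0)
  rw [← hK', ← hf, ← hD, ← hD', Fintype.card_sum, Fintype.card_fin, Fintype.card_fin] at hvol3
  obtain ⟨D0, hD0⟩ : ∃ D0 : Set (Fin d → ℝ), D0 = {x | ∃ a ∈ D, ∃ b ∈ D, x = a - b} := ⟨_, rfl⟩
  have hvol2 := stmt_VOL2 (Fin d) D hDc hDx hDi
  rw [← hD0, Fintype.card_fin] at hvol2
  have hv0 : volume.real D0 ≤ (512 * C1 * a * τ) ^ d := by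
    have h8 : (8 : ℝ) ^ (d + e) ≤ 64 ^ d := by
      calc (8 : ℝ) ^ (d + e) ≤ 8 ^ (2 * d) := pow_le_pow_right₀ (by norm_num) (by omega)
        _ = 64 ^ d := by rw [pow_mul]; norm_num
    calc volume.real D0 ≤ 4 ^ d * volume.real D := hvol2
      _ ≤ 4 ^ d * (8 ^ (d + e) * volume.real D') := by gcongr
      _ ≤ 4 ^ d * (64 ^ d * (2 * C1 * a * τ) ^ d) := by gcongr
      _ = (4 * (64 * (2 * C1 * a * τ))) ^ d := by
          rw [mul_pow 4, mul_pow 64]
      _ = (512 * C1 * a * τ) ^ d := by congr 1; ring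
  have hD0c : IsCompact D0 := by
    have : D0 = (fun p : (Fin d → ℝ) × (Fin d → ℝ) => p.1 - p.2) '' (D ×ˢ D) := by
      rw [hD0]
      ext x
      constructor
      · rintro ⟨a, ha, b, hb, rfl⟩
        exact ⟨(a, b), ⟨ha, hb⟩, rfl⟩
      · rintro ⟨⟨a, b⟩, ⟨ha, hb⟩, rfl⟩
        exact ⟨a, ha, b, hb, rfl⟩
    rw [this]
    exact (hDc.prod hDc).image (continuous_fst.sub continuous_snd)
  have hD0x : Convex ℝ D0 := by
    rw [hD0]
    rintro _ ⟨a, ha, b, hb, rfl⟩ _ ⟨a', ha', b', hb', rfl⟩ s t hs ht hst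
    refine ⟨s • a + t • a', hDx ha ha' hs ht hst, s • b + t • b', hDx hb hb' hs ht hst, ?_⟩
    rw [smul_sub, smul_sub]; abel
  have hD0s : ∀ x ∈ D0, -x ∈ D0 := by
    intro x hx
    rw [hD0] at hx ⊢
    obtain ⟨a, ha, b, hb, rfl⟩ := hx
    exact ⟨b, hb, a, ha, by abel⟩
  have hD0i : (interior D0).Nonempty := by
    obtain ⟨x, hx⟩ := hDi
    refine ⟨0, ?_⟩
    have h1 : (fun y : Fin d → ℝ => x + y) ⁻¹' (interior D) ⊆ D0 := by
      intro y hy
      rw [hD0]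
      exact ⟨x + y, interior_subset hy, x, interior_subset hx, by abel⟩
    have h2 : IsOpen ((fun y : Fin d → ℝ => x + y) ⁻¹' (interior D)) :=
      isOpen_interior.preimage (continuous_const.add continuous_id)
    exact interior_maximal h1 h2 (by simpa using hx)
  obtain ⟨N3, hN3, hN3D⟩ := (stmt_NRM (Fin d)).1 D0 hD0c hD0x hD0s hD0i
  -- the `ℓ`-position
  obtain ⟨A, hA, hA1, hA2⟩ := hLP d hd N3 hN3
  have hAd : 0 < |A.det| := abs_pos.2 hA.ne_zero
  have hlog : 0 < Real.log (d + 1) := Real.log_pos (by linarith)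
  obtain ⟨L, hL⟩ : ∃ L : ℝ, L = C2 * d * Real.log (d + 1) ^ 2 := ⟨_, rfl⟩
  have hL0 : 0 < L := by rw [hL]; positivity
  rw [← hL] at hA2
  have m1 := markov (compM_isNorm hN3 hA) (m := 1 / 8) (t := 1) one_pos hA1
  have hset3 : {x : Fin d → ℝ | compM N3 A x ≤ 1} = {x | A *ᵥ x ∈ D0} := by
    rw [← hN3D]; rfl
  rw [hset3, volr_mulVec A hA.ne_zero] at m1
  have hv3 : 7 / 8 * |A.det| ≤ volume.real D0 := by
    have h1 : volume.real D0 = |A.det| * (|A.det|⁻¹ * volume.real D0) := by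
      rw [← mul_assoc, mul_inv_cancel₀ hAd.ne', one_mul]
    rw [h1, mul_comm _ |A.det|]
    refine mul_le_mul_of_nonneg_left ?_ hAd.le
    linarith
  have hAit : IsUnit ((A⁻¹)ᵀ).det := by
    rw [det_transpose, det_nonsing_inv]
    exact hA.ringInverse
  have hS3 := NRMaux.dualS_isNorm N3 hN3
  have m2 := markov (compM_isNorm hS3 hAit) (m := L) (t := 2 * L) (by linarith) hA2
  have hset4 : {x : Fin d → ℝ | compM (NRMaux.dualS N3 hN3) (A⁻¹)ᵀ x ≤ 2 * L} =
      {x | (A⁻¹)ᵀ *ᵥ x ∈ {y | NRMaux.dualS N3 hN3 y ≤ 2 * L}} := rfl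
  have hdi : ((A⁻¹)ᵀ).det = (A.det)⁻¹ := by
    rw [det_transpose, det_nonsing_inv, Ring.inverse_eq_inv']
  rw [hset4, volr_mulVec _ hAit.ne_zero, hdi, abs_inv, inv_inv] at m2
  have hhalf : L / (2 * L) = 1 / 2 := by field_simp
  rw [hhalf] at m2
  -- Minkowski
  obtain ⟨lam, hlam⟩ : ∃ lam : ℝ, lam = 3072 * C1 * a * τ := ⟨_, rfl⟩
  have hlam0 : 0 < lam := by rw [hlam]; positivity
  obtain ⟨F, hF⟩ : ∃ F : ℝ, F = lam * (2 * L) := ⟨_, rfl⟩
  have hF0 : 0 < F := by rw [hF]; positivity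
  have hbF : volume.real {y : Fin d → ℝ | NRMaux.dualS N3 hN3 y ≤ F} =
      lam ^ d * volume.real {y : Fin d → ℝ | NRMaux.dualS N3 hN3 y ≤ 2 * L} := by
    rw [volr_ball _ hF0, volr_ball _ (show 0 < 2 * L by linarith), hF, mul_pow, Fintype.card_fin]
    ring
  have hbig : (2 : ℝ) ^ Fintype.card (Fin d) <
      volume.real {y : Fin d → ℝ | NRMaux.dualS N3 hN3 y ≤ F} := by
    rw [hbF, Fintype.card_fin]
    obtain ⟨V, hV⟩ : ∃ V : ℝ, V = volume.real {y : Fin d → ℝ | NRMaux.dualS N3 hN3 y ≤ 2 * L} :=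
      ⟨_, rfl⟩
    rw [← hV] at m2 ⊢
    have hV0 : 0 ≤ V := by rw [hV]; exact measureReal_nonneg
    obtain ⟨E, hE⟩ : ∃ E : ℝ, E = (512 * C1 * a * τ) ^ d := ⟨_, rfl⟩
    have hE0 : 0 < E := by rw [hE]; positivity
    rw [← hE] at hv0
    have h1 : 7 / 16 ≤ E * V := by
      have h2 : 7 / 8 * |A.det| * V ≤ E * V :=
        mul_le_mul_of_nonneg_right (hv3.trans hv0) hV0
      nlinarith
    have h3 : lam ^ d = 6 ^ d * E := by
      rw [hlam, hE, ← mul_pow]; congr 1; ring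
    have h4 : (6 : ℝ) ^ d = 2 ^ d * 3 ^ d := by rw [← mul_pow]; norm_num
    have h5 : (3 : ℝ) ≤ 3 ^ d := by
      calc (3 : ℝ) = 3 ^ 1 := (pow_one _).symm
        _ ≤ 3 ^ d := pow_le_pow_right₀ (by norm_num) hd
    have h6 : (0 : ℝ) < 2 ^ d := by positivity
    calc (2 : ℝ) ^ d < 2 ^ d * (3 * (7 / 16)) := by nlinarith
      _ ≤ 2 ^ d * (3 ^ d * (E * V)) := by gcongr
      _ = lam ^ d * V := by rw [h3, h4]; ring
  obtain ⟨c, hc0, hc⟩ := minkowski (fun x hx => by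
      rw [mem_ofPred_eq] at hx ⊢
      rwa [map_neg_eq_map]) (by
      have := (NRMaux.dualS N3 hN3).convex_closedBall 0 F
      rwa [Seminorm.closedBall_zero_eq] at this) hbig
  refine ⟨c, hc0, fun x hx y hy => ?_⟩
  have hxy : x ∘ Sum.inl - y ∘ Sum.inl ∈ D0 := by
    rw [hD0]
    refine ⟨x ∘ Sum.inl, ?_, y ∘ Sum.inl, ?_, rfl⟩
    · rw [hD]; exact ⟨x, hx, by rw [hf]⟩
    · rw [hD]; exact ⟨y, hy, by rw [hf]⟩
  rw [← hN3D, mem_ofPred_eq] at hxy
  rw [← dotProduct_sub]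
  refine (NRMaux.le_dual N3 hN3 _ _ hxy).trans (le_trans hc ?_)
  rw [hF, hlam, hL]
  have h1 : 3072 * C1 * a * τ * (2 * (C2 * d * Real.log (d + 1) ^ 2)) =
      6144 * C1 * C2 * (d * Real.log (d + 1) ^ 2 * a * τ) := by ring
  have h2 : max 1 (6144 * C1 * C2) * d * Real.log (d + 1) ^ 2 * a * τ =
      max 1 (6144 * C1 * C2) * (d * Real.log (d + 1) ^ 2 * a * τ) := by ring
  rw [h1, h2]
  exact mul_le_mul_of_nonneg_right (le_max_right _ _) (by positivity)

end CON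

theorem stmt_CON (hJEN : Stmt_JEN) (hURY : Stmt_URY) (hLP : Stmt_LP) : Stmt_CON :=
  CON.con hJEN hURY hLP

end Pool.Agent.Work.MP_b10815_co_flt
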