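import Pool.Agent.Work.MP_b10815_co_flt.POI
set_option autoImplicit false

/-! # Block COV: covering by a set of large Gaussian measure -/

namespace Pool.Agent.Work.MP_b10815_co_flt

open MeasureTheory Matrix
open scoped ENNReal

namespace COVaux

open POIaux

theorem lintegral_cell {n : ℕ} (g : (Fin n → ℝ) → ℝ≥0∞) (z : Fin n → ℤ) :
    ∫⁻ x in cell z, g x = ∫⁻ x in cell (0 : Fin n → ℤ), g (x + zc z) := by
  have h1 := (measurePreserving_add_right (volume : Measure (Fin n → ℝ)) (zc z)).setLIntegral_comp_preimage_emb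
    (measurableEmbedding_addRight (zc z)) g (cell z)
  rw [← h1]
  congr 2
  ext x
  simp only [cell, Set.mem_ofPred_eq, Set.mem_preimage, Pi.add_apply, zc, Pi.zero_apply,
    Int.cast_zero, zero_add, Set.mem_Ioc]
  constructor
  · intro h i
    have := h i
    constructor <;> linarith [this.1, this.2]
  · intro h i
    have := h i
    constructor <;> linarith [this.1, this.2]

/-- the unfolding inequality -/
theorem unfold_le {n : ℕ} (g : (Fin n → ℝ) → ℝ≥0∞) (hg : Measurable g) (S : Set (Fin n → ℝ))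
    (hS : MeasurableSet S) (hper : ∀ x (z : Fin n → ℤ), x + zc z ∈ S ↔ x ∈ S) (c : ℝ≥0∞)
    (hc : ∀ x, c ≤ ∑' z : Fin n → ℤ, g (x + zc z)) :
    c * volume (S ∩ cell (0 : Fin n → ℤ)) ≤ ∫⁻ x in S, g x := by
  classical
  have hgS : Measurable (S.indicator g) := hg.indicator hS
  calc c * volume (S ∩ cell (0 : Fin n → ℤ))
      = ∫⁻ x in cell (0 : Fin n → ℤ), S.indicator (fun _ => c) x := by
        rw [lintegral_indicator hS, setLIntegral_const, Measure.restrict_apply hS]
    _ ≤ ∫⁻ x in cell (0 : Fin n → ℤ), ∑' z : Fin n → ℤ, S.indicator g (x + zc z) := by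
        refine lintegral_mono fun x => ?_
        by_cases hx : x ∈ S
        · rw [Set.indicator_of_mem hx]
          refine (hc x).trans (le_of_eq ?_)
          refine tsum_congr fun z => ?_
          rw [Set.indicator_of_mem ((hper x z).2 hx)]
        · rw [Set.indicator_of_notMem hx]
          exact bot_le
    _ = ∑' z : Fin n → ℤ, ∫⁻ x in cell (0 : Fin n → ℤ), S.indicator g (x + zc z) := by
        rw [lintegral_tsum]
        intro z
        exact (hgS.comp (measurable_add_const (zc z))).aemeasurable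
    _ = ∑' z : Fin n → ℤ, ∫⁻ x in cell z, S.indicator g x := by
        refine tsum_congr fun z => ?_
        exact (lintegral_cell _ z).symm
    _ = ∫⁻ x in ⋃ z : Fin n → ℤ, cell z, S.indicator g x :=
        (lintegral_iUnion measurableSet_cell disjoint_cell _).symm
    _ = ∫⁻ x in S, g x := by
        rw [iUnion_cell, Measure.restrict_univ, lintegral_indicator hS]

theorem volume_cell {n : ℕ} : volume (cell (0 : Fin n → ℤ)) = 1 := by
  have h : cell (0 : Fin n → ℤ) = Set.pi Set.univ (fun _ => Set.Ioc (0 : ℝ) 1) := by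
    ext x
    simp [cell, Set.mem_pi]
  rw [h, volume_pi_pi]
  simp

/-- total mass of the Gaussian -/
theorem gH_int {n : ℕ} (P : Matrix (Fin n) (Fin n) ℝ) (hP : P.PosDef) :
    Integrable (gH P) ∧ ∫ v, gH P v = 1 := by
  obtain ⟨hint, hval⟩ := integral_gauss P hP 0
  have h1 : (fun x : Fin n → ℝ => ch (0 : Fin n → ℤ) x * (Real.exp (-Real.pi * qf P x) : ℂ)) =
      fun x => ((Real.exp (-Real.pi * qf P x) : ℝ) : ℂ) := by
    funext x
    simp [ch]
  rw [h1] at hint hval
  have hint' : Integrable (fun x : Fin n → ℝ => Real.exp (-Real.pi * qf P x)) := by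
    have := hint.re
    exact this
  have hval' : ∫ x : Fin n → ℝ, Real.exp (-Real.pi * qf P x) = (Real.sqrt P.det)⁻¹ := by
    rw [integral_complex_ofReal] at hval
    have h2 := Complex.ofReal_injective hval
    rw [h2]
    have : qf P⁻¹ (zc (0 : Fin n → ℤ)) = 0 := by
      have h0 : zc (0 : Fin n → ℤ) = 0 := by funext i; simp [zc]
      simp [qf, h0]
    rw [this]
    simp
  have hs : Real.sqrt P.det ≠ 0 := (Real.sqrt_pos.2 hP.det_pos).ne'
  refine ⟨?_, ?_⟩
  · exact hint'.const_mul _
  · unfold gH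
    rw [integral_const_mul, hval', mul_inv_cancel₀ hs]

theorem gH_nonneg {n : ℕ} (P : Matrix (Fin n) (Fin n) ℝ) (v : Fin n → ℝ) : 0 ≤ gH P v :=
  mul_nonneg (Real.sqrt_nonneg _) (Real.exp_pos _).le

theorem gH_neg {n : ℕ} (P : Matrix (Fin n) (Fin n) ℝ) (v : Fin n → ℝ) : gH P (-v) = gH P v := by
  unfold gH qf
  rw [mulVec_neg, dotProduct_neg, neg_dotProduct, neg_neg]

theorem continuous_gH {n : ℕ} (P : Matrix (Fin n) (Fin n) ℝ) : Continuous (gH P) := by
  unfold gH
  have := continuous_qf P
  fun_prop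

theorem half_le_sum {n : ℕ} (P : Matrix (Fin n) (Fin n) ℝ) (hP : P.PosDef)
    (h : ∑' z : Fin n → ℤ, Real.exp (-Real.pi * qf P⁻¹ (zc z)) ≤ 3 / 2) (x : Fin n → ℝ) :
    ENNReal.ofReal (1 / 2) ≤ ∑' z : Fin n → ℤ, ENNReal.ofReal (gH P (x + zc z)) := by
  obtain ⟨hsum, hle⟩ := stmt_POI n P hP
  have hs : 0 < Real.sqrt P.det := Real.sqrt_pos.2 hP.det_pos
  have hsum' : Summable (fun z : Fin n → ℤ => gH P (x + zc z)) := (hsum x).mul_left _
  rw [← ENNReal.ofReal_tsum_of_nonneg (fun z => gH_nonneg P _) hsum']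
  apply ENNReal.ofReal_le_ofReal
  unfold gH
  rw [tsum_mul_left]
  have h1 := mul_le_mul_of_nonneg_left (hle x) hs.le
  rw [← mul_assoc, mul_inv_cancel₀ hs.ne', one_mul] at h1
  linarith

end COVaux

open COVaux POIaux in
theorem stmt_COV : Stmt_COV := by
  intro n P hP h32 K hK hmass u
  by_contra hcon
  push Not at hcon
  obtain ⟨hint, htot⟩ := gH_int P hP
  set g : (Fin n → ℝ) → ℝ≥0∞ := fun x => ENNReal.ofReal (gH P x) with hg
  have hgm : Measurable g := (continuous_gH P).measurable.ennreal_ofReal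
  set S : Set (Fin n → ℝ) := {x | ∀ z : Fin n → ℤ, x + zc z ∉ K} with hSdef
  have hSm : MeasurableSet S := by
    have : S = ⋂ z : Fin n → ℤ, (fun x => x + zc z) ⁻¹' Kᶜ := by
      ext x
      simp [hSdef]
    rw [this]
    exact MeasurableSet.iInter fun z => (measurable_add_const (zc z)) hK.compl
  have hzc : ∀ z z' : Fin n → ℤ, zc z + zc z' = zc (z + z') := by
    intro z z'
    funext i
    simp [zc]
  have hper : ∀ x (z : Fin n → ℤ), x + zc z ∈ S ↔ x ∈ S := by
    intro x z
    constructor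
    · intro h w
      have h1 := h (w - z)
      have h2 : x + zc z + zc (w - z) = x + zc w := by
        rw [add_assoc, hzc]
        congr 2
        abel
      rwa [h2] at h1
    · intro h w
      have h1 := h (z + w)
      rwa [← hzc, ← add_assoc] at h1
  have hmassS : ∫⁻ x in S, g x < ENNReal.ofReal (1 / 4) := by
    have h1 : S ⊆ Kᶜ := by
      intro x hx hxK
      have := hx 0
      apply this
      have h0 : zc (0 : Fin n → ℤ) = 0 := by funext i; simp [zc]
      rwa [h0, add_zero]
    refine lt_of_le_of_lt (lintegral_mono_set h1) ?_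
    rw [← ofReal_integral_eq_lintegral_ofReal hint.integrableOn
      (Filter.Eventually.of_forall fun x => gH_nonneg P x)]
    apply (ENNReal.ofReal_lt_ofReal_iff (by norm_num)).2
    have h2 := integral_add_compl hK hint
    rw [htot] at h2
    linarith
  have hvolS : volume (S ∩ cell (0 : Fin n → ℤ)) < ENNReal.ofReal (1 / 2) := by
    have h1 := unfold_le g hgm S hSm hper (ENNReal.ofReal (1 / 2)) (half_le_sum P hP h32)
    by_contra h2
    push Not at h2
    have h3 : ENNReal.ofReal (1 / 2) * ENNReal.ofReal (1 / 2) ≤ ∫⁻ x in S, g x :=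
      (mul_le_mul_right h2 _).trans h1
    rw [← ENNReal.ofReal_mul (by norm_num)] at h3
    have h4 := lt_of_le_of_lt h3 hmassS
    norm_num at h4
  set S' : Set (Fin n → ℝ) := {x | u - x ∈ S} with hS'def
  have hS'm : MeasurableSet S' := (measurable_const_sub u) hSm
  have hper' : ∀ x (z : Fin n → ℤ), x + zc z ∈ S' ↔ x ∈ S' := by
    intro x z
    have h1 := hper (u - (x + zc z)) z
    have h2 : u - (x + zc z) + zc z = u - x := by abel
    rw [h2] at h1
    exact h1.symm
  have hmassS' : ∫⁻ x in S', g (u - x) = ∫⁻ x in S, g x := by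
    rw [← lintegral_indicator hS'm, ← lintegral_indicator hSm,
      ← lintegral_sub_left_eq_self (S.indicator g) u]
    rfl
  have hvolS' : volume (S' ∩ cell (0 : Fin n → ℤ)) < ENNReal.ofReal (1 / 2) := by
    have hsum' : ∀ x, ENNReal.ofReal (1 / 2) ≤ ∑' z : Fin n → ℤ, g (u - (x + zc z)) := by
      intro x
      refine (half_le_sum P hP h32 (x - u)).trans (le_of_eq (tsum_congr fun z => ?_))
      rw [hg]
      simp only
      rw [← gH_neg]
      congr 2
      abel
    have h1 := unfold_le (fun x => g (u - x)) (hgm.comp (measurable_const_sub u)) S' hS'm hper'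
      (ENNReal.ofReal (1 / 2)) hsum'
    rw [hmassS'] at h1
    by_contra h2
    push Not at h2
    have h3 : ENNReal.ofReal (1 / 2) * ENNReal.ofReal (1 / 2) ≤ ∫⁻ x in S, g x :=
      (mul_le_mul_right h2 _).trans h1
    rw [← ENNReal.ofReal_mul (by norm_num)] at h3
    have h4 := lt_of_le_of_lt h3 hmassS
    norm_num at h4
  have hcov : cell (0 : Fin n → ℤ) ⊆ (S ∩ cell (0 : Fin n → ℤ)) ∪ (S' ∩ cell (0 : Fin n → ℤ)) := by
    intro x hx
    by_contra hnot
    rw [Set.mem_union, not_or] at hnot
    have h1 : x ∉ S := fun h => hnot.1 ⟨h, hx⟩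
    have h2 : u - x ∉ S := fun h => hnot.2 ⟨h, hx⟩
    have h3 : ∃ z : Fin n → ℤ, x + zc z ∈ K := by
      by_contra h4
      push Not at h4
      exact h1 h4
    have h4 : ∃ z : Fin n → ℤ, u - x + zc z ∈ K := by
      by_contra h4
      push Not at h4
      exact h2 h4
    obtain ⟨z, hz⟩ := h3
    obtain ⟨z', hz'⟩ := h4
    refine hcon (z + z') _ hz _ hz' ?_
    rw [← hzc]
    abel
  have h5 := (measure_mono (μ := volume) hcov).trans (measure_union_le _ _)
  rw [volume_cell] at h5
  have h6 := lt_of_le_of_lt h5 (ENNReal.add_lt_add hvolS hvolS')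
  rw [← ENNReal.ofReal_add (by norm_num) (by norm_num)] at h6
  norm_num at h6

end Pool.Agent.Work.MP_b10815_co_flt
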