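import Mathlib
set_option autoImplicit false

/-!
# Near-linear flatness theorem: interface

Everything lives on `ι → ℝ` with the dot product `⬝ᵥ` as Euclidean structure.
The lattice is always `ℤ^ι`; Euclidean structures are positive definite matrices.
-/

namespace Pool.Agent.Work.MP_b10815_co_flt

open MeasureTheory Matrix

section Defs

variable {ι κ μ : Type} [Fintype ι] [Fintype κ] [Fintype μ]

/-- standard Gaussian density `exp(-π|x|²)` (total mass one) -/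
noncomputable def gd (x : ι → ℝ) : ℝ := Real.exp (-Real.pi * (x ⬝ᵥ x))

/-- the quadratic form of `H` -/
def qf (H : Matrix ι ι ℝ) (v : ι → ℝ) : ℝ := v ⬝ᵥ (H *ᵥ v)

/-- Gaussian density with precision matrix `H` (total mass one when `H` is positive definite) -/
noncomputable def gH [DecidableEq ι] (H : Matrix ι ι ℝ) (v : ι → ℝ) : ℝ :=
  Real.sqrt H.det * Real.exp (-Real.pi * qf H v)

/-- Gaussian density with precision matrix `r² H`: `rⁿ √det H exp(-π r² qf H v)` -/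
noncomputable def gr [DecidableEq ι] (H : Matrix ι ι ℝ) (r : ℝ) (v : ι → ℝ) : ℝ :=
  r ^ Fintype.card ι * Real.sqrt H.det * Real.exp (-Real.pi * r ^ 2 * qf H v)

/-- a seminorm that is a norm -/
def IsNorm (N : Seminorm ℝ (ι → ℝ)) : Prop := ∀ x, N x = 0 → x = 0

/-- support function of a set -/
noncomputable def supp (K : Set (ι → ℝ)) (y : ι → ℝ) : ℝ := sSup ((fun x => y ⬝ᵥ x) '' K)

/-- dual norm: support function of the unit ball -/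
noncomputable def dualN (N : Seminorm ℝ (ι → ℝ)) (y : ι → ℝ) : ℝ := supp {x | N x ≤ 1} y

/-- sign of a boolean -/
def sgn (b : Bool) : ℝ := if b then 1 else -1

/-- the sign vector of `e : ι → Bool` -/
def sv (e : ι → Bool) : ι → ℝ := fun i => sgn (e i)

/-- average over all sign patterns -/
noncomputable def avg [DecidableEq ι] (F : (ι → Bool) → ℝ) : ℝ := (∑ e, F e) / 2 ^ Fintype.card ι

/-- matrix of the first order Fourier-Walsh coefficients of a vector valued function -/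
noncomputable def fc [DecidableEq ι] (f : (ι → Bool) → ι → ℝ) : Matrix ι ι ℝ :=
  fun i j => avg (fun e => f e i * sv e j)

/-- real version of an integer vector -/
def zc (z : ι → ℤ) : ι → ℝ := fun i => (z i : ℝ)

/-- real version of an integer matrix -/
def cR (Z : Matrix ι κ ℤ) : Matrix ι κ ℝ := Z.map (fun a => (a : ℝ))

/-- linearly independent columns -/
def FullRank [DecidableEq κ] (Z : Matrix ι κ ℤ) : Prop := (Zᵀ * Z).det ≠ 0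

/-- Gram matrix `Zᵀ H Z` -/
def gram (H : Matrix ι ι ℝ) (Z : Matrix ι κ ℤ) : Matrix κ κ ℝ := (cR Z)ᵀ * H * cR Z

/-- all sublattices of rank `k` have squared determinant `≥ t ^ k` -/
def SubDet (H : Matrix ι ι ℝ) (t : ℝ) : Prop :=
  ∀ (k : ℕ) (Z : Matrix ι (Fin k) ℤ), FullRank Z → t ^ k ≤ (gram H Z).det

/-- integer matrix with integer inverse (index types may differ) -/
def Unimod [DecidableEq ι] [DecidableEq κ] (U : Matrix ι κ ℤ) : Prop :=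
  ∃ V : Matrix κ ι ℤ, U * V = 1 ∧ V * U = 1

/-- Schur complement of the first block -/
noncomputable def schur [DecidableEq ι] (H : Matrix (ι ⊕ κ) (ι ⊕ κ) ℝ) : Matrix κ κ ℝ :=
  H.toBlocks₂₂ - H.toBlocks₂₁ * (H.toBlocks₁₁)⁻¹ * H.toBlocks₁₂

/-- Voronoi cell of `ℤ^ι` for the form `H` -/
def Vor (H : Matrix ι ι ℝ) : Set (ι → ℝ) :=
  {v | ∀ z : ι → ℤ, 2 * (v ⬝ᵥ (H *ᵥ zc z)) ≤ qf H (zc z)}

/-- squared distance to `ℤ^ι` -/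
noncomputable def dH (H : Matrix ι ι ℝ) (u : ι → ℝ) : ℝ := ⨅ z : ι → ℤ, qf H (u - zc z)

/-- Gaussian mass of the Voronoi cell at scale `r` -/
noncomputable def Gam [DecidableEq ι] (H : Matrix ι ι ℝ) (r : ℝ) : ℝ := ∫ v in Vor H, gr H r v

/-- the unit cube -/
def cube (ι : Type) : Set (ι → ℝ) := {u | ∀ i, 0 ≤ u i ∧ u i < 1}

/-- rank one perturbation `(1 + t p qᵀ)ᵀ H (1 + t p qᵀ)` -/
def pert [DecidableEq ι] (H : Matrix ι ι ℝ) (p q : ι → ℝ) (t : ℝ) : Matrix ι ι ℝ :=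
  (1 + t • vecMulVec p q)ᵀ * H * (1 + t • vecMulVec p q)

/-- strictly stable: unit determinant, all proper sublattices have determinant `> 1` -/
def Strict {n : ℕ} (H : Matrix (Fin n) (Fin n) ℝ) : Prop :=
  ∀ (k : ℕ) (Z : Matrix (Fin n) (Fin k) ℤ), 0 < k → k < n → FullRank Z → 1 < (gram H Z).det

/-- stable: positive definite, unit determinant, all sublattices have determinant `≥ 1` -/
def Stable {n : ℕ} (H : Matrix (Fin n) (Fin n) ℝ) : Prop :=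
  H.PosDef ∧ H.det = 1 ∧ SubDet H 1

end Defs

/-! ## Block B1: Gaussian basics -/

/-- Gaussian integrals and factorisation of positive definite matrices -/
def Stmt_GB1 : Prop := ∀ (ι : Type) [Fintype ι] [DecidableEq ι],
  (Integrable (gd : (ι → ℝ) → ℝ) ∧ ∫ x : ι → ℝ, gd x = 1) ∧
  (∀ H : Matrix ι ι ℝ, H.PosDef → ∃ B : Matrix ι ι ℝ, IsUnit B.det ∧ H = Bᵀ * B) ∧
  (∀ (B : Matrix ι ι ℝ), IsUnit B.det → ∀ f : (ι → ℝ) → ℝ,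
    ∫ v, f v * gH (Bᵀ * B) v = ∫ x, f (B⁻¹ *ᵥ x) * gd x) ∧
  (∀ H : Matrix ι ι ℝ, H.PosDef → Integrable (gH H) ∧ ∫ v, gH H v = 1) ∧
  (∀ A B : Matrix ι ι ℝ, A.PosDef → B.PosDef → (∀ v, qf B v ≤ qf A v) → B.det ≤ A.det) ∧
  (∀ (N : Seminorm ℝ (ι → ℝ)) (H : Matrix ι ι ℝ), H.PosDef →
    Integrable (fun v => N v * gH H v)) ∧
  (∀ N : Seminorm ℝ (ι → ℝ), Integrable (fun v => N v * gd v))

/-- Jensen: expectation of a seminorm of a block component is smaller -/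
def Stmt_JEN : Prop := ∀ (ι κ : Type) [Fintype ι] [Fintype κ] [DecidableEq ι] [DecidableEq κ]
  (P : Matrix (ι ⊕ κ) (ι ⊕ κ) ℝ) (N : Seminorm ℝ (ι ⊕ κ → ℝ)), P.PosDef →
  (∫ g : κ → ℝ, N (Sum.elim 0 g) * gH P.toBlocks₂₂ g ≤ ∫ v, N v * gH P v) ∧
  (∫ g : ι → ℝ, N (Sum.elim g 0) * gH P.toBlocks₁₁ g ≤ ∫ v, N v * gH P v)

/-- symmetric convex bodies are unit balls of norms; dual norms are norms -/
def Stmt_NRM : Prop := ∀ (ι : Type) [Fintype ι] [DecidableEq ι],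
  (∀ K : Set (ι → ℝ), IsCompact K → Convex ℝ K → (∀ x ∈ K, -x ∈ K) → (interior K).Nonempty →
    ∃ N : Seminorm ℝ (ι → ℝ), IsNorm N ∧ {x | N x ≤ 1} = K) ∧
  (∀ N : Seminorm ℝ (ι → ℝ), IsNorm N → IsCompact {x | N x ≤ 1} ∧ Convex ℝ {x | N x ≤ 1} ∧
    (interior {x | N x ≤ 1}).Nonempty ∧ Continuous N ∧
    (∃ M : Seminorm ℝ (ι → ℝ), IsNorm M ∧ ∀ y, M y = dualN N y) ∧
    (∀ x y, y ⬝ᵥ x ≤ dualN N y * N x) ∧ (∀ y, ∃ x, N x ≤ 1 ∧ y ⬝ᵥ x = dualN N y))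

/-! ## Block KC: K-convexity on the discrete cube -/
def Stmt_KC : Prop := ∃ C : ℝ, 0 < C ∧ ∀ n : ℕ, 1 ≤ n → ∀ N : Seminorm ℝ (Fin n → ℝ), IsNorm N →
  ∀ f : (Fin n → Bool) → Fin n → ℝ, (∀ e, N (f e) ≤ 1) →
    avg (fun e => N (fc f *ᵥ sv e) ^ 2) ≤ (C * Real.log (n + 1)) ^ 2

/-! ## Block GCON: Gaussian averages against Rademacher averages -/
def Stmt_GCON : Prop := ∃ C : ℝ, 0 < C ∧ ∀ n : ℕ, 1 ≤ n → ∀ N : Seminorm ℝ (Fin n → ℝ),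
  ∫ x, N x * gd x ≤ C * Real.sqrt (Real.log (n + 1)) * avg (fun e => N (sv e))

/-! ## Block FERN: exponential square integrability -/
def Stmt_FERN : Prop := ∃ c C : ℝ, 0 < c ∧ 0 < C ∧ ∀ n : ℕ, ∀ N : Seminorm ℝ (Fin n → ℝ),
  ∀ m : ℝ, 0 < m → ∫ x, N x * gd x ≤ m →
    Integrable (fun x => Real.exp (c * (N x / m) ^ 2) * gd x) ∧
    ∫ x, Real.exp (c * (N x / m) ^ 2) * gd x ≤ C

/-! ## Block URY: Urysohn inequality up to a constant -/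
def Stmt_URY : Prop := ∃ C : ℝ, 0 < C ∧ ∀ n : ℕ, 1 ≤ n → ∀ N : Seminorm ℝ (Fin n → ℝ), IsNorm N →
  volume.real {x | N x ≤ 1} ≤ (C * (∫ x, dualN N x * gd x) / n) ^ n

/-! ## Block LP: the ℓ-position; block KU -/
def Stmt_LP : Prop := ∃ C : ℝ, 0 < C ∧ ∀ n : ℕ, 1 ≤ n → ∀ N : Seminorm ℝ (Fin n → ℝ), IsNorm N →
  ∃ A : Matrix (Fin n) (Fin n) ℝ, IsUnit A.det ∧ ∫ x, N (A *ᵥ x) * gd x ≤ 1 / 8 ∧
    ∫ x, dualN N ((A⁻¹)ᵀ *ᵥ x) * gd x ≤ C * n * Real.log (n + 1) ^ 2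

def Stmt_KU : Prop := ∃ C : ℝ, 0 < C ∧ ∀ n : ℕ, 1 ≤ n → ∀ N : Seminorm ℝ (Fin n → ℝ), IsNorm N →
  1 ≤ volume.real {x | N x ≤ 1} →
  ∃ A : Matrix (Fin n) (Fin n) ℝ, A.trace = n ∧
    ∫ x, N (A *ᵥ x) * gd x ≤ C * Real.log (n + 1) ^ 2

/-! ## Lattice blocks -/

/-- saturation of a sublattice and completion to a basis -/
def Stmt_SAT : Prop := ∀ (n k : ℕ) (Z : Matrix (Fin n) (Fin k) ℤ), FullRank Z →
  ∃ l : ℕ, k + l = n ∧ ∃ U : Matrix (Fin n) (Fin k ⊕ Fin l) ℤ, Unimod U ∧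
    ∃ C : Matrix (Fin k) (Fin k) ℤ, C.det ≠ 0 ∧ Z = U.submatrix id Sum.inl * C

/-- reduction theory -/
def Stmt_RED : Prop := ∀ (n : ℕ) (D : ℝ), ∃ R : ℝ, ∀ H : Matrix (Fin n) (Fin n) ℝ, H.PosDef →
  SubDet H 1 → H.det ≤ D → ∃ U : Matrix (Fin n) (Fin n) ℤ, Unimod U ∧ ∀ i, gram H U i i ≤ R

/-- finiteness: sublattices of bounded determinant, uniformly in `H ≥ c` -/
def Stmt_FIN : Prop := ∀ (n k : ℕ) (c D : ℝ), 0 < c →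
  ∃ F : Finset (Matrix (Fin n) (Fin k) ℤ), ∀ H : Matrix (Fin n) (Fin n) ℝ, H.PosDef →
    (∀ v, c * (v ⬝ᵥ v) ≤ qf H v) → ∀ Z : Matrix (Fin n) (Fin k) ℤ, FullRank Z →
    (gram H Z).det ≤ D → ∃ U : Matrix (Fin k) (Fin k) ℤ, Unimod U ∧ Z * U ∈ F

/-- strict stability is open along the perturbations -/
def Stmt_OPEN : Prop := ∀ (n : ℕ) (H : Matrix (Fin n) (Fin n) ℝ), Stable H → Strict H →
  ∀ p q : Fin n → ℝ, q ⬝ᵥ p = 0 → ∃ δ > 0, ∀ t : ℝ, |t| < δ → Stable (pert H p q t)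

/-- block decomposition of gram determinants -/
def Stmt_BLK : Prop := ∀ (ι κ : Type) [Fintype ι] [Fintype κ] [DecidableEq ι] [DecidableEq κ]
  (H : Matrix (ι ⊕ κ) (ι ⊕ κ) ℝ), H.PosDef →
  H.toBlocks₁₁.PosDef ∧ (schur H).PosDef ∧ H.det = H.toBlocks₁₁.det * (schur H).det ∧
  (H⁻¹).toBlocks₂₂ = (schur H)⁻¹ ∧
  (∀ (k : ℕ) (Z : Matrix κ (Fin k) ℤ), FullRank Z →
    ∃ W : Matrix (ι ⊕ κ) (ι ⊕ Fin k) ℤ, FullRank W ∧
      (gram H W).det = H.toBlocks₁₁.det * (gram (schur H) Z).det) ∧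
  (∀ (u : ι ⊕ κ → ℝ), qf H u = qf H.toBlocks₁₁
      ((u ∘ Sum.inl) + (H.toBlocks₁₁)⁻¹ *ᵥ (H.toBlocks₁₂ *ᵥ (u ∘ Sum.inr))) +
      qf (schur H) (u ∘ Sum.inr))

/-- compactness of the space of stable forms modulo unimodular matrices -/
def Stmt_CMP : Prop := ∀ n : ℕ, ∃ S : Set (Matrix (Fin n) (Fin n) ℝ), IsCompact S ∧
  (∀ H ∈ S, Stable H) ∧ ∀ H, Stable H → ∃ U : Matrix (Fin n) (Fin n) ℤ, Unimod U ∧ gram H U ∈ S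

/-- a most destabilising sublattice, relative to the threshold `t` -/
def Stmt_QUO : Prop := ∀ (n : ℕ) (H : Matrix (Fin n) (Fin n) ℝ), H.PosDef → ∀ t : ℝ, 0 < t →
  ∃ k l : ℕ, k + l = n ∧ ∃ U : Matrix (Fin n) (Fin k ⊕ Fin l) ℤ, Unimod U ∧
    (gram H U).toBlocks₁₁.det ≤ t ^ k ∧ SubDet (schur (gram H U)) t

/-- forms with all subdeterminants `≥ 1`: scale down until a sublattice becomes stable -/
def Stmt_GEN : Prop := ∀ (n : ℕ), 1 ≤ n → ∀ (H : Matrix (Fin n) (Fin n) ℝ), H.PosDef →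
  SubDet H 1 → ∃ s : ℝ, 1 ≤ s ∧ ∃ k l : ℕ, 1 ≤ k ∧ k + l = n ∧
    ∃ U : Matrix (Fin n) (Fin k ⊕ Fin l) ℤ, Unimod U ∧
      Stable (gram (s⁻¹ • H) U).toBlocks₁₁ ∧ SubDet (schur (gram (s⁻¹ • H) U)) 1

/-- a stable form which is not strictly stable decomposes -/
def Stmt_DEC : Prop := ∀ (n : ℕ) (H : Matrix (Fin n) (Fin n) ℝ), Stable H → ¬ Strict H →
  ∃ k l : ℕ, 1 ≤ k ∧ 1 ≤ l ∧ k + l = n ∧ ∃ U : Matrix (Fin n) (Fin k ⊕ Fin l) ℤ, Unimod U ∧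
    Stable (gram H U).toBlocks₁₁ ∧ Stable (schur (gram H U))

/-! ## Voronoi cells and the functional `Gam` -/

def Stmt_VOR : Prop := ∀ (ι : Type) [Fintype ι] [DecidableEq ι] (H : Matrix ι ι ℝ), H.PosDef →
  Convex ℝ (Vor H) ∧ IsCompact (Vor H) ∧ (∀ v ∈ Vor H, -v ∈ Vor H) ∧
  (interior (Vor H)).Nonempty ∧ volume.real (Vor H) = 1 ∧
  (∀ v ∈ Vor H, dH H v = qf H v) ∧ (∀ v ∉ Vor H, dH H v < qf H v) ∧
  (∀ u, ∃ z : ι → ℤ, u - zc z ∈ Vor H) ∧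
  (∀ f : (ι → ℝ) → ℝ, Continuous f → (∀ u (z : ι → ℤ), f (u + zc z) = f u) →
    ∫ v in Vor H, f v = ∫ u in cube ι, f u) ∧
  (∀ᵐ v : ι → ℝ, v ∈ Vor H → ∀ z : ι → ℤ, z ≠ 0 → 2 * (v ⬝ᵥ (H *ᵥ zc z)) < qf H (zc z))

def Stmt_DHC : Prop := ∀ (ι : Type) [Fintype ι] [DecidableEq ι] (H : Matrix ι ι ℝ), H.PosDef →
  Continuous (dH H) ∧ (∀ u (z : ι → ℤ), dH H (u + zc z) = dH H u) ∧ (∀ u, 0 ≤ dH H u) ∧
  (∀ u, ∃ z : ι → ℤ, dH H u = qf H (u - zc z)) ∧ (∀ u (z : ι → ℤ), dH H u ≤ qf H (u - zc z))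

/-- `ρ · Γ ≤ 1` -/
def Stmt_GAM1 : Prop := ∀ (n : ℕ) (H : Matrix (Fin n) (Fin n) ℝ), H.PosDef → ∀ r : ℝ, 0 < r →
  Summable (fun z : Fin n → ℤ => Real.exp (-Real.pi * r ^ 2 * qf H (zc z))) ∧
  (∑' z : Fin n → ℤ, Real.exp (-Real.pi * r ^ 2 * qf H (zc z))) * Gam H r ≤ 1

/-- block inequality -/
def Stmt_GAM2 : Prop := ∀ (ι κ : Type) [Fintype ι] [Fintype κ] [DecidableEq ι] [DecidableEq κ]
  (H : Matrix (ι ⊕ κ) (ι ⊕ κ) ℝ), H.PosDef → ∀ r : ℝ, 0 < r →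
  Gam H.toBlocks₁₁ r * Gam (schur H) r ≤ Gam H r

/-- invariance, scaling, size -/
def Stmt_GAM3 : Prop := ∀ (ι κ : Type) [Fintype ι] [Fintype κ] [DecidableEq ι] [DecidableEq κ]
  (H : Matrix ι ι ℝ), H.PosDef → ∀ r : ℝ, 0 < r →
  (∀ U : Matrix ι κ ℤ, Unimod U → (gram H U).PosDef ∧ (gram H U).det = H.det ∧
    Gam (gram H U) r = Gam H r) ∧
  (∀ t : ℝ, 0 < t → t ≤ 1 → Gam (t • H) r ≤ Gam H r) ∧
  (0 ≤ Gam H r ∧ Gam H r ≤ 1) ∧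
  ((∀ z : ι → ℤ, z ≠ 0 → 1 ≤ qf H (zc z)) →
    ∫ x in {x : ι → ℝ | x ⬝ᵥ x ≤ r ^ 2 / 4}, gd x ≤ Gam H r)

/-- continuity -/
def Stmt_GAM5 : Prop := ∀ (n : ℕ), ContinuousOn
  (fun p : Matrix (Fin n) (Fin n) ℝ × ℝ => Gam p.1 p.2) {p | p.1.PosDef ∧ 0 < p.2}

/-- derivative in `r` -/
def Stmt_GAM7 : Prop := ∀ (n : ℕ) (H : Matrix (Fin n) (Fin n) ℝ), H.PosDef → ∀ r : ℝ, 0 < r →
  HasDerivAt (fun s => Gam H s)
    (r⁻¹ * ∫ v in Vor H, (n - 2 * Real.pi * r ^ 2 * qf H v) * gr H r v) r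

/-- first variation: isotropy at a local minimiser -/
def Stmt_ISO : Prop := ∀ (n : ℕ) (H : Matrix (Fin n) (Fin n) ℝ), H.PosDef → ∀ r : ℝ, 0 < r →
  (∀ p q : Fin n → ℝ, q ⬝ᵥ p = 0 → ∃ δ > 0, ∀ t : ℝ, |t| < δ → Gam H r ≤ Gam (pert H p q t) r) →
  ∀ M : Matrix (Fin n) (Fin n) ℝ,
    (n : ℝ) * ∫ v in Vor H, (v ⬝ᵥ ((H * M) *ᵥ v)) * gr H r v =
      M.trace * ∫ v in Vor H, qf H v * gr H r v

/-- derivative bound from isotropy -/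
def Stmt_DER : Prop := ∀ (n : ℕ), 1 ≤ n → ∀ (N : Seminorm ℝ (Fin n → ℝ)), IsNorm N →
  ∀ (H : Matrix (Fin n) (Fin n) ℝ), H.PosDef → ∀ r : ℝ, 0 < r →
  (∀ M : Matrix (Fin n) (Fin n) ℝ,
    (n : ℝ) * ∫ v in {v | N v ≤ 1}, (v ⬝ᵥ ((H * M) *ᵥ v)) * gr H r v =
      M.trace * ∫ v in {v | N v ≤ 1}, qf H v * gr H r v) →
  ∀ A : Matrix (Fin n) (Fin n) ℝ, A.trace = n →
    ∫ v in {v | N v ≤ 1}, (n - 2 * Real.pi * r ^ 2 * qf H v) * gr H r v ≤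
      16 * n * ∫ v in {v | 1 / 4 < N (A *ᵥ v)}, N (A *ᵥ v) * gr H r v

/-- the reverse Minkowski theorem for stable forms, in terms of `Gam` -/
def Stmt_RMS : Prop := ∃ C : ℝ, 1 ≤ C ∧ ∀ m : ℕ, 1 ≤ m → ∀ n : ℕ, n ≤ m →
  ∀ H : Matrix (Fin n) (Fin n) ℝ, Stable H → ∀ r : ℝ, C * Real.log (m + 1) ^ 3 ≤ r →
    1 - (n : ℝ) / (3 * m) ≤ Gam H r

/-- the reverse Minkowski theorem -/
def Stmt_RM : Prop := ∃ C : ℝ, 1 ≤ C ∧ ∀ n : ℕ, 1 ≤ n →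
  ∀ H : Matrix (Fin n) (Fin n) ℝ, H.PosDef → SubDet H ((C * Real.log (n + 1) ^ 3) ^ 2) →
    ∑' z : Fin n → ℤ, Real.exp (-Real.pi * qf H (zc z)) ≤ 3 / 2

/-! ## Poisson summation and covering -/

def Stmt_POI : Prop := ∀ (n : ℕ) (P : Matrix (Fin n) (Fin n) ℝ), P.PosDef →
  (∀ u : Fin n → ℝ, Summable (fun z : Fin n → ℤ => Real.exp (-Real.pi * qf P (u + zc z)))) ∧
  ∀ u : Fin n → ℝ, (Real.sqrt P.det)⁻¹ *
      (2 - ∑' z : Fin n → ℤ, Real.exp (-Real.pi * qf P⁻¹ (zc z))) ≤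
    ∑' z : Fin n → ℤ, Real.exp (-Real.pi * qf P (u + zc z))

def Stmt_COV : Prop := ∀ (n : ℕ) (P : Matrix (Fin n) (Fin n) ℝ), P.PosDef →
  ∑' z : Fin n → ℤ, Real.exp (-Real.pi * qf P⁻¹ (zc z)) ≤ 3 / 2 →
  ∀ K : Set (Fin n → ℝ), MeasurableSet K → 3 / 4 < ∫ v in K, gH P v →
  ∀ u : Fin n → ℝ, ∃ z : Fin n → ℤ, ∃ x ∈ K, ∃ y ∈ K, u + zc z = x + y

/-! ## Volume comparisons -/

def Stmt_VOL1 : Prop := ∀ (ι : Type) [Fintype ι] (K : Set (ι → ℝ)), IsCompact K → Convex ℝ K →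
  (interior K).Nonempty → ∃ c ∈ K,
    volume.real K ≤ 2 ^ Fintype.card ι * volume.real (K ∩ {x | (2 : ℝ) • c - x ∈ K})

def Stmt_VOL2 : Prop := ∀ (ι : Type) [Fintype ι] (K : Set (ι → ℝ)), IsCompact K → Convex ℝ K →
  (interior K).Nonempty →
  volume.real {x | ∃ a ∈ K, ∃ b ∈ K, x = a - b} ≤ 4 ^ Fintype.card ι * volume.real K

def Stmt_VOL3 : Prop := ∀ (ι κ : Type) [Fintype ι] [Fintype κ] (K : Set (ι ⊕ κ → ℝ)),
  IsCompact K → Convex ℝ K → (interior K).Nonempty →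
  volume.real K ≤ 2 ^ Fintype.card (ι ⊕ κ) * volume.real (K ∩ {x | -x ∈ K}) →
  volume.real ((fun v : ι ⊕ κ → ℝ => v ∘ Sum.inl) '' K) ≤
    8 ^ Fintype.card (ι ⊕ κ) *
      volume.real ((fun v : ι ⊕ κ → ℝ => v ∘ Sum.inl) '' (K ∩ {x | -x ∈ K}))

/-! ## The contradiction block (large destabilising sublattice) -/

def Stmt_CON : Prop := ∃ C : ℝ, 1 ≤ C ∧ ∀ d e : ℕ, 1 ≤ d → e ≤ d →
  ∀ K : Set (Fin d ⊕ Fin e → ℝ), IsCompact K → Convex ℝ K → (interior K).Nonempty →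
  volume.real K ≤ 2 ^ (d + e) * volume.real (K ∩ {x | -x ∈ K}) →
  ∀ H : Matrix (Fin d ⊕ Fin e) (Fin d ⊕ Fin e) ℝ, H.PosDef → ∀ a τ : ℝ, 0 < a → 0 < τ →
  ∫ y, supp (K ∩ {x | -x ∈ K}) y * gH H y ≤ a * (d + e) →
  H.toBlocks₁₁.det ≤ τ ^ (2 * d) →
  ∃ c : Fin d → ℤ, c ≠ 0 ∧ ∀ x ∈ K, ∀ y ∈ K,
    (zc c) ⬝ᵥ (x ∘ Sum.inl) - (zc c) ⬝ᵥ (y ∘ Sum.inl) ≤ C * d * Real.log (d + 1) ^ 2 * a * τ

/-! ## Recursion and the flatness theorem -/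

def Stmt_REC : Prop := ∃ C : ℝ, 1 ≤ C ∧ ∀ m n : ℕ, 1 ≤ n → n ≤ m →
  ∀ K : Set (Fin n → ℝ), IsCompact K → Convex ℝ K → (interior K).Nonempty →
  (∀ z : Fin n → ℤ, z ≠ 0 → ∃ x ∈ K, ∃ y ∈ K,
    C * m * Real.log (m + 1) ^ 7 < zc z ⬝ᵥ x - zc z ⬝ᵥ y) →
  ∀ u : Fin n → ℝ, ∃ z : Fin n → ℤ, ∃ x ∈ K, u + zc z = (2 * (Nat.log 2 n + 1) : ℝ) • x

def Stmt_FLAT : Prop := ∃ C : ℝ, 0 < C ∧ ∀ n : ℕ, 1 ≤ n →
  ∀ K : Set (Fin n → ℝ), Convex ℝ K → IsCompact K → (interior K).Nonempty →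
  (∀ z : Fin n → ℤ, zc z ∉ K) →
  ∃ z : Fin n → ℤ, z ≠ 0 ∧ ∀ x ∈ K, ∀ y ∈ K,
    zc z ⬝ᵥ x - zc z ⬝ᵥ y ≤ C * n * Real.log (n + 1) ^ 8

end Pool.Agent.Work.MP_b10815_co_flt
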