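import Mathlib
import Pool.Agent.Work.MP_b10815_co_flt.Interface

/-!
# Block DER: the derivative bound from isotropy
-/

set_option autoImplicit false

namespace Pool.Agent.Work.MP_b10815_co_flt

open MeasureTheory Matrix Filter Topology

namespace DER

variable {n : ℕ}

/-! ### differentiation under the integral on compact sets -/

theorem hasDeriv_compact {V : Set (Fin n → ℝ)} (hV : IsCompact V) {g g' : ℝ → (Fin n → ℝ) → ℝ}
    (hg : Continuous fun p : ℝ × (Fin n → ℝ) => g p.1 p.2)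
    (hg' : Continuous fun p : ℝ × (Fin n → ℝ) => g' p.1 p.2)
    (hd : ∀ t v, HasDerivAt (fun t => g t v) (g' t v) t) (t0 : ℝ) :
    HasDerivAt (fun t => ∫ v in V, g t v) (∫ v in V, g' t0 v) t0 := by
  have hcomp : IsCompact ((Set.Icc (t0 - 1) (t0 + 1)) ×ˢ V) := isCompact_Icc.prod hV
  obtain ⟨C, hC⟩ := hcomp.exists_bound_of_continuousOn (f := fun p : ℝ × (Fin n → ℝ) => g' p.1 p.2) hg'.continuousOn
  have hgt : ∀ t, Continuous (g t) := fun t => hg.comp (by fun_prop : Continuous fun v : Fin n → ℝ => (t, v))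
  have hgt' : ∀ t, Continuous (g' t) := fun t => hg'.comp (by fun_prop : Continuous fun v : Fin n → ℝ => (t, v))
  have hfin : volume V < ⊤ := hV.measure_lt_top
  refine (hasDerivAt_integral_of_dominated_loc_of_deriv_le (μ := volume.restrict V) (F := g) (x₀ := t0)
    (bound := fun _ => C) (s := Set.Icc (t0 - 1) (t0 + 1)) (Icc_mem_nhds (by linarith) (by linarith))
    (Eventually.of_forall fun t => (hgt t).aestronglyMeasurable)
    ((hgt t0).continuousOn.integrableOn_compact hV) (F' := g') (hgt' t0).aestronglyMeasurable ?_ ?_ ?_).2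
  · rw [ae_restrict_iff' hV.measurableSet]
    exact Eventually.of_forall fun v hv t ht => hC (t, v) ⟨ht, hv⟩
  · rw [← IntegrableOn, integrableOn_const_iff]
    exact Or.inr hfin
  · exact Eventually.of_forall fun v t _ => hd t v

/-! ### the quadratic form -/

theorem qf_add_smul (H : Matrix (Fin n) (Fin n) ℝ) (v w : Fin n → ℝ) (t : ℝ) :
    qf H (v + t • w) = qf H v + t * (v ⬝ᵥ (H *ᵥ w) + w ⬝ᵥ (H *ᵥ v)) + t ^ 2 * qf H w := by
  unfold qf
  rw [mulVec_add, mulVec_smul, dotProduct_add, add_dotProduct, add_dotProduct, smul_dotProduct, dotProduct_smul,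
    smul_dotProduct, dotProduct_smul]
  simp only [smul_eq_mul]
  ring

theorem qf_symm {H : Matrix (Fin n) (Fin n) ℝ} (hH : H.PosDef) (v w : Fin n → ℝ) :
    w ⬝ᵥ (H *ᵥ v) = v ⬝ᵥ (H *ᵥ w) := by
  have h1 : Hᵀ = H := by
    have := hH.isHermitian.eq
    rwa [conjTranspose_eq_transpose_of_trivial] at this
  calc w ⬝ᵥ (H *ᵥ v) = (w ᵥ* H) ⬝ᵥ v := dotProduct_mulVec w H v
    _ = (Hᵀ *ᵥ w) ⬝ᵥ v := by rw [← mulVec_transpose]
    _ = v ⬝ᵥ (H *ᵥ w) := by rw [h1, dotProduct_comm]

theorem qf_nonneg {H : Matrix (Fin n) (Fin n) ℝ} (hH : H.PosDef) (v : Fin n → ℝ) : 0 ≤ qf H v := by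
  have := hH.posSemidef.dotProduct_mulVec_nonneg v
  simpa [qf] using this

theorem qf_smul_vec (H : Matrix (Fin n) (Fin n) ℝ) (a : ℝ) (v : Fin n → ℝ) : qf H (a • v) = a ^ 2 * qf H v := by
  unfold qf
  rw [mulVec_smul, smul_dotProduct, dotProduct_smul, smul_eq_mul, smul_eq_mul]
  ring

theorem continuous_qf (H : Matrix (Fin n) (Fin n) ℝ) : Continuous (qf H) := by
  unfold qf
  exact Continuous.dotProduct continuous_id (Continuous.matrix_mulVec continuous_const continuous_id)

theorem continuous_gr (H : Matrix (Fin n) (Fin n) ℝ) (r : ℝ) : Continuous (gr H r) := by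
  unfold gr
  have := continuous_qf H
  fun_prop

theorem gr_pos {H : Matrix (Fin n) (Fin n) ℝ} (hH : H.PosDef) {r : ℝ} (hr : 0 < r) (v : Fin n → ℝ) :
    0 < gr H r v := by
  unfold gr
  have := Real.sqrt_pos.mpr hH.det_pos
  positivity

/-! ### the derivative -/

theorem hasDeriv_Phi {H : Matrix (Fin n) (Fin n) ℝ} (hH : H.PosDef) (r : ℝ) {V : Set (Fin n → ℝ)}
    (hV : IsCompact V) (A : Matrix (Fin n) (Fin n) ℝ) :
    HasDerivAt (fun t : ℝ => ∫ v in V, gr H r (v + t • (A *ᵥ v)) * (1 + t • A).det)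
      (∫ v in V, (A.trace - 2 * Real.pi * r ^ 2 * (v ⬝ᵥ ((H * A) *ᵥ v))) * gr H r v) 0 := by
  obtain ⟨q, hq, hq'⟩ : ∃ q : Polynomial ℝ, (∀ t : ℝ, (1 + t • A).det = q.eval t) ∧ q.derivative.eval 0 = A.trace := by
    refine ⟨_, fun t => ?_, derivative_det_one_add_X_smul A⟩
    have := congrArg (Polynomial.eval t) (det_one_add_X_smul A)
    rw [this, det_one_add_smul]
    simp
  have hcA : Continuous fun v : Fin n → ℝ => A *ᵥ v := Continuous.matrix_mulVec continuous_const continuous_id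
  have hcq := continuous_qf H
  have hcb : Continuous fun v : Fin n → ℝ => v ⬝ᵥ (H *ᵥ (A *ᵥ v)) :=
    Continuous.dotProduct continuous_id (Continuous.matrix_mulVec continuous_const hcA)
  set c0 := r ^ n * Real.sqrt H.det with hc0
  set g : ℝ → (Fin n → ℝ) → ℝ := fun t v => c0 * Real.exp (-Real.pi * r ^ 2 *
    (qf H v + t * (2 * (v ⬝ᵥ (H *ᵥ (A *ᵥ v)))) + t ^ 2 * qf H (A *ᵥ v))) * q.eval t with hgdef
  set g' : ℝ → (Fin n → ℝ) → ℝ := fun t v => c0 * (Real.exp (-Real.pi * r ^ 2 *
    (qf H v + t * (2 * (v ⬝ᵥ (H *ᵥ (A *ᵥ v)))) + t ^ 2 * qf H (A *ᵥ v))) * (-Real.pi * r ^ 2 *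
      (2 * (v ⬝ᵥ (H *ᵥ (A *ᵥ v))) + 2 * t * qf H (A *ᵥ v)))) * q.eval t + c0 * Real.exp (-Real.pi * r ^ 2 *
    (qf H v + t * (2 * (v ⬝ᵥ (H *ᵥ (A *ᵥ v)))) + t ^ 2 * qf H (A *ᵥ v))) * q.derivative.eval t with hgdef'
  have hqc := q.continuous
  have hqc' := q.derivative.continuous
  have hg : Continuous fun p : ℝ × (Fin n → ℝ) => g p.1 p.2 := by
    simp only [hgdef]
    fun_prop
  have hg' : Continuous fun p : ℝ × (Fin n → ℝ) => g' p.1 p.2 := by
    simp only [hgdef']
    fun_prop
  have hd : ∀ t v, HasDerivAt (fun t => g t v) (g' t v) t := by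
    intro t v
    have h1 : HasDerivAt (fun t : ℝ => -Real.pi * r ^ 2 *
        (qf H v + t * (2 * (v ⬝ᵥ (H *ᵥ (A *ᵥ v)))) + t ^ 2 * qf H (A *ᵥ v))) (-Real.pi * r ^ 2 *
      (2 * (v ⬝ᵥ (H *ᵥ (A *ᵥ v))) + 2 * t * qf H (A *ᵥ v))) t := by
      have h2 := ((((hasDerivAt_id t).mul_const (2 * (v ⬝ᵥ (H *ᵥ (A *ᵥ v))))).const_add (qf H v)).add
        (((hasDerivAt_id t).pow 2).mul_const (qf H (A *ᵥ v)))).const_mul (-Real.pi * r ^ 2)
      refine h2.congr_deriv ?_
      norm_num
    have h3 := (h1.exp.const_mul c0).mul (q.hasDerivAt t)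
    exact h3
  have hmain := hasDeriv_compact hV hg hg' hd 0
  have e1 : (fun t : ℝ => ∫ v in V, g t v) =
      fun t : ℝ => ∫ v in V, gr H r (v + t • (A *ᵥ v)) * (1 + t • A).det := by
    funext t
    congr 1
    funext v
    rw [hq t]
    simp only [hgdef, gr, Fintype.card_fin]
    rw [qf_add_smul, qf_symm hH v (A *ᵥ v), two_mul]
  have e2 : ∫ v in V, g' 0 v =
      ∫ v in V, (A.trace - 2 * Real.pi * r ^ 2 * (v ⬝ᵥ ((H * A) *ᵥ v))) * gr H r v := by
    congr 1
    funext v
    have hq0 : q.eval 0 = 1 := by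
      rw [← hq 0]
      simp
    simp only [hgdef', gr, Fintype.card_fin, hq0, hq']
    rw [← mulVec_mulVec]
    simp only [zero_mul, add_zero, mul_zero, ne_eq, OfNat.ofNat_ne_zero, not_false_eq_true, zero_pow]
    ring
  rw [e1, e2] at hmain
  exact hmain

/-- change of variables -/
theorem image_eq (H : Matrix (Fin n) (Fin n) ℝ) (r : ℝ) {V : Set (Fin n → ℝ)} (hV : MeasurableSet V)
    (A : Matrix (Fin n) (Fin n) ℝ) {t : ℝ} (ht : 0 < (1 + t • A).det) :
    ∫ y in (fun v => v + t • (A *ᵥ v)) '' V, gr H r y = ∫ v in V, gr H r (v + t • (A *ᵥ v)) * (1 + t • A).det := by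
  have h1 : (fun v : Fin n → ℝ => v + t • (A *ᵥ v)) = fun v => (1 + t • A) *ᵥ v := by
    funext v
    rw [add_mulVec, one_mulVec, smul_mulVec]
  set L : (Fin n → ℝ) →L[ℝ] (Fin n → ℝ) := LinearMap.toContinuousLinearMap (Matrix.toLin' (1 + t • A)) with hL
  have h2 : ∀ v, L v = v + t • (A *ᵥ v) := by
    intro v
    rw [congrFun h1 v]
    rfl
  have h3 : (fun v : Fin n → ℝ => v + t • (A *ᵥ v)) = L := by
    funext v
    rw [h2]
  have h4 : L.det = (1 + t • A).det := by
    rw [hL, ContinuousLinearMap.det, LinearMap.coe_toContinuousLinearMap, LinearMap.det_toLin']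
  have hinj : Function.Injective L := by
    intro x y hxy
    rw [h2, h2, congrFun h1 x, congrFun h1 y] at hxy
    have hu : IsUnit (1 + t • A).det := isUnit_iff_ne_zero.mpr ht.ne'
    have := congrArg (fun z => (1 + t • A)⁻¹ *ᵥ z) hxy
    simpa [mulVec_mulVec, nonsing_inv_mul _ hu] using this
  rw [h3, integral_image_eq_integral_abs_det_fderiv_smul volume hV (fun x _ => L.hasFDerivAt.hasFDerivWithinAt)
    hinj.injOn]
  congr 1
  funext v
  rw [h4, abs_of_pos ht, smul_eq_mul, mul_comm, h2]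

/-! ### the set `E` -/

/-- the exceptional set -/
def ES (N : Seminorm ℝ (Fin n → ℝ)) (A : Matrix (Fin n) (Fin n) ℝ) (t : ℝ) : Set (Fin n → ℝ) :=
  {y | 1 < N y ∧ N y ≤ 1 + 2 * t * N (A *ᵥ y) ∧ 1 / 2 < N (A *ᵥ y)}

theorem measurableSet_ES {N : Seminorm ℝ (Fin n → ℝ)} (hN : Continuous N) (A : Matrix (Fin n) (Fin n) ℝ) (t : ℝ) :
    MeasurableSet (ES N A t) := by
  have hcA : Continuous fun v : Fin n → ℝ => N (A *ᵥ v) :=
    hN.comp (Continuous.matrix_mulVec continuous_const continuous_id)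
  have h1 : MeasurableSet {y : Fin n → ℝ | 1 < N y} := measurableSet_lt measurable_const hN.measurable
  have h2 : MeasurableSet {y : Fin n → ℝ | N y ≤ 1 + 2 * t * N (A *ᵥ y)} :=
    measurableSet_le hN.measurable (by fun_prop : Continuous fun y : Fin n → ℝ => 1 + 2 * t * N (A *ᵥ y)).measurable
  have h3 : MeasurableSet {y : Fin n → ℝ | 1 / 2 < N (A *ᵥ y)} := measurableSet_lt measurable_const hcA.measurable
  exact h1.inter (h2.inter h3)

/-- the key estimate in `lintegral` form -/
theorem ES_bound {N : Seminorm ℝ (Fin n → ℝ)} (hN : Continuous N) (hn : 1 ≤ n)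
    {H : Matrix (Fin n) (Fin n) ℝ} (hH : H.PosDef) {r : ℝ} (hr : 0 < r)
    (A : Matrix (Fin n) (Fin n) ℝ) {t : ℝ} (ht : 0 < t) :
    ∫⁻ y in ES N A t, ENNReal.ofReal (gr H r y) ≤
      ENNReal.ofReal (8 * n * t) *
        ∫⁻ x in {x | 1 / 4 < N (A *ᵥ x)}, ENNReal.ofReal (N (A *ᵥ x) * gr H r x) := by
  have hn0 : (0:ℝ) < n := by exact_mod_cast hn
  have hn1 : (1:ℝ) ≤ n := by exact_mod_cast hn
  set E := ES N A t with hE
  have hEm : MeasurableSet E := measurableSet_ES hN A t
  set l0 : ℝ := 1 - 1 / (2 * n) with hl0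
  have hl0h : 1 / 2 ≤ l0 := by
    rw [hl0]
    have : 1 / (2 * (n:ℝ)) ≤ 1 / 2 := one_div_le_one_div_of_le (by norm_num) (by linarith)
    linarith
  have hgrc := continuous_gr H r
  have hgm : Measurable fun x : Fin n → ℝ => ENNReal.ofReal (gr H r x) := hgrc.measurable.ennreal_ofReal
  set f : ℝ → (Fin n → ℝ) → ENNReal := fun l x => E.indicator (fun _ => 1) (l⁻¹ • x) * ENNReal.ofReal (gr H r x)
    with hf
  have hfm : Measurable (Function.uncurry f) := by
    have h1 : Measurable fun p : ℝ × (Fin n → ℝ) => p.1⁻¹ • p.2 := by fun_prop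
    have h2 : Measurable (E.indicator (fun _ => (1 : ENNReal))) := measurable_const.indicator hEm
    exact (h2.comp h1).mul (hgm.comp measurable_snd)
  -- lower bound
  have hlow : ∀ l ∈ Set.Icc l0 1, ENNReal.ofReal (1 / 2) * ∫⁻ y in E, ENNReal.ofReal (gr H r y) ≤ ∫⁻ x, f l x := by
    intro l hl
    have hl00 : 0 < l := by linarith [hl.1]
    have h1 : ∫⁻ x, f l x = ∫⁻ x, f l (l • x) ∂(ENNReal.ofReal (l ^ n) • volume) := by
      have h2 : (ENNReal.ofReal (l ^ n) • (volume : Measure (Fin n → ℝ))).map (fun x => l • x) = volume := by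
        rw [Measure.map_smul, Measure.map_addHaar_smul _ hl00.ne', smul_smul, ← ENNReal.ofReal_mul (by positivity)]
        have h3 : l ^ n * |(l ^ Module.finrank ℝ (Fin n → ℝ))⁻¹| = 1 := by
          rw [Module.finrank_fin_fun, abs_of_pos (by positivity)]
          exact mul_inv_cancel₀ (by positivity)
        rw [h3, ENNReal.ofReal_one, one_smul]
      conv_lhs => rw [← h2]
      exact lintegral_map (f := f l) (hfm.comp (measurable_const.prodMk measurable_id)) (measurable_const_smul l)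
    rw [h1, lintegral_smul_measure, smul_eq_mul]
    have h4 : ∀ x, f l (l • x) = E.indicator (fun y => ENNReal.ofReal (gr H r (l • y))) x := by
      intro x
      simp only [hf]
      rw [smul_smul, inv_mul_cancel₀ hl00.ne', one_smul]
      by_cases hx : x ∈ E
      · rw [Set.indicator_of_mem hx, Set.indicator_of_mem hx, one_mul]
      · rw [Set.indicator_of_notMem hx, Set.indicator_of_notMem hx, zero_mul]
    simp_rw [h4]
    rw [lintegral_indicator hEm]
    apply mul_le_mul' _ _
    · apply ENNReal.ofReal_le_ofReal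
      have h5 : (1 / 2 : ℝ) ≤ l0 ^ n := by
        have h6 := one_add_mul_le_pow (a := -(1 / (2 * (n:ℝ)))) (by
          have : 1 / (2 * (n:ℝ)) ≤ 1 / 2 := one_div_le_one_div_of_le (by norm_num) (by linarith)
          linarith) n
        have h7 : 1 + (n:ℝ) * -(1 / (2 * (n:ℝ))) = 1 / 2 := by
          field_simp
          norm_num
        rw [h7] at h6
        rw [hl0, sub_eq_add_neg]
        exact h6
      exact h5.trans (pow_le_pow_left₀ (by linarith) hl.1 n)
    · apply lintegral_mono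
      intro x
      apply ENNReal.ofReal_le_ofReal
      unfold gr
      have h8 := Real.sqrt_nonneg H.det
      apply mul_le_mul_of_nonneg_left _ (by positivity)
      apply Real.exp_le_exp.mpr
      rw [qf_smul_vec]
      have h9 : l ^ 2 ≤ 1 := by nlinarith [hl.2]
      have h10 := qf_nonneg hH x
      have h11 : l ^ 2 * qf H x ≤ qf H x := by nlinarith
      have h12 : 0 < Real.pi * r ^ 2 := by positivity
      nlinarith
  -- upper bound
  have hup : ∀ x, ∫⁻ l in Set.Icc l0 1, f l x ≤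
      ({x | 1 / 4 < N (A *ᵥ x)} : Set (Fin n → ℝ)).indicator
        (fun x => ENNReal.ofReal (2 * t) * ENNReal.ofReal (N (A *ᵥ x) * gr H r x)) x := by
    intro x
    have hsub : ∀ l ∈ Set.Icc l0 1, l⁻¹ • x ∈ E → 1 / 4 < N (A *ᵥ x) ∧ N x - 2 * t * N (A *ᵥ x) ≤ l ∧ l < N x := by
      intro l hl hx
      have hl00 : 0 < l := by linarith [hl.1]
      obtain ⟨a1, a2, a3⟩ := hx
      rw [mulVec_smul] at a2 a3
      rw [map_smul_eq_mul, Real.norm_of_nonneg (by positivity)] at a1 a3
      rw [map_smul_eq_mul, map_smul_eq_mul, Real.norm_of_nonneg (by positivity)] at a2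
      refine ⟨?_, ?_, ?_⟩
      · have : 1 / 2 * l < N (A *ᵥ x) := by
          rwa [inv_mul_eq_div, lt_div_iff₀ hl00] at a3
        nlinarith [hl.1]
      · have h1 := mul_le_mul_of_nonneg_left a2 hl00.le
        have h2 : l * (l⁻¹ * N x) = N x := by
          rw [← mul_assoc, mul_inv_cancel₀ hl00.ne', one_mul]
        have h3 : l * (1 + 2 * t * (l⁻¹ * N (A *ᵥ x))) = l + 2 * t * N (A *ᵥ x) := by
          field_simp
        rw [h2, h3] at h1
        linarith
      · rwa [inv_mul_eq_div, one_lt_div hl00] at a1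
    have h1 : ∫⁻ l in Set.Icc l0 1, f l x =
        (∫⁻ l in Set.Icc l0 1, E.indicator (fun _ => 1) (l⁻¹ • x)) * ENNReal.ofReal (gr H r x) := by
      simp only [hf]
      rw [lintegral_mul_const]
      have h2 : Measurable (E.indicator (fun _ => (1 : ENNReal))) := measurable_const.indicator hEm
      exact h2.comp (by fun_prop)
    rw [h1]
    by_cases hx : 1 / 4 < N (A *ᵥ x)
    · rw [Set.indicator_of_mem (show x ∈ {x | 1 / 4 < N (A *ᵥ x)} from hx)]
      have h3 : ∫⁻ l in Set.Icc l0 1, E.indicator (fun _ => 1) (l⁻¹ • x) ≤ ENNReal.ofReal (2 * t * N (A *ᵥ x)) := by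
        calc ∫⁻ l in Set.Icc l0 1, E.indicator (fun _ => 1) (l⁻¹ • x)
            ≤ ∫⁻ l in Set.Icc l0 1, (Set.Icc (N x - 2 * t * N (A *ᵥ x)) (N x)).indicator (fun _ => 1) l := by
              apply setLIntegral_mono' measurableSet_Icc
              intro l hl
              by_cases hx' : l⁻¹ • x ∈ E
              · obtain ⟨-, b2, b3⟩ := hsub l hl hx'
                rw [Set.indicator_of_mem hx', Set.indicator_of_mem
                  (show l ∈ Set.Icc (N x - 2 * t * N (A *ᵥ x)) (N x) from ⟨b2, b3.le⟩)]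
              · rw [Set.indicator_of_notMem hx']
                exact zero_le
          _ ≤ ∫⁻ l, (Set.Icc (N x - 2 * t * N (A *ᵥ x)) (N x)).indicator (fun _ => 1) l := setLIntegral_le_lintegral _ _
          _ = ENNReal.ofReal (2 * t * N (A *ᵥ x)) := by
              rw [lintegral_indicator measurableSet_Icc, lintegral_const, one_mul, Measure.restrict_apply_univ,
                Real.volume_Icc]
              congr 1
              ring
      calc (∫⁻ l in Set.Icc l0 1, E.indicator (fun _ => 1) (l⁻¹ • x)) * ENNReal.ofReal (gr H r x)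
          ≤ ENNReal.ofReal (2 * t * N (A *ᵥ x)) * ENNReal.ofReal (gr H r x) := mul_le_mul_left h3 _
        _ = ENNReal.ofReal (2 * t) * ENNReal.ofReal (N (A *ᵥ x) * gr H r x) := by
            have hNA := apply_nonneg N (A *ᵥ x)
            rw [← ENNReal.ofReal_mul (by positivity), ← ENNReal.ofReal_mul (by positivity)]
            congr 1
            ring
    · have h3 : ∫⁻ l in Set.Icc l0 1, E.indicator (fun _ => 1) (l⁻¹ • x) = 0 := by
        rw [setLIntegral_congr_fun (g := fun _ => 0) measurableSet_Icc, lintegral_zero]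
        intro l hl
        exact Set.indicator_of_notMem (fun h => hx (hsub l hl h).1) _
      rw [h3, zero_mul]
      exact zero_le
  have hm4 : MeasurableSet {x : Fin n → ℝ | 1 / 4 < N (A *ᵥ x)} :=
    measurableSet_lt measurable_const (hN.comp (Continuous.matrix_mulVec continuous_const continuous_id)).measurable
  set a := ∫⁻ y in E, ENNReal.ofReal (gr H r y) with ha
  have hchain : ENNReal.ofReal (1 / (4 * n)) * a ≤ ENNReal.ofReal (2 * t) *
      ∫⁻ x in {x | 1 / 4 < N (A *ᵥ x)}, ENNReal.ofReal (N (A *ᵥ x) * gr H r x) := by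
    calc ENNReal.ofReal (1 / (4 * n)) * a = ∫⁻ _l in Set.Icc l0 1, ENNReal.ofReal (1 / 2) * a := by
          rw [lintegral_const, Measure.restrict_apply_univ, Real.volume_Icc]
          rw [mul_comm (ENNReal.ofReal (1 / 2) * a), ← mul_assoc, ← ENNReal.ofReal_mul (by
            have : 0 < 1 / (2 * (n:ℝ)) := by positivity
            linarith)]
          congr 2
          rw [hl0]
          field_simp
          ring
      _ ≤ ∫⁻ l in Set.Icc l0 1, ∫⁻ x, f l x := setLIntegral_mono' measurableSet_Icc hlow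
      _ = ∫⁻ x, ∫⁻ l in Set.Icc l0 1, f l x := lintegral_lintegral_swap hfm.aemeasurable
      _ ≤ ∫⁻ x, ({x | 1 / 4 < N (A *ᵥ x)} : Set (Fin n → ℝ)).indicator
            (fun x => ENNReal.ofReal (2 * t) * ENNReal.ofReal (N (A *ᵥ x) * gr H r x)) x := lintegral_mono hup
      _ = _ := by
          rw [lintegral_indicator hm4, lintegral_const_mul]
          apply Measurable.ennreal_ofReal
          exact ((hN.comp (Continuous.matrix_mulVec continuous_const continuous_id)).mul hgrc).measurable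
  have h4n : ENNReal.ofReal (4 * n) * ENNReal.ofReal (1 / (4 * n)) = 1 := by
    rw [← ENNReal.ofReal_mul (by positivity), mul_one_div_cancel (by positivity), ENNReal.ofReal_one]
  calc a = ENNReal.ofReal (4 * n) * (ENNReal.ofReal (1 / (4 * n)) * a) := by rw [← mul_assoc, h4n, one_mul]
    _ ≤ ENNReal.ofReal (4 * n) * (ENNReal.ofReal (2 * t) *
      ∫⁻ x in {x | 1 / 4 < N (A *ᵥ x)}, ENNReal.ofReal (N (A *ᵥ x) * gr H r x)) := mul_le_mul_right hchain _
    _ = _ := by
        rw [← mul_assoc, ← ENNReal.ofReal_mul (by positivity)]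
        congr 2
        ring

theorem gr_eq_gH {H : Matrix (Fin n) (Fin n) ℝ} {r : ℝ} (hr : 0 < r) (v : Fin n → ℝ) :
    gr H r v = gH ((r ^ 2) • H) v := by
  unfold gr gH qf
  rw [det_smul, Fintype.card_fin, smul_mulVec, dotProduct_smul, smul_eq_mul]
  congr 1
  · rw [← pow_mul, mul_comm 2 n, pow_mul, Real.sqrt_mul (by positivity), Real.sqrt_sq (by positivity)]
  · congr 1
    ring

/-- a right derivative of a function which is nonnegative to the right of its zero -/
theorem deriv_nonneg {ψ : ℝ → ℝ} {d : ℝ} (hd : HasDerivAt ψ d 0) (h0 : ψ 0 = 0)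
    (hpos : ∀ᶠ t in 𝓝[>] (0:ℝ), 0 ≤ ψ t) : 0 ≤ d := by
  have h1 := (hasDerivWithinAt_iff_tendsto_slope' (s := Set.Ioi (0:ℝ)) (by simp)).mp (hd.hasDerivWithinAt (s := Set.Ioi 0))
  refine ge_of_tendsto h1 ?_
  filter_upwards [hpos, self_mem_nhdsWithin] with t ht htp
  rw [slope_def_field, h0, sub_zero, sub_zero]
  exact div_nonneg ht (le_of_lt htp)

end DER

open DER in
/-- BLOCK DER -/
theorem stmt_DER (hGB1 : Stmt_GB1) (hNRM : Stmt_NRM) : Stmt_DER := by
  intro n hn N hN H hH r hr iso A hA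
  obtain ⟨hVc, -, -, hNc, -⟩ := (hNRM (Fin n)).2 N hN
  obtain ⟨-, -, -, hG4, -, hG6, -⟩ := hGB1 (Fin n)
  set V : Set (Fin n → ℝ) := {v | N v ≤ 1} with hV
  have hn0 : (0:ℝ) < n := by exact_mod_cast hn
  have hgrc := continuous_gr H r
  have hqc := continuous_qf H
  have hAc : Continuous fun v : Fin n → ℝ => A *ᵥ v := Continuous.matrix_mulVec continuous_const continuous_id
  have hHr : ((r ^ 2) • H).PosDef := hH.smul (by positivity)
  have hgri : Integrable (gr H r) := by
    refine (hG4 _ hHr).1.congr (Eventually.of_forall fun v => ?_)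
    exact (gr_eq_gH hr v).symm
  have hQi : Integrable fun v => N (A *ᵥ v) * gr H r v := by
    have h1 := hG6 (N.comp (Matrix.mulVecLin A)) _ hHr
    refine h1.congr (Eventually.of_forall fun v => ?_)
    simp only [Seminorm.comp_apply, Matrix.mulVecLin_apply]
    rw [← gr_eq_gH hr v]
  set Q := ∫ v in {v | 1 / 4 < N (A *ᵥ v)}, N (A *ᵥ v) * gr H r v with hQ
  set P := ∫ v in V, (n - 2 * Real.pi * r ^ 2 * qf H v) * gr H r v with hP
  have hgr0 : ∀ v, 0 ≤ gr H r v := fun v => (gr_pos hH hr v).le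
  have hQ0 : 0 ≤ Q := integral_nonneg fun v => mul_nonneg (apply_nonneg N _) (hgr0 v)
  -- isotropy
  have hiA : ∫ v in V, (v ⬝ᵥ ((H * A) *ᵥ v)) * gr H r v = ∫ v in V, qf H v * gr H r v := by
    have h1 := iso A
    rw [hA] at h1
    exact mul_left_cancel₀ hn0.ne' h1
  have hbc : Continuous fun v : Fin n → ℝ => v ⬝ᵥ ((H * A) *ᵥ v) :=
    Continuous.dotProduct continuous_id (Continuous.matrix_mulVec continuous_const continuous_id)
  have hPA : ∫ v in V, (A.trace - 2 * Real.pi * r ^ 2 * (v ⬝ᵥ ((H * A) *ᵥ v))) * gr H r v = P := by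
    have e1 : ∀ (f : (Fin n → ℝ) → ℝ), Continuous f →
        ∫ v in V, (n - 2 * Real.pi * r ^ 2 * f v) * gr H r v =
          n * (∫ v in V, gr H r v) - 2 * Real.pi * r ^ 2 * ∫ v in V, f v * gr H r v := by
      intro f hf
      have i1 : IntegrableOn (gr H r) V := hgri.integrableOn
      have i2 : IntegrableOn (fun v => f v * gr H r v) V := (hf.mul hgrc).continuousOn.integrableOn_compact hVc
      rw [← integral_const_mul, ← integral_const_mul, ← integral_sub (i1.const_mul _) (i2.const_mul _)]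
      congr 1
      funext v
      ring
    rw [hA, hP, e1 _ hbc, e1 _ hqc, hiA]
  have hdA := hasDeriv_Phi hH r hVc A
  rw [hPA] at hdA
  have hd1 := hasDeriv_Phi hH r hVc 1
  have hP1 : ∫ v in V, ((1 : Matrix (Fin n) (Fin n) ℝ).trace - 2 * Real.pi * r ^ 2 * (v ⬝ᵥ ((H * 1) *ᵥ v))) * gr H r v = P := by
    rw [hP, trace_one, mul_one, Fintype.card_fin]
    rfl
  rw [hP1] at hd1
  set PhiA := fun t : ℝ => ∫ v in V, gr H r (v + t • (A *ᵥ v)) * (1 + t • A).det with hPhiA
  set Phi1 := fun t : ℝ => ∫ v in V, gr H r (v + t • ((1 : Matrix (Fin n) (Fin n) ℝ) *ᵥ v)) *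
    (1 + t • (1 : Matrix (Fin n) (Fin n) ℝ)).det with hPhi1
  -- a bound for `A^2`
  obtain ⟨C0, hC0⟩ := hVc.exists_bound_of_continuousOn (f := fun v => N (A *ᵥ (A *ᵥ v)))
    (hNc.comp (hAc.comp hAc)).continuousOn
  set C := max C0 0 with hC
  have hC' : ∀ v ∈ V, N (A *ᵥ (A *ᵥ v)) ≤ C := fun v hv => ((le_abs_self _).trans (hC0 v hv)).trans (le_max_left _ _)
  have hCn : 0 ≤ C := le_max_right _ _
  -- balls
  have hball : ∀ s : ℝ, 0 ≤ s → ∫ y in {y | N y ≤ 1 + s}, gr H r y = Phi1 s := by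
    intro s hs
    have hdet : 0 < (1 + s • (1 : Matrix (Fin n) (Fin n) ℝ)).det := by
      have : (1 + s • (1 : Matrix (Fin n) (Fin n) ℝ)) = (1 + s) • (1 : Matrix (Fin n) (Fin n) ℝ) := by
        rw [add_smul, one_smul]
      rw [this, det_smul, det_one]
      positivity
    rw [hPhi1]
    simp only
    rw [← image_eq H r hVc.measurableSet 1 hdet]
    congr 2
    ext y
    simp only [Set.mem_image, Set.mem_ofPred_eq, one_mulVec]
    constructor
    · intro hy
      refine ⟨(1 + s)⁻¹ • y, ?_, ?_⟩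
      · change N ((1 + s)⁻¹ • y) ≤ 1
        rw [map_smul_eq_mul, Real.norm_of_nonneg (by positivity), inv_mul_le_iff₀ (by positivity), mul_one]
        exact hy
      · rw [smul_smul, ← add_smul]
        have : (1 + s)⁻¹ + s * (1 + s)⁻¹ = 1 := by
          have : (1 + s) ≠ 0 := by positivity
          field_simp
        rw [this, one_smul]
    · rintro ⟨v, hv, rfl⟩
      have hv' : N v ≤ 1 := hv
      have : v + s • v = (1 + s) • v := by rw [add_smul, one_smul]
      rw [this, map_smul_eq_mul, Real.norm_of_nonneg (by positivity)]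
      nlinarith [apply_nonneg N v]
  -- the exceptional set
  have hES : ∀ t : ℝ, 0 < t → ∫ y in ES N A t, gr H r y ≤ 8 * n * t * Q := by
    intro t ht
    have h1 := ES_bound hNc hn hH hr A ht
    have h2 := ofReal_integral_eq_lintegral_ofReal (hgri.integrableOn (s := ES N A t)) (Eventually.of_forall hgr0)
    have h3 := ofReal_integral_eq_lintegral_ofReal (hQi.integrableOn (s := {v | 1 / 4 < N (A *ᵥ v)}))
      (Eventually.of_forall fun v => mul_nonneg (apply_nonneg N _) (hgr0 v))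
    rw [← h2, ← h3, ← ENNReal.ofReal_mul (by positivity)] at h1
    exact (ENNReal.ofReal_le_ofReal_iff (by positivity)).mp h1
  -- the comparison
  have hcmp : ∀ᶠ t in 𝓝[>] (0:ℝ), PhiA t ≤ Phi1 (t / 2 + C * t ^ 2) + 8 * n * Q * t := by
    have hdet : ∀ᶠ t in 𝓝[>] (0:ℝ), 0 < (1 + t • A).det := by
      have hc : Continuous fun t : ℝ => (1 + t • A).det := by
        apply Continuous.matrix_det
        fun_prop
      have h1 : Tendsto (fun t : ℝ => (1 + t • A).det) (𝓝 0) (𝓝 1) := by
        have := hc.tendsto 0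
        simpa using this
      exact (h1.mono_left nhdsWithin_le_nhds).eventually (lt_mem_nhds one_pos)
    have hsmall : ∀ᶠ t in 𝓝[>] (0:ℝ), C * t ≤ 1 / 2 := by
      have h1 : Tendsto (fun t : ℝ => C * t) (𝓝 0) (𝓝 0) := by
        have := (by fun_prop : Continuous fun t : ℝ => C * t).tendsto 0
        rwa [mul_zero] at this
      filter_upwards [(h1.mono_left nhdsWithin_le_nhds).eventually (gt_mem_nhds (by norm_num : (0:ℝ) < 1 / 2))] with t ht
      exact ht.le
    filter_upwards [hdet, hsmall, self_mem_nhdsWithin] with t hdt hst ht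
    have ht0 : 0 < t := ht
    have hs0 : 0 ≤ t / 2 + C * t ^ 2 := by positivity
    rw [← hball _ hs0]
    have hE := hES t ht0
    have hsub : (fun v => v + t • (A *ᵥ v)) '' V ⊆ {y | N y ≤ 1 + (t / 2 + C * t ^ 2)} ∪ ES N A t := by
      rintro y ⟨v, hv, rfl⟩
      simp only
      set y := v + t • (A *ᵥ v) with hy
      have hv' : N v ≤ 1 := hv
      have h1 : N y ≤ 1 + t * N (A *ᵥ v) := by
        calc N y ≤ N v + N (t • (A *ᵥ v)) := map_add_le_add N _ _
          _ = N v + t * N (A *ᵥ v) := by rw [map_smul_eq_mul, Real.norm_of_nonneg ht0.le]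
          _ ≤ _ := by linarith
      have h2 : N (A *ᵥ v) ≤ N (A *ᵥ y) + t * C := by
        have e1 : A *ᵥ v = A *ᵥ y - t • (A *ᵥ (A *ᵥ v)) := by
          rw [hy, mulVec_add, mulVec_smul]
          abel
        calc N (A *ᵥ v) = N (A *ᵥ y - t • (A *ᵥ (A *ᵥ v))) := by rw [← e1]
          _ ≤ N (A *ᵥ y) + N (t • (A *ᵥ (A *ᵥ v))) := map_sub_le_add N _ _
          _ = N (A *ᵥ y) + t * N (A *ᵥ (A *ᵥ v)) := by rw [map_smul_eq_mul, Real.norm_of_nonneg ht0.le]
          _ ≤ _ := by
              have := mul_le_mul_of_nonneg_left (hC' v hv) ht0.le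
              linarith
      have h3 : N y ≤ 1 + t * N (A *ᵥ y) + C * t ^ 2 := by nlinarith
      by_cases h4 : N (A *ᵥ y) ≤ 1 / 2
      · left
        change N y ≤ 1 + (t / 2 + C * t ^ 2)
        nlinarith
      · push Not at h4
        by_cases h5 : N y ≤ 1
        · left
          change N y ≤ 1 + (t / 2 + C * t ^ 2)
          linarith
        · push Not at h5
          right
          refine ⟨h5, ?_, h4⟩
          nlinarith
    calc PhiA t = ∫ y in (fun v => v + t • (A *ᵥ v)) '' V, gr H r y := (image_eq H r hVc.measurableSet A hdt).symm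
      _ ≤ ∫ y in {y | N y ≤ 1 + (t / 2 + C * t ^ 2)} ∪ ES N A t, gr H r y :=
          setIntegral_mono_set hgri.integrableOn (Eventually.of_forall hgr0) hsub.eventuallyLE
      _ ≤ (∫ y in {y | N y ≤ 1 + (t / 2 + C * t ^ 2)}, gr H r y) + ∫ y in ES N A t, gr H r y := by
          rw [← Set.union_sdiff_self, setIntegral_union Set.disjoint_sdiff_right
            ((measurableSet_ES hNc A t).diff (measurableSet_le hNc.measurable measurable_const))
            hgri.integrableOn hgri.integrableOn]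
          have := setIntegral_mono_set (s := ES N A t \ {y | N y ≤ 1 + (t / 2 + C * t ^ 2)}) (t := ES N A t)
            (f := gr H r) (μ := volume) hgri.integrableOn (Eventually.of_forall hgr0)
            (Set.sdiff_subset.eventuallyLE)
          linarith
      _ ≤ _ := by linarith
  -- the limit
  have hinner : HasDerivAt (fun t : ℝ => t / 2 + C * t ^ 2) (1 / 2) 0 := by
    have := ((hasDerivAt_id (0:ℝ)).div_const 2).add (((hasDerivAt_id (0:ℝ)).pow 2).const_mul C)
    refine this.congr_deriv ?_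
    simp
  have hcomp : HasDerivAt (fun t : ℝ => Phi1 (t / 2 + C * t ^ 2)) (P * (1 / 2)) 0 := by
    have h0 : (0:ℝ) / 2 + C * 0 ^ 2 = 0 := by norm_num
    exact HasDerivAt.comp (0:ℝ) (h₂ := Phi1) (h := fun t : ℝ => t / 2 + C * t ^ 2) (by
      simp only [h0]
      exact hd1) hinner
  have hpsi : HasDerivAt (fun t : ℝ => Phi1 (t / 2 + C * t ^ 2) + 8 * n * Q * t - PhiA t)
      (P * (1 / 2) + 8 * n * Q - P) 0 := by
    have := (hcomp.add ((hasDerivAt_id (0:ℝ)).const_mul (8 * n * Q))).sub hdA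
    refine this.congr_deriv ?_
    ring
  have hfin := deriv_nonneg hpsi (by
    simp only [hPhi1, hPhiA]
    simp) (by
    filter_upwards [hcmp] with t ht
    linarith)
  linarith

end Pool.Agent.Work.MP_b10815_co_flt
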