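import Pool.Agent.Work.MP_b10815_co_flt.QF
set_option autoImplicit false
set_option linter.unusedSectionVars false

/-!
# The squared distance to the lattice (block DHC)
-/

namespace Pool.Agent.Work.MP_b10815_co_flt

open MeasureTheory Matrix

namespace DHC

variable {ι : Type} [Fintype ι]

/-- Integer points `z` with `qf H (u - z)` bounded lie in a fixed finite box. -/
theorem box [DecidableEq ι] {H : Matrix ι ι ℝ} (hH : H.PosDef) (R B : ℝ) :
    ∃ F : Finset (ι → ℤ), ∀ u : ι → ℝ, ‖u‖ ≤ R → ∀ z : ι → ℤ, qf H (u - zc z) ≤ B → z ∈ F := by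
  obtain ⟨c, hc, hcH⟩ := QF.coercive hH
  obtain ⟨K, hK⟩ := exists_nat_ge (R + (B / c + 1))
  refine ⟨Fintype.piFinset fun _ => Finset.Icc (-(K : ℤ)) K, fun u hu z hz => ?_⟩
  rw [Fintype.mem_piFinset]
  intro i
  rw [Finset.mem_Icc]
  have h1 : c * ((u - zc z) i) ^ 2 ≤ B := by
    calc c * ((u - zc z) i) ^ 2 ≤ c * ((u - zc z) ⬝ᵥ (u - zc z)) :=
          mul_le_mul_of_nonneg_left (QF.sq_le_dot _ i) hc.le
      _ ≤ qf H (u - zc z) := hcH _
      _ ≤ B := hz
  have h2 : ((u - zc z) i) ^ 2 ≤ B / c := by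
    rw [le_div_iff₀ hc]; linarith
  have h3 : |(u - zc z) i| ≤ B / c + 1 := by
    have h4 : |(u - zc z) i| ^ 2 ≤ B / c := by rwa [sq_abs]
    nlinarith [abs_nonneg ((u - zc z) i), sq_nonneg (|(u - zc z) i| - 1)]
  have h5 : |u i| ≤ R := by
    have := norm_le_pi_norm u i
    rw [Real.norm_eq_abs] at this
    linarith
  have h6 : (zc z) i = (z i : ℝ) := rfl
  rw [Pi.sub_apply, h6] at h3
  rw [abs_le] at h3 h5
  have h7 : (z i : ℝ) ≤ K := by linarith [h3.1, h5.2]
  have h8 : -(K : ℝ) ≤ z i := by linarith [h3.2, h5.1]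
  constructor
  · exact_mod_cast h8
  · exact_mod_cast h7

theorem bddBelow {H : Matrix ι ι ℝ} (hH : H.PosDef) (u : ι → ℝ) :
    BddBelow (Set.range fun z : ι → ℤ => qf H (u - zc z)) :=
  ⟨0, by rintro _ ⟨z, rfl⟩; exact QF.nonneg hH _⟩

theorem le {H : Matrix ι ι ℝ} (hH : H.PosDef) (u : ι → ℝ) (z : ι → ℤ) :
    dH H u ≤ qf H (u - zc z) := ciInf_le (bddBelow hH u) z

theorem nonneg {H : Matrix ι ι ℝ} (hH : H.PosDef) (u : ι → ℝ) : 0 ≤ dH H u :=
  le_ciInf fun _ => QF.nonneg hH _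

/-- The infimum is attained. -/
theorem attained [DecidableEq ι] {H : Matrix ι ι ℝ} (hH : H.PosDef) (u : ι → ℝ) :
    ∃ z : ι → ℤ, dH H u = qf H (u - zc z) := by
  obtain ⟨F, hF⟩ := box hH ‖u‖ (qf H u)
  have h0 : (0 : ι → ℤ) ∈ F := hF u le_rfl 0 (by simp)
  obtain ⟨z, hz, hmin⟩ := F.exists_min_image (fun z => qf H (u - zc z)) ⟨0, h0⟩
  refine ⟨z, le_antisymm (le hH u z) (le_ciInf fun w => ?_)⟩
  by_cases hw : qf H (u - zc w) ≤ qf H u
  · exact hmin w (hF u le_rfl w hw)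
  · have h1 := hmin 0 h0
    simp only [QF.zc_zero, sub_zero] at h1
    exact h1.trans (not_le.1 hw).le

theorem periodic {H : Matrix ι ι ℝ} (u : ι → ℝ) (z : ι → ℤ) : dH H (u + zc z) = dH H u := by
  unfold dH
  refine Equiv.iInf_congr (Equiv.addRight (-z)) fun w => ?_
  rw [Equiv.coe_addRight, QF.zc_add, QF.zc_neg]
  congr 1
  abel

theorem continuous [DecidableEq ι] {H : Matrix ι ι ℝ} (hH : H.PosDef) : Continuous (dH H) := by
  rw [continuous_iff_continuousAt]
  intro u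
  obtain ⟨C, hC, hup⟩ := QF.upper H
  obtain ⟨F, hF⟩ := box hH (‖u‖ + 1) (C * (‖u‖ + 1) ^ 2)
  have h0 : (0 : ι → ℤ) ∈ F := hF u (by linarith) 0 (by
    rw [QF.zc_zero, sub_zero]
    refine (hup u).trans (mul_le_mul_of_nonneg_left ?_ hC.le)
    have := norm_nonneg u
    nlinarith)
  have hFne : F.Nonempty := ⟨0, h0⟩
  have hev : ∀ᶠ v in nhds u, F.inf' hFne (fun z => qf H (v - zc z)) = dH H v := by
    have : ∀ᶠ v in nhds u, ‖v‖ < ‖u‖ + 1 :=
      continuous_norm.continuousAt.eventually_lt continuousAt_const (by simp)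
    filter_upwards [this] with v hv
    apply le_antisymm
    · obtain ⟨z, hz⟩ := attained hH v
      rw [hz]
      refine Finset.inf'_le (fun z => qf H (v - zc z)) (hF v hv.le z ?_)
      rw [← hz]
      refine (le hH v 0).trans ?_
      rw [QF.zc_zero, sub_zero]
      refine (hup v).trans (mul_le_mul_of_nonneg_left ?_ hC.le)
      have := norm_nonneg v
      nlinarith
    · exact Finset.le_inf' _ _ fun z _ => le hH v z
  have hcont : Continuous fun v => F.inf' hFne (fun z => qf H (v - zc z)) :=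
    Continuous.finset_inf'_apply hFne fun z _ => (QF.continuous H).comp (by fun_prop)
  exact hcont.continuousAt.congr hev

end DHC

/-- DHC. -/
theorem stmt_DHC : Stmt_DHC := by
  intro ι _ _ H hH
  exact ⟨DHC.continuous hH, fun u z => DHC.periodic u z, fun u => DHC.nonneg hH u,
    fun u => DHC.attained hH u, fun u z => DHC.le hH u z⟩

end Pool.Agent.Work.MP_b10815_co_flt
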