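import Pool.Agent.Work.MP_b10815_co_flt.GB1
set_option autoImplicit false

/-!
# Block FERN: exponential square integrability of seminorms with constants

Mathlib's Fernique theorem (rotation invariant form) on a type synonym carrying the seminorm.
-/

namespace Pool.Agent.Work.MP_b10815_co_flt

open MeasureTheory Matrix ProbabilityTheory
open scoped ENNReal

namespace FERN

variable {n : ℕ}

/-- the standard Gaussian measure -/
noncomputable def γ (n : ℕ) : Measure (Fin n → ℝ) :=
  volume.withDensity (fun x => ENNReal.ofReal (gd x))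

lemma gd_nonneg (x : Fin n → ℝ) : 0 ≤ gd x := (Real.exp_pos _).le

lemma gd_cont : Continuous (gd : (Fin n → ℝ) → ℝ) := by
  unfold gd
  simp only [dotProduct]
  fun_prop

lemma gd_meas : Measurable (fun x : Fin n → ℝ => ENNReal.ofReal (gd x)) :=
  (gd_cont.measurable).ennreal_ofReal

lemma gd_eq_prod (x : Fin n → ℝ) : gd x = ∏ i, Real.exp (-Real.pi * (x i) ^ 2) := by
  unfold gd
  rw [← Real.exp_sum, dotProduct, Finset.mul_sum]
  congr 1
  exact Finset.sum_congr rfl fun i _ => by ring

lemma gd_integrable : Integrable (gd : (Fin n → ℝ) → ℝ) := by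
  have h : (gd : (Fin n → ℝ) → ℝ) = fun x => ∏ i, Real.exp (-Real.pi * (x i) ^ 2) := by
    funext x; exact gd_eq_prod x
  rw [h]
  exact Integrable.fintype_prod (f := fun _ t => Real.exp (-Real.pi * t ^ 2))
    (fun i => integrable_exp_neg_mul_sq Real.pi_pos)

lemma gd_integral : ∫ x : Fin n → ℝ, gd x = 1 := by
  have h : (gd : (Fin n → ℝ) → ℝ) = fun x => ∏ i, Real.exp (-Real.pi * (x i) ^ 2) := by
    funext x; exact gd_eq_prod x
  rw [h, integral_fintype_prod_volume_eq_pow (fun t => Real.exp (-Real.pi * t ^ 2)),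
    integral_gaussian, div_self Real.pi_ne_zero, Real.sqrt_one, one_pow]

instance : IsProbabilityMeasure (γ n) := by
  constructor
  unfold γ
  rw [withDensity_apply _ MeasurableSet.univ, Measure.restrict_univ,
    ← ofReal_integral_eq_lintegral_ofReal gd_integrable (Filter.Eventually.of_forall gd_nonneg),
    gd_integral, ENNReal.ofReal_one]

/-- first shear -/
lemma shear1 (t : ℝ) : MeasurePreserving (fun p : (Fin n → ℝ) × (Fin n → ℝ) => (p.1 + t • p.2, p.2))
    (volume.prod volume) (volume.prod volume) := by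
  have h := (MeasurePreserving.id (volume : Measure (Fin n → ℝ))).skew_product
    (μc := volume) (μd := volume) (g := fun (y x : Fin n → ℝ) => x + t • y) (by
      unfold Function.uncurry
      fun_prop)
    (Filter.Eventually.of_forall fun y => (measurePreserving_add_right volume (t • y)).map_eq)
  have hs : MeasurePreserving Prod.swap ((volume : Measure (Fin n → ℝ)).prod
      (volume : Measure (Fin n → ℝ))) (volume.prod volume) := Measure.measurePreserving_swap
  exact hs.comp (h.comp hs)

/-- second shear -/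
lemma shear2 (t : ℝ) : MeasurePreserving (fun p : (Fin n → ℝ) × (Fin n → ℝ) => (p.1, p.2 + t • p.1))
    (volume.prod volume) (volume.prod volume) := by
  exact (MeasurePreserving.id (volume : Measure (Fin n → ℝ))).skew_product
    (μc := volume) (μd := volume) (g := fun (y x : Fin n → ℝ) => x + t • y) (by
      unfold Function.uncurry
      fun_prop)
    (Filter.Eventually.of_forall fun y => (measurePreserving_add_right volume (t • y)).map_eq)

lemma rot_apply (x y : Fin n → ℝ) :
    ContinuousLinearMap.rotation (-(Real.pi / 4)) (x, y) =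
      ((√2 / 2) • x - (√2 / 2) • y, (√2 / 2) • x + (√2 / 2) • y) := by
  rw [ContinuousLinearMap.rotation_apply]
  simp only [Real.cos_neg, Real.sin_neg, Real.cos_pi_div_four, Real.sin_pi_div_four, neg_neg,
    neg_smul, sub_eq_add_neg]

lemma rot_vol : MeasurePreserving (fun p : (Fin n → ℝ) × (Fin n → ℝ) =>
      ((√2 / 2) • p.1 - (√2 / 2) • p.2, (√2 / 2) • p.1 + (√2 / 2) • p.2))
    (volume.prod volume) (volume.prod volume) := by
  have h := (shear1 (n := n) (-(√2 - 1))).comp ((shear2 (n := n) (√2 / 2)).comp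
    (shear1 (n := n) (-(√2 - 1))))
  convert h using 1
  have h2 : √2 * √2 = 2 := Real.mul_self_sqrt (by norm_num)
  funext p
  simp only [Function.comp]
  ext i
  · simp only [Pi.sub_apply, Pi.add_apply, Pi.smul_apply, smul_eq_mul]
    linear_combination (p.1 i / 2 + p.2 i * (1 - √2 / 2)) * h2
  · simp only [Pi.add_apply, Pi.smul_apply, smul_eq_mul]
    linear_combination (p.2 i / 2) * h2

lemma gd_rot (x y : Fin n → ℝ) :
    gd ((√2 / 2) • x - (√2 / 2) • y) * gd ((√2 / 2) • x + (√2 / 2) • y) = gd x * gd y := by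
  unfold gd
  rw [← Real.exp_add, ← Real.exp_add]
  congr 1
  have h2 : √2 * √2 = 2 := Real.mul_self_sqrt (by norm_num)
  rw [← mul_add, ← mul_add]
  congr 1
  simp only [dotProduct, Pi.sub_apply, Pi.add_apply, Pi.smul_apply, smul_eq_mul]
  rw [← Finset.sum_add_distrib, ← Finset.sum_add_distrib]
  refine Finset.sum_congr rfl fun i _ => ?_
  linear_combination ((x i * x i + y i * y i) / 2) * h2

lemma prod_eq : (γ n).prod (γ n) = (volume.prod volume).withDensity
    (fun p : (Fin n → ℝ) × (Fin n → ℝ) => ENNReal.ofReal (gd p.1 * gd p.2)) := by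
  unfold γ
  rw [prod_withDensity gd_meas gd_meas]
  congr 1
  funext p
  rw [ENNReal.ofReal_mul (gd_nonneg _)]

lemma rot_gamma : ((γ n).prod (γ n)).map (ContinuousLinearMap.rotation (-(Real.pi / 4))) =
    (γ n).prod (γ n) := by
  have hfun : (⇑(ContinuousLinearMap.rotation (E := Fin n → ℝ) (-(Real.pi / 4)))) =
      fun p : (Fin n → ℝ) × (Fin n → ℝ) =>
      ((√2 / 2) • p.1 - (√2 / 2) • p.2, (√2 / 2) • p.1 + (√2 / 2) • p.2) := by
    funext p
    exact rot_apply p.1 p.2
  rw [hfun]
  have hm : Measurable (fun p : (Fin n → ℝ) × (Fin n → ℝ) =>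
      ((√2 / 2) • p.1 - (√2 / 2) • p.2, (√2 / 2) • p.1 + (√2 / 2) • p.2)) := rot_vol.measurable
  have hd : Measurable (fun p : (Fin n → ℝ) × (Fin n → ℝ) => ENNReal.ofReal (gd p.1 * gd p.2)) := by
    refine Measurable.ennreal_ofReal ?_
    exact (gd_cont.measurable.comp measurable_fst).mul (gd_cont.measurable.comp measurable_snd)
  ext S hS
  rw [Measure.map_apply hm hS, prod_eq, withDensity_apply _ (hm hS), withDensity_apply _ hS,
    ← lintegral_indicator (hm hS), ← lintegral_indicator hS]
  rw [← rot_vol.lintegral_comp (hd.indicator hS)]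
  refine lintegral_congr fun p => ?_
  by_cases hp : ((√2 / 2) • p.1 - (√2 / 2) • p.2, (√2 / 2) • p.1 + (√2 / 2) • p.2) ∈ S
  · rw [Set.indicator_of_mem (by exact hp), Set.indicator_of_mem hp, gd_rot]
  · rw [Set.indicator_of_notMem (by exact hp), Set.indicator_of_notMem hp]

/-- the space with the seminorm `N` -/
def EN (_ : Seminorm ℝ (Fin n → ℝ)) : Type := Fin n → ℝ

variable (N : Seminorm ℝ (Fin n → ℝ))

instance : AddCommGroup (EN N) := inferInstanceAs (AddCommGroup (Fin n → ℝ))
noncomputable instance : Module ℝ (EN N) := inferInstanceAs (Module ℝ (Fin n → ℝ))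

noncomputable instance : SeminormedAddCommGroup (EN N) :=
  AddGroupSeminorm.toSeminormedAddCommGroup (E := EN N) N.toAddGroupSeminorm

lemma norm_EN (x : EN N) : ‖x‖ = N x := rfl

noncomputable instance : NormedSpace ℝ (EN N) where
  norm_smul_le a x := le_of_eq (map_smul_eq_mul N a x)

noncomputable instance : MeasurableSpace (EN N) := borel _
instance : BorelSpace (EN N) := ⟨rfl⟩

/-- the identity -/
def toEN : (Fin n → ℝ) → EN N := fun x => x

lemma toEN_cont : Continuous (toEN N) := by
  have hN : Continuous N := by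
    exact GB.seminorm_continuous N
  rw [continuous_iff_continuousAt]
  intro x
  rw [ContinuousAt, tendsto_iff_norm_sub_tendsto_zero]
  have h : Filter.Tendsto (fun y : Fin n → ℝ => N (y - x)) (nhds x) (nhds (N (x - x))) :=
    (hN.comp (continuous_id.sub continuous_const)).tendsto x
  rw [sub_self, map_zero] at h
  exact h

instance : SecondCountableTopology (EN N) := by
  have : TopologicalSpace.SeparableSpace (EN N) :=
    (Function.Surjective.denseRange (f := toEN N) (fun y => ⟨y, rfl⟩)).separableSpace (toEN_cont N)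
  exact UniformSpace.secondCountable_of_separable _

/-- Gaussian measure on `EN` -/
noncomputable def γN : Measure (EN N) := (γ n).map (toEN N)

instance : IsProbabilityMeasure (γN N) :=
  Measure.isProbabilityMeasure_map (toEN_cont N).measurable.aemeasurable

lemma rot_gammaN : ((γN N).prod (γN N)).map (ContinuousLinearMap.rotation (-(Real.pi / 4))) =
    (γN N).prod (γN N) := by
  have hm : Measurable (toEN N) := (toEN_cont N).measurable
  have h1 : (γN N).prod (γN N) = ((γ n).prod (γ n)).map (Prod.map (toEN N) (toEN N)) := by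
    unfold γN
    exact Measure.map_prod_map _ _ hm hm
  rw [h1, Measure.map_map (by fun_prop) (hm.prodMap hm)]
  have h2 : (⇑(ContinuousLinearMap.rotation (E := EN N) (-(Real.pi / 4)))) ∘
      Prod.map (toEN N) (toEN N) = Prod.map (toEN N) (toEN N) ∘
      (⇑(ContinuousLinearMap.rotation (E := Fin n → ℝ) (-(Real.pi / 4)))) := by
    funext p
    rfl
  rw [h2, ← Measure.map_map (hm.prodMap hm) (by fun_prop), rot_gamma]

lemma markov {m : ℝ} (hm : 0 < m) (hN : Continuous N) (hi : Integrable (fun x => N x * gd x))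
    (hint : ∫ x, N x * gd x ≤ m) : (3 / 4 : ℝ≥0∞) ≤ γN N {x | ‖x‖ ≤ 4 * m} := by
  have hmeas : MeasurableSet {x : EN N | ‖x‖ ≤ 4 * m} := measurableSet_le (by fun_prop) (by fun_prop)
  have h1 : γN N {x | ‖x‖ ≤ 4 * m} = γ n {x | N x ≤ 4 * m} := by
    unfold γN
    rw [Measure.map_apply (toEN_cont N).measurable hmeas]
    rfl
  rw [h1]
  have hms : MeasurableSet {x : Fin n → ℝ | N x ≤ 4 * m} :=
    measurableSet_le hN.measurable measurable_const
  have hc : γ n {x | N x ≤ 4 * m} = 1 - γ n {x | N x ≤ 4 * m}ᶜ := by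
    rw [← prob_compl_eq_one_sub hms.compl, compl_compl]
  have h2 : γ n {x | N x ≤ 4 * m}ᶜ ≤ 1 / 4 := by
    have h3 : γ n {x | N x ≤ 4 * m}ᶜ ≤ γ n {x | ENNReal.ofReal (4 * m) ≤ ENNReal.ofReal (N x)} := by
      refine measure_mono fun x hx => ?_
      simp only [Set.mem_compl_iff, Set.mem_ofPred_eq, not_le] at hx ⊢
      exact ENNReal.ofReal_le_ofReal hx.le
    have h4 := mul_meas_ge_le_lintegral (μ := γ n) (f := fun x => ENNReal.ofReal (N x))
      hN.measurable.ennreal_ofReal (ENNReal.ofReal (4 * m))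
    have h5 : ∫⁻ x, ENNReal.ofReal (N x) ∂(γ n) ≤ ENNReal.ofReal m := by
      unfold γ
      rw [lintegral_withDensity_eq_lintegral_mul _ gd_meas hN.measurable.ennreal_ofReal]
      have h6 : (∫⁻ a : Fin n → ℝ, ((fun x : Fin n → ℝ => ENNReal.ofReal (gd x)) *
          (fun x : Fin n → ℝ => ENNReal.ofReal (N x)) : (Fin n → ℝ) → ℝ≥0∞) a)
          = ∫⁻ x : Fin n → ℝ, ENNReal.ofReal (N x * gd x) := by
        refine lintegral_congr fun x => ?_
        rw [Pi.mul_apply, mul_comm (N x), ENNReal.ofReal_mul (gd_nonneg _)]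
      rw [h6, ← ofReal_integral_eq_lintegral_ofReal hi (Filter.Eventually.of_forall fun x =>
        mul_nonneg (apply_nonneg _ _) (gd_nonneg _))]
      exact ENNReal.ofReal_le_ofReal hint
    have h7 : ENNReal.ofReal (4 * m) * γ n {x | N x ≤ 4 * m}ᶜ ≤ ENNReal.ofReal m :=
      (mul_le_mul_right h3 _).trans (h4.trans h5)
    rw [ENNReal.ofReal_mul (by norm_num : (0 : ℝ) ≤ 4), mul_comm (ENNReal.ofReal 4) _, mul_assoc] at h7
    have hm0 : ENNReal.ofReal m ≠ 0 := by
      rw [Ne, ENNReal.ofReal_eq_zero, not_le]; exact hm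
    have h8 : ENNReal.ofReal 4 * γ n {x | N x ≤ 4 * m}ᶜ ≤ 1 := by
      have := (ENNReal.mul_le_mul_iff_right hm0 ENNReal.ofReal_ne_top (b :=
        ENNReal.ofReal 4 * γ n {x | N x ≤ 4 * m}ᶜ) (c := 1)).1 (by rw [mul_one]; exact h7)
      exact this
    have h9 : ENNReal.ofReal 4 = 4 := by norm_num
    rw [h9] at h8
    rw [ENNReal.le_div_iff_mul_le (by norm_num) (by norm_num), mul_comm]
    exact h8
  rw [hc]
  calc (3 / 4 : ℝ≥0∞) = 1 - 1 / 4 := by
        refine ENNReal.eq_sub_of_add_eq (by norm_num) ?_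
        rw [← ENNReal.add_div]
        norm_num
        exact ENNReal.div_self (by norm_num) (by norm_num)
    _ ≤ 1 - γ n {x | N x ≤ 4 * m}ᶜ := tsub_le_tsub_left h2 _

/-- the constant -/
noncomputable def KK : ℝ≥0∞ := .ofReal (Real.exp (Fernique.logRatio (3 / 4)))
        + ∑' n : ℕ, .ofReal (Real.exp (-2⁻¹ * Real.log ((3 / 4 : ℝ≥0∞) / (1 - 3 / 4)).toReal * 2 ^ n))

lemma half_lt : (2⁻¹ : ℝ≥0∞) < 3 / 4 := by
  rw [← ENNReal.toReal_lt_toReal (by norm_num) (by
    exact (ENNReal.div_lt_top (by norm_num) (by norm_num)).ne)]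
  rw [ENNReal.toReal_div]
  norm_num

lemma ratio_eq : ((3 / 4 : ℝ≥0∞) / (1 - 3 / 4)).toReal = 3 := by
  rw [ENNReal.toReal_div, ENNReal.toReal_sub_of_le, ENNReal.toReal_div]
  · norm_num
  · rw [ENNReal.div_le_iff (by norm_num) (by norm_num)]
    norm_num
  · norm_num

lemma KK_lt : KK < ⊤ := by
  unfold KK
  rw [ratio_eq]
  refine ENNReal.add_lt_top.mpr ⟨ENNReal.ofReal_lt_top, ?_⟩
  refine Summable.tsum_ofReal_lt_top <|
    Real.summable_exp_nat_mul_of_ge ?_ (fun i ↦ mod_cast (Nat.lt_pow_self (by simp)).le)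
  have : 0 < Real.log 3 := Real.log_pos (by norm_num)
  linarith

lemma lr_pos : 0 < Fernique.logRatio (3 / 4) := by
  refine Fernique.logRatio_pos half_lt ?_
  rw [ENNReal.div_lt_iff (by norm_num) (by norm_num)]
  norm_num

end FERN

open FERN in
/-- **Fernique's theorem with constants** -/
theorem stmt_FERN : Stmt_FERN := by
  refine ⟨Fernique.logRatio (3 / 4) / 16, KK.toReal + 1, by have := lr_pos; positivity, by positivity,
    fun n N m hm hint => ?_⟩
  set c := Fernique.logRatio (3 / 4) / 16 with hc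
  have hN : Continuous N := GB.seminorm_continuous N
  have hi : Integrable (fun x => N x * gd x) := by
    exact GB.integrable_seminorm_gd N
  have hmk := markov N hm hN hi hint
  have h1 := lintegral_exp_mul_sq_norm_le_of_map_rotation_eq_self (rot_gammaN N) hmk half_lt
  have hmeas : Measurable (fun x : Fin n → ℝ => ENNReal.ofReal (Real.exp (c * (N x / m) ^ 2))) :=
    ((Real.continuous_exp.comp (continuous_const.mul ((hN.div_const m).pow 2))).measurable).ennreal_ofReal
  have h2 : ∫⁻ x, ENNReal.ofReal (Real.exp (Fernique.logRatio (3 / 4) * (4 * m)⁻¹ ^ 2 * ‖x‖ ^ 2)) ∂(γN N)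
      = ∫⁻ x : Fin n → ℝ, ENNReal.ofReal (Real.exp (c * (N x / m) ^ 2) * gd x) := by
    unfold γN
    rw [lintegral_map (by fun_prop) (toEN_cont N).measurable]
    unfold γ
    have h3 : ∀ x : Fin n → ℝ, ENNReal.ofReal (Real.exp (Fernique.logRatio (3 / 4) * (4 * m)⁻¹ ^ 2 * ‖toEN N x‖ ^ 2))
        = ENNReal.ofReal (Real.exp (c * (N x / m) ^ 2)) := by
      intro x
      congr 2
      have : ‖toEN N x‖ = N x := rfl
      rw [this, hc]
      field_simp
      ring
    simp only [h3]
    rw [lintegral_withDensity_eq_lintegral_mul _ gd_meas hmeas]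
    refine lintegral_congr fun x => ?_
    rw [Pi.mul_apply, mul_comm (Real.exp _), ENNReal.ofReal_mul (gd_nonneg _)]
  rw [h2] at h1
  have h4 : ∫⁻ x : Fin n → ℝ, ENNReal.ofReal (Real.exp (c * (N x / m) ^ 2) * gd x) ≤ KK := h1
  have hmeas2 : AEStronglyMeasurable (fun x : Fin n → ℝ => Real.exp (c * (N x / m) ^ 2) * gd x) volume :=
    (((Real.continuous_exp.comp (continuous_const.mul ((hN.div_const m).pow 2)))).mul gd_cont).aestronglyMeasurable
  have hnn : 0 ≤ᵐ[volume] (fun x : Fin n → ℝ => Real.exp (c * (N x / m) ^ 2) * gd x) :=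
    Filter.Eventually.of_forall fun x => mul_nonneg (Real.exp_pos _).le (gd_nonneg _)
  have hI : Integrable (fun x : Fin n → ℝ => Real.exp (c * (N x / m) ^ 2) * gd x) := by
    refine ⟨hmeas2, ?_⟩
    rw [hasFiniteIntegral_iff_ofReal hnn]
    exact h4.trans_lt KK_lt
  refine ⟨hI, ?_⟩
  rw [integral_eq_lintegral_of_nonneg_ae hnn hmeas2]
  have := ENNReal.toReal_mono KK_lt.ne h4
  linarith

end Pool.Agent.Work.MP_b10815_co_flt
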