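import Pool.Agent.Work.MP_b10815_co_flt.RED
set_option autoImplicit false
set_option linter.unusedSectionVars false

/-! # Blocks FIN and OPEN: finiteness of sublattices of bounded determinant; openness -/

namespace Pool.Agent.Work.MP_b10815_co_flt

open Matrix

namespace FINaux

open BLKaux REDaux

variable {ι κ μ : Type} [Fintype ι] [Fintype κ] [Fintype μ]

theorem fullRank_inj [DecidableEq κ] {Z : Matrix ι κ ℤ} (hZ : FullRank Z) {v : κ → ℤ}
    (hv : Z *ᵥ v = 0) : v = 0 := by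
  refine Matrix.eq_zero_of_mulVec_eq_zero hZ ?_
  rw [← mulVec_mulVec, hv, mulVec_zero]

theorem cR_det [DecidableEq κ] (A : Matrix κ κ ℤ) : (cR A).det = (A.det : ℝ) := by
  have := Int.cast_det (R := ℝ) A
  rw [this]
  rfl

theorem fullRank_cR_inj [DecidableEq κ] {Z : Matrix ι κ ℤ} (hZ : FullRank Z) :
    Function.Injective (cR Z).mulVec := by
  have h1 : ∀ v : κ → ℝ, cR Z *ᵥ v = 0 → v = 0 := by
    intro v hv
    have hd : (cR (Zᵀ * Z)).det ≠ 0 := by
      rw [cR_det]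
      exact_mod_cast hZ
    refine Matrix.eq_zero_of_mulVec_eq_zero hd ?_
    rw [cR_mul, ← mulVec_mulVec, hv, mulVec_zero]
  intro x y hxy
  have h2 := h1 (x - y) (by rw [mulVec_sub]; exact sub_eq_zero.2 hxy)
  exact sub_eq_zero.1 h2

theorem fullRank_mul [DecidableEq ι] [DecidableEq κ] [DecidableEq μ] {Z : Matrix ι κ ℤ} (hZ : FullRank Z)
    {U : Matrix κ μ ℤ} (hU : Unimod U) : FullRank (Z * U) := by
  have h1 : Function.Injective (cR (Z * U)).mulVec := by
    intro x y hxy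
    rw [cR_mul, ← mulVec_mulVec, ← mulVec_mulVec] at hxy
    exact cR_injective hU (fullRank_cR_inj hZ hxy)
  have h2 := (PosDef.one (n := ι) (R := ℝ) |>.conjTranspose_mul_mul_same h1).det_pos
  rw [conjTranspose_eq_transpose_of_trivial, Matrix.mul_one, ← cR_transpose, ← cR_mul, cR_det] at h2
  unfold FullRank
  intro h0
  rw [h0] at h2
  simp at h2

theorem one_le_dot {z : ι → ℤ} (hz : z ≠ 0) : 1 ≤ zc z ⬝ᵥ zc z := by
  have h1 : z ⬝ᵥ z ≠ 0 := fun h => hz (dotProduct_self_eq_zero.1 h)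
  have h2 : 0 ≤ z ⬝ᵥ z := Finset.sum_nonneg fun i _ => mul_self_nonneg _
  have h3 : (1 : ℤ) ≤ z ⬝ᵥ z := by omega
  have h4 : zc z ⬝ᵥ zc z = ((z ⬝ᵥ z : ℤ) : ℝ) := by
    simp [dotProduct, zc]
  rw [h4]
  exact_mod_cast h3

theorem fullRank_le {n k : ℕ} {Z : Matrix (Fin n) (Fin k) ℤ} (hZ : FullRank Z) : k ≤ n := by
  have hinj : Function.Injective ((cR Z).mulVecLin) := fullRank_cR_inj hZ
  have := LinearMap.finrank_le_finrank_of_injective hinj
  simpa using this

end FINaux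

open FINaux BLKaux REDaux in
theorem stmt_FIN : Stmt_FIN := by
  intro n k c D hc
  obtain ⟨R, hR⟩ := red_aux k c hc D
  obtain ⟨B, hB⟩ := exists_nat_ge (R / c)
  let F : Finset (Fin n → Fin k → ℤ) :=
    Fintype.piFinset (fun _ => Fintype.piFinset (fun _ => Finset.Icc (-(B : ℤ)) B))
  refine ⟨F, fun H hH hcH Z hZ hD => ?_⟩
  have hG : (gram H Z).PosDef := posDef_gram_of_inj hH (fullRank_cR_inj hZ)
  obtain ⟨U, hU, hUR⟩ := hR (gram H Z) hG (fun z hz => by
    rw [qf_gram]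
    have h1 : Z *ᵥ z ≠ 0 := fun h => hz (fullRank_inj hZ h)
    have h2 := one_le_dot h1
    have h3 := hcH (zc (Z *ᵥ z))
    nlinarith) hD
  refine ⟨U, hU, ?_⟩
  refine Fintype.mem_piFinset.2 fun i => Fintype.mem_piFinset.2 fun j => ?_
  have h1 := hUR j
  rw [← gram_mul, gram_diag] at h1
  have h2 := (hcH _).trans h1
  have h3 : (((Z * U) i j : ℤ) : ℝ) ^ 2 ≤
      zc (fun i => (Z * U) i j) ⬝ᵥ zc (fun i => (Z * U) i j) := by
    unfold dotProduct
    have := Finset.single_le_sum (f := fun l => zc (fun i => (Z * U) i j) l *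
      zc (fun i => (Z * U) i j) l) (fun l _ => mul_self_nonneg _) (Finset.mem_univ i)
    simpa [zc, pow_two] using this
  have h4 : (((Z * U) i j : ℤ) : ℝ) ^ 2 ≤ B := by
    rw [div_le_iff₀ hc] at hB
    by_contra h5
    push Not at h5
    nlinarith
  have h5 : ((Z * U) i j) ^ 2 ≤ (B : ℤ) := by exact_mod_cast h4
  have h6 : |(Z * U) i j| ≤ (B : ℤ) := by
    have h7 := abs_nonneg ((Z * U) i j)
    rw [← sq_abs] at h5
    nlinarith
  rw [Finset.mem_Icc]
  exact abs_le.1 h6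

namespace FINaux

open BLKaux REDaux

variable {n : ℕ}

theorem det_one_add (p q : Fin n → ℝ) (hpq : q ⬝ᵥ p = 0) (t : ℝ) :
    (1 + t • vecMulVec p q).det = 1 := by
  have h1 : t • vecMulVec p q = vecMulVec (t • p) q := by
    rw [smul_vecMulVec]
  rw [h1, vecMulVec_eq (Fin 1), det_one_add_replicateCol_mul_replicateRow]
  rw [dotProduct_smul, hpq]
  simp

theorem vecMulVec_mulVec' (p q v : Fin n → ℝ) : vecMulVec p q *ᵥ v = (q ⬝ᵥ v) • p := by
  funext i
  simp only [vecMulVec, mulVec, dotProduct, of_apply, Pi.smul_apply, smul_eq_mul]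
  rw [Finset.sum_mul]
  exact Finset.sum_congr rfl fun j _ => by ring

theorem qf_pert (H : Matrix (Fin n) (Fin n) ℝ) (p q : Fin n → ℝ) (t : ℝ) (v : Fin n → ℝ) :
    qf (pert H p q t) v = qf H (v + (t * (q ⬝ᵥ v)) • p) := by
  have h1 : (1 + t • vecMulVec p q) *ᵥ v = v + (t * (q ⬝ᵥ v)) • p := by
    rw [add_mulVec, one_mulVec, smul_mulVec, vecMulVec_mulVec', smul_smul]
  rw [← h1]
  unfold qf pert
  rw [← mulVec_mulVec, ← mulVec_mulVec, dotProduct_mulVec, vecMul_transpose]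

theorem pert_lower {H : Matrix (Fin n) (Fin n) ℝ} {c : ℝ} (hc : 0 < c)
    (hcH : ∀ v, c * (v ⬝ᵥ v) ≤ qf H v) (p q : Fin n → ℝ) (hpq : q ⬝ᵥ p = 0) :
    ∃ c' : ℝ, 0 < c' ∧ ∀ t : ℝ, |t| < 1 → ∀ v, c' * (v ⬝ᵥ v) ≤ qf (pert H p q t) v := by
  set C : ℝ := 2 + 2 * ((q ⬝ᵥ q) * (p ⬝ᵥ p)) with hC
  have hqq : 0 ≤ q ⬝ᵥ q := Finset.sum_nonneg fun i _ => mul_self_nonneg _
  have hpp : 0 ≤ p ⬝ᵥ p := Finset.sum_nonneg fun i _ => mul_self_nonneg _
  have hCpos : 0 < C := by positivity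
  refine ⟨c / C, by positivity, fun t ht v => ?_⟩
  rw [qf_pert]
  set s := t * (q ⬝ᵥ v) with hs
  set w := v + s • p with hw
  have h1 : q ⬝ᵥ w = q ⬝ᵥ v := by
    rw [hw, dotProduct_add, dotProduct_smul, hpq]
    simp
  have hww : 0 ≤ w ⬝ᵥ w := Finset.sum_nonneg fun i _ => mul_self_nonneg _
  have h2 : v ⬝ᵥ v ≤ C * (w ⬝ᵥ w) := by
    have hv : v = w - s • p := by rw [hw]; abel
    have h3 : s ^ 2 ≤ (q ⬝ᵥ q) * (w ⬝ᵥ w) := by
      have hcs : (q ⬝ᵥ w) ^ 2 ≤ (q ⬝ᵥ q) * (w ⬝ᵥ w) := by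
        have := Finset.sum_mul_sq_le_sq_mul_sq Finset.univ q w
        simpa [dotProduct, pow_two] using this
      rw [hs, mul_pow, ← h1]
      have ht2 : t ^ 2 ≤ 1 := by
        rw [← sq_abs]
        nlinarith [abs_nonneg t]
      nlinarith [sq_nonneg (q ⬝ᵥ w)]
    have h4 : v ⬝ᵥ v ≤ 2 * (w ⬝ᵥ w) + 2 * (s ^ 2 * (p ⬝ᵥ p)) := by
      rw [hv]
      simp only [dotProduct, Finset.mul_sum, ← Finset.sum_add_distrib]
      refine Finset.sum_le_sum fun i _ => ?_
      simp only [Pi.sub_apply, Pi.smul_apply, smul_eq_mul]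
      nlinarith [sq_nonneg (w i + s * p i)]
    have h5 : s ^ 2 * (p ⬝ᵥ p) ≤ (q ⬝ᵥ q) * (w ⬝ᵥ w) * (p ⬝ᵥ p) :=
      mul_le_mul_of_nonneg_right h3 hpp
    rw [hC]
    nlinarith
  calc c / C * (v ⬝ᵥ v) ≤ c / C * (C * (w ⬝ᵥ w)) := by gcongr
    _ = c * (w ⬝ᵥ w) := by field_simp
    _ ≤ _ := hcH w

theorem continuous_det_gram_pert {k : ℕ} (H : Matrix (Fin n) (Fin n) ℝ) (p q : Fin n → ℝ)
    (Z : Matrix (Fin n) (Fin k) ℤ) :
    Continuous (fun t : ℝ => (gram (pert H p q t) Z).det) := by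
  unfold gram pert
  have h1 : Continuous (fun t : ℝ => (1 : Matrix (Fin n) (Fin n) ℝ) + t • vecMulVec p q) := by
    fun_prop
  fun_prop

theorem pert_zero (H : Matrix (Fin n) (Fin n) ℝ) (p q : Fin n → ℝ) : pert H p q 0 = H := by
  unfold pert
  simp

theorem posDef_pert {H : Matrix (Fin n) (Fin n) ℝ} (hH : H.PosDef) (p q : Fin n → ℝ)
    (hpq : q ⬝ᵥ p = 0) (t : ℝ) : (pert H p q t).PosDef := by
  have hinj : Function.Injective (1 + t • vecMulVec p q).mulVec := by
    rw [Matrix.mulVec_injective_iff_isUnit, Matrix.isUnit_iff_isUnit_det, det_one_add p q hpq]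
    exact isUnit_one
  have := hH.conjTranspose_mul_mul_same hinj
  rwa [conjTranspose_eq_transpose_of_trivial] at this

theorem det_pert {H : Matrix (Fin n) (Fin n) ℝ} (p q : Fin n → ℝ)
    (hpq : q ⬝ᵥ p = 0) (t : ℝ) : (pert H p q t).det = H.det := by
  unfold pert
  rw [det_mul, det_mul, det_transpose, det_one_add p q hpq]
  ring

end FINaux

open FINaux BLKaux REDaux in
theorem stmt_OPEN : Stmt_OPEN := by
  classical
  intro n H hst hstrict p q hpq
  obtain ⟨hH, hdet, hsub⟩ := hst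
  obtain ⟨c, hc, hcH⟩ := POIaux.exists_lower H hH
  obtain ⟨c', hc', hlow⟩ := pert_lower hc hcH p q hpq
  choose F hF using fun k => stmt_FIN n k c' 1 hc'
  have hev : ∀ k ∈ Finset.range n, ∀ᶠ t : ℝ in nhds 0, ∀ Z ∈ F k, 0 < k → FullRank Z →
      1 < (gram (pert H p q t) Z).det := by
    intro k hk
    rw [Finset.mem_range] at hk
    rw [Filter.eventually_all_finset]
    intro Z hZ
    by_cases hk0 : 0 < k
    · by_cases hZf : FullRank Z
      · have h1 := hstrict k Z hk0 hk hZf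
        have h2 := (continuous_det_gram_pert H p q Z).tendsto 0
        rw [pert_zero] at h2
        filter_upwards [h2.eventually_const_lt h1] with t ht _ _
        exact ht
      · exact Filter.Eventually.of_forall fun t _ h => absurd h hZf
    · exact Filter.Eventually.of_forall fun t h => absurd h hk0
  rw [← Filter.eventually_all_finset] at hev
  obtain ⟨δ, hδ, hball⟩ := Metric.eventually_nhds_iff.1 hev
  refine ⟨min δ 1, lt_min hδ one_pos, fun t ht => ?_⟩
  have ht1 : |t| < 1 := ht.trans_le (min_le_right _ _)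
  have ht2 := hball (y := t) (by
    rw [Real.dist_eq, sub_zero]
    exact ht.trans_le (min_le_left _ _))
  have hPp := posDef_pert hH p q hpq t
  have hPd : (pert H p q t).det = 1 := by rw [det_pert p q hpq t, hdet]
  refine ⟨hPp, hPd, fun k Z hZ => ?_⟩
  rw [one_pow]
  rcases Nat.eq_zero_or_pos k with hk0 | hk0
  · subst hk0
    rw [det_isEmpty]
  · rcases lt_or_eq_of_le (fullRank_le hZ) with hkn | hkn
    · by_contra hcon
      push Not at hcon
      obtain ⟨U, hU, hUF⟩ := hF k (pert H p q t) hPp (hlow t ht1) Z hZ hcon.le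
      have h1 := ht2 k (Finset.mem_range.2 hkn) (Z * U) hUF hk0 (fullRank_mul hZ hU)
      rw [gram_mul, det_gram _ hU] at h1
      linarith
    · subst hkn
      unfold gram
      rw [det_mul, det_mul, det_transpose, hPd, mul_one, cR_det]
      have h1 : Z.det ≠ 0 := by
        intro h0
        apply hZ
        rw [det_mul, h0, mul_zero]
      have h2 : (1 : ℤ) ≤ Z.det * Z.det := by
        have := mul_self_pos.2 h1
        omega
      exact_mod_cast h2

end Pool.Agent.Work.MP_b10815_co_flt
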