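import Pool.Agent.Work.MP_b10815_co_flt.GR
set_option autoImplicit false
set_option linter.unusedSectionVars false

/-!
# `ρ · Γ ≤ 1` (block GAM1)
-/

namespace Pool.Agent.Work.MP_b10815_co_flt

open MeasureTheory Matrix

namespace GAM1

variable {ι : Type} [Fintype ι] [DecidableEq ι]

/-- The lattice is parametrised by integer vectors. -/
noncomputable def latEquiv (ι : Type) [Fintype ι] : (ι → ℤ) ≃ VOR.Lat ι :=
  Equiv.ofBijective (fun z => ⟨zc z, z, rfl⟩)
    ⟨fun z w h => QF.zc_inj (congrArg Subtype.val h), by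
      rintro ⟨_, z, rfl⟩
      exact ⟨z, rfl⟩⟩

theorem hasSum_c {H : Matrix ι ι ℝ} (hH : H.PosDef) {r : ℝ} (hr : 0 < r) :
    HasSum (fun z : ι → ℤ => ∫ v in Vor H, gr H r (v + zc z)) 1 := by
  have h1 := (VOR.vor_fund hH).integral_eq_tsum'' (gr H r) (GR.integrable hH hr)
  rw [GR.integral hH hr] at h1
  have h2 : Summable fun g : VOR.Lat ι => ∫ x in Vor H, gr H r (g +ᵥ x) := by
    by_contra h
    rw [tsum_eq_zero_of_not_summable h] at h1
    exact one_ne_zero h1
  have h3 : HasSum (fun g : VOR.Lat ι => ∫ x in Vor H, gr H r (g +ᵥ x)) 1 := by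
    rw [h1]; exact h2.hasSum
  have h4 := (latEquiv ι).hasSum_iff.2 h3
  convert h4 using 2 with z
  show _ = ∫ x in Vor H, gr H r ((latEquiv ι z) +ᵥ x)
  refine integral_congr_ae (Filter.Eventually.of_forall fun x => ?_)
  show gr H r (x + zc z) = gr H r ((latEquiv ι z) +ᵥ x)
  rw [AddSubgroup.vadd_def, vadd_eq_add, add_comm]
  rfl

theorem c_neg (H : Matrix ι ι ℝ) (r : ℝ) (z : ι → ℤ) :
    ∫ v in Vor H, gr H r (v - zc z) = ∫ v in Vor H, gr H r (v + zc z) := by
  rw [← GR.setIntegral_neg (VOR.closed H).measurableSet (fun v hv => VOR.neg_mem hv)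
    (fun v => gr H r (v + zc z))]
  refine integral_congr_ae (Filter.Eventually.of_forall fun x => ?_)
  show gr H r (x - zc z) = gr H r (-x + zc z)
  rw [← GR.neg H r (x - zc z)]
  congr 1
  abel

theorem term_le {H : Matrix ι ι ℝ} (hH : H.PosDef) {r : ℝ} (hr : 0 < r) (z : ι → ℤ) :
    Real.exp (-Real.pi * r ^ 2 * qf H (zc z)) * Gam H r ≤
      ∫ v in Vor H, gr H r (v + zc z) := by
  have hint1 : IntegrableOn (fun v => gr H r (v + zc z)) (Vor H) :=
    GR.integrableOn_vor hH ((GR.continuous H r).comp (by fun_prop))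
  have hint2 : IntegrableOn (fun v => gr H r (v - zc z)) (Vor H) :=
    GR.integrableOn_vor hH ((GR.continuous H r).comp (by fun_prop))
  have h1 : 2 * ∫ v in Vor H, gr H r (v + zc z) =
      ∫ v in Vor H, (gr H r (v + zc z) + gr H r (v - zc z)) := by
    rw [integral_add hint1 hint2, c_neg H]; ring
  have h2 : 2 * (Real.exp (-Real.pi * r ^ 2 * qf H (zc z)) * Gam H r) =
      ∫ v in Vor H, 2 * Real.exp (-Real.pi * r ^ 2 * qf H (zc z)) * gr H r v := by
    unfold Gam
    rw [integral_const_mul]; ring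
  have h3 : ∫ v in Vor H, 2 * Real.exp (-Real.pi * r ^ 2 * qf H (zc z)) * gr H r v ≤
      ∫ v in Vor H, (gr H r (v + zc z) + gr H r (v - zc z)) := by
    refine setIntegral_mono
      (GR.integrableOn_vor hH (by have := GR.continuous H r; fun_prop)) (hint1.add hint2)
      fun v => ?_
    unfold gr
    rw [QF.add hH, QF.sub hH]
    set C := r ^ Fintype.card ι * Real.sqrt H.det with hC
    have hC0 : 0 ≤ C := by positivity
    set p := v ⬝ᵥ (H *ᵥ zc z) with hp
    have e1 : Real.exp (-Real.pi * r ^ 2 * (qf H v + 2 * p + qf H (zc z))) =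
        Real.exp (-Real.pi * r ^ 2 * qf H v) * Real.exp (-Real.pi * r ^ 2 * qf H (zc z)) *
          Real.exp (-(2 * Real.pi * r ^ 2 * p)) := by
      rw [← Real.exp_add, ← Real.exp_add]; congr 1; ring
    have e2 : Real.exp (-Real.pi * r ^ 2 * (qf H v - 2 * p + qf H (zc z))) =
        Real.exp (-Real.pi * r ^ 2 * qf H v) * Real.exp (-Real.pi * r ^ 2 * qf H (zc z)) *
          Real.exp (2 * Real.pi * r ^ 2 * p) := by
      rw [← Real.exp_add, ← Real.exp_add]; congr 1; ring
    rw [e1, e2]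
    set y := 2 * Real.pi * r ^ 2 * p with hy
    have h4 : 2 ≤ Real.exp (-y) + Real.exp y := by
      have h5 := Real.one_le_cosh y
      rw [Real.cosh_eq] at h5
      linarith
    have h5 : 0 ≤ C * (Real.exp (-Real.pi * r ^ 2 * qf H v) *
        Real.exp (-Real.pi * r ^ 2 * qf H (zc z))) := by positivity
    nlinarith [mul_le_mul_of_nonneg_left h4 h5]
  linarith

end GAM1

/-- GAM1. -/
theorem stmt_GAM1 : Stmt_GAM1 := by
  intro n H hH r hr
  have hG := GR.Gam_pos hH hr
  have hs := GAM1.hasSum_c hH hr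
  have h1 : Summable fun z : Fin n → ℤ => Real.exp (-Real.pi * r ^ 2 * qf H (zc z)) * Gam H r :=
    Summable.of_nonneg_of_le (fun z => by positivity) (fun z => GAM1.term_le hH hr z) hs.summable
  have h2 : Summable fun z : Fin n → ℤ => Real.exp (-Real.pi * r ^ 2 * qf H (zc z)) := by
    have := h1.mul_right (Gam H r)⁻¹
    refine this.congr fun z => ?_
    rw [mul_assoc, mul_inv_cancel₀ hG.ne', mul_one]
  refine ⟨h2, ?_⟩
  rw [← tsum_mul_right, ← hs.tsum_eq]
  exact h1.tsum_le_tsum (fun z => GAM1.term_le hH hr z) hs.summable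

end Pool.Agent.Work.MP_b10815_co_flt
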