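import Pool.Agent.Work.MP_b10815_co_flt.GR
set_option autoImplicit false
set_option linter.unusedSectionVars false

/-!
# Block inequality for `Gam` (block GAM2)
-/

namespace Pool.Agent.Work.MP_b10815_co_flt

open MeasureTheory Matrix

namespace GAM2

variable {ι κ : Type} [Fintype ι] [Fintype κ] [DecidableEq ι] [DecidableEq κ]

theorem volume_cube_lt_top : volume (cube ι) < ⊤ := by
  have : cube ι = Set.univ.pi fun _ : ι => Set.Ico (0 : ℝ) 1 := by
    ext u; simp [cube, Set.mem_pi]
  rw [this, Real.volume_pi_Ico]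
  simp

theorem integrableOn_cube {f : (ι → ℝ) → ℝ} (hf : Continuous f) {B : ℝ} (hB : ∀ u, |f u| ≤ B) :
    IntegrableOn f (cube ι) := by
  refine Measure.integrableOn_of_bounded (M := B) volume_cube_lt_top.ne
    hf.aestronglyMeasurable ?_
  exact Filter.Eventually.of_forall fun u => by rw [Real.norm_eq_abs]; exact hB u

theorem preimage_cube :
    (MeasurableEquiv.sumPiEquivProdPi (fun _ : ι ⊕ κ => ℝ)).symm ⁻¹' cube (ι ⊕ κ) =
      cube ι ×ˢ cube κ := by
  ext ⟨x, y⟩
  simp only [Set.mem_preimage, Set.mem_prod]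
  constructor
  · intro h
    exact ⟨fun i => h (Sum.inl i), fun j => h (Sum.inr j)⟩
  · rintro ⟨h1, h2⟩ (i | j)
    · exact h1 i
    · exact h2 j

/-- Fubini on the cube. -/
theorem fubini {f : (ι ⊕ κ → ℝ) → ℝ} (hf : Continuous f) {B : ℝ} (hB : ∀ u, |f u| ≤ B) :
    (∫ u in cube (ι ⊕ κ), f u = ∫ y in cube κ, ∫ x in cube ι, f (Sum.elim x y)) ∧
    IntegrableOn (fun y : κ → ℝ => ∫ x in cube ι, f (Sum.elim x y)) (cube κ) := by
  have h1 := (volume_measurePreserving_sumPiEquivProdPi_symm
    (fun _ : ι ⊕ κ => ℝ)).setIntegral_preimage_emb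
    (MeasurableEquiv.sumPiEquivProdPi (fun _ : ι ⊕ κ => ℝ)).symm.measurableEmbedding f
    (cube (ι ⊕ κ))
  rw [preimage_cube] at h1
  have h2 : ∀ p : (ι → ℝ) × (κ → ℝ),
      (MeasurableEquiv.sumPiEquivProdPi (fun _ : ι ⊕ κ => ℝ)).symm p = Sum.elim p.1 p.2 := by
    rintro ⟨x, y⟩
    funext k
    cases k <;> rfl
  simp only [h2] at h1
  have hcont : Continuous fun p : (ι → ℝ) × (κ → ℝ) => f (Sum.elim p.1 p.2) := by
    refine hf.comp ?_
    refine continuous_pi fun k => ?_
    cases k with
    | inl i => exact (continuous_apply i).comp continuous_fst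
    | inr j => exact (continuous_apply j).comp continuous_snd
  have hint : Integrable (fun p : (ι → ℝ) × (κ → ℝ) => f (Sum.elim p.1 p.2))
      ((volume.restrict (cube ι)).prod (volume.restrict (cube κ))) := by
    rw [Measure.prod_restrict]
    have hfin : (volume.prod volume) (cube ι ×ˢ cube κ) < ⊤ := by
      rw [Measure.prod_prod]
      exact ENNReal.mul_lt_top volume_cube_lt_top volume_cube_lt_top
    refine Measure.integrableOn_of_bounded (M := B) hfin.ne hcont.aestronglyMeasurable ?_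
    exact Filter.Eventually.of_forall fun u => by rw [Real.norm_eq_abs]; exact hB _
  constructor
  · rw [← h1]
    have h3 := integral_prod_symm _ hint
    rw [← h3, Measure.prod_restrict]
    rfl
  · exact hint.integral_prod_right

end GAM2

/-- GAM2. -/
theorem stmt_GAM2 (hBLK : Stmt_BLK) : Stmt_GAM2 := by
  intro ι κ _ _ _ _ H hH r hr
  obtain ⟨hA, hS, hdet, _, _, hqf⟩ := hBLK ι κ H hH
  set A := H.toBlocks₁₁ with hAdef
  set S := schur H with hSdef
  rw [GR.Gam_cube hA, GR.Gam_cube hS, GR.Gam_cube hH]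
  set a : ℝ := Real.pi * r ^ 2 with ha
  have ha0 : 0 ≤ a := by positivity
  have key : ∀ (μ : Type) [Fintype μ] [DecidableEq μ] (P : Matrix μ μ ℝ), P.PosDef →
      Continuous (fun u => Real.exp (-Real.pi * r ^ 2 * dH P u)) ∧
      (∀ u, |Real.exp (-Real.pi * r ^ 2 * dH P u)| ≤ 1) := by
    intro μ _ _ P hP
    constructor
    · have := DHC.continuous hP
      fun_prop
    · intro u
      rw [abs_of_pos (Real.exp_pos _), Real.exp_le_one_iff]
      have := DHC.nonneg hP u
      have h3 : 0 ≤ Real.pi * r ^ 2 * dH P u := by positivity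
      linarith
  obtain ⟨hfub, hfint⟩ := GAM2.fubini (key _ H hH).1 (key _ H hH).2
  simp only [integral_const_mul]
  rw [hfub, hdet, Fintype.card_sum, Real.sqrt_mul hA.det_pos.le]
  set IA := ∫ u in cube ι, Real.exp (-Real.pi * r ^ 2 * dH A u) with hIA
  have h5 : (∫ y in cube κ, Real.exp (-Real.pi * r ^ 2 * dH S y)) * IA ≤
      ∫ y in cube κ, ∫ x in cube ι, Real.exp (-Real.pi * r ^ 2 * dH H (Sum.elim x y)) := by
    rw [← integral_mul_const]
    refine setIntegral_mono
      ((GAM2.integrableOn_cube (key _ S hS).1 (key _ S hS).2).mul_const IA) hfint fun y => ?_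
    show Real.exp (-Real.pi * r ^ 2 * dH S y) * IA ≤
      ∫ x in cube ι, Real.exp (-Real.pi * r ^ 2 * dH H (Sum.elim x y))
    obtain ⟨z2, hz2⟩ := DHC.attained hS y
    set w : ι → ℝ := A⁻¹ *ᵥ (H.toBlocks₁₂ *ᵥ (y - zc z2)) with hw
    have h6 : ∀ x : ι → ℝ, dH H (Sum.elim x y) ≤ dH A (x + w) + dH S y := by
      intro x
      obtain ⟨z1, hz1⟩ := DHC.attained hA (x + w)
      have h7 := DHC.le hH (Sum.elim x y) (Sum.elim z1 z2)
      rw [hqf] at h7
      have e1 : (Sum.elim x y - zc (Sum.elim z1 z2)) ∘ Sum.inl = x - zc z1 := by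
        funext i; rfl
      have e2 : (Sum.elim x y - zc (Sum.elim z1 z2)) ∘ Sum.inr = y - zc z2 := by
        funext i; rfl
      rw [e1, e2, ← hz2, ← hw] at h7
      have e3 : x - zc z1 + w = x + w - zc z1 := by abel
      rw [e3, ← hz1] at h7
      exact h7
    have h8 : IA = ∫ x in cube ι, Real.exp (-Real.pi * r ^ 2 * dH A (x + w)) := by
      rw [hIA]
      refine (GR.cube_shift (fun u => Real.exp (-Real.pi * r ^ 2 * dH A u)) ?_ w).symm
      intro u z
      show Real.exp (-Real.pi * r ^ 2 * dH A (u + zc z)) = _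
      rw [DHC.periodic]
    rw [h8, ← integral_const_mul]
    have hcH : Continuous fun x : ι → ℝ =>
        Real.exp (-Real.pi * r ^ 2 * dH H (Sum.elim x y)) := by
      refine (key _ H hH).1.comp ?_
      refine continuous_pi fun k => ?_
      cases k with
      | inl i => exact continuous_apply i
      | inr j => exact continuous_const
    have hcA : Continuous fun x : ι → ℝ => Real.exp (-Real.pi * r ^ 2 * dH A (x + w)) :=
      (key _ A hA).1.comp (by fun_prop)
    refine setIntegral_mono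
      ((GAM2.integrableOn_cube hcA (fun u => (key _ A hA).2 _)).const_mul _)
      (GAM2.integrableOn_cube hcH (fun u => (key _ H hH).2 _)) fun x => ?_
    show Real.exp (-Real.pi * r ^ 2 * dH S y) * Real.exp (-Real.pi * r ^ 2 * dH A (x + w)) ≤
      Real.exp (-Real.pi * r ^ 2 * dH H (Sum.elim x y))
    rw [← Real.exp_add, Real.exp_le_exp]
    have := mul_le_mul_of_nonneg_left (h6 x) ha0
    rw [ha] at this
    linarith
  have h9 : 0 ≤ r ^ Fintype.card ι * r ^ Fintype.card κ * (√A.det * √S.det) := by positivity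
  calc r ^ Fintype.card ι * √A.det * IA *
        (r ^ Fintype.card κ * √S.det * ∫ y in cube κ, Real.exp (-Real.pi * r ^ 2 * dH S y))
      = r ^ Fintype.card ι * r ^ Fintype.card κ * (√A.det * √S.det) *
        ((∫ y in cube κ, Real.exp (-Real.pi * r ^ 2 * dH S y)) * IA) := by ring
    _ ≤ r ^ Fintype.card ι * r ^ Fintype.card κ * (√A.det * √S.det) *
        ∫ y in cube κ, ∫ x in cube ι, Real.exp (-Real.pi * r ^ 2 * dH H (Sum.elim x y)) :=
        mul_le_mul_of_nonneg_left h5 h9
    _ = _ := by rw [pow_add]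

end Pool.Agent.Work.MP_b10815_co_flt
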