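import Pool.Agent.Work.MP_b10815_co_flt.Interface
set_option autoImplicit false
set_option linter.unusedSectionVars false

/-!
# Lattice helper lemmas (gram matrices, full rank, unimodular changes)
-/

namespace Pool.Agent.Work.MP_b10815_co_flt

open MeasureTheory Matrix

namespace LatAux

variable {ι κ μ ν : Type} [Fintype ι] [Fintype κ] [Fintype μ] [Fintype ν]

/-! ### integer matrices as real matrices -/

theorem cR_mul (A : Matrix ι κ ℤ) (B : Matrix κ μ ℤ) : cR (A * B) = cR A * cR B := by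
  ext i j
  simp [cR, Matrix.mul_apply]

theorem cR_one [DecidableEq ι] : cR (1 : Matrix ι ι ℤ) = 1 := by
  ext i j
  by_cases h : i = j <;> simp [cR, Matrix.one_apply, h]

theorem cR_transpose (A : Matrix ι κ ℤ) : cR Aᵀ = (cR A)ᵀ := rfl

theorem cR_det [DecidableEq ι] (A : Matrix ι ι ℤ) : (cR A).det = (A.det : ℝ) := by
  have := (Int.castRingHom ℝ).map_det A
  simp only [eq_intCast, RingHom.mapMatrix_apply] at this
  rw [this]
  rfl

theorem cR_mulVec_zc (A : Matrix ι κ ℤ) (v : κ → ℤ) : cR A *ᵥ zc v = zc (A *ᵥ v) := by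
  ext i
  simp [cR, zc, Matrix.mulVec, dotProduct]

/-! ### full rank -/

theorem fullRank_iff [DecidableEq κ] (Z : Matrix ι κ ℤ) :
    FullRank Z ↔ ∀ v : κ → ℤ, Z *ᵥ v = 0 → v = 0 := by
  unfold FullRank
  rw [Ne, ← Matrix.exists_mulVec_eq_zero_iff]
  push Not
  constructor
  · intro h v hv
    by_contra hv0
    apply h v hv0
    rw [← Matrix.mulVec_mulVec, hv, Matrix.mulVec_zero]
  · intro h v hv0 hv
    apply hv0
    apply h
    have h1 : (Z *ᵥ v) ⬝ᵥ (Z *ᵥ v) = 0 := by
      have : v ⬝ᵥ ((Zᵀ * Z) *ᵥ v) = 0 := by rw [hv, dotProduct_zero]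
      rw [← Matrix.mulVec_mulVec, Matrix.dotProduct_mulVec, Matrix.vecMul_transpose] at this
      exact this
    exact dotProduct_self_eq_zero.1 h1

theorem fullRank_real [DecidableEq κ] {Z : Matrix ι κ ℤ} (hZ : FullRank Z) :
    Function.Injective (cR Z).mulVec := by
  have hdet : ((cR Z)ᵀ * cR Z).det ≠ 0 := by
    have : (cR Z)ᵀ * cR Z = cR (Zᵀ * Z) := by rw [cR_mul, cR_transpose]
    rw [this, cR_det]
    exact_mod_cast hZ
  have hinj : Function.Injective ((cR Z)ᵀ * cR Z).mulVec := by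
    rw [Matrix.mulVec_injective_iff_isUnit, Matrix.isUnit_iff_isUnit_det]
    exact isUnit_iff_ne_zero.2 hdet
  intro x y hxy
  apply hinj
  rw [← Matrix.mulVec_mulVec, ← Matrix.mulVec_mulVec]
  rw [hxy]

theorem FullRank.mul_right' [DecidableEq κ] [DecidableEq μ] {Z : Matrix ι κ ℤ} {C : Matrix κ μ ℤ}
    (hZ : FullRank Z) (hC : FullRank C) : FullRank (Z * C) := by
  rw [fullRank_iff] at *
  intro v hv
  apply hC
  apply hZ
  rw [Matrix.mulVec_mulVec, hv]

theorem unimod_fullRank [DecidableEq ι] [DecidableEq κ] {U : Matrix ι κ ℤ} (hU : Unimod U) :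
    FullRank U := by
  obtain ⟨V, hUV, hVU⟩ := hU
  rw [fullRank_iff]
  intro v hv
  have : (V * U) *ᵥ v = 0 := by rw [← Matrix.mulVec_mulVec, hv, Matrix.mulVec_zero]
  rwa [hVU, Matrix.one_mulVec] at this

theorem unimod_mul [DecidableEq ι] [DecidableEq κ] [DecidableEq μ] {U : Matrix ι κ ℤ}
    {V : Matrix κ μ ℤ} (hU : Unimod U) (hV : Unimod V) : Unimod (U * V) := by
  obtain ⟨U', h1, h2⟩ := hU
  obtain ⟨V', h3, h4⟩ := hV
  refine ⟨V' * U', ?_, ?_⟩
  · rw [Matrix.mul_assoc, ← Matrix.mul_assoc V, h3, Matrix.one_mul, h1]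
  · rw [Matrix.mul_assoc, ← Matrix.mul_assoc U', h2, Matrix.one_mul, h4]

theorem unimod_one [DecidableEq ι] : Unimod (1 : Matrix ι ι ℤ) := ⟨1, by simp, by simp⟩

theorem fullRank_of_det [DecidableEq ι] {C : Matrix ι ι ℤ} (hC : C.det ≠ 0) : FullRank C := by
  unfold FullRank
  rw [Matrix.det_mul, Matrix.det_transpose]
  exact mul_ne_zero hC hC

theorem fullRank_reindex [DecidableEq κ] [DecidableEq μ] (e : κ ≃ μ) {Z : Matrix ι κ ℤ}
    (hZ : FullRank Z) : FullRank (Z.submatrix id e.symm) := by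
  rw [fullRank_iff] at *
  intro v hv
  have h1 : Z *ᵥ (v ∘ e) = 0 := by
    ext i
    have := congrFun hv i
    simp only [Matrix.mulVec, dotProduct, Matrix.submatrix_apply, id, Pi.zero_apply] at this ⊢
    rw [← this]
    apply Fintype.sum_equiv e
    intro x
    simp
  have h2 := hZ _ h1
  ext j
  have := congrFun h2 (e.symm j)
  simpa using this

/-! ### Gram matrices -/

theorem gram_mul (H : Matrix ι ι ℝ) (A : Matrix ι κ ℤ) (B : Matrix κ μ ℤ) :
    gram H (A * B) = gram (gram H A) B := by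
  unfold gram
  rw [cR_mul, Matrix.transpose_mul]
  simp only [Matrix.mul_assoc]

theorem gram_one [DecidableEq ι] (H : Matrix ι ι ℝ) : gram H (1 : Matrix ι ι ℤ) = H := by
  unfold gram
  rw [cR_one]
  simp

theorem gram_smul (H : Matrix ι ι ℝ) (c : ℝ) (Z : Matrix ι κ ℤ) :
    gram (c • H) Z = c • gram H Z := by
  unfold gram
  simp

theorem gram_qf (H : Matrix ι ι ℝ) (Z : Matrix ι κ ℤ) (v : κ → ℝ) :
    qf (gram H Z) v = qf H (cR Z *ᵥ v) := by
  unfold qf gram
  rw [← Matrix.mulVec_mulVec, ← Matrix.mulVec_mulVec, Matrix.dotProduct_mulVec,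
    Matrix.vecMul_transpose]

theorem gram_posDef [DecidableEq κ] {H : Matrix ι ι ℝ} (hH : H.PosDef) {Z : Matrix ι κ ℤ}
    (hZ : FullRank Z) : (gram H Z).PosDef := by
  unfold gram
  have := hH.conjTranspose_mul_mul_same (B := cR Z) (fullRank_real hZ)
  simpa [Matrix.conjTranspose_eq_transpose_of_trivial] using this

theorem gram_posSemidef {H : Matrix ι ι ℝ} (hH : H.PosSemidef) (Z : Matrix ι κ ℤ) :
    (gram H Z).PosSemidef := by
  unfold gram
  have := hH.conjTranspose_mul_mul_same (cR Z)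
  simpa [Matrix.conjTranspose_eq_transpose_of_trivial] using this

theorem gram_det_pos [DecidableEq κ] {H : Matrix ι ι ℝ} (hH : H.PosDef) {Z : Matrix ι κ ℤ}
    (hZ : FullRank Z) : 0 < (gram H Z).det := (gram_posDef hH hZ).det_pos

theorem gram_det_mul [DecidableEq κ] (H : Matrix ι ι ℝ) (Z : Matrix ι κ ℤ) (C : Matrix κ κ ℤ) :
    (gram H (Z * C)).det = (C.det : ℝ) ^ 2 * (gram H Z).det := by
  rw [gram_mul]
  conv_lhs => rw [gram]
  rw [Matrix.det_mul, Matrix.det_mul, Matrix.det_transpose, cR_det]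
  ring

theorem gram_submatrix (H : Matrix ι ι ℝ) (Z : Matrix ι κ ℤ) (f : μ → κ) :
    gram H (Z.submatrix id f) = (gram H Z).submatrix f f := by
  ext i j
  simp [gram, Matrix.mul_apply, cR]

theorem gram_det_reindex [DecidableEq κ] [DecidableEq μ] (e : κ ≃ μ) (H : Matrix ι ι ℝ)
    (Z : Matrix ι κ ℤ) : (gram H (Z.submatrix id e.symm)).det = (gram H Z).det := by
  rw [gram_submatrix, Matrix.det_submatrix_equiv_self]

theorem sq_det_unimod [DecidableEq ι] {U : Matrix ι ι ℤ} (hU : Unimod U) :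
    (U.det : ℝ) ^ 2 = 1 := by
  obtain ⟨V, h1, -⟩ := hU
  have h2 : U.det * V.det = 1 := by rw [← Matrix.det_mul, h1, Matrix.det_one]
  have h3 : U.det ^ 2 = 1 := by
    have : IsUnit U.det := IsUnit.of_mul_eq_one _ h2
    rcases Int.isUnit_iff.1 this with h | h <;> simp [h]
  exact_mod_cast h3

theorem gram_det_unimod_right [DecidableEq κ] (H : Matrix ι ι ℝ) (Z : Matrix ι κ ℤ)
    {U : Matrix κ κ ℤ} (hU : Unimod U) : (gram H (Z * U)).det = (gram H Z).det := by
  rw [gram_det_mul, sq_det_unimod hU, one_mul]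

theorem unimod_card [DecidableEq ι] [DecidableEq κ] {U : Matrix ι κ ℤ} (hU : Unimod U) :
    Fintype.card ι = Fintype.card κ := by
  obtain ⟨V, h1, h2⟩ := hU
  have h3 : (Matrix.trace (U * V)) = Matrix.trace (V * U) := Matrix.trace_mul_comm _ _
  rw [h1, h2, Matrix.trace_one, Matrix.trace_one] at h3
  exact_mod_cast h3

theorem gram_det_unimod [DecidableEq ι] [DecidableEq κ] (H : Matrix ι ι ℝ)
    {U : Matrix ι κ ℤ} (hU : Unimod U) : (gram H U).det = H.det := by
  have hc := unimod_card hU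
  let e : κ ≃ ι := Fintype.equivOfCardEq hc.symm
  have h1 := gram_det_reindex e H U
  have hU' : Unimod (U.submatrix id e.symm) := by
    obtain ⟨V, h1, h2⟩ := hU
    refine ⟨V.submatrix e.symm id, ?_, ?_⟩
    · rw [Matrix.submatrix_mul_equiv, h1]; ext i j; simp [Matrix.one_apply]
    · rw [← Matrix.submatrix_mul _ _ e.symm id e.symm Function.bijective_id, h2]
      ext i j
      simp [Matrix.one_apply]
  rw [← h1]
  have h2 := gram_det_mul H (1 : Matrix ι ι ℤ) (U.submatrix id e.symm)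
  rw [Matrix.one_mul, gram_one, sq_det_unimod hU', one_mul] at h2
  exact h2

theorem subDet_det {ι : Type} [Fintype ι] {κ : Type} [Fintype κ] [DecidableEq κ]
    {H : Matrix ι ι ℝ} {t : ℝ} (h : SubDet H t) {Z : Matrix ι κ ℤ} (hZ : FullRank Z) :
    t ^ Fintype.card κ ≤ (gram H Z).det := by
  have e : κ ≃ Fin (Fintype.card κ) := Fintype.equivFin κ
  have := h _ _ (fullRank_reindex e hZ)
  rwa [gram_det_reindex] at this

theorem subDet_gram [DecidableEq κ] {H : Matrix ι ι ℝ} {t : ℝ} (h : SubDet H t)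
    {U : Matrix ι κ ℤ} (hU : FullRank U) : SubDet (gram H U) t := by
  intro k Z hZ
  rw [← gram_mul]
  exact h k _ (FullRank.mul_right' hU hZ)

theorem stable_gram {n : ℕ} {H : Matrix (Fin n) (Fin n) ℝ} (hH : Stable H)
    {U : Matrix (Fin n) (Fin n) ℤ} (hU : Unimod U) : Stable (gram H U) :=
  ⟨gram_posDef hH.1 (unimod_fullRank hU), by rw [gram_det_unimod H hU, hH.2.1],
    subDet_gram hH.2.2 (unimod_fullRank hU)⟩

theorem gram_toBlocks₁₁ (H : Matrix ι ι ℝ) (U : Matrix ι (κ ⊕ μ) ℤ) :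
    (gram H U).toBlocks₁₁ = gram H (U.submatrix id Sum.inl) := by
  rw [gram_submatrix]
  rfl

theorem fullRank_inl [DecidableEq κ] [DecidableEq μ] {U : Matrix ι (κ ⊕ μ) ℤ}
    (hU : FullRank U) : FullRank (U.submatrix id (Sum.inl : κ → κ ⊕ μ)) := by
  rw [fullRank_iff] at *
  intro v hv
  have h1 : U *ᵥ (Sum.elim v 0) = 0 := by
    ext i
    have := congrFun hv i
    simp only [Matrix.mulVec, dotProduct, Matrix.submatrix_apply, id, Pi.zero_apply] at this ⊢
    rw [Fintype.sum_sum_type]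
    simpa using this
  have h2 := hU _ h1
  ext i
  exact congrFun h2 (Sum.inl i)

/-! ### lower bounds -/

theorem continuous_qf (H : Matrix ι ι ℝ) : Continuous (qf H) := by
  unfold qf
  have : Continuous fun v : ι → ℝ => H *ᵥ v := by
    exact Continuous.matrix_mulVec continuous_const continuous_id
  exact Continuous.dotProduct continuous_id this

theorem qf_smul (H : Matrix ι ι ℝ) (c : ℝ) (v : ι → ℝ) : qf H (c • v) = c ^ 2 * qf H v := by
  unfold qf
  rw [Matrix.mulVec_smul, smul_dotProduct, dotProduct_smul, smul_eq_mul, smul_eq_mul]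
  ring

theorem qf_pos {H : Matrix ι ι ℝ} (hH : H.PosDef) {v : ι → ℝ} (hv : v ≠ 0) : 0 < qf H v := by
  have := hH.dotProduct_mulVec_pos hv
  simpa [qf] using this

theorem qf_nonneg {H : Matrix ι ι ℝ} (hH : H.PosDef) (v : ι → ℝ) : 0 ≤ qf H v := by
  have := hH.posSemidef.dotProduct_mulVec_nonneg v
  simpa [qf] using this

/-- a positive definite form dominates a multiple of the standard one -/
theorem exists_lower {H : Matrix ι ι ℝ} (hH : H.PosDef) :
    ∃ c : ℝ, 0 < c ∧ ∀ v : ι → ℝ, c * (v ⬝ᵥ v) ≤ qf H v := by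
  classical
  let S : Set (ι → ℝ) := {v | v ⬝ᵥ v = 1}
  have hS : IsCompact S := by
    have hcl : IsClosed S := isClosed_eq (Continuous.dotProduct continuous_id continuous_id)
      continuous_const
    have hsub : S ⊆ Metric.closedBall 0 1 := by
      intro v hv
      rw [mem_closedBall_zero_iff, pi_norm_le_iff_of_nonneg zero_le_one]
      intro i
      have h1 : v i * v i ≤ 1 := by
        have h2 : v ⬝ᵥ v = 1 := hv
        rw [← h2]
        exact Finset.single_le_sum (f := fun j => v j * v j)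
          (fun j _ => mul_self_nonneg _) (Finset.mem_univ i)
      rw [Real.norm_eq_abs]
      exact abs_le_one_iff_mul_self_le_one.2 h1
    exact (isCompact_closedBall _ _).of_isClosed_subset hcl hsub
  rcases S.eq_empty_or_nonempty with hE | hne
  · refine ⟨1, one_pos, fun v => ?_⟩
    have hv0 : v = 0 := by
      by_contra hv
      have hpos : 0 < v ⬝ᵥ v := by
        rcases (dotProduct_self_star_nonneg v).lt_or_eq with h | h
        · simpa using h
        · exfalso; apply hv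
          have : v ⬝ᵥ v = 0 := by simpa using h.symm
          exact dotProduct_self_eq_zero.1 this
      have : (Real.sqrt (v ⬝ᵥ v))⁻¹ • v ∈ S := by
        show ((Real.sqrt (v ⬝ᵥ v))⁻¹ • v) ⬝ᵥ ((Real.sqrt (v ⬝ᵥ v))⁻¹ • v) = 1
        rw [smul_dotProduct, dotProduct_smul, smul_eq_mul, smul_eq_mul, ← mul_assoc,
          ← mul_inv, Real.mul_self_sqrt hpos.le, inv_mul_cancel₀ hpos.ne']
      rw [hE] at this
      exact this
    rw [hv0]
    simp [qf]
  · obtain ⟨w, hw, hmin⟩ := hS.exists_isMinOn hne (continuous_qf H).continuousOn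
    have hw0 : w ≠ 0 := by
      intro h
      rw [h] at hw
      have : (0 : ι → ℝ) ⬝ᵥ 0 = 1 := hw
      simp at this
    refine ⟨qf H w, qf_pos hH hw0, fun v => ?_⟩
    by_cases hv : v = 0
    · rw [hv]; simp [qf]
    have hpos : 0 < v ⬝ᵥ v := by
      rcases (dotProduct_self_star_nonneg v).lt_or_eq with h | h
      · simpa using h
      · exfalso; apply hv
        have : v ⬝ᵥ v = 0 := by simpa using h.symm
        exact dotProduct_self_eq_zero.1 this
    have hmem : (Real.sqrt (v ⬝ᵥ v))⁻¹ • v ∈ S := by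
      show ((Real.sqrt (v ⬝ᵥ v))⁻¹ • v) ⬝ᵥ ((Real.sqrt (v ⬝ᵥ v))⁻¹ • v) = 1
      rw [smul_dotProduct, dotProduct_smul, smul_eq_mul, smul_eq_mul, ← mul_assoc,
        ← mul_inv, Real.mul_self_sqrt hpos.le, inv_mul_cancel₀ hpos.ne']
    have h1 := hmin hmem
    change qf H w ≤ _ at h1
    rw [qf_smul, inv_pow, Real.sq_sqrt hpos.le] at h1
    have h2 := mul_le_mul_of_nonneg_right h1 hpos.le
    calc qf H w * (v ⬝ᵥ v) ≤ ((v ⬝ᵥ v)⁻¹ * qf H v) * (v ⬝ᵥ v) := h2
      _ = qf H v := by field_simp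

end LatAux

end Pool.Agent.Work.MP_b10815_co_flt
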