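import Pool.Agent.Work.MP_b10815_co_flt.Interface
set_option autoImplicit false
set_option linter.unusedSectionVars false

/-!
# Basic facts about the quadratic form `qf` (used by VOR, DHC, GAM)
-/

namespace Pool.Agent.Work.MP_b10815_co_flt

open MeasureTheory Matrix

namespace QF

variable {ι κ : Type} [Fintype ι] [Fintype κ]

theorem symm' {H : Matrix ι ι ℝ} (hH : Hᵀ = H) (v w : ι → ℝ) :
    v ⬝ᵥ (H *ᵥ w) = w ⬝ᵥ (H *ᵥ v) := by
  rw [Matrix.dotProduct_mulVec, ← Matrix.mulVec_transpose, hH, dotProduct_comm]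

theorem transpose_eq {H : Matrix ι ι ℝ} (hH : H.PosDef) : Hᵀ = H := by
  have := hH.isHermitian
  rwa [Matrix.IsHermitian, Matrix.conjTranspose_eq_transpose_of_trivial] at this

theorem symm {H : Matrix ι ι ℝ} (hH : H.PosDef) (v w : ι → ℝ) :
    v ⬝ᵥ (H *ᵥ w) = w ⬝ᵥ (H *ᵥ v) := symm' (transpose_eq hH) v w

theorem pos {H : Matrix ι ι ℝ} (hH : H.PosDef) {v : ι → ℝ} (hv : v ≠ 0) : 0 < qf H v := by
  have := hH.dotProduct_mulVec_pos hv
  simpa [qf] using this

@[simp] theorem zero (H : Matrix ι ι ℝ) : qf H 0 = 0 := by simp [qf]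

@[simp] theorem neg (H : Matrix ι ι ℝ) (v : ι → ℝ) : qf H (-v) = qf H v := by
  simp [qf, Matrix.mulVec_neg]

theorem smul (H : Matrix ι ι ℝ) (a : ℝ) (v : ι → ℝ) : qf H (a • v) = a ^ 2 * qf H v := by
  simp [qf, Matrix.mulVec_smul]; ring

theorem nonneg {H : Matrix ι ι ℝ} (hH : H.PosDef) (v : ι → ℝ) : 0 ≤ qf H v := by
  by_cases hv : v = 0
  · rw [hv, zero]
  · exact (pos hH hv).le

theorem eq_zero {H : Matrix ι ι ℝ} (hH : H.PosDef) {v : ι → ℝ} (h : qf H v = 0) : v = 0 := by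
  by_contra hv
  exact (pos hH hv).ne' h

theorem add {H : Matrix ι ι ℝ} (hH : H.PosDef) (v w : ι → ℝ) :
    qf H (v + w) = qf H v + 2 * (v ⬝ᵥ (H *ᵥ w)) + qf H w := by
  unfold qf
  rw [Matrix.mulVec_add, dotProduct_add, add_dotProduct, add_dotProduct, symm hH w v]
  ring

theorem sub {H : Matrix ι ι ℝ} (hH : H.PosDef) (v w : ι → ℝ) :
    qf H (v - w) = qf H v - 2 * (v ⬝ᵥ (H *ᵥ w)) + qf H w := by
  rw [sub_eq_add_neg, add hH, neg, Matrix.mulVec_neg, dotProduct_neg]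
  ring

theorem continuous (H : Matrix ι ι ℝ) : Continuous (qf H) := by
  unfold qf dotProduct mulVec dotProduct
  fun_prop

/-- Coercivity. -/
theorem coercive {H : Matrix ι ι ℝ} (hH : H.PosDef) :
    ∃ c : ℝ, 0 < c ∧ ∀ v, c * (v ⬝ᵥ v) ≤ qf H v := by
  classical
  rcases isEmpty_or_nonempty ι with hι | hι
  · exact ⟨1, one_pos, fun v => by
      have : v = 0 := Subsingleton.elim _ _
      rw [this]; simp⟩
  -- the compact unit sphere of the sup norm
  have hS : IsCompact (Metric.sphere (0 : ι → ℝ) 1) := isCompact_sphere 0 1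
  have hne : (Metric.sphere (0 : ι → ℝ) 1).Nonempty := NormedSpace.sphere_nonempty.2 zero_le_one
  obtain ⟨w, hw, hmin⟩ := hS.exists_isMinOn hne (continuous H).continuousOn
  have hw0 : w ≠ 0 := by
    rintro rfl
    simp at hw
  have hpos := pos hH hw0
  have hcard : (0 : ℝ) < Fintype.card ι := by exact_mod_cast Fintype.card_pos
  refine ⟨qf H w / Fintype.card ι, by positivity, fun v => ?_⟩
  by_cases hv : v = 0
  · rw [hv]; simp
  have hvn : 0 < ‖v‖ := norm_pos_iff.2 hv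
  have h1 : qf H w ≤ qf H (‖v‖⁻¹ • v) := by
    apply hmin
    rw [mem_sphere_zero_iff_norm, norm_smul, norm_inv, norm_norm, inv_mul_cancel₀ hvn.ne']
  rw [smul] at h1
  have h2 : v ⬝ᵥ v ≤ Fintype.card ι * ‖v‖ ^ 2 := by
    unfold dotProduct
    calc ∑ i, v i * v i ≤ ∑ _i : ι, ‖v‖ ^ 2 := by
          refine Finset.sum_le_sum fun i _ => ?_
          have := norm_le_pi_norm v i
          rw [Real.norm_eq_abs] at this
          nlinarith [abs_mul_abs_self (v i), abs_nonneg (v i)]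
      _ = _ := by rw [Finset.sum_const, Finset.card_univ, nsmul_eq_mul]
  have h3 : qf H w * ‖v‖ ^ 2 ≤ qf H v := by
    have h4 : qf H v = ‖v‖ ^ 2 * (‖v‖⁻¹ ^ 2 * qf H v) := by field_simp
    rw [h4, mul_comm (qf H w)]
    exact mul_le_mul_of_nonneg_left h1 (by positivity)
  calc qf H w / Fintype.card ι * (v ⬝ᵥ v) ≤ qf H w / Fintype.card ι * (Fintype.card ι * ‖v‖ ^ 2) :=
        mul_le_mul_of_nonneg_left h2 (by positivity)
    _ = qf H w * ‖v‖ ^ 2 := by field_simp
    _ ≤ qf H v := h3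

/-- Upper bound. -/
theorem upper (H : Matrix ι ι ℝ) : ∃ C : ℝ, 0 < C ∧ ∀ v, qf H v ≤ C * ‖v‖ ^ 2 := by
  refine ⟨(∑ i, ∑ j, |H i j|) + 1, by positivity, fun v => ?_⟩
  have h1 : qf H v ≤ ∑ i, ∑ j, |H i j| * ‖v‖ ^ 2 := by
    unfold qf dotProduct mulVec dotProduct
    refine Finset.sum_le_sum fun i _ => ?_
    rw [Finset.mul_sum]
    refine Finset.sum_le_sum fun j _ => ?_
    have hi := norm_le_pi_norm v i
    have hj := norm_le_pi_norm v j
    rw [Real.norm_eq_abs] at hi hj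
    calc v i * (H i j * v j) ≤ |v i * (H i j * v j)| := le_abs_self _
      _ = |H i j| * (|v i| * |v j|) := by rw [abs_mul, abs_mul]; ring
      _ ≤ |H i j| * (‖v‖ * ‖v‖) := by
          refine mul_le_mul_of_nonneg_left ?_ (abs_nonneg _)
          exact mul_le_mul hi hj (abs_nonneg _) (norm_nonneg _)
      _ = _ := by ring
  simp only [← Finset.sum_mul] at h1
  have h2 : 0 ≤ ‖v‖ ^ 2 := by positivity
  linarith

theorem sq_le_dot (v : ι → ℝ) (i : ι) : v i ^ 2 ≤ v ⬝ᵥ v := by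
  unfold dotProduct
  calc v i ^ 2 = v i * v i := sq _
    _ ≤ _ := Finset.single_le_sum (f := fun i => v i * v i)
      (fun j _ => mul_self_nonneg _) (Finset.mem_univ i)

theorem dot_self_nonneg (v : ι → ℝ) : 0 ≤ v ⬝ᵥ v :=
  Finset.sum_nonneg fun i _ => mul_self_nonneg (v i)

@[simp] theorem zc_zero : zc (0 : ι → ℤ) = 0 := by ext i; simp [zc]

@[simp] theorem zc_add (z w : ι → ℤ) : zc (z + w) = zc z + zc w := by ext i; simp [zc]

@[simp] theorem zc_neg (z : ι → ℤ) : zc (-z) = -zc z := by ext i; simp [zc]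

@[simp] theorem zc_sub (z w : ι → ℤ) : zc (z - w) = zc z - zc w := by ext i; simp [zc]

theorem zc_inj {z w : ι → ℤ} (h : zc z = zc w) : z = w := by
  ext i
  have := congrFun h i
  simp only [zc] at this
  exact_mod_cast this

theorem zc_ne_zero {z : ι → ℤ} (h : z ≠ 0) : zc z ≠ 0 := fun h' =>
  h (zc_inj (by rw [h', zc_zero]))

end QF

end Pool.Agent.Work.MP_b10815_co_flt
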