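import Mathlib
import Pool.Agent.Work.MP_b10815_co_flt.Interface
import Pool.Agent.Work.MP_b10815_co_flt.GB1
import Pool.Agent.Work.MP_b10815_co_flt.QF
import Pool.Agent.Work.MP_b10815_co_flt.VOR
import Pool.Agent.Work.MP_b10815_co_flt.LatAux

/-!
# Block GAM3: invariance, scaling and size of the Gaussian mass of the Voronoi cell
-/

set_option autoImplicit false

namespace Pool.Agent.Work.MP_b10815_co_flt

open MeasureTheory Matrix Filter Topology
open scoped Pointwise

namespace GAM3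

variable {ι κ : Type} [Fintype ι] [Fintype κ] [DecidableEq ι] [DecidableEq κ]

theorem continuous_gr (H : Matrix ι ι ℝ) (r : ℝ) : Continuous (gr H r) := by
  unfold gr
  have := QF.continuous H
  fun_prop

theorem gr_pos {H : Matrix ι ι ℝ} (hH : H.PosDef) {r : ℝ} (hr : 0 < r) (v : ι → ℝ) : 0 < gr H r v := by
  unfold gr
  have := Real.sqrt_pos.mpr hH.det_pos
  positivity

theorem qf_smul_left (a : ℝ) (H : Matrix ι ι ℝ) (v : ι → ℝ) : qf (a • H) v = a * qf H v := by
  unfold qf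
  rw [smul_mulVec, dotProduct_smul, smul_eq_mul]

theorem gr_eq_gH {H : Matrix ι ι ℝ} {r : ℝ} (hr : 0 < r) (v : ι → ℝ) :
    gr H r v = gH ((r ^ 2) • H) v := by
  unfold gr gH
  rw [det_smul, qf_smul_left]
  congr 1
  · rw [← pow_mul, mul_comm 2, pow_mul, Real.sqrt_mul (by positivity), Real.sqrt_sq (by positivity)]
  · congr 1
    ring

theorem gr_integrable {H : Matrix ι ι ℝ} (hH : H.PosDef) {r : ℝ} (hr : 0 < r) :
    Integrable (gr H r) ∧ ∫ v, gr H r v = 1 := by
  have h := GB.integrable_gH ((r ^ 2) • H) (hH.smul (by positivity))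
  have e : gr H r = gH ((r ^ 2) • H) := by
    funext v
    exact gr_eq_gH hr v
  rw [e]
  exact h

/-! ### unimodular invariance -/

theorem mem_vor_gram {H : Matrix ι ι ℝ} {U : Matrix ι κ ℤ} (hU : Unimod U) (v : κ → ℝ) :
    v ∈ Vor (gram H U) ↔ cR U *ᵥ v ∈ Vor H := by
  obtain ⟨W, h1, h2⟩ := hU
  have hg : ∀ z : κ → ℤ, v ⬝ᵥ (gram H U *ᵥ zc z) = (cR U *ᵥ v) ⬝ᵥ (H *ᵥ zc (U *ᵥ z)) := by
    intro z
    rw [← LatAux.cR_mulVec_zc]
    unfold gram
    rw [← mulVec_mulVec, ← mulVec_mulVec, dotProduct_mulVec, vecMul_transpose]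
  constructor
  · intro h z
    have h3 := h (W *ᵥ z)
    rw [hg, LatAux.gram_qf, LatAux.cR_mulVec_zc] at h3
    rwa [mulVec_mulVec, h1, one_mulVec] at h3
  · intro h z
    rw [hg, LatAux.gram_qf, LatAux.cR_mulVec_zc]
    exact h (U *ᵥ z)

theorem integral_unimod {U : Matrix ι κ ℤ} (hU : Unimod U) (F : (ι → ℝ) → ℝ) :
    ∫ v : κ → ℝ, F (cR U *ᵥ v) = ∫ x, F x := by
  have hc := LatAux.unimod_card hU
  let e : κ ≃ ι := Fintype.equivOfCardEq hc.symm
  have hU' : Unimod (U.submatrix id e.symm) := by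
    obtain ⟨V, h1, h2⟩ := hU
    refine ⟨V.submatrix e.symm id, ?_, ?_⟩
    · rw [Matrix.submatrix_mul_equiv, h1]; ext i j; simp [Matrix.one_apply]
    · rw [← Matrix.submatrix_mul _ _ e.symm id e.symm Function.bijective_id, h2]
      ext i j
      simp [Matrix.one_apply]
  have hsq := LatAux.sq_det_unimod hU'
  have hdet : |(cR (U.submatrix id e.symm)).det| = 1 := by
    rw [LatAux.cR_det]
    rw [← sq_abs] at hsq
    exact (pow_eq_one_iff_of_nonneg (abs_nonneg _) two_ne_zero).mp hsq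
  have hne : (cR (U.submatrix id e.symm)).det ≠ 0 := by
    intro h
    rw [h, abs_zero] at hdet
    exact zero_ne_one hdet
  have h3 := GB.integral_mulVec (cR (U.submatrix id e.symm)) hne F
  rw [hdet, inv_one, one_mul] at h3
  rw [← h3]
  have hmp := volume_measurePreserving_piCongrLeft (fun _ : ι => ℝ) e
  rw [← hmp.integral_comp' (g := fun x => F (cR (U.submatrix id e.symm) *ᵥ x))]
  congr 1
  funext v
  congr 1
  ext i
  simp only [mulVec, dotProduct]
  rw [← e.sum_comp]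
  apply Finset.sum_congr rfl
  intro j _
  have e2 : (MeasurableEquiv.piCongrLeft (fun _ => ℝ) e) v (e j) = v j :=
    Equiv.piCongrLeft_apply_apply (fun _ => ℝ) e v j
  rw [e2]
  simp [cR]

theorem Gam_gram {H : Matrix ι ι ℝ} {U : Matrix ι κ ℤ} (hU : Unimod U) (r : ℝ) :
    Gam (gram H U) r = Gam H r := by
  unfold Gam
  have hm1 : MeasurableSet (Vor H) := (VOR.closed H).measurableSet
  have hm2 : MeasurableSet (Vor (gram H U)) := (VOR.closed _).measurableSet
  rw [← integral_indicator hm1, ← integral_indicator hm2, ← integral_unimod hU]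
  congr 1
  funext v
  have hg : gr (gram H U) r v = gr H r (cR U *ᵥ v) := by
    unfold gr
    rw [LatAux.gram_qf, LatAux.gram_det_unimod H hU, LatAux.unimod_card hU]
  by_cases h : v ∈ Vor (gram H U)
  · rw [Set.indicator_of_mem h, Set.indicator_of_mem ((mem_vor_gram hU v).mp h), hg]
  · rw [Set.indicator_of_notMem h, Set.indicator_of_notMem (fun h' => h ((mem_vor_gram hU v).mpr h'))]

/-! ### scaling -/

theorem vor_smul {H : Matrix ι ι ℝ} {t : ℝ} (ht : 0 < t) : Vor (t • H) = Vor H := by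
  ext v
  constructor
  · intro h z
    have := h z
    rw [qf_smul_left, smul_mulVec, dotProduct_smul, smul_eq_mul] at this
    nlinarith
  · intro h z
    have := h z
    rw [qf_smul_left, smul_mulVec, dotProduct_smul, smul_eq_mul]
    nlinarith

theorem Gam_smul {H : Matrix ι ι ℝ} {t : ℝ} (ht : 0 < t) (r : ℝ) :
    Gam (t • H) r = Gam H (r * Real.sqrt t) := by
  unfold Gam
  rw [vor_smul ht]
  congr 1
  funext v
  unfold gr
  rw [qf_smul_left, det_smul, mul_pow, mul_pow, Real.sq_sqrt ht.le, Real.sqrt_mul (by positivity)]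
  have h1 : Real.sqrt (t ^ Fintype.card ι) = Real.sqrt t ^ Fintype.card ι := by
    conv_lhs => rw [← Real.sq_sqrt ht.le, ← pow_mul, mul_comm 2, pow_mul]
    rw [Real.sqrt_sq (by positivity)]
  rw [h1]
  congr 1
  · ring
  · congr 1
    ring

theorem smul_vor_subset {H : Matrix ι ι ℝ} {s : ℝ} (hs : 0 < s) (hs1 : s ≤ 1) : s • Vor H ⊆ Vor H := by
  rintro _ ⟨v, hv, rfl⟩ z
  have h1 := hv z
  have h0 := hv (-z)
  simp only [QF.zc_neg, QF.neg, mulVec_neg, dotProduct_neg] at h0
  change 2 * ((s • v) ⬝ᵥ (H *ᵥ zc z)) ≤ _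
  rw [smul_dotProduct, smul_eq_mul]
  have h2 : 0 ≤ qf H (zc z) := by linarith
  nlinarith

theorem Gam_mono {H : Matrix ι ι ℝ} (hH : H.PosDef) {r s : ℝ} (hr : 0 < r) (hs : 0 < s) (hs1 : s ≤ 1) :
    Gam H (r * s) ≤ Gam H r := by
  have h1 : Gam H (r * s) = ∫ v in s • Vor H, gr H r v := by
    have h2 := Measure.setIntegral_comp_smul_of_pos volume (gr H r) (Vor H) hs
    rw [Module.finrank_fintype_fun_eq_card, smul_eq_mul] at h2
    have h3 : ∫ v in s • Vor H, gr H r v = s ^ Fintype.card ι * ∫ v in Vor H, gr H r (s • v) := by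
      rw [h2, ← mul_assoc, mul_inv_cancel₀ (by positivity), one_mul]
    rw [h3, ← integral_const_mul]
    unfold Gam
    congr 1
    funext v
    unfold gr
    rw [QF.smul]
    have : -Real.pi * r ^ 2 * (s ^ 2 * qf H v) = -Real.pi * (r * s) ^ 2 * qf H v := by ring
    rw [this]
    ring
  rw [h1]
  unfold Gam
  apply setIntegral_mono_set (gr_integrable hH hr).1.integrableOn
  · exact Eventually.of_forall fun v => (gr_pos hH hr v).le
  · exact (smul_vor_subset hs hs1).eventuallyLE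

end GAM3

open GAM3 in
/-- BLOCK GAM3 -/
theorem stmt_GAM3 : Stmt_GAM3 := by
  intro ι κ _ _ _ _ H hH r hr
  obtain ⟨hi, h1⟩ := gr_integrable hH hr
  refine ⟨fun U hU => ⟨LatAux.gram_posDef hH (LatAux.unimod_fullRank hU), LatAux.gram_det_unimod H hU, Gam_gram hU r⟩,
    fun t ht ht1 => ?_, ⟨?_, ?_⟩, fun hmin => ?_⟩
  · rw [Gam_smul ht]
    exact Gam_mono hH hr (Real.sqrt_pos.mpr ht) (Real.sqrt_le_one.mpr ht1)
  · exact integral_nonneg fun v => (gr_pos hH hr v).le
  · rw [← h1]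
    exact setIntegral_le_integral hi (Eventually.of_forall fun v => (gr_pos hH hr v).le)
  · obtain ⟨B, hB, hHB⟩ := GB.exists_factor H hH
    have hBr : IsUnit (r • B).det := by
      rw [det_smul]
      exact isUnit_iff_ne_zero.mpr (mul_ne_zero (by positivity) hB.ne_zero)
    have e1 : ∀ v, gr H r v = gH ((r • B)ᵀ * (r • B)) v := by
      intro v
      have h2 : (r • B)ᵀ * (r • B) = (r ^ 2) • H := by
        rw [transpose_smul, Matrix.smul_mul, Matrix.mul_smul, smul_smul, ← hHB, sq]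
      rw [h2]
      exact gr_eq_gH hr v
    have hms : MeasurableSet {v : ι → ℝ | qf H v ≤ 1 / 4} := measurableSet_le (QF.continuous H).measurable measurable_const
    have hmd : MeasurableSet {x : ι → ℝ | x ⬝ᵥ x ≤ r ^ 2 / 4} :=
      measurableSet_le (Continuous.dotProduct continuous_id continuous_id).measurable measurable_const
    have hcv := GB.change (r • B) hBr ({v : ι → ℝ | qf H v ≤ 1 / 4}.indicator (fun _ => 1))
    have h3 : ∀ x : ι → ℝ, qf H ((r • B)⁻¹ *ᵥ x) = (x ⬝ᵥ x) / r ^ 2 := by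
      intro x
      have h4 : (r • B) *ᵥ ((r • B)⁻¹ *ᵥ x) = x := by
        rw [mulVec_mulVec, mul_nonsing_inv _ hBr, one_mulVec]
      have h5 : B *ᵥ ((r • B)⁻¹ *ᵥ x) = r⁻¹ • x := by
        rw [smul_mulVec] at h4
        have h6 := congrArg (fun y => r⁻¹ • y) h4
        simp only [smul_smul, inv_mul_cancel₀ hr.ne', one_smul] at h6
        exact h6
      rw [hHB, GB.qf_mul, h5, smul_dotProduct, dotProduct_smul, smul_eq_mul, smul_eq_mul]
      field_simp
    have hle : ∫ x in {x : ι → ℝ | x ⬝ᵥ x ≤ r ^ 2 / 4}, gd x = ∫ v in {v : ι → ℝ | qf H v ≤ 1 / 4}, gr H r v := by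
      rw [← integral_indicator hmd, ← integral_indicator hms]
      have e3 : (fun v => {v : ι → ℝ | qf H v ≤ 1 / 4}.indicator (fun _ => (1:ℝ)) v * gH ((r • B)ᵀ * (r • B)) v) =
          {v : ι → ℝ | qf H v ≤ 1 / 4}.indicator (gr H r) := by
        funext v
        by_cases hv : qf H v ≤ 1 / 4
        · rw [Set.indicator_of_mem (show v ∈ {v : ι → ℝ | qf H v ≤ 1 / 4} from hv),
            Set.indicator_of_mem (show v ∈ {v : ι → ℝ | qf H v ≤ 1 / 4} from hv), one_mul, e1]
        · rw [Set.indicator_of_notMem (show v ∉ {v : ι → ℝ | qf H v ≤ 1 / 4} from hv),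
            Set.indicator_of_notMem (show v ∉ {v : ι → ℝ | qf H v ≤ 1 / 4} from hv), zero_mul]
      rw [e3] at hcv
      rw [hcv]
      congr 1
      funext x
      have h6 : (r • B)⁻¹ *ᵥ x ∈ {v : ι → ℝ | qf H v ≤ 1 / 4} ↔ x ∈ {x : ι → ℝ | x ⬝ᵥ x ≤ r ^ 2 / 4} := by
        change qf H ((r • B)⁻¹ *ᵥ x) ≤ 1 / 4 ↔ x ⬝ᵥ x ≤ r ^ 2 / 4
        rw [h3, div_le_iff₀ (by positivity)]
        constructor <;> intro h <;> linarith
      by_cases hx : x ∈ {x : ι → ℝ | x ⬝ᵥ x ≤ r ^ 2 / 4}
      · rw [Set.indicator_of_mem hx, Set.indicator_of_mem (h6.mpr hx), one_mul]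
      · rw [Set.indicator_of_notMem hx, Set.indicator_of_notMem (fun h => hx (h6.mp h)), zero_mul]
    rw [hle]
    unfold Gam
    apply setIntegral_mono_set hi.integrableOn
    · exact Eventually.of_forall fun v => (gr_pos hH hr v).le
    · have : {v : ι → ℝ | qf H v ≤ 1 / 4} ⊆ Vor H := fun v hv => VOR.small_mem hH hmin hv
      exact this.eventuallyLE

end Pool.Agent.Work.MP_b10815_co_flt
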