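import Mathlib
import Pool.Agent.Work.MP_b10815_co_flt.Interface
import Pool.Agent.Work.MP_b10815_co_flt.QF
import Pool.Agent.Work.MP_b10815_co_flt.DHC
import Pool.Agent.Work.MP_b10815_co_flt.VOR

/-!
# Block GAM5: continuity of the Gaussian mass of the Voronoi cell
-/

set_option autoImplicit false

namespace Pool.Agent.Work.MP_b10815_co_flt

open MeasureTheory Matrix Filter Topology

namespace GAM5

variable {n : ℕ}

/-- the sum of the absolute values of the entries of `H - H0` -/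
noncomputable def sd (H H0 : Matrix (Fin n) (Fin n) ℝ) : ℝ := ∑ i, ∑ j, |H i j - H0 i j|

theorem sd_continuous (H0 : Matrix (Fin n) (Fin n) ℝ) : Continuous fun H => sd H H0 := by
  unfold sd
  fun_prop

theorem sd_self (H0 : Matrix (Fin n) (Fin n) ℝ) : sd H0 H0 = 0 := by
  unfold sd
  simp

theorem sd_nonneg (H H0 : Matrix (Fin n) (Fin n) ℝ) : 0 ≤ sd H H0 :=
  Finset.sum_nonneg fun _ _ => Finset.sum_nonneg fun _ _ => abs_nonneg _

theorem abs_qf_sub (H H0 : Matrix (Fin n) (Fin n) ℝ) (v : Fin n → ℝ) :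
    |qf H v - qf H0 v| ≤ sd H H0 * (v ⬝ᵥ v) := by
  have h1 : qf H v - qf H0 v = ∑ i, ∑ j, v i * ((H i j - H0 i j) * v j) := by
    unfold qf mulVec dotProduct
    rw [← Finset.sum_sub_distrib]
    apply Finset.sum_congr rfl
    intro i _
    rw [← mul_sub, ← Finset.sum_sub_distrib, Finset.mul_sum]
    apply Finset.sum_congr rfl
    intro j _
    ring
  rw [h1]
  unfold sd
  rw [Finset.sum_mul]
  refine (Finset.abs_sum_le_sum_abs _ _).trans (Finset.sum_le_sum fun i _ => ?_)
  rw [Finset.sum_mul]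
  refine (Finset.abs_sum_le_sum_abs _ _).trans (Finset.sum_le_sum fun j _ => ?_)
  rw [abs_mul, abs_mul]
  have h2 := QF.sq_le_dot v i
  have h3 := QF.sq_le_dot v j
  have h4 : |v i| * |v j| ≤ v ⬝ᵥ v := by
    nlinarith [sq_abs (v i), sq_abs (v j), sq_nonneg (|v i| - |v j|)]
  calc |v i| * (|H i j - H0 i j| * |v j|) = |H i j - H0 i j| * (|v i| * |v j|) := by ring
    _ ≤ _ := mul_le_mul_of_nonneg_left h4 (abs_nonneg _)

theorem dH_close {H H0 : Matrix (Fin n) (Fin n) ℝ} (hH : H.PosDef) (hH0 : H0.PosDef) {c : ℝ} (hc : 0 < c)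
    (hcH : ∀ v, c * (v ⬝ᵥ v) ≤ qf H0 v) (hs : sd H H0 ≤ c) (u : Fin n → ℝ) :
    |dH H u - dH H0 u| ≤ sd H H0 / c * dH H0 u := by
  have hs0 := sd_nonneg H H0
  have key : ∀ v, |qf H v - qf H0 v| ≤ sd H H0 / c * qf H0 v := by
    intro v
    refine (abs_qf_sub H H0 v).trans ?_
    rw [div_mul_eq_mul_div, le_div_iff₀ hc]
    nlinarith [mul_le_mul_of_nonneg_left (hcH v) hs0]
  have hsc : sd H H0 / c ≤ 1 := by rwa [div_le_one hc]
  have hsc0 : 0 ≤ sd H H0 / c := by positivity
  rw [abs_sub_le_iff]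
  constructor
  · obtain ⟨z, hz⟩ := DHC.attained hH0 u
    have h1 := DHC.le hH u z
    have h2 := (abs_le.mp (key (u - zc z))).2
    rw [hz]
    rw [hz] at *
    linarith
  · obtain ⟨z, hz⟩ := DHC.attained hH u
    have h1 := DHC.le hH0 u z
    have h2 := (abs_le.mp (key (u - zc z))).1
    have h3 := DHC.nonneg hH0 u
    rw [hz]
    have h4 : (1 - sd H H0 / c) * dH H0 u ≤ (1 - sd H H0 / c) * qf H0 (u - zc z) :=
      mul_le_mul_of_nonneg_left h1 (by linarith)
    nlinarith

/-- the Gaussian mass as an integral over the cube -/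
theorem Gam_cube {H : Matrix (Fin n) (Fin n) ℝ} (hH : H.PosDef) (r : ℝ) :
    Gam H r = ∫ u in cube (Fin n), r ^ n * Real.sqrt H.det * Real.exp (-Real.pi * r ^ 2 * dH H u) := by
  obtain ⟨-, -, -, -, -, h1, -, -, h2, -⟩ := stmt_VOR (Fin n) H hH
  have hc := DHC.continuous hH
  rw [← h2 (fun u => r ^ n * Real.sqrt H.det * Real.exp (-Real.pi * r ^ 2 * dH H u)) (by fun_prop)
    (fun u z => by rw [DHC.periodic])]
  unfold Gam
  apply setIntegral_congr_fun (VOR.closed H).measurableSet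
  intro v hv
  simp only [gr, Fintype.card_fin]
  rw [h1 v hv]

end GAM5

open GAM5 in
/-- BLOCK GAM5 -/
theorem stmt_GAM5 : Stmt_GAM5 := by
  intro n
  have hcongr : ∀ p ∈ {p : Matrix (Fin n) (Fin n) ℝ × ℝ | p.1.PosDef ∧ 0 < p.2}, Gam p.1 p.2 =
      ∫ u in cube (Fin n), p.2 ^ n * Real.sqrt p.1.det * Real.exp (-Real.pi * p.2 ^ 2 * dH p.1 u) :=
    fun p hp => Gam_cube hp.1 p.2
  refine ContinuousOn.congr ?_ hcongr
  rintro ⟨H0, r0⟩ ⟨hH0, hr0⟩
  change H0.PosDef at hH0
  change 0 < r0 at hr0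
  obtain ⟨c, hc, hcH⟩ := QF.coercive hH0
  have hcont : Continuous fun p : Matrix (Fin n) (Fin n) ℝ × ℝ => p.2 ^ n * Real.sqrt p.1.det := by
    have : Continuous fun p : Matrix (Fin n) (Fin n) ℝ × ℝ => p.1.det := continuous_fst.matrix_det
    fun_prop
  have hfin : volume (cube (Fin n)) < ⊤ := by
    have h1 := VOR.volume_cube (ι := Fin n)
    by_contra h
    have h2 : volume (cube (Fin n)) = ⊤ := by simpa using h
    rw [Measure.real, h2] at h1
    simp at h1
  set s0 := {p : Matrix (Fin n) (Fin n) ℝ × ℝ | p.1.PosDef ∧ 0 < p.2} with hs0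
  have : FirstCountableTopology (Matrix (Fin n) (Fin n) ℝ) :=
    inferInstanceAs (FirstCountableTopology (Fin n → Fin n → ℝ))
  refine continuousWithinAt_of_dominated (μ := volume.restrict (cube (Fin n))) (s := s0) (x₀ := (H0, r0))
    (F := fun p u => p.2 ^ n * Real.sqrt p.1.det * Real.exp (-Real.pi * p.2 ^ 2 * dH p.1 u))
    (bound := fun _ => r0 ^ n * Real.sqrt H0.det + 1) ?_ ?_ ?_ ?_
  · filter_upwards [self_mem_nhdsWithin] with p hp
    have h1 := DHC.continuous hp.1
    exact (by fun_prop : Continuous fun u => p.2 ^ n * Real.sqrt p.1.det *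
      Real.exp (-Real.pi * p.2 ^ 2 * dH p.1 u)).aestronglyMeasurable
  · have h1 : ∀ᶠ p in 𝓝[s0] (H0, r0), p.2 ^ n * Real.sqrt p.1.det < r0 ^ n * Real.sqrt H0.det + 1 :=
      ((hcont.tendsto (H0, r0)).mono_left nhdsWithin_le_nhds).eventually (gt_mem_nhds (by simp))
    filter_upwards [h1, self_mem_nhdsWithin] with p hp1 hp
    refine Eventually.of_forall fun u => ?_
    have hp2 : 0 < p.2 := hp.2
    have h3 : 0 ≤ p.2 ^ n * Real.sqrt p.1.det := by positivity
    rw [Real.norm_of_nonneg (by positivity)]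
    refine le_trans ?_ hp1.le
    apply mul_le_of_le_one_right h3
    rw [Real.exp_le_one_iff]
    have h4 := DHC.nonneg hp.1 u
    have : 0 ≤ Real.pi * p.2 ^ 2 * dH p.1 u := by positivity
    linarith
  · rw [← IntegrableOn, integrableOn_const_iff]
    exact Or.inr hfin
  · refine Eventually.of_forall fun u => ?_
    have hd : ContinuousWithinAt (fun p : Matrix (Fin n) (Fin n) ℝ × ℝ => dH p.1 u) s0 (H0, r0) := by
      unfold ContinuousWithinAt
      rw [tendsto_iff_norm_sub_tendsto_zero]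
      have hsd : Tendsto (fun p : Matrix (Fin n) (Fin n) ℝ × ℝ => sd p.1 H0) (𝓝[s0] (H0, r0)) (𝓝 0) := by
        have h1 := ((sd_continuous H0).comp continuous_fst).tendsto ((H0, r0) : Matrix (Fin n) (Fin n) ℝ × ℝ)
        simp only [Function.comp, sd_self] at h1
        exact h1.mono_left nhdsWithin_le_nhds
      have hlim : Tendsto (fun p : Matrix (Fin n) (Fin n) ℝ × ℝ => sd p.1 H0 / c * dH H0 u) (𝓝[s0] (H0, r0)) (𝓝 0) := by
        have := (hsd.div_const c).mul_const (dH H0 u)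
        simpa using this
      refine squeeze_zero' (Eventually.of_forall fun p => norm_nonneg _) ?_ hlim
      filter_upwards [hsd.eventually (gt_mem_nhds hc), self_mem_nhdsWithin] with p h1 hp
      rw [Real.norm_eq_abs]
      exact dH_close hp.1 hH0 hc hcH h1.le u
    have h1 : ContinuousWithinAt (fun p : Matrix (Fin n) (Fin n) ℝ × ℝ => p.2 ^ n * Real.sqrt p.1.det) s0 (H0, r0) :=
      hcont.continuousWithinAt
    have h2 : ContinuousWithinAt (fun p : Matrix (Fin n) (Fin n) ℝ × ℝ => -Real.pi * p.2 ^ 2) s0 (H0, r0) :=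
      (by fun_prop : Continuous fun p : Matrix (Fin n) (Fin n) ℝ × ℝ => -Real.pi * p.2 ^ 2).continuousWithinAt
    exact h1.mul (Real.continuous_exp.continuousAt.comp_continuousWithinAt (h2.mul hd))

end Pool.Agent.Work.MP_b10815_co_flt
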