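import Pool.Agent.Work.MP_b10815_co_flt.GR
set_option autoImplicit false
set_option linter.unusedSectionVars false

/-!
# Derivative of `Gam` in `r` (block GAM7)
-/

namespace Pool.Agent.Work.MP_b10815_co_flt

open MeasureTheory Matrix

/-- GAM7. -/
theorem stmt_GAM7 : Stmt_GAM7 := by
  intro n H hH r hr
  set D := √H.det with hD
  set F' : ℝ → (Fin n → ℝ) → ℝ := fun s v =>
    (n * s ^ (n - 1)) * D * Real.exp (-Real.pi * s ^ 2 * qf H v) +
      s ^ n * D * (Real.exp (-Real.pi * s ^ 2 * qf H v) * (-Real.pi * (2 * s) * qf H v)) with hF'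
  have hqc := QF.continuous H
  have hcont : Continuous fun p : ℝ × (Fin n → ℝ) => F' p.1 p.2 := by
    rw [hF']
    fun_prop
  obtain ⟨K, hK⟩ := (isCompact_Icc (a := r / 2) (b := 2 * r)).prod (VOR.compact hH)
    |>.exists_bound_of_continuousOn (f := fun p : ℝ × (Fin n → ℝ) => F' p.1 p.2)
      hcont.continuousOn
  have hderiv : ∀ (v : Fin n → ℝ) (s : ℝ), HasDerivAt (fun s => gr H s v) (F' s v) s := by
    intro v s
    have h1 : HasDerivAt (fun s : ℝ => s ^ n) (n * s ^ (n - 1)) s := by
      simpa using hasDerivAt_pow n s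
    have h2 : HasDerivAt (fun s : ℝ => -Real.pi * s ^ 2 * qf H v)
        (-Real.pi * (2 * s) * qf H v) s := by
      have h3 : HasDerivAt (fun s : ℝ => s ^ 2) (2 * s) s := by
        simpa using hasDerivAt_pow 2 s
      exact (h3.const_mul (-Real.pi)).mul_const (qf H v)
    have h3 := (h1.mul_const D).mul h2.exp
    have h4 : (fun s => gr H s v) = fun s => (s ^ n * D) * Real.exp (-Real.pi * s ^ 2 * qf H v) := by
      funext s
      unfold gr
      rw [Fintype.card_fin]
    rw [h4]
    exact h3
  have hmem : Set.Icc (r / 2) (2 * r) ∈ nhds r := Icc_mem_nhds (by linarith) (by linarith)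
  have hfin : volume (Vor H) < ⊤ := (VOR.compact hH).measure_lt_top
  have hmain := hasDerivAt_integral_of_dominated_loc_of_deriv_le
    (μ := volume.restrict (Vor H)) (F := fun s v => gr H s v) (F' := F') (x₀ := r)
    (bound := fun _ => K) hmem
    (Filter.Eventually.of_forall fun s => (GR.continuous H s).aestronglyMeasurable)
    (GR.integrable hH hr).integrableOn
    (by
      have : Continuous (F' r) := hcont.comp (by fun_prop : Continuous fun v => (r, v))
      exact this.aestronglyMeasurable)
    (by
      rw [ae_restrict_iff' (VOR.closed H).measurableSet]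
      exact Filter.Eventually.of_forall fun v hv s hs => hK (s, v) ⟨hs, hv⟩)
    (by
      have : IsFiniteMeasure (volume.restrict (Vor H)) := ⟨by simpa using hfin⟩
      exact integrable_const K)
    (Filter.Eventually.of_forall fun v s _ => hderiv v s)
  have h5 : (∫ v in Vor H, F' r v) =
      r⁻¹ * ∫ v in Vor H, (n - 2 * Real.pi * r ^ 2 * qf H v) * gr H r v := by
    rw [← integral_const_mul]
    refine setIntegral_congr_fun (VOR.closed H).measurableSet fun v _ => ?_
    show F' r v = r⁻¹ * ((n - 2 * Real.pi * r ^ 2 * qf H v) * gr H r v)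
    rw [hF']
    unfold gr
    rw [Fintype.card_fin]
    have h6 : (n : ℝ) * r ^ (n - 1) = r⁻¹ * (n * r ^ n) := by
      rcases Nat.eq_zero_or_pos n with h | h
      · rw [h]; simp
      · obtain ⟨m, rfl⟩ : ∃ m, n = m + 1 := ⟨n - 1, by omega⟩
        rw [Nat.add_sub_cancel, pow_succ]
        field_simp
    show (n * r ^ (n - 1)) * D * Real.exp (-Real.pi * r ^ 2 * qf H v) +
      r ^ n * D * (Real.exp (-Real.pi * r ^ 2 * qf H v) * (-Real.pi * (2 * r) * qf H v)) = _
    rw [h6]
    field_simp
    ring
  rw [← h5]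
  exact hmain.2

end Pool.Agent.Work.MP_b10815_co_flt
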