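import Pool.Agent.Work.MP_b10815_co_flt.Interface
import Pool.Agent.Work.MP_b10815_co_flt.KC
set_option autoImplicit false

/-!
# MP_b10815_co_flt, block GCON: Gaussian averages against Rademacher averages
-/

namespace Pool.Agent.Work.MP_b10815_co_flt.GCON

open MeasureTheory Matrix Finset
open Pool.Agent.Work.MP_b10815_co_flt.KC (sum_prod N_sum_le N_smul)

section Signs

variable {n : ℕ}

lemma sgn_mul (a b : Bool) : sgn a * sgn b = sgn (a == b) := by
  cases a <;> cases b <;> simp [sgn]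

/-- product measure on the cube with means `y` -/
noncomputable def pw (y : Fin n → ℝ) (s : Fin n → Bool) : ℝ := ∏ i, (1 + y i * sgn (s i)) / 2

lemma pw_nonneg (y : Fin n → ℝ) (hy : ∀ i, |y i| ≤ 1) (s : Fin n → Bool) : 0 ≤ pw y s := by
  unfold pw
  refine Finset.prod_nonneg fun i _ => ?_
  have h := abs_le.mp (hy i)
  unfold sgn
  split_ifs <;> linarith

lemma pw_sum (y : Fin n → ℝ) : ∑ s, pw y s = 1 := by
  unfold pw
  rw [sum_prod (fun i b => (1 + y i * sgn b) / 2)]
  refine Finset.prod_eq_one fun i _ => ?_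
  simp only [sgn]
  norm_num
  ring

lemma pw_mean (y : Fin n → ℝ) (i : Fin n) : ∑ s, pw y s * sgn (s i) = y i := by
  have h : ∀ s : Fin n → Bool, pw y s * sgn (s i) =
      ∏ j, ((1 + y j * sgn (s j)) / 2 * (if j = i then sgn (s j) else 1)) := by
    intro s
    rw [Finset.prod_mul_distrib, Finset.prod_ite_eq']
    simp [pw]
  simp only [h]
  rw [sum_prod (fun j b => (1 + y j * sgn b) / 2 * (if j = i then sgn b else 1)),
    ← Finset.mul_prod_erase univ _ (mem_univ i)]
  rw [Finset.prod_eq_one (s := univ.erase i)]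
  · simp only [sgn]
    norm_num
    ring
  · intro j hj
    rw [if_neg (ne_of_mem_erase hj), if_neg (ne_of_mem_erase hj)]
    simp only [sgn]
    norm_num
    ring

lemma sign_avg (N : Seminorm ℝ (Fin n → ℝ)) (s : Fin n → Bool) :
    ∑ e : Fin n → Bool, N (fun i => sv e i * sv s i) = ∑ e, N (sv e) := by
  let σ : (Fin n → Bool) → (Fin n → Bool) := fun e i => (e i == s i)
  have hσ : Function.Involutive σ := by
    intro e
    funext i
    simp only [σ]
    cases e i <;> cases s i <;> rfl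
  refine Fintype.sum_bijective σ hσ.bijective _ _ fun e => ?_
  congr 1
  funext i
  exact sgn_mul _ _

lemma contraction (N : Seminorm ℝ (Fin n → ℝ)) (x : Fin n → ℝ) :
    ∑ e : Fin n → Bool, N (fun i => sv e i * x i) ≤ ‖x‖ * ∑ e, N (sv e) := by
  by_cases hx : x = 0
  · subst hx
    have : ∀ e : Fin n → Bool, N (fun i => sv e i * (0 : Fin n → ℝ) i) = 0 := by
      intro e
      have : (fun i => sv e i * (0 : Fin n → ℝ) i) = 0 := by
        funext i
        simp
      rw [this, map_zero]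
    simp only [this, norm_zero, zero_mul, Finset.sum_const_zero]
    exact le_refl _
  · have hpos : 0 < ‖x‖ := norm_pos_iff.mpr hx
    set y : Fin n → ℝ := fun i => x i / ‖x‖ with hy
    have hy1 : ∀ i, |y i| ≤ 1 := by
      intro i
      rw [hy]
      simp only
      rw [abs_div, abs_of_pos hpos, div_le_one hpos]
      exact norm_le_pi_norm x i
    have h1 : ∀ e : Fin n → Bool, N (fun i => sv e i * x i) ≤
        ‖x‖ * ∑ s, pw y s * N (fun i => sv e i * sv s i) := by
      intro e
      have h2 : (fun i => sv e i * x i) = ‖x‖ • ∑ s, pw y s • (fun i => sv e i * sv s i) := by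
        funext i
        simp only [Pi.smul_apply, Finset.sum_apply, smul_eq_mul]
        have h3 : ∑ s, pw y s * (sv e i * sv s i) = sv e i * ∑ s, pw y s * sgn (s i) := by
          rw [Finset.mul_sum]
          refine Finset.sum_congr rfl fun s _ => ?_
          unfold sv
          ring
        rw [h3, pw_mean, hy]
        field_simp
      rw [h2, N_smul, abs_of_pos hpos]
      refine mul_le_mul_of_nonneg_left ?_ hpos.le
      refine (N_sum_le N _ _).trans (Finset.sum_le_sum fun s _ => ?_)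
      rw [N_smul, abs_of_nonneg (pw_nonneg y hy1 s)]
    calc ∑ e : Fin n → Bool, N (fun i => sv e i * x i)
        ≤ ∑ e : Fin n → Bool, ‖x‖ * ∑ s, pw y s * N (fun i => sv e i * sv s i) :=
          Finset.sum_le_sum fun e _ => h1 e
      _ = ‖x‖ * ∑ s, pw y s * ∑ e : Fin n → Bool, N (fun i => sv e i * sv s i) := by
          rw [← Finset.mul_sum, Finset.sum_comm]
          congr 1
          refine Finset.sum_congr rfl fun s _ => ?_
          rw [Finset.mul_sum]
      _ = ‖x‖ * ∑ e, N (sv e) := by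
          simp only [sign_avg]
          rw [← Finset.sum_mul, pw_sum, one_mul]

end Signs

/-! ### the maximum of a Gaussian vector -/

lemma gd_prod {n : ℕ} (x : Fin n → ℝ) : gd x = ∏ j, Real.exp (-Real.pi * x j ^ 2) := by
  unfold gd
  rw [← Real.exp_sum]
  congr 1
  rw [dotProduct, Finset.mul_sum]
  refine Finset.sum_congr rfl fun j _ => ?_
  ring

lemma exp_prod {n : ℕ} (i : Fin n) (x : Fin n → ℝ) :
    Real.exp (Real.pi / 2 * x i ^ 2) * gd x =
      ∏ j, (if j = i then Real.exp (-(Real.pi / 2) * x j ^ 2)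
        else Real.exp (-Real.pi * x j ^ 2)) := by
  rw [gd_prod, ← Finset.mul_prod_erase univ _ (mem_univ i),
    ← Finset.mul_prod_erase univ (fun j => if j = i then Real.exp (-(Real.pi / 2) * x j ^ 2)
        else Real.exp (-Real.pi * x j ^ 2)) (mem_univ i), if_pos rfl, ← mul_assoc,
    ← Real.exp_add]
  congr 1
  · congr 1
    ring
  · refine Finset.prod_congr rfl fun j hj => ?_
    rw [if_neg (ne_of_mem_erase hj)]

lemma exp_int {n : ℕ} (i : Fin n) :
    Integrable (fun x : Fin n → ℝ => Real.exp (Real.pi / 2 * x i ^ 2) * gd x) ∧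
    ∫ x : Fin n → ℝ, Real.exp (Real.pi / 2 * x i ^ 2) * gd x = Real.sqrt 2 := by
  have hpi := Real.pi_pos
  simp only [exp_prod]
  set F : Fin n → ℝ → ℝ := fun j t => if j = i then Real.exp (-(Real.pi / 2) * t ^ 2)
        else Real.exp (-Real.pi * t ^ 2) with hF
  have hFint : ∀ j, Integrable (F j) := by
    intro j
    rw [hF]
    by_cases hj : j = i
    · simp only [if_pos hj]
      exact integrable_exp_neg_mul_sq (by positivity)
    · simp only [if_neg hj]
      exact integrable_exp_neg_mul_sq hpi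
  constructor
  · exact Integrable.fintype_prod (f := F) hFint
  · have h1 := integral_fintype_prod_volume_eq_prod (𝕜 := ℝ) (ι := Fin n) (E := fun _ => ℝ) F
    refine h1.trans ?_
    rw [← Finset.mul_prod_erase univ _ (mem_univ i), Finset.prod_eq_one (s := univ.erase i)]
    · rw [hF, mul_one]
      simp only [if_true]
      rw [integral_gaussian]
      congr 1
      field_simp
    · intro j hj
      rw [hF]
      simp only [if_neg (ne_of_mem_erase hj)]
      rw [integral_gaussian, div_self hpi.ne', Real.sqrt_one]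

lemma max_pt {n : ℕ} (hn : 1 ≤ n) (x : Fin n → ℝ) (a L : ℝ) (ha : 0 < a) (hL : 0 < L) :
    ‖x‖ ≤ a / 2 + (Real.pi * a)⁻¹ * (Real.log L - 1) +
      (Real.pi * a)⁻¹ * L⁻¹ * ∑ i, Real.exp (Real.pi / 2 * x i ^ 2) := by
  have hpi := Real.pi_pos
  have : Nonempty (Fin n) := ⟨⟨0, hn⟩⟩
  obtain ⟨i, hi⟩ : ∃ i, ‖x i‖ = ‖x‖ := by
    obtain ⟨i, hi⟩ := Finite.exists_max (fun i => ‖x i‖)
    exact ⟨i, le_antisymm (norm_le_pi_norm x i)
      ((pi_norm_le_iff_of_nonneg (norm_nonneg _)).mpr hi)⟩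
  have hsum : Real.exp (Real.pi / 2 * ‖x‖ ^ 2) ≤ ∑ i, Real.exp (Real.pi / 2 * x i ^ 2) := by
    have h1 : Real.exp (Real.pi / 2 * ‖x‖ ^ 2) = Real.exp (Real.pi / 2 * x i ^ 2) := by
      rw [← hi, Real.norm_eq_abs, sq_abs]
    rw [h1]
    exact Finset.single_le_sum (f := fun i => Real.exp (Real.pi / 2 * x i ^ 2))
      (fun _ _ => (Real.exp_pos _).le) (mem_univ i)
  have hu : Real.pi / 2 * ‖x‖ ^ 2 ≤ Real.log L - 1 +
      L⁻¹ * Real.exp (Real.pi / 2 * ‖x‖ ^ 2) := by
    have h2 := Real.add_one_le_exp (Real.pi / 2 * ‖x‖ ^ 2 - Real.log L)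
    rw [Real.exp_sub, Real.exp_log hL] at h2
    have h2' : Real.exp (Real.pi / 2 * ‖x‖ ^ 2) / L = L⁻¹ * Real.exp (Real.pi / 2 * ‖x‖ ^ 2) :=
      div_eq_inv_mul _ _
    rw [h2'] at h2
    linarith
  have hu2 : Real.pi / 2 * ‖x‖ ^ 2 ≤ Real.log L - 1 +
      L⁻¹ * ∑ i, Real.exp (Real.pi / 2 * x i ^ 2) :=
    hu.trans (by
      have := mul_le_mul_of_nonneg_left hsum (inv_pos.mpr hL).le
      linarith)
  have h3 : ‖x‖ ≤ a / 2 + (Real.pi * a)⁻¹ * (Real.pi / 2 * ‖x‖ ^ 2) := by
    have h4 : (Real.pi * a)⁻¹ * (Real.pi / 2 * ‖x‖ ^ 2) = ‖x‖ ^ 2 / (2 * a) := by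
      field_simp
    rw [h4]
    have h5 : a / 2 + ‖x‖ ^ 2 / (2 * a) - ‖x‖ = (a - ‖x‖) ^ 2 / (2 * a) := by
      field_simp
      ring
    have h6 : 0 ≤ (a - ‖x‖) ^ 2 / (2 * a) := by positivity
    linarith
  have h7 := mul_le_mul_of_nonneg_left hu2 (by positivity : 0 ≤ (Real.pi * a)⁻¹)
  calc ‖x‖ ≤ a / 2 + (Real.pi * a)⁻¹ * (Real.pi / 2 * ‖x‖ ^ 2) := h3
    _ ≤ a / 2 + (Real.pi * a)⁻¹ * (Real.log L - 1 +
          L⁻¹ * ∑ i, Real.exp (Real.pi / 2 * x i ^ 2)) := by linarith
    _ = _ := by ring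

lemma max_int (hGB : Stmt_GB1) {n : ℕ} (hn : 1 ≤ n) :
    ∫ x : Fin n → ℝ, ‖x‖ * gd x ≤ 2 * Real.sqrt (Real.log (n + 1)) := by
  have hpi := Real.pi_pos
  obtain ⟨⟨hgi, hg1⟩, -, -, -, -, -, hNi⟩ := hGB (Fin n)
  have hnpos : (1 : ℝ) ≤ n := by exact_mod_cast hn
  have hlogpos : 0 < Real.log (n + 1) := Real.log_pos (by linarith)
  set a : ℝ := Real.sqrt (Real.log (n + 1)) with ha
  have ha0 : 0 < a := Real.sqrt_pos.mpr hlogpos
  have ha2 : a ^ 2 = Real.log (n + 1) := Real.sq_sqrt hlogpos.le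
  set L : ℝ := n * Real.sqrt 2 with hL
  have hs2 : 0 < Real.sqrt 2 := by positivity
  have hL0 : 0 < L := by positivity
  have hint1 : Integrable (fun x : Fin n → ℝ => ‖x‖ * gd x) := hNi (normSeminorm ℝ (Fin n → ℝ))
  have hint2 : Integrable (fun x : Fin n → ℝ =>
      (a / 2 + (Real.pi * a)⁻¹ * (Real.log L - 1)) * gd x +
      (Real.pi * a)⁻¹ * L⁻¹ * ∑ i, Real.exp (Real.pi / 2 * x i ^ 2) * gd x) :=
    (hgi.const_mul _).add ((integrable_finsetSum _ fun i _ => (exp_int i).1).const_mul _)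
  calc ∫ x : Fin n → ℝ, ‖x‖ * gd x
      ≤ ∫ x : Fin n → ℝ, ((a / 2 + (Real.pi * a)⁻¹ * (Real.log L - 1)) * gd x +
      (Real.pi * a)⁻¹ * L⁻¹ * ∑ i, Real.exp (Real.pi / 2 * x i ^ 2) * gd x) := by
        refine integral_mono hint1 hint2 fun x => ?_
        have hgx : 0 ≤ gd x := (Real.exp_pos _).le
        have h1 := mul_le_mul_of_nonneg_right (max_pt hn x a L ha0 hL0) hgx
        refine h1.trans (le_of_eq ?_)
        rw [← Finset.sum_mul]
        ring
    _ = (a / 2 + (Real.pi * a)⁻¹ * (Real.log L - 1)) +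
        (Real.pi * a)⁻¹ * L⁻¹ * (n * Real.sqrt 2) := by
        rw [integral_add (hgi.const_mul _)
          ((integrable_finsetSum _ fun i _ => (exp_int i).1).const_mul _),
          integral_const_mul, integral_const_mul, hg1,
          integral_finsetSum _ (fun i _ => (exp_int i).1)]
        simp only [(exp_int _).2, Finset.sum_const, card_univ, Fintype.card_fin, nsmul_eq_mul,
          mul_one]
    _ = a / 2 + (Real.pi * a)⁻¹ * Real.log L := by
        rw [← hL, mul_assoc (Real.pi * a)⁻¹ L⁻¹ L, inv_mul_cancel₀ hL0.ne']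
        ring
    _ ≤ a / 2 + (Real.pi * a)⁻¹ * (2 * a ^ 2) := by
        have h1 : Real.log L ≤ 2 * a ^ 2 := by
          rw [hL, Real.log_mul (by positivity) hs2.ne', ha2, Real.log_sqrt (by norm_num)]
          have h2 : Real.log n ≤ Real.log (n + 1) := Real.log_le_log (by linarith) (by linarith)
          have h3 : Real.log 2 ≤ Real.log (n + 1) := Real.log_le_log (by norm_num) (by linarith)
          have h4 : 0 < Real.log 2 := Real.log_pos (by norm_num)
          linarith
        have := mul_le_mul_of_nonneg_left h1 (by positivity : 0 ≤ (Real.pi * a)⁻¹)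
        linarith
    _ = (1 / 2 + 2 / Real.pi) * a := by
        field_simp
    _ ≤ 2 * a := by
        refine mul_le_mul_of_nonneg_right ?_ ha0.le
        have h3 : 2 / Real.pi ≤ 2 / 3 := by
          refine div_le_div_of_nonneg_left (by norm_num) (by norm_num) ?_
          exact Real.pi_gt_three.le
        linarith

/-! ### the theorem -/

lemma flip_int (hGB : Stmt_GB1) {n : ℕ} (N : Seminorm ℝ (Fin n → ℝ)) (e : Fin n → Bool) :
    Integrable (fun x : Fin n → ℝ => N (fun i => sv e i * x i) * gd x) ∧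
    ∫ x : Fin n → ℝ, N (fun i => sv e i * x i) * gd x = ∫ x, N x * gd x := by
  obtain ⟨-, -, hcv, -, -, -, hNi⟩ := hGB (Fin n)
  have hsv : ∀ i, sv e i * sv e i = 1 := fun i => KC.sgn_sq _
  set B : Matrix (Fin n) (Fin n) ℝ := diagonal (sv e) with hB
  have hBB : B * B = 1 := by
    rw [hB, diagonal_mul_diagonal, ← diagonal_one]
    congr 1
    funext i
    exact hsv i
  have hBt : Bᵀ = B := by rw [hB, diagonal_transpose]
  have hdet : IsUnit B.det := by
    have : B.det * B.det = 1 := by rw [← det_mul, hBB, det_one]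
    exact IsUnit.of_mul_eq_one _ this
  have hinv : B⁻¹ = B := inv_eq_right_inv hBB
  have hmv : ∀ x : Fin n → ℝ, B *ᵥ x = fun i => sv e i * x i := by
    intro x
    funext i
    rw [hB, mulVec_diagonal]
  constructor
  · have h1 := hNi (N.comp (Matrix.mulVecLin B))
    refine h1.congr (Filter.Eventually.of_forall fun x => ?_)
    simp only [Seminorm.comp_apply, Matrix.mulVecLin_apply]
    rw [hmv]
  · have h1 := hcv B hdet (fun v => N v)
    have h2 := hcv 1 (by simp) (fun v => N v)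
    rw [hBt, hBB, hinv] at h1
    rw [transpose_one, one_mul, inv_one] at h2
    rw [h1] at h2
    simp only [one_mulVec, hmv] at h2
    exact h2

theorem stmt_GCON (hGB : Stmt_GB1) : Stmt_GCON := by
  refine ⟨2, by norm_num, fun n hn N => ?_⟩
  have hp : (0 : ℝ) < 2 ^ n := by positivity
  obtain ⟨-, -, -, -, -, -, hNi⟩ := hGB (Fin n)
  have hS : ∑ e : Fin n → Bool, ∫ x : Fin n → ℝ, N (fun i => sv e i * x i) * gd x =
      2 ^ n * ∫ x, N x * gd x := by
    simp only [(flip_int hGB N _).2, Finset.sum_const, card_univ, nsmul_eq_mul,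
      Fintype.card_pi, Fintype.card_bool, Finset.prod_const, Fintype.card_fin]
    push_cast
    rfl
  have hint1 : Integrable (fun x : Fin n → ℝ => ‖x‖ * gd x) := hNi (normSeminorm ℝ (Fin n → ℝ))
  have h1 : 2 ^ n * ∫ x, N x * gd x ≤ (∑ e, N (sv e)) * ∫ x : Fin n → ℝ, ‖x‖ * gd x := by
    rw [← hS, ← integral_finsetSum _ (fun e _ => (flip_int hGB N e).1), ← integral_const_mul]
    refine integral_mono (integrable_finsetSum _ (fun e _ => (flip_int hGB N e).1))
      (hint1.const_mul _) fun x => ?_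
    have hgx : 0 ≤ gd x := (Real.exp_pos _).le
    have h2 := mul_le_mul_of_nonneg_right (contraction N x) hgx
    simp only
    rw [← Finset.sum_mul]
    refine h2.trans (le_of_eq ?_)
    ring
  have hS0 : 0 ≤ ∑ e, N (sv e) := Finset.sum_nonneg fun _ _ => apply_nonneg _ _
  have h3 := mul_le_mul_of_nonneg_left (max_int hGB hn) hS0
  have h4 : ∫ x, N x * gd x ≤ (∑ e, N (sv e)) * (2 * Real.sqrt (Real.log (n + 1))) / 2 ^ n := by
    rw [le_div_iff₀ hp, mul_comm]
    exact h1.trans h3
  refine h4.trans (le_of_eq ?_)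
  unfold avg
  rw [Fintype.card_fin]
  ring

end Pool.Agent.Work.MP_b10815_co_flt.GCON
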