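import Pool.Agent.Work.MP_b10815_co_flt.VOR
import Pool.Agent.Work.MP_b10815_co_flt.GB1
set_option autoImplicit false
set_option linter.unusedSectionVars false

/-!
# Basic facts about the Gaussian density `gr` and `Gam`
-/

namespace Pool.Agent.Work.MP_b10815_co_flt

open MeasureTheory Matrix
open scoped Pointwise

namespace GR

variable {ι κ : Type} [Fintype ι] [Fintype κ] [DecidableEq ι] [DecidableEq κ]

theorem smul_posDef {H : Matrix ι ι ℝ} (hH : H.PosDef) {a : ℝ} (ha : 0 < a) : (a • H).PosDef :=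
  hH.smul ha

theorem qf_smul_mat (H : Matrix ι ι ℝ) (a : ℝ) (v : ι → ℝ) : qf (a • H) v = a * qf H v := by
  unfold qf
  rw [smul_mulVec, dotProduct_smul, smul_eq_mul]

theorem gr_eq (H : Matrix ι ι ℝ) {r : ℝ} (hr : 0 < r) (v : ι → ℝ) :
    gr H r v = gH (r ^ 2 • H) v := by
  unfold gr gH
  rw [qf_smul_mat, det_smul]
  have h1 : Real.sqrt ((r ^ 2) ^ Fintype.card ι * H.det) =
      r ^ Fintype.card ι * Real.sqrt H.det := by
    rw [← pow_mul, mul_comm 2, pow_mul, Real.sqrt_mul (by positivity), Real.sqrt_sq (by positivity)]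
  rw [h1]
  congr 2
  ring

theorem integrable {H : Matrix ι ι ℝ} (hH : H.PosDef) {r : ℝ} (hr : 0 < r) :
    Integrable (gr H r) := by
  have h1 : gr H r = gH (r ^ 2 • H) := by funext v; exact gr_eq H hr v
  rw [h1]
  exact (GB.integrable_gH _ (smul_posDef hH (by positivity))).1

theorem integral {H : Matrix ι ι ℝ} (hH : H.PosDef) {r : ℝ} (hr : 0 < r) :
    ∫ v, gr H r v = 1 := by
  have h1 : gr H r = gH (r ^ 2 • H) := by funext v; exact gr_eq H hr v
  rw [h1]
  exact (GB.integrable_gH _ (smul_posDef hH (by positivity))).2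

theorem pos {H : Matrix ι ι ℝ} (hH : H.PosDef) {r : ℝ} (hr : 0 < r) (v : ι → ℝ) :
    0 < gr H r v := by
  unfold gr
  have := hH.det_pos
  positivity

theorem continuous (H : Matrix ι ι ℝ) (r : ℝ) : Continuous (gr H r) := by
  unfold gr
  have := QF.continuous H
  fun_prop

theorem neg (H : Matrix ι ι ℝ) (r : ℝ) (v : ι → ℝ) : gr H r (-v) = gr H r v := by
  unfold gr
  rw [QF.neg]

/-- Integrals over symmetric sets. -/
theorem setIntegral_neg {s : Set (ι → ℝ)} (hs : MeasurableSet s) (hsym : ∀ v ∈ s, -v ∈ s)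
    (f : (ι → ℝ) → ℝ) : ∫ v in s, f (-v) = ∫ v in s, f v := by
  rw [← integral_indicator hs, ← integral_indicator hs]
  rw [← integral_neg_eq_self (s.indicator f) volume]
  congr 1
  funext v
  by_cases hv : v ∈ s
  · rw [Set.indicator_of_mem hv, Set.indicator_of_mem (hsym v hv)]
  · rw [Set.indicator_of_notMem hv, Set.indicator_of_notMem]
    intro h
    exact hv (by simpa using hsym _ h)

theorem volume_vor_pos {H : Matrix ι ι ℝ} (hH : H.PosDef) : 0 < volume (Vor H) := by
  obtain ⟨x, hx⟩ := VOR.interior_nonempty hH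
  exact (isOpen_interior.measure_pos volume ⟨x, hx⟩).trans_le (measure_mono interior_subset)

theorem Gam_pos {H : Matrix ι ι ℝ} (hH : H.PosDef) {r : ℝ} (hr : 0 < r) : 0 < Gam H r := by
  unfold Gam
  rw [setIntegral_pos_iff_support_of_nonneg_ae
    (Filter.Eventually.of_forall fun v => (pos hH hr v).le) (integrable hH hr).integrableOn]
  have h1 : Function.support (gr H r) = Set.univ := by
    ext v; simp [(pos hH hr v).ne']
  rw [h1, Set.univ_inter]
  exact volume_vor_pos hH

theorem Gam_le_one {H : Matrix ι ι ℝ} (hH : H.PosDef) {r : ℝ} (hr : 0 < r) : Gam H r ≤ 1 := by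
  rw [← integral hH hr]
  exact setIntegral_le_integral (integrable hH hr)
    (Filter.Eventually.of_forall fun v => (pos hH hr v).le)

/-- `Gam` as an integral over the cube. -/
theorem Gam_cube {H : Matrix ι ι ℝ} (hH : H.PosDef) (r : ℝ) :
    Gam H r = ∫ u in cube ι,
      r ^ Fintype.card ι * Real.sqrt H.det * Real.exp (-Real.pi * r ^ 2 * dH H u) := by
  unfold Gam
  have h1 : ∫ v in Vor H, gr H r v = ∫ v in Vor H,
      r ^ Fintype.card ι * Real.sqrt H.det * Real.exp (-Real.pi * r ^ 2 * dH H v) := by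
    refine setIntegral_congr_fun (VOR.closed H).measurableSet fun v hv => ?_
    show gr H r v = _
    unfold gr
    rw [VOR.dH_eq hH hv]
  rw [h1]
  refine (VOR.vor_fund hH).setIntegral_eq VOR.cube_fund ?_
  rintro ⟨_, z, rfl⟩ x
  rw [AddSubgroup.vadd_def, vadd_eq_add, add_comm]
  have h2 : dH H (x + (VOR.zcHom ι) z) = dH H x := DHC.periodic x z
  show _ * Real.exp (-Real.pi * r ^ 2 * dH H (x + (VOR.zcHom ι) z)) = _
  rw [h2]

/-- Shift invariance of the integral of a periodic function. -/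
theorem cube_shift (f : (ι → ℝ) → ℝ) (hf : ∀ u (z : ι → ℤ), f (u + zc z) = f u) (w : ι → ℝ) :
    ∫ u in cube ι, f (u + w) = ∫ u in cube ι, f u := by
  have h1 : IsAddFundamentalDomain (VOR.Lat ι) (w +ᵥ cube ι) volume :=
    VOR.cube_fund.vadd_of_comm w
  have h2 : ∫ u in w +ᵥ cube ι, f u = ∫ u in cube ι, f u := by
    refine h1.setIntegral_eq VOR.cube_fund ?_
    rintro ⟨_, z, rfl⟩ x
    rw [AddSubgroup.vadd_def, vadd_eq_add, add_comm]
    exact hf x z
  rw [← h2]
  have h3 := (measurePreserving_vadd w (volume : Measure (ι → ℝ))).setIntegral_image_emb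
    (measurableEmbedding_const_vadd w) f (cube ι)
  have h4 : (w +ᵥ cube ι) = (fun x => w +ᵥ x) '' cube ι := rfl
  rw [h4, h3]
  simp only [vadd_eq_add, add_comm]

theorem integrableOn_vor {H : Matrix ι ι ℝ} (hH : H.PosDef) {f : (ι → ℝ) → ℝ}
    (hf : Continuous f) : IntegrableOn f (Vor H) :=
  hf.continuousOn.integrableOn_compact (VOR.compact hH)

end GR

end Pool.Agent.Work.MP_b10815_co_flt
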