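import Pool.Agent.Work.MP_b10815_co_flt.LatAux
set_option autoImplicit false
set_option linter.unusedSectionVars false

/-!
# Block ISO: isotropy at a local minimiser of `Gam`
-/

namespace Pool.Agent.Work.MP_b10815_co_flt

open MeasureTheory Matrix Filter Topology

namespace ISO

open LatAux

variable {n : ℕ}

/-! ### algebra of the perturbation -/

theorem pert_mulVec (p q v : Fin n → ℝ) (t : ℝ) :
    (1 + t • vecMulVec p q) *ᵥ v = v + (t * (q ⬝ᵥ v)) • p := by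
  rw [Matrix.add_mulVec, Matrix.one_mulVec, Matrix.smul_mulVec, Matrix.vecMulVec_mulVec]
  ext i
  simp only [Pi.add_apply, Pi.smul_apply, smul_eq_mul, MulOpposite.smul_eq_mul_unop,
    MulOpposite.unop_op]
  ring

theorem qf_pert (H : Matrix (Fin n) (Fin n) ℝ) (p q v : Fin n → ℝ) (t : ℝ) :
    qf (pert H p q t) v = qf H (v + (t * (q ⬝ᵥ v)) • p) := by
  unfold qf pert
  rw [← pert_mulVec, ← Matrix.mulVec_mulVec, ← Matrix.mulVec_mulVec, Matrix.dotProduct_mulVec,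
    Matrix.vecMul_transpose]

theorem symm_dot {H : Matrix (Fin n) (Fin n) ℝ} (hH : H.PosDef) (v w : Fin n → ℝ) :
    v ⬝ᵥ (H *ᵥ w) = w ⬝ᵥ (H *ᵥ v) := by
  have hT : Hᵀ = H := by
    have := hH.isHermitian
    rwa [Matrix.IsHermitian, Matrix.conjTranspose_eq_transpose_of_trivial] at this
  conv_lhs => rw [← hT]
  rw [Matrix.mulVec_transpose, dotProduct_comm, ← Matrix.dotProduct_mulVec]

theorem qf_add {H : Matrix (Fin n) (Fin n) ℝ} (hH : H.PosDef) (v w : Fin n → ℝ) (s : ℝ) :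
    qf H (v + s • w) = qf H v + 2 * s * (v ⬝ᵥ (H *ᵥ w)) + s ^ 2 * qf H w := by
  unfold qf
  simp only [Matrix.mulVec_add, Matrix.mulVec_smul, dotProduct_add, add_dotProduct,
    dotProduct_smul, smul_dotProduct, smul_eq_mul]
  rw [symm_dot hH w v]
  ring

theorem qf_sub {H : Matrix (Fin n) (Fin n) ℝ} (hH : H.PosDef) (v w : Fin n → ℝ) :
    qf H (v - w) = qf H v - 2 * (v ⬝ᵥ (H *ᵥ w)) + qf H w := by
  have := qf_add hH v w (-1)
  rw [show v + (-1 : ℝ) • w = v - w by rw [neg_one_smul, sub_eq_add_neg]] at this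
  rw [this]
  ring

theorem mem_vor_iff {H : Matrix (Fin n) (Fin n) ℝ} (hH : H.PosDef) (v : Fin n → ℝ) :
    v ∈ Vor H ↔ ∀ z : Fin n → ℤ, qf H v ≤ qf H (v - zc z) := by
  show (∀ z : Fin n → ℤ, 2 * (v ⬝ᵥ (H *ᵥ zc z)) ≤ qf H (zc z)) ↔ _
  refine forall_congr' fun z => ?_
  rw [qf_sub hH]
  constructor <;> intro h <;> linarith

theorem det_pert (H : Matrix (Fin n) (Fin n) ℝ) {p q : Fin n → ℝ} (h : q ⬝ᵥ p = 0) (t : ℝ) :
    (pert H p q t).det = H.det := by
  have h1 : (1 + t • vecMulVec p q : Matrix (Fin n) (Fin n) ℝ).det = 1 := by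
    have := Matrix.det_one_add_replicateCol_mul_replicateRow (ι := Unit) (t • p) q
    rw [dotProduct_smul, h, smul_zero, add_zero] at this
    rw [← this]
    congr 2
    ext i j
    simp [vecMulVec_apply, Matrix.mul_apply, mul_assoc]
  unfold pert
  rw [Matrix.det_mul, Matrix.det_mul, Matrix.det_transpose, h1]
  ring

theorem pert_posDef {H : Matrix (Fin n) (Fin n) ℝ} (hH : H.PosDef) {p q : Fin n → ℝ}
    (h : q ⬝ᵥ p = 0) (t : ℝ) : (pert H p q t).PosDef := by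
  have hinj : Function.Injective (1 + t • vecMulVec p q : Matrix (Fin n) (Fin n) ℝ).mulVec := by
    rw [Matrix.mulVec_injective_iff_isUnit, Matrix.isUnit_iff_isUnit_det]
    have := Matrix.det_one_add_replicateCol_mul_replicateRow (ι := Unit) (t • p) q
    rw [dotProduct_smul, h, smul_zero, add_zero] at this
    have h2 : (1 + t • vecMulVec p q : Matrix (Fin n) (Fin n) ℝ).det = 1 := by
      rw [← this]
      congr 2
      ext i j
      simp [vecMulVec_apply, Matrix.mul_apply, mul_assoc]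
    rw [h2]
    exact isUnit_one
  have := hH.conjTranspose_mul_mul_same (B := (1 + t • vecMulVec p q)) hinj
  unfold pert
  simpa [Matrix.conjTranspose_eq_transpose_of_trivial] using this

theorem qf_pert' {H : Matrix (Fin n) (Fin n) ℝ} (hH : H.PosDef) (p q v : Fin n → ℝ) (t : ℝ) :
    qf (pert H p q t) v = qf H v + 2 * t * (q ⬝ᵥ v) * (v ⬝ᵥ (H *ᵥ p)) +
      t ^ 2 * (q ⬝ᵥ v) ^ 2 * qf H p := by
  rw [qf_pert, qf_add hH]
  ring

/-! ### uniform bounds -/

theorem qf_lower {H : Matrix (Fin n) (Fin n) ℝ} (hH : H.PosDef) :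
    ∃ c : ℝ, 0 < c ∧ ∀ v : Fin n → ℝ, c * ‖v‖ ^ 2 ≤ qf H v := by
  obtain ⟨c, hc, h⟩ := exists_lower hH
  refine ⟨c, hc, fun v => le_trans ?_ (h v)⟩
  apply mul_le_mul_of_nonneg_left _ hc.le
  have h0 : 0 ≤ v ⬝ᵥ v := by
    have := dotProduct_self_star_nonneg v
    simpa using this
  have h1 : ‖v‖ ≤ Real.sqrt (v ⬝ᵥ v) := by
    rw [pi_norm_le_iff_of_nonneg (Real.sqrt_nonneg _)]
    intro i
    rw [Real.norm_eq_abs, ← Real.sqrt_sq_eq_abs]
    apply Real.sqrt_le_sqrt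
    rw [sq]
    exact Finset.single_le_sum (f := fun j => v j * v j)
      (fun j _ => mul_self_nonneg _) (Finset.mem_univ i)
  calc ‖v‖ ^ 2 ≤ (Real.sqrt (v ⬝ᵥ v)) ^ 2 := pow_le_pow_left₀ (norm_nonneg _) h1 2
    _ = v ⬝ᵥ v := Real.sq_sqrt h0

theorem dot_le (q v : Fin n → ℝ) : |q ⬝ᵥ v| ≤ (∑ i, |q i|) * ‖v‖ := by
  unfold dotProduct
  rw [Finset.sum_mul]
  refine (Finset.abs_sum_le_sum_abs _ _).trans (Finset.sum_le_sum fun i _ => ?_)
  rw [abs_mul]
  exact mul_le_mul_of_nonneg_left (norm_le_pi_norm v i) (abs_nonneg _)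

theorem qf_upper (H : Matrix (Fin n) (Fin n) ℝ) :
    ∃ C : ℝ, 0 < C ∧ ∀ v : Fin n → ℝ, qf H v ≤ C * ‖v‖ ^ 2 := by
  refine ⟨∑ i, ∑ j, |H i j| + 1, by positivity, fun v => ?_⟩
  have h1 : qf H v ≤ (∑ i, ∑ j, |H i j|) * ‖v‖ ^ 2 := by
    unfold qf
    calc v ⬝ᵥ (H *ᵥ v) = ∑ i, ∑ j, v i * (H i j * v j) := by
          simp [dotProduct, Matrix.mulVec, Finset.mul_sum]
      _ ≤ ∑ i, ∑ j, |H i j| * ‖v‖ ^ 2 := by
          refine Finset.sum_le_sum fun i _ => Finset.sum_le_sum fun j _ => ?_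
          have h2 : |v i * (H i j * v j)| ≤ ‖v‖ * (|H i j| * ‖v‖) := by
            rw [abs_mul, abs_mul]
            exact mul_le_mul (norm_le_pi_norm v i)
              (mul_le_mul_of_nonneg_left (norm_le_pi_norm v j) (abs_nonneg _))
              (by positivity) (norm_nonneg _)
          calc _ ≤ |v i * (H i j * v j)| := le_abs_self _
            _ ≤ _ := h2
            _ = _ := by ring
      _ = _ := by simp only [Finset.sum_mul]
  nlinarith [sq_nonneg ‖v‖]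

/-- uniform comparison of the perturbed forms with the norm -/
theorem pert_bounds {H : Matrix (Fin n) (Fin n) ℝ} (hH : H.PosDef) (p q : Fin n → ℝ) :
    ∃ c C t0 : ℝ, 0 < c ∧ 0 < C ∧ 0 < t0 ∧ ∀ t : ℝ, |t| ≤ t0 → ∀ v : Fin n → ℝ,
      c * ‖v‖ ^ 2 ≤ qf (pert H p q t) v ∧ qf (pert H p q t) v ≤ C * ‖v‖ ^ 2 := by
  obtain ⟨c, hc, hcv⟩ := qf_lower hH
  obtain ⟨C, hC, hCv⟩ := qf_upper H
  set K : ℝ := (∑ i, |q i|) * ‖p‖ with hK
  have hK0 : 0 ≤ K := by positivity
  refine ⟨c / 4, 4 * C, 1 / (2 * (K + 1)), by positivity, by positivity, by positivity, ?_⟩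
  intro t ht v
  rw [qf_pert]
  have h1 : ‖(t * (q ⬝ᵥ v)) • p‖ ≤ ‖v‖ / 2 := by
    rw [norm_smul, Real.norm_eq_abs, abs_mul]
    have h2 := dot_le q v
    have h3 : |t| * (K + 1) ≤ 1 / 2 := by
      calc |t| * (K + 1) ≤ 1 / (2 * (K + 1)) * (K + 1) :=
            mul_le_mul_of_nonneg_right ht (by positivity)
        _ = 1 / 2 := by field_simp
    calc |t| * |q ⬝ᵥ v| * ‖p‖ ≤ |t| * ((∑ i, |q i|) * ‖v‖) * ‖p‖ := by gcongr
      _ = (|t| * K) * ‖v‖ := by rw [hK]; ring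
      _ ≤ (1 / 2) * ‖v‖ := by
          apply mul_le_mul_of_nonneg_right _ (norm_nonneg _)
          nlinarith [abs_nonneg t]
      _ = ‖v‖ / 2 := by ring
  have h2 : ‖v‖ / 2 ≤ ‖v + (t * (q ⬝ᵥ v)) • p‖ := by
    have := norm_sub_norm_le v (-((t * (q ⬝ᵥ v)) • p))
    rw [norm_neg, sub_neg_eq_add] at this
    linarith
  have h3 : ‖v + (t * (q ⬝ᵥ v)) • p‖ ≤ 2 * ‖v‖ := by
    have := norm_add_le v ((t * (q ⬝ᵥ v)) • p)
    have h4 := norm_nonneg v
    linarith
  constructor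
  · calc c / 4 * ‖v‖ ^ 2 = c * (‖v‖ / 2) ^ 2 := by ring
      _ ≤ c * ‖v + (t * (q ⬝ᵥ v)) • p‖ ^ 2 := by
          apply mul_le_mul_of_nonneg_left _ hc.le
          exact pow_le_pow_left₀ (by positivity) h2 2
      _ ≤ _ := hcv _
  · calc qf H (v + (t * (q ⬝ᵥ v)) • p) ≤ C * ‖v + (t * (q ⬝ᵥ v)) • p‖ ^ 2 := hCv _
      _ ≤ C * (2 * ‖v‖) ^ 2 := by
          apply mul_le_mul_of_nonneg_left _ hC.le
          exact pow_le_pow_left₀ (norm_nonneg _) h3 2
      _ = 4 * C * ‖v‖ ^ 2 := by ring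

theorem norm_zc (z : Fin n → ℤ) : ‖zc z‖ = ‖z‖ := by
  apply le_antisymm
  · rw [pi_norm_le_iff_of_nonneg (norm_nonneg _)]
    intro i
    have : ‖zc z i‖ = ‖z i‖ := by simp [zc, Int.norm_eq_abs]
    rw [this]
    exact norm_le_pi_norm z i
  · rw [pi_norm_le_iff_of_nonneg (norm_nonneg _)]
    intro i
    have : ‖z i‖ = ‖zc z i‖ := by simp [zc, Int.norm_eq_abs]
    rw [this]
    exact norm_le_pi_norm (zc z) i

/-- the perturbed Voronoi cells are uniformly bounded -/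
theorem vor_bounded {H : Matrix (Fin n) (Fin n) ℝ} (hH : H.PosDef) {p q : Fin n → ℝ}
    (h : q ⬝ᵥ p = 0) :
    ∃ R t0 : ℝ, 0 < R ∧ 0 < t0 ∧ ∀ t : ℝ, |t| ≤ t0 →
      Vor (pert H p q t) ⊆ Metric.closedBall 0 R := by
  obtain ⟨c, C, t0, hc, hC, ht0, hb⟩ := pert_bounds hH p q
  refine ⟨Real.sqrt (C / c), t0, by positivity, ht0, fun t ht v hv => ?_⟩
  rw [mem_vor_iff (pert_posDef hH h t)] at hv
  have h1 := hv (fun i => round (v i))
  have h2 : ‖v - zc (fun i => round (v i))‖ ≤ 1 := by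
    rw [pi_norm_le_iff_of_nonneg zero_le_one]
    intro i
    have := abs_sub_round (v i)
    simp only [Pi.sub_apply, zc, Real.norm_eq_abs]
    linarith
  have h3 := (hb t ht v).1
  have h4 := (hb t ht (v - zc (fun i => round (v i)))).2
  have h5 : ‖v - zc (fun i => round (v i))‖ ^ 2 ≤ 1 := by
    have := norm_nonneg (v - zc (fun i => round (v i)))
    nlinarith
  rw [mem_closedBall_zero_iff]
  apply Real.le_sqrt_of_sq_le
  rw [le_div_iff₀ hc]
  nlinarith

theorem continuous_qf_pert {H : Matrix (Fin n) (Fin n) ℝ} (hH : H.PosDef) (p q v : Fin n → ℝ) :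
    Continuous fun t => qf (pert H p q t) v := by
  simp only [qf_pert' hH]
  fun_prop

theorem pert_zero (H : Matrix (Fin n) (Fin n) ℝ) (p q : Fin n → ℝ) : pert H p q 0 = H := by
  simp [pert]

/-- pointwise convergence of the indicators -/
theorem eventually_mem {H : Matrix (Fin n) (Fin n) ℝ} (hH : H.PosDef) {p q : Fin n → ℝ}
    (h : q ⬝ᵥ p = 0) {v : Fin n → ℝ}
    (hv : ∀ z : Fin n → ℤ, z ≠ 0 → 2 * (v ⬝ᵥ (H *ᵥ zc z)) < qf H (zc z)) :
    ∀ᶠ t in 𝓝 (0 : ℝ), v ∈ Vor (pert H p q t) := by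
  obtain ⟨c, C, t0, hc, hC, ht0, hb⟩ := pert_bounds hH p q
  -- bound on relevant lattice points
  set B : ℝ := ‖v‖ * (1 + Real.sqrt (C / c)) with hB
  have hfin : (Metric.closedBall (0 : Fin n → ℤ) B).Finite :=
    (isCompact_closedBall _ _).finite_of_discrete
  have h1 : ∀ᶠ t in 𝓝 (0 : ℝ), ∀ z ∈ Metric.closedBall (0 : Fin n → ℤ) B,
      qf (pert H p q t) v ≤ qf (pert H p q t) (v - zc z) := by
    rw [Filter.eventually_all_finite hfin]
    intro z _
    by_cases hz : z = 0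
    · subst hz
      refine Filter.Eventually.of_forall fun t => ?_
      have : (zc (0 : Fin n → ℤ)) = 0 := by ext i; simp [zc]
      rw [this, sub_zero]
    · have h2 : qf (pert H p q 0) v < qf (pert H p q 0) (v - zc z) := by
        rw [pert_zero, qf_sub hH]
        have := hv z hz
        linarith
      have h3 := (continuous_qf_pert hH p q v).continuousAt (x := 0)
      have h4 := (continuous_qf_pert hH p q (v - zc z)).continuousAt (x := 0)
      exact (h3.eventually_lt h4 h2).mono fun t ht => ht.le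
  have h5 : ∀ᶠ t in 𝓝 (0 : ℝ), |t| ≤ t0 := by
    have : Metric.closedBall (0 : ℝ) t0 ∈ 𝓝 (0 : ℝ) := Metric.closedBall_mem_nhds 0 ht0
    filter_upwards [this] with t ht
    simpa using ht
  filter_upwards [h1, h5] with t ht htt
  rw [mem_vor_iff (pert_posDef hH h t)]
  intro z
  by_cases hz : z ∈ Metric.closedBall (0 : Fin n → ℤ) B
  · exact ht z hz
  · rw [mem_closedBall_zero_iff, ← norm_zc] at hz
    push Not at hz
    have h6 := (hb t htt v).2
    have h7 := (hb t htt (v - zc z)).1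
    have h8 : ‖v‖ * Real.sqrt (C / c) ≤ ‖v - zc z‖ := by
      have h9 := norm_sub_norm_le (zc z) v
      rw [← norm_sub_rev v (zc z)] at h9
      nlinarith
    have h10 : C * ‖v‖ ^ 2 ≤ c * ‖v - zc z‖ ^ 2 := by
      calc C * ‖v‖ ^ 2 = c * (‖v‖ * Real.sqrt (C / c)) ^ 2 := by
            rw [mul_pow, Real.sq_sqrt (by positivity)]
            field_simp
        _ ≤ _ := by
            apply mul_le_mul_of_nonneg_left _ hc.le
            exact pow_le_pow_left₀ (by positivity) h8 2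
    linarith

theorem eventually_not_mem {H : Matrix (Fin n) (Fin n) ℝ} (hH : H.PosDef) {p q : Fin n → ℝ}
    (h : q ⬝ᵥ p = 0) {v : Fin n → ℝ} (hv : v ∉ Vor H) :
    ∀ᶠ t in 𝓝 (0 : ℝ), v ∉ Vor (pert H p q t) := by
  rw [mem_vor_iff hH] at hv
  push Not at hv
  obtain ⟨z, hz⟩ := hv
  have h3 := (continuous_qf_pert hH p q v).continuousAt (x := 0)
  have h4 := (continuous_qf_pert hH p q (v - zc z)).continuousAt (x := 0)
  have h2 : qf (pert H p q 0) (v - zc z) < qf (pert H p q 0) v := by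
    rwa [pert_zero]
  refine (h4.eventually_lt h3 h2).mono fun t ht => ?_
  rw [mem_vor_iff (pert_posDef hH h t)]
  push Not
  exact ⟨z, ht⟩

/-! ### the density -/

theorem continuous_gr (H : Matrix (Fin n) (Fin n) ℝ) (r : ℝ) : Continuous (gr H r) := by
  unfold gr
  have := continuous_qf H
  fun_prop

theorem gr_pert {H : Matrix (Fin n) (Fin n) ℝ} {p q : Fin n → ℝ} (h : q ⬝ᵥ p = 0) (r t : ℝ)
    (v : Fin n → ℝ) : gr (pert H p q t) r v =
      r ^ n * Real.sqrt H.det * Real.exp (-Real.pi * r ^ 2 * qf (pert H p q t) v) := by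
  unfold gr
  rw [det_pert H h t, Fintype.card_fin]

theorem hasDerivAt_gr {H : Matrix (Fin n) (Fin n) ℝ} (hH : H.PosDef) {p q : Fin n → ℝ}
    (h : q ⬝ᵥ p = 0) (r : ℝ) (v : Fin n → ℝ) :
    HasDerivAt (fun t => gr (pert H p q t) r v)
      (-(2 * Real.pi * r ^ 2) * (((q ⬝ᵥ v) * (v ⬝ᵥ (H *ᵥ p))) * gr H r v)) 0 := by
  simp only [gr_pert h, qf_pert' hH]
  have h1 : HasDerivAt (fun t : ℝ => qf H v + 2 * t * (q ⬝ᵥ v) * (v ⬝ᵥ (H *ᵥ p)) +
      t ^ 2 * (q ⬝ᵥ v) ^ 2 * qf H p) (2 * (q ⬝ᵥ v) * (v ⬝ᵥ (H *ᵥ p))) 0 := by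
    have h2 : HasDerivAt (fun t : ℝ => 2 * t * (q ⬝ᵥ v) * (v ⬝ᵥ (H *ᵥ p)))
        (2 * 1 * (q ⬝ᵥ v) * (v ⬝ᵥ (H *ᵥ p))) 0 :=
      (((hasDerivAt_id (0 : ℝ)).const_mul 2).mul_const _).mul_const _
    have h3 : HasDerivAt (fun t : ℝ => t ^ 2 * (q ⬝ᵥ v) ^ 2 * qf H p)
        ((2 : ℕ) * (0 : ℝ) ^ (2 - 1) * (q ⬝ᵥ v) ^ 2 * qf H p) 0 :=
      ((hasDerivAt_pow 2 (0 : ℝ)).mul_const _).mul_const _
    have h4 := (h2.const_add (qf H v)).add h3
    refine h4.congr_deriv ?_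
    simp
  have h5 := ((h1.const_mul (-Real.pi * r ^ 2)).exp).const_mul (r ^ n * Real.sqrt H.det)
  refine h5.congr_deriv ?_
  unfold gr
  rw [Fintype.card_fin]
  simp only [mul_zero, zero_mul, add_zero, ne_eq, OfNat.ofNat_ne_zero, not_false_eq_true,
    zero_pow]
  ring

theorem hexp (x y : ℝ) (hx : 0 ≤ x) (hy : 0 ≤ y) :
    |Real.exp (-x) - Real.exp (-y)| ≤ |x - y| := by
  wlog hxy : x ≤ y with hw
  · rw [abs_sub_comm, abs_sub_comm x y]
    exact hw y x hy hx (by linarith)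
  · rw [abs_of_nonneg (by
      have := Real.exp_le_exp.2 (neg_le_neg hxy)
      linarith), abs_of_nonpos (by linarith)]
    have h1 : Real.exp (-y) = Real.exp (-x) * Real.exp (x - y) := by
      rw [← Real.exp_add]; ring_nf
    have h2 : 1 + (x - y) ≤ Real.exp (x - y) := by
      have := Real.add_one_le_exp (x - y); linarith
    have h3 : Real.exp (-x) ≤ 1 := Real.exp_le_one_iff.2 (by linarith)
    have h4 : 0 < Real.exp (-x) := Real.exp_pos _
    rw [h1]
    nlinarith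

theorem diff_bound {H : Matrix (Fin n) (Fin n) ℝ} (hH : H.PosDef) {p q : Fin n → ℝ}
    (h : q ⬝ᵥ p = 0) {r : ℝ} (hr : 0 < r) (v : Fin n → ℝ) {t : ℝ} (ht0 : 0 < t) (ht1 : t ≤ 1) :
    |t⁻¹ * (gr (pert H p q t) r v - gr H r v)| ≤
      r ^ n * Real.sqrt H.det * (Real.pi * r ^ 2 *
        (2 * |q ⬝ᵥ v| * |v ⬝ᵥ (H *ᵥ p)| + (q ⬝ᵥ v) ^ 2 * qf H p)) := by
  have hq1 := qf_nonneg (pert_posDef hH h t) v
  have hq0 := qf_nonneg hH v
  have hqp := qf_nonneg hH p
  have hpi := Real.pi_pos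
  have e1 : gr H r v = r ^ n * Real.sqrt H.det * Real.exp (-(Real.pi * r ^ 2 * qf H v)) := by
    unfold gr
    rw [Fintype.card_fin]
    ring_nf
  have e2 : gr (pert H p q t) r v =
      r ^ n * Real.sqrt H.det * Real.exp (-(Real.pi * r ^ 2 * qf (pert H p q t) v)) := by
    rw [gr_pert h]
    ring_nf
  rw [e1, e2, ← mul_sub, abs_mul, abs_mul, abs_of_pos (inv_pos.2 ht0),
    abs_of_nonneg (by positivity : 0 ≤ r ^ n * Real.sqrt H.det)]
  have h1 := hexp (Real.pi * r ^ 2 * qf (pert H p q t) v) (Real.pi * r ^ 2 * qf H v)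
    (by positivity) (by positivity)
  have h2 : Real.pi * r ^ 2 * qf (pert H p q t) v - Real.pi * r ^ 2 * qf H v =
      t * (Real.pi * r ^ 2 * (2 * (q ⬝ᵥ v) * (v ⬝ᵥ (H *ᵥ p)) + t * ((q ⬝ᵥ v) ^ 2 * qf H p))) := by
    rw [qf_pert' hH]; ring
  rw [h2, abs_mul, abs_of_pos ht0, abs_mul, abs_of_pos (by positivity : 0 < Real.pi * r ^ 2)] at h1
  have h3 : |2 * (q ⬝ᵥ v) * (v ⬝ᵥ (H *ᵥ p)) + t * ((q ⬝ᵥ v) ^ 2 * qf H p)| ≤
      2 * |q ⬝ᵥ v| * |v ⬝ᵥ (H *ᵥ p)| + (q ⬝ᵥ v) ^ 2 * qf H p := by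
    refine (abs_add_le _ _).trans ?_
    rw [abs_mul, abs_mul, abs_two, abs_mul, abs_of_pos ht0,
      abs_of_nonneg (by positivity : 0 ≤ (q ⬝ᵥ v) ^ 2 * qf H p)]
    have : 0 ≤ (q ⬝ᵥ v) ^ 2 * qf H p := by positivity
    nlinarith
  have h4 : |Real.exp (-(Real.pi * r ^ 2 * qf (pert H p q t) v)) -
      Real.exp (-(Real.pi * r ^ 2 * qf H v))| ≤ t * (Real.pi * r ^ 2 *
        (2 * |q ⬝ᵥ v| * |v ⬝ᵥ (H *ᵥ p)| + (q ⬝ᵥ v) ^ 2 * qf H p)) := by
    refine h1.trans ?_
    gcongr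
  calc t⁻¹ * (r ^ n * Real.sqrt H.det * |Real.exp (-(Real.pi * r ^ 2 * qf (pert H p q t) v)) -
      Real.exp (-(Real.pi * r ^ 2 * qf H v))|)
      ≤ t⁻¹ * (r ^ n * Real.sqrt H.det * (t * (Real.pi * r ^ 2 *
        (2 * |q ⬝ᵥ v| * |v ⬝ᵥ (H *ᵥ p)| + (q ⬝ᵥ v) ^ 2 * qf H p)))) := by gcongr
    _ = _ := by field_simp

/-! ### comparison of the Gaussian masses -/

theorem dH_le (hDHC : Stmt_DHC) {H : Matrix (Fin n) (Fin n) ℝ} (hH : H.PosDef) (v : Fin n → ℝ) :
    dH H v ≤ qf H v := by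
  obtain ⟨-, -, -, -, h⟩ := hDHC (Fin n) H hH
  have h1 := h v 0
  have : (zc (0 : Fin n → ℤ)) = 0 := by ext i; simp [zc]
  rwa [this, sub_zero] at h1

theorem gam_le (hVOR : Stmt_VOR) (hDHC : Stmt_DHC) {H H' : Matrix (Fin n) (Fin n) ℝ}
    (hH : H.PosDef) (hH' : H'.PosDef) {r : ℝ} (hr : 0 < r) :
    ∫ v in Vor H', gr H r v ≤ Gam H r := by
  obtain ⟨hd1, hd2, -, -, -⟩ := hDHC (Fin n) H hH
  obtain ⟨-, hc, -, -, -, he, -, -, hper, -⟩ := hVOR (Fin n) H hH
  obtain ⟨-, hc', -, -, -, -, -, -, hper', -⟩ := hVOR (Fin n) H' hH'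
  set g : (Fin n → ℝ) → ℝ := fun v => r ^ n * Real.sqrt H.det *
    Real.exp (-Real.pi * r ^ 2 * dH H v) with hg
  have hgc : Continuous g := by
    rw [hg]
    fun_prop
  have hgp : ∀ u (z : Fin n → ℤ), g (u + zc z) = g u := by
    intro u z
    simp only [hg, hd2 u z]
  have h1 : ∫ v in Vor H', g v = ∫ v in Vor H, g v := by
    rw [hper' g hgc hgp, hper g hgc hgp]
  have h2 : ∫ v in Vor H, g v = Gam H r := by
    unfold Gam
    refine setIntegral_congr_fun hc.measurableSet ?_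
    intro v hv
    simp only [hg, gr, Fintype.card_fin, he v hv]
  rw [← h2, ← h1]
  refine setIntegral_mono ((continuous_gr H r).continuousOn.integrableOn_compact hc')
    (hgc.continuousOn.integrableOn_compact hc') ?_
  intro v
  simp only [hg, gr, Fintype.card_fin]
  have h3 := dH_le hDHC hH v
  have h4 : -Real.pi * r ^ 2 * qf H v ≤ -Real.pi * r ^ 2 * dH H v := by
    have : 0 < Real.pi * r ^ 2 := by positivity
    nlinarith
  gcongr

theorem diff_nonneg (hVOR : Stmt_VOR) (hDHC : Stmt_DHC) {H H' : Matrix (Fin n) (Fin n) ℝ}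
    (hH : H.PosDef) (hH' : H'.PosDef) {r : ℝ} (hr : 0 < r) (hle : Gam H r ≤ Gam H' r) :
    0 ≤ ∫ v in Vor H', (gr H' r v - gr H r v) := by
  obtain ⟨-, hc', -⟩ := hVOR (Fin n) H' hH'
  rw [integral_sub ((continuous_gr H' r).continuousOn.integrableOn_compact hc')
    ((continuous_gr H r).continuousOn.integrableOn_compact hc')]
  have h1 := gam_le hVOR hDHC hH hH' hr
  have h2 : ∫ v in Vor H', gr H' r v = Gam H' r := rfl
  rw [h2]
  linarith

theorem limit_ineq (hVOR : Stmt_VOR) (hDHC : Stmt_DHC) {H : Matrix (Fin n) (Fin n) ℝ}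
    (hH : H.PosDef) {r : ℝ} (hr : 0 < r) {p q : Fin n → ℝ} (h : q ⬝ᵥ p = 0)
    (hle : ∃ δ > 0, ∀ t : ℝ, |t| < δ → Gam H r ≤ Gam (pert H p q t) r) :
    0 ≤ ∫ v in Vor H, -(2 * Real.pi * r ^ 2) * (((q ⬝ᵥ v) * (v ⬝ᵥ (H *ᵥ p))) * gr H r v) := by
  obtain ⟨δ, hδ, hle⟩ := hle
  obtain ⟨-, hc, -, -, -, -, -, -, -, hae⟩ := hVOR (Fin n) H hH
  obtain ⟨R, t0, hR, ht0, hbd⟩ := vor_bounded hH h
  set F : ℝ → (Fin n → ℝ) → ℝ := fun t => (Vor (pert H p q t)).indicator
    (fun v => t⁻¹ * (gr (pert H p q t) r v - gr H r v)) with hF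
  set f : (Fin n → ℝ) → ℝ := (Vor H).indicator
    (fun v => -(2 * Real.pi * r ^ 2) * (((q ⬝ᵥ v) * (v ⬝ᵥ (H *ᵥ p))) * gr H r v)) with hf
  set bound : (Fin n → ℝ) → ℝ := (Metric.closedBall 0 R).indicator (fun v =>
    r ^ n * Real.sqrt H.det * (Real.pi * r ^ 2 *
        (2 * |q ⬝ᵥ v| * |v ⬝ᵥ (H *ᵥ p)| + (q ⬝ᵥ v) ^ 2 * qf H p))) with hbound
  have hcompact : ∀ t, IsCompact (Vor (pert H p q t)) := fun t =>
    (hVOR (Fin n) _ (pert_posDef hH h t)).2.1
  have hlim : Tendsto (fun t => ∫ v, F t v) (𝓝[>] 0) (𝓝 (∫ v, f v)) := by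
    refine tendsto_integral_filter_of_dominated_convergence bound ?_ ?_ ?_ ?_
    · refine Eventually.of_forall fun t => ?_
      refine AEStronglyMeasurable.indicator ?_ (hcompact t).measurableSet
      refine Continuous.aestronglyMeasurable ?_
      exact continuous_const.mul ((continuous_gr _ r).sub (continuous_gr _ r))
    · have h1 : ∀ᶠ t in 𝓝[>] (0 : ℝ), 0 < t ∧ t ≤ min t0 1 := by
        have : Set.Ioc (0 : ℝ) (min t0 1) ∈ 𝓝[>] (0 : ℝ) :=
          Ioc_mem_nhdsGT (lt_min ht0 one_pos)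
        filter_upwards [this] with t ht using ht
      filter_upwards [h1] with t ht
      refine Eventually.of_forall fun v => ?_
      simp only [hF, hbound]
      by_cases hv : v ∈ Vor (pert H p q t)
      · have hv' : v ∈ Metric.closedBall (0 : Fin n → ℝ) R :=
          hbd t (by rw [abs_of_pos ht.1]; exact ht.2.trans (min_le_left _ _)) hv
        rw [Set.indicator_of_mem hv, Set.indicator_of_mem hv', Real.norm_eq_abs]
        exact diff_bound hH h hr v ht.1 (ht.2.trans (min_le_right _ _))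
      · rw [Set.indicator_of_notMem hv, norm_zero]
        refine Set.indicator_nonneg (fun v _ => ?_) v
        have := qf_nonneg hH p
        have := Real.pi_pos
        positivity
    · rw [hbound, integrable_indicator_iff Metric.isClosed_closedBall.measurableSet]
      refine ContinuousOn.integrableOn_compact (isCompact_closedBall _ _)
        (Continuous.continuousOn ?_)
      have h1 : Continuous fun v : Fin n → ℝ => q ⬝ᵥ v :=
        Continuous.dotProduct continuous_const continuous_id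
      have h2 : Continuous fun v : Fin n → ℝ => v ⬝ᵥ (H *ᵥ p) :=
        Continuous.dotProduct continuous_id continuous_const
      fun_prop
    · filter_upwards [hae] with v hv
      by_cases hvV : v ∈ Vor H
      · have h1 := (eventually_mem hH h (hv hvV)).filter_mono (nhdsWithin_le_nhds (s := Set.Ioi 0))
        have h2 := (hasDerivAt_gr hH h r v).tendsto_slope_zero_right
        simp only [hf, Set.indicator_of_mem hvV]
        refine h2.congr' ?_
        filter_upwards [h1] with t ht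
        simp only [hF, Set.indicator_of_mem ht, zero_add, pert_zero, smul_eq_mul]
      · have h1 := (eventually_not_mem hH h hvV).filter_mono
          (nhdsWithin_le_nhds (s := Set.Ioi 0))
        simp only [hf, Set.indicator_of_notMem hvV]
        refine tendsto_const_nhds.congr' ?_
        filter_upwards [h1] with t ht
        simp only [hF, Set.indicator_of_notMem ht]
  have hpos : ∀ᶠ t in 𝓝[>] (0 : ℝ), 0 ≤ ∫ v, F t v := by
    have : Set.Ioo (0 : ℝ) δ ∈ 𝓝[>] (0 : ℝ) := Ioo_mem_nhdsGT hδ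
    filter_upwards [this] with t ht
    simp only [hF]
    rw [integral_indicator (hcompact t).measurableSet, integral_const_mul]
    refine mul_nonneg (inv_nonneg.2 ht.1.le) ?_
    exact diff_nonneg hVOR hDHC hH (pert_posDef hH h t) hr
      (hle t (by rw [abs_of_pos ht.1]; exact ht.2))
  have hfin := ge_of_tendsto hlim hpos
  simp only [hf] at hfin
  rwa [integral_indicator hc.measurableSet] at hfin

theorem orth_zero (hVOR : Stmt_VOR) (hDHC : Stmt_DHC) {H : Matrix (Fin n) (Fin n) ℝ}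
    (hH : H.PosDef) {r : ℝ} (hr : 0 < r)
    (hle : ∀ p q : Fin n → ℝ, q ⬝ᵥ p = 0 →
      ∃ δ > 0, ∀ t : ℝ, |t| < δ → Gam H r ≤ Gam (pert H p q t) r)
    {p q : Fin n → ℝ} (h : q ⬝ᵥ p = 0) :
    ∫ v in Vor H, (v ⬝ᵥ ((H * vecMulVec p q) *ᵥ v)) * gr H r v = 0 := by
  have key : ∀ p q : Fin n → ℝ, q ⬝ᵥ p = 0 →
      ∫ v in Vor H, ((q ⬝ᵥ v) * (v ⬝ᵥ (H *ᵥ p))) * gr H r v ≤ 0 := by
    intro p q h
    have h1 := limit_ineq hVOR hDHC hH hr h (hle p q h)
    rw [integral_const_mul] at h1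
    have h2 : 0 < 2 * Real.pi * r ^ 2 := by positivity
    by_contra hcon
    push Not at hcon
    nlinarith
  have e : ∀ v : Fin n → ℝ, v ⬝ᵥ ((H * vecMulVec p q) *ᵥ v) = (q ⬝ᵥ v) * (v ⬝ᵥ (H *ᵥ p)) := by
    intro v
    rw [Matrix.mul_vecMulVec, Matrix.vecMulVec_mulVec]
    simp
  simp only [e]
  apply le_antisymm (key p q h)
  have h2 := key (-p) q (by rw [dotProduct_neg, h, neg_zero])
  have h3 : ∫ v in Vor H, ((q ⬝ᵥ v) * (v ⬝ᵥ (H *ᵥ (-p)))) * gr H r v =
      - ∫ v in Vor H, ((q ⬝ᵥ v) * (v ⬝ᵥ (H *ᵥ p))) * gr H r v := by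
    rw [← integral_neg]
    congr 1
    ext v
    rw [Matrix.mulVec_neg, dotProduct_neg]
    ring
  rw [h3] at h2
  linarith

end ISO

open ISO LatAux in
theorem stmt_ISO (hVOR : Stmt_VOR) (hDHC : Stmt_DHC) : Stmt_ISO := by
  intro n H hH r hr hle M
  obtain ⟨-, hc, -⟩ := hVOR (Fin n) H hH
  -- the linear functional
  have hcont : ∀ M : Matrix (Fin n) (Fin n) ℝ,
      Continuous fun v : Fin n → ℝ => (v ⬝ᵥ ((H * M) *ᵥ v)) * gr H r v := by
    intro M
    have h1 : Continuous fun v : Fin n → ℝ => (v ⬝ᵥ ((H * M) *ᵥ v)) := continuous_qf (H * M)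
    exact h1.mul (continuous_gr H r)
  have hint : ∀ M : Matrix (Fin n) (Fin n) ℝ,
      IntegrableOn (fun v : Fin n → ℝ => (v ⬝ᵥ ((H * M) *ᵥ v)) * gr H r v) (Vor H) := fun M =>
    (hcont M).continuousOn.integrableOn_compact hc
  let Φ : Matrix (Fin n) (Fin n) ℝ →ₗ[ℝ] ℝ :=
    { toFun := fun M => ∫ v in Vor H, (v ⬝ᵥ ((H * M) *ᵥ v)) * gr H r v
      map_add' := by
        intro A B
        rw [← integral_add (hint A) (hint B)]
        congr 1
        ext v
        rw [Matrix.mul_add, Matrix.add_mulVec, dotProduct_add]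
        ring
      map_smul' := by
        intro c A
        rw [RingHom.id_apply, smul_eq_mul, ← integral_const_mul]
        congr 1
        ext v
        rw [Matrix.mul_smul, Matrix.smul_mulVec, dotProduct_smul, smul_eq_mul]
        ring }
  have hΦ0 : ∀ p q : Fin n → ℝ, q ⬝ᵥ p = 0 → Φ (vecMulVec p q) = 0 := fun p q h =>
    orth_zero hVOR hDHC hH hr hle h
  have hoff : ∀ i j : Fin n, i ≠ j → Φ (Matrix.single i j 1) = 0 := by
    intro i j hij
    rw [Matrix.single_eq_single_vecMulVec_single]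
    exact hΦ0 (Pi.single i 1) (Pi.single j 1) (by simp [hij.symm])
  have hdiag : ∀ i j : Fin n, Φ (Matrix.single i i 1) = Φ (Matrix.single j j 1) := by
    intro i j
    by_cases hij : i = j
    · rw [hij]
    have h1 := hΦ0 (Pi.single i 1 + Pi.single j 1) (Pi.single i 1 - Pi.single j 1) (by
      simp [dotProduct_add, hij, Ne.symm hij])
    rw [Matrix.add_vecMulVec, Matrix.vecMulVec_sub, Matrix.vecMulVec_sub,
      ← Matrix.single_eq_single_vecMulVec_single, ← Matrix.single_eq_single_vecMulVec_single,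
      ← Matrix.single_eq_single_vecMulVec_single, ← Matrix.single_eq_single_vecMulVec_single,
      map_add, map_sub, map_sub, hoff i j hij, hoff j i (Ne.symm hij)] at h1
    linarith
  show (n : ℝ) * Φ M = M.trace * ∫ v in Vor H, qf H v * gr H r v
  have h1 : ∫ v in Vor H, qf H v * gr H r v = Φ 1 := by
    show _ = ∫ v in Vor H, (v ⬝ᵥ ((H * 1) *ᵥ v)) * gr H r v
    rw [Matrix.mul_one]
    rfl
  rw [h1]
  rcases Nat.eq_zero_or_pos n with hn | hn
  · subst hn
    have : (1 : Matrix (Fin 0) (Fin 0) ℝ) = 0 := Subsingleton.elim _ _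
    rw [this, map_zero]
    simp
  · let i0 : Fin n := ⟨0, hn⟩
    have hexpand : ∀ A : Matrix (Fin n) (Fin n) ℝ,
        Φ A = A.trace * Φ (Matrix.single i0 i0 1) := by
      intro A
      conv_lhs => rw [Matrix.matrix_eq_sum_single A]
      rw [map_sum]
      simp only [map_sum]
      have h2 : ∀ i j : Fin n, Φ (Matrix.single i j (A i j)) =
          A i j * Φ (Matrix.single i j 1) := by
        intro i j
        rw [← smul_eq_mul (A i j), ← map_smul, Matrix.smul_single, smul_eq_mul, mul_one]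
      simp only [h2]
      rw [Matrix.trace, Finset.sum_mul]
      refine Finset.sum_congr rfl fun i _ => ?_
      rw [Finset.sum_eq_single i]
      · rw [hdiag i i0, Matrix.diag_apply]
      · intro j _ hj
        rw [hoff i j (Ne.symm hj), mul_zero]
      · simp
    rw [hexpand M, hexpand 1, Matrix.trace_one, Fintype.card_fin]
    ring

end Pool.Agent.Work.MP_b10815_co_flt
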