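import Pool.Agent.Work.MP_b10815_co_flt.GB1
set_option autoImplicit false
set_option linter.unusedSectionVars false

namespace Pool.Agent.Work.MP_b10815_co_flt

open MeasureTheory Matrix

namespace JEN

variable {ι κ : Type} [Fintype ι] [Fintype κ] [DecidableEq ι] [DecidableEq κ]

/-- Schur complement of the second block -/
noncomputable def sch (P : Matrix (ι ⊕ κ) (ι ⊕ κ) ℝ) : Matrix ι ι ℝ :=
  P.toBlocks₁₁ - P.toBlocks₁₂ * (P.toBlocks₂₂)⁻¹ * P.toBlocks₂₁

noncomputable def lin (P : Matrix (ι ⊕ κ) (ι ⊕ κ) ℝ) : Matrix κ ι ℝ :=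
  (P.toBlocks₂₂)⁻¹ * P.toBlocks₂₁

lemma d_posDef (P : Matrix (ι ⊕ κ) (ι ⊕ κ) ℝ) (hP : P.PosDef) : P.toBlocks₂₂.PosDef := by
  have := hP.submatrix (e := (Sum.inr : κ → ι ⊕ κ)) Sum.inr_injective
  exact this

lemma blocks_eq (P : Matrix (ι ⊕ κ) (ι ⊕ κ) ℝ) (hP : P.PosDef) :
    P = fromBlocks P.toBlocks₁₁ P.toBlocks₁₂ (P.toBlocks₁₂)ᴴ P.toBlocks₂₂ := by
  have h : (P.toBlocks₁₂)ᴴ = P.toBlocks₂₁ := by
    ext i j
    have := congrFun (congrFun hP.isHermitian (Sum.inr i)) (Sum.inl j)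
    simpa [toBlocks₁₂, toBlocks₂₁, conjTranspose_apply] using this
  rw [h, fromBlocks_toBlocks]

lemma b21 (P : Matrix (ι ⊕ κ) (ι ⊕ κ) ℝ) (hP : P.PosDef) : (P.toBlocks₁₂)ᴴ = P.toBlocks₂₁ := by
  ext i j
  have := congrFun (congrFun hP.isHermitian (Sum.inr i)) (Sum.inl j)
  simpa [toBlocks₁₂, toBlocks₂₁, conjTranspose_apply] using this

lemma qf_block (P : Matrix (ι ⊕ κ) (ι ⊕ κ) ℝ) (hP : P.PosDef) (x : ι → ℝ) (y : κ → ℝ) :
    qf P (Sum.elim x y) = qf P.toBlocks₂₂ (lin P *ᵥ x + y) + qf (sch P) x := by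
  have hD := d_posDef P hP
  letI : Invertible P.toBlocks₂₂ := P.toBlocks₂₂.invertibleOfIsUnitDet
    (isUnit_iff_ne_zero.2 hD.det_pos.ne')
  have h := schur_complement_eq₂₂ P.toBlocks₁₁ P.toBlocks₁₂ (D := P.toBlocks₂₂) x y hD.isHermitian
  rw [← blocks_eq P hP, b21 P hP] at h
  simp only [star_trivial] at h
  unfold qf sch lin
  rw [dotProduct_mulVec, dotProduct_mulVec, dotProduct_mulVec, h]

lemma det_block (P : Matrix (ι ⊕ κ) (ι ⊕ κ) ℝ) (hP : P.PosDef) :
    P.det = P.toBlocks₂₂.det * (sch P).det := by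
  have hD := d_posDef P hP
  letI : Invertible P.toBlocks₂₂ := P.toBlocks₂₂.invertibleOfIsUnitDet
    (isUnit_iff_ne_zero.2 hD.det_pos.ne')
  conv_lhs => rw [← fromBlocks_toBlocks P]
  rw [det_fromBlocks₂₂, invOf_eq_nonsing_inv]
  rfl

lemma sch_posDef (P : Matrix (ι ⊕ κ) (ι ⊕ κ) ℝ) (hP : P.PosDef) : (sch P).PosDef := by
  have hD := d_posDef P hP
  letI : Invertible P.toBlocks₂₂ := P.toBlocks₂₂.invertibleOfIsUnitDet
    (isUnit_iff_ne_zero.2 hD.det_pos.ne')
  have hherm : (sch P).IsHermitian := by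
    have := (PosDef.fromBlocks₂₂ P.toBlocks₁₁ P.toBlocks₁₂ hD).1
      (by rw [← blocks_eq P hP]; exact hP.posSemidef)
    rw [b21 P hP] at this
    exact this.isHermitian
  refine PosDef.of_dotProduct_mulVec_pos hherm fun x hx => ?_
  have h1 := qf_block P hP x (-(lin P *ᵥ x))
  rw [add_neg_cancel] at h1
  have h2 : qf P.toBlocks₂₂ (0 : κ → ℝ) = 0 := by simp [qf]
  rw [h2, zero_add] at h1
  have h3 : (Sum.elim x (-(lin P *ᵥ x)) : ι ⊕ κ → ℝ) ≠ 0 := by
    intro h0
    apply hx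
    funext i
    exact congrFun h0 (Sum.inl i)
  have h4 := hP.dotProduct_mulVec_pos h3
  simp only [star_trivial] at h4 ⊢
  change 0 < qf (sch P) x
  rw [← h1]
  exact h4

lemma gH_block (P : Matrix (ι ⊕ κ) (ι ⊕ κ) ℝ) (hP : P.PosDef) (x : ι → ℝ) (y : κ → ℝ) :
    gH P (Sum.elim x y) = gH P.toBlocks₂₂ (lin P *ᵥ x + y) * gH (sch P) x := by
  unfold gH
  rw [qf_block P hP, det_block P hP, Real.sqrt_mul (d_posDef P hP).det_pos.le, mul_add,
    Real.exp_add]
  ring

/-- Fubini on sum types -/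
lemma integral_sum (F : (ι ⊕ κ → ℝ) → ℝ) (hF : Integrable F) :
    Integrable (fun p : (ι → ℝ) × (κ → ℝ) => F (Sum.elim p.1 p.2)) ∧
    ∫ v, F v = ∫ x : ι → ℝ, ∫ y : κ → ℝ, F (Sum.elim x y) := by
  have hmp := volume_measurePreserving_sumPiEquivProdPi_symm (fun _ : ι ⊕ κ => ℝ)
  have hfun : ∀ p : (ι → ℝ) × (κ → ℝ),
      (MeasurableEquiv.sumPiEquivProdPi (fun _ : ι ⊕ κ => ℝ)).symm p = Sum.elim p.1 p.2 := by
    intro p
    funext i
    rcases i with i | i <;> rfl
  have h1 : Integrable (fun p : (ι → ℝ) × (κ → ℝ) => F (Sum.elim p.1 p.2)) := by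
    have := (hmp.integrable_comp_emb (MeasurableEquiv.measurableEmbedding _) (g := F)).2 hF
    refine this.congr (Filter.Eventually.of_forall fun p => ?_)
    simp only [Function.comp_apply, hfun]
  refine ⟨h1, ?_⟩
  have h2 := hmp.integral_comp' (g := F)
  rw [← h2]
  simp only [hfun]
  exact integral_prod _ h1

lemma half1 (P : Matrix (ι ⊕ κ) (ι ⊕ κ) ℝ) (N : Seminorm ℝ (ι ⊕ κ → ℝ)) (hP : P.PosDef) :
    ∫ g : κ → ℝ, N (Sum.elim 0 g) * gH P.toBlocks₂₂ g ≤ ∫ v, N v * gH P v := by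
  classical
  have hD := d_posDef P hP
  have hS := sch_posDef P hP
  have hint := GB.integrable_seminorm_gH N P hP
  obtain ⟨hI, hF⟩ := integral_sum _ hint
  rw [hF]
  -- inner integral
  set Φ : (ι → ℝ) → ℝ := fun x => ∫ g : κ → ℝ, N (Sum.elim x (g - lin P *ᵥ x)) *
    gH P.toBlocks₂₂ g with hΦ
  have hinner : ∀ x : ι → ℝ, ∫ y : κ → ℝ, N (Sum.elim x y) * gH P (Sum.elim x y) =
      Φ x * gH (sch P) x := by
    intro x
    simp only [hΦ]
    rw [← integral_mul_const]
    have : ∀ y : κ → ℝ, N (Sum.elim x y) * gH P (Sum.elim x y) =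
        (fun g : κ → ℝ => N (Sum.elim x (g - lin P *ᵥ x)) * gH P.toBlocks₂₂ g * gH (sch P) x)
          (lin P *ᵥ x + y) := by
      intro y
      simp only [add_sub_cancel_left]
      rw [gH_block P hP]
      ring
    simp only [this]
    exact integral_add_left_eq_self (μ := (volume : Measure (κ → ℝ)))
      (fun g : κ → ℝ => N (Sum.elim x (g - lin P *ᵥ x)) * gH P.toBlocks₂₂ g * gH (sch P) x)
      (lin P *ᵥ x)
  simp only [hinner]
  have hIΦ : Integrable (fun x => Φ x * gH (sch P) x) := by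
    have := hI.integral_prod_left
    simpa only [hinner] using this
  -- symmetry
  have hsymm : ∫ x, Φ (-x) * gH (sch P) x = ∫ x, Φ x * gH (sch P) x := by
    rw [← integral_neg_eq_self (fun x => Φ x * gH (sch P) x) volume]
    congr 1
    funext x
    have : gH (sch P) (-x) = gH (sch P) x := by
      unfold gH qf
      simp [mulVec_neg]
    rw [this]
  have hIΦ' : Integrable (fun x => Φ (-x) * gH (sch P) x) := by
    have := hIΦ.comp_neg
    refine this.congr (Filter.Eventually.of_forall fun x => ?_)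
    have : gH (sch P) (-x) = gH (sch P) x := by
      unfold gH qf
      simp [mulVec_neg]
    simp only [this]
  -- integrability of slices
  have hslice : ∀ (x : ι → ℝ) (w : κ → ℝ),
      Integrable (fun g : κ → ℝ => N (Sum.elim x (g + w)) * gH P.toBlocks₂₂ g) := by
    intro x w
    let emb : (κ → ℝ) →ₗ[ℝ] (ι ⊕ κ → ℝ) :=
      { toFun := fun g => (Sum.elim 0 g : ι ⊕ κ → ℝ)
        map_add' := fun a b => by
          funext i; rcases i with i | i <;> simp
        map_smul' := fun c a => by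
          funext i; rcases i with i | i <;> simp }
    let N0 : Seminorm ℝ (κ → ℝ) := N.comp emb
    have hN0 : ∀ g, N0 g = N (Sum.elim 0 g) := fun g => rfl
    have hb := (GB.integrable_seminorm_gH N0 _ hD).add
      ((GB.integrable_gH _ hD).1.const_mul (N (Sum.elim x w)))
    refine hb.mono' ?_ ?_
    · refine Continuous.aestronglyMeasurable ?_
      refine Continuous.mul ?_ ?_
      · refine (GB.seminorm_continuous N).comp ?_
        refine continuous_pi fun i => ?_
        rcases i with i | i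
        · simpa using continuous_const
        · simp only [Sum.elim_inr, Pi.add_apply]
          fun_prop
      · unfold gH qf
        simp only [dotProduct, mulVec]
        fun_prop
    · refine Filter.Eventually.of_forall fun g => ?_
      have hg : 0 ≤ gH P.toBlocks₂₂ g := by unfold gH; positivity
      rw [Real.norm_eq_abs, abs_of_nonneg (mul_nonneg (apply_nonneg _ _) hg)]
      simp only [Pi.add_apply]
      rw [hN0, ← add_mul]
      refine mul_le_mul_of_nonneg_right ?_ hg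
      have : (Sum.elim x (g + w) : ι ⊕ κ → ℝ) =
          (Sum.elim (0 : ι → ℝ) g : ι ⊕ κ → ℝ) + (Sum.elim x w : ι ⊕ κ → ℝ) := by
        funext i; rcases i with i | i <;> simp
      rw [this]
      exact map_add_le_add N _ _
  have hkey : ∀ x, 2 * ∫ g : κ → ℝ, N (Sum.elim 0 g) * gH P.toBlocks₂₂ g ≤ Φ x + Φ (-x) := by
    intro x
    simp only [hΦ]
    have e1 : ∀ g : κ → ℝ, g - lin P *ᵥ x = g + (-(lin P *ᵥ x)) := fun g => sub_eq_add_neg _ _
    have e2 : ∀ g : κ → ℝ, g - lin P *ᵥ (-x) = g + lin P *ᵥ x := fun g => by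
      rw [mulVec_neg, sub_neg_eq_add]
    simp only [e1, e2]
    rw [← integral_add (hslice x _) (hslice (-x) _), ← integral_const_mul]
    have h0 := hslice 0 0
    simp only [add_zero] at h0
    refine integral_mono (h0.const_mul 2) ((hslice x _).add (hslice (-x) _)) fun g => ?_
    have hg : 0 ≤ gH P.toBlocks₂₂ g := by unfold gH; positivity
    simp only [Pi.add_apply]
    rw [← add_mul, ← mul_assoc]
    refine mul_le_mul_of_nonneg_right ?_ hg
    have h3 : (2 : ℝ) * N (Sum.elim 0 g) = N ((2 : ℝ) • (Sum.elim 0 g : ι ⊕ κ → ℝ)) := by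
      rw [map_smul_eq_mul]; simp
    rw [h3]
    have h4 : (2 : ℝ) • (Sum.elim 0 g : ι ⊕ κ → ℝ) =
        Sum.elim x (g + -(lin P *ᵥ x)) + Sum.elim (-x) (g + lin P *ᵥ x) := by
      funext i
      rcases i with i | i
      · simp
      · simp; ring
    rw [h4]
    exact map_add_le_add N _ _
  have hJ := integral_mono ((GB.integrable_gH _ hS).1.const_mul
      (2 * ∫ g : κ → ℝ, N (Sum.elim 0 g) * gH P.toBlocks₂₂ g)) (hIΦ.add hIΦ') (fun x => by
        have hg : 0 ≤ gH (sch P) x := by unfold gH; positivity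
        simp only [Pi.add_apply]
        rw [← add_mul]
        exact mul_le_mul_of_nonneg_right (hkey x) hg)
  rw [integral_const_mul, (GB.integrable_gH _ hS).2, integral_add' hIΦ hIΦ', hsymm] at hJ
  linarith

end JEN

theorem stmt_JEN : Stmt_JEN := by
  intro ι κ _ _ _ _ P N hP
  refine ⟨JEN.half1 P N hP, ?_⟩
  -- swap
  let P' : Matrix (κ ⊕ ι) (κ ⊕ ι) ℝ := P.submatrix Sum.swap Sum.swap
  have hP' : P'.PosDef := hP.submatrix Sum.swap_leftInverse.injective
  let sw : (κ ⊕ ι → ℝ) →ₗ[ℝ] (ι ⊕ κ → ℝ) :=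
    { toFun := fun v => v ∘ Sum.swap
      map_add' := fun a b => rfl
      map_smul' := fun c a => rfl }
  let N' : Seminorm ℝ (κ ⊕ ι → ℝ) := N.comp sw
  have h := JEN.half1 P' N' hP'
  have hdet : P'.det = P.det := by
    exact det_submatrix_equiv_self (Equiv.sumComm κ ι) P
  have hqf : ∀ v : κ ⊕ ι → ℝ, qf P' v = qf P (v ∘ Sum.swap) := by
    intro v
    unfold qf
    simp only [dotProduct, mulVec, P', submatrix_apply]
    rw [Fintype.sum_sum_type, Fintype.sum_sum_type, add_comm]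
    simp only [Fintype.sum_sum_type, Function.comp_apply, Sum.swap_inl, Sum.swap_inr]
    congr 1 <;> refine Finset.sum_congr rfl fun i _ => ?_ <;> rw [add_comm]
  have hgH : ∀ v : κ ⊕ ι → ℝ, gH P' v = gH P (v ∘ Sum.swap) := by
    intro v
    unfold gH
    rw [hdet, hqf]
  have hint : ∫ v, N' v * gH P' v = ∫ v, N v * gH P v := by
    have hmp := volume_measurePreserving_piCongrLeft (fun _ : ι ⊕ κ => ℝ) (Equiv.sumComm κ ι)
    have := hmp.integral_comp' (g := fun v => N v * gH P v)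
    rw [← this]
    congr 1
    funext v
    have hv : (MeasurableEquiv.piCongrLeft (fun _ : ι ⊕ κ => ℝ) (Equiv.sumComm κ ι)) v =
        v ∘ Sum.swap := by
      funext i
      obtain ⟨j, rfl⟩ := (Equiv.sumComm κ ι).surjective i
      rw [MeasurableEquiv.coe_piCongrLeft, Equiv.piCongrLeft_apply_apply]
      simp
    rw [hv, hgH]
    rfl
  have hleft : ∀ g : ι → ℝ, N' (Sum.elim 0 g) * gH P'.toBlocks₂₂ g =
      N (Sum.elim g 0) * gH P.toBlocks₁₁ g := by
    intro g
    have e1 : N' (Sum.elim 0 g) = N (Sum.elim g 0) := by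
      change N ((Sum.elim 0 g : κ ⊕ ι → ℝ) ∘ Sum.swap) = _
      congr 1
      funext i
      rcases i with i | i <;> rfl
    have e2 : P'.toBlocks₂₂ = P.toBlocks₁₁ := rfl
    rw [e1, e2]
  simp only [hleft, hint] at h
  exact h

end Pool.Agent.Work.MP_b10815_co_flt
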