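import Mathlib
import Pool.Agent.Work.MP_b10815_co_flt.Interface

/-!
# Blocks KU and LP: the `ℓ`-position
-/

set_option autoImplicit false

namespace Pool.Agent.Work.MP_b10815_co_flt

open MeasureTheory Matrix

namespace LP

section

variable {ι : Type} [Fintype ι] [DecidableEq ι]

lemma avg_mono {F G : (ι → Bool) → ℝ} (h : ∀ e, F e ≤ G e) : avg F ≤ avg G := by
  unfold avg
  exact div_le_div_of_nonneg_right (Finset.sum_le_sum fun e _ => h e) (by positivity)

lemma avg_nonneg {F : (ι → Bool) → ℝ} (h : ∀ e, 0 ≤ F e) : 0 ≤ avg F := by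
  unfold avg
  exact div_nonneg (Finset.sum_nonneg fun e _ => h e) (by positivity)

lemma avg_add (F G : (ι → Bool) → ℝ) : avg (fun e => F e + G e) = avg F + avg G := by
  unfold avg
  rw [Finset.sum_add_distrib, add_div]

lemma avg_mul (c : ℝ) (F : (ι → Bool) → ℝ) : avg (fun e => c * F e) = c * avg F := by
  unfold avg
  rw [← Finset.mul_sum, mul_div_assoc]

lemma avg_sum {κ : Type} (s : Finset κ) (F : κ → (ι → Bool) → ℝ) :
    avg (fun e => ∑ k ∈ s, F k e) = ∑ k ∈ s, avg (F k) := by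
  unfold avg
  rw [Finset.sum_comm, Finset.sum_div]

lemma avg_sq (F : (ι → Bool) → ℝ) : avg F ^ 2 ≤ avg (fun e => F e ^ 2) := by
  unfold avg
  have h := sq_sum_le_card_mul_sum_sq (s := (Finset.univ : Finset (ι → Bool))) (f := F)
  have hc : ((Finset.univ : Finset (ι → Bool)).card : ℝ) = 2 ^ Fintype.card ι := by
    rw [Finset.card_univ, Fintype.card_pi]
    simp
  rw [hc] at h
  have hp : (0 : ℝ) < 2 ^ Fintype.card ι := by positivity
  rw [div_pow, div_le_div_iff₀ (by positivity) hp]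
  nlinarith

lemma avg_le_of_sq {F : (ι → Bool) → ℝ} {c : ℝ} (hc : 0 ≤ c)
    (h : avg (fun e => F e ^ 2) ≤ c ^ 2) : avg F ≤ c :=
  abs_le_of_sq_le_sq' ((avg_sq F).trans h) hc |>.2

lemma avg_eq_zero {F : (ι → Bool) → ℝ} (h : ∀ e, 0 ≤ F e) (h0 : avg F = 0) (e : ι → Bool) :
    F e = 0 := by
  unfold avg at h0
  have hp : (2 : ℝ) ^ Fintype.card ι ≠ 0 := by positivity
  have h1 : ∑ e, F e = 0 := by
    rcases div_eq_zero_iff.1 h0 with h2 | h2
    · exact h2
    · exact absurd h2 hp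
  exact (Finset.sum_eq_zero_iff_of_nonneg fun e _ => h e).1 h1 e (Finset.mem_univ e)

lemma trace_fc (P : Matrix ι ι ℝ) (f : (ι → Bool) → ι → ℝ) :
    (P * fc f).trace = avg (fun e => sv e ⬝ᵥ (P *ᵥ f e)) := by
  have h1 : ∀ e, sv e ⬝ᵥ (P *ᵥ f e) = ∑ i, ∑ j, P i j * (f e j * sv e i) := by
    intro e
    unfold dotProduct mulVec
    refine Finset.sum_congr rfl fun i _ => ?_
    unfold dotProduct
    rw [Finset.mul_sum]
    refine Finset.sum_congr rfl fun j _ => ?_
    ring
  simp only [h1]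
  rw [avg_sum]
  unfold Matrix.trace
  refine Finset.sum_congr rfl fun i _ => ?_
  rw [avg_sum, diag_apply, mul_apply]
  refine Finset.sum_congr rfl fun j _ => ?_
  rw [avg_mul]
  rfl

end

variable {n : ℕ}

lemma comp_apply' (N : Seminorm ℝ (Fin n → ℝ)) (A : Matrix (Fin n) (Fin n) ℝ) (x : Fin n → ℝ) :
    N.comp (toLin' A) x = N (A *ᵥ x) := by
  rw [Seminorm.comp_apply, toLin'_apply]

lemma log_pos' (hn : 1 ≤ n) : 0 < Real.log (n + 1) := by
  apply Real.log_pos
  have : (1 : ℝ) ≤ n := by exact_mod_cast hn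
  linarith

/-- the matrix of a function of two variables -/
def mat (a : Fin n × Fin n → ℝ) : Matrix (Fin n) (Fin n) ℝ := fun i j => a (i, j)

/-- the seminorm `α` -/
noncomputable def al (N : Seminorm ℝ (Fin n → ℝ)) : Seminorm ℝ (Fin n × Fin n → ℝ) :=
  Seminorm.of (fun a => avg (fun e => N (mat a *ᵥ sv e)))
    (by
      intro a b
      rw [← avg_add]
      refine avg_mono fun e => ?_
      have : mat (a + b) = mat a + mat b := rfl
      rw [this, add_mulVec]
      exact map_add_le_add N _ _)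
    (by
      intro c a
      rw [← avg_mul]
      congr 1
      funext e
      have : mat (c • a) = c • mat a := rfl
      rw [this, smul_mulVec, map_smul_eq_mul])

lemma al_apply (N : Seminorm ℝ (Fin n → ℝ)) (a : Fin n × Fin n → ℝ) :
    al N a = avg (fun e => N (mat a *ᵥ sv e)) := rfl

lemma al_norm {N : Seminorm ℝ (Fin n → ℝ)} (hN : IsNorm N) : IsNorm (al N) := by
  intro a ha
  rw [al_apply] at ha
  have h1 : ∀ e, mat a *ᵥ sv e = 0 := fun e =>
    hN _ (avg_eq_zero (fun e => apply_nonneg N _) ha e)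
  funext p
  obtain ⟨i, j⟩ := p
  have h2 := congrFun (h1 fun _ => true) i
  have h3 := congrFun (h1 fun k => if k = j then false else true) i
  have h4 : (mat a *ᵥ sv fun _ => true) i - (mat a *ᵥ sv fun k => if k = j then false else true) i
      = 2 * a (i, j) := by
    unfold mulVec dotProduct
    rw [← Finset.sum_sub_distrib, Finset.sum_eq_single j]
    · unfold sv sgn mat
      simp
      ring
    · intro k _ hk
      unfold sv sgn
      simp [hk]
    · intro h; exact absurd (Finset.mem_univ j) h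
  rw [h2, h3] at h4
  have : a (i, j) = 0 := by
    have h5 : (0 : Fin n → ℝ) i = 0 := rfl
    rw [h5] at h4
    linarith
  exact this

lemma deriv_nonneg {f : ℝ → ℝ} {f' : ℝ} (h : HasDerivAt f f' 0) (h0 : f 0 = 0)
    (hf : ∀ t, 0 < t → 0 ≤ f t) : 0 ≤ f' := by
  have h1 := h.tendsto_slope_zero_right
  refine ge_of_tendsto h1 ?_
  filter_upwards [self_mem_nhdsWithin] with t ht
  rw [zero_add, h0, sub_zero, smul_eq_mul]
  exact mul_nonneg (inv_nonneg.2 (le_of_lt ht)) (hf t ht)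

lemma det_deriv (X : Matrix (Fin n) (Fin n) ℝ) :
    HasDerivAt (fun t : ℝ => (1 + t • X).det) X.trace 0 := by
  set P : Polynomial ℝ := (det (1 + (Polynomial.X : Polynomial ℝ) • X.map Polynomial.C)).divX.divX
    with hP
  have h1 : (fun t : ℝ => (1 + t • X).det) =
      fun t => (1 + Polynomial.C X.trace * Polynomial.X + P * Polynomial.X ^ 2 : Polynomial ℝ).eval
        t := by
    funext t
    rw [det_one_add_smul]
    simp [hP]
  rw [h1]
  have h2 := (1 + Polynomial.C X.trace * Polynomial.X + P * Polynomial.X ^ 2 :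
    Polynomial ℝ).hasDerivAt 0
  have h3 : (Polynomial.derivative (1 + Polynomial.C X.trace * Polynomial.X +
      P * Polynomial.X ^ 2 : Polynomial ℝ)).eval 0 = X.trace := by
    simp
  rw [h3] at h2
  exact h2

/-- the maximiser of the determinant -/
lemma exists_max (hNRM : Stmt_NRM) (hn : 1 ≤ n) {N : Seminorm ℝ (Fin n → ℝ)} (hN : IsNorm N) :
    ∃ A : Matrix (Fin n) (Fin n) ℝ, IsUnit A.det ∧ avg (fun e => N (A *ᵥ sv e)) ≤ 1 ∧
      ∀ M : Matrix (Fin n) (Fin n) ℝ, (A⁻¹ * M).trace ≤ n * avg (fun e => N (M *ᵥ sv e)) := by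
  have hal := al_norm hN
  obtain ⟨hcomp, -, -, -, -, -, -⟩ := (hNRM (Fin n × Fin n)).2 (al N) hal
  have hdc : Continuous (fun a : Fin n × Fin n → ℝ => |(mat a).det|) := by
    apply Continuous.abs
    apply Continuous.matrix_det
    exact continuous_matrix fun i j => continuous_apply (i, j)
  obtain ⟨a, ha, hmax⟩ := hcomp.exists_isMaxOn ⟨0, by
    change al N 0 ≤ 1
    rw [map_zero]; exact zero_le_one⟩ hdc.continuousOn
  have hmax' : ∀ b : Matrix (Fin n) (Fin n) ℝ, avg (fun e => N (b *ᵥ sv e)) ≤ 1 →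
      |b.det| ≤ |(mat a).det| := fun b hb => hmax (a := fun p => b p.1 p.2) hb
  have ha' : avg (fun e => N (mat a *ᵥ sv e)) ≤ 1 := ha
  set A := mat a with hA
  -- scaling of a general matrix
  have hscale : ∀ (B : Matrix (Fin n) (Fin n) ℝ) (s : ℝ), 0 < s →
      avg (fun e => N (B *ᵥ sv e)) ≤ s → |B.det| ≤ s ^ n * |A.det| := by
    intro B s hs hB
    have h1 : avg (fun e => N ((s⁻¹ • B) *ᵥ sv e)) ≤ 1 := by
      have : (fun e : Fin n → Bool => N ((s⁻¹ • B) *ᵥ sv e)) =
          fun e => s⁻¹ * N (B *ᵥ sv e) := by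
        funext e
        rw [smul_mulVec, map_smul_eq_mul, Real.norm_of_nonneg (inv_nonneg.2 hs.le)]
      rw [this, avg_mul]
      rw [inv_mul_le_iff₀ hs, mul_one]
      exact hB
    have h2 := hmax' _ h1
    rw [det_smul, Fintype.card_fin, abs_mul, abs_of_nonneg (by positivity), inv_pow,
      inv_mul_le_iff₀ (by positivity)] at h2
    exact h2
  have hdet : A.det ≠ 0 := by
    have h1 := hscale 1 (avg (fun e => N ((1 : Matrix (Fin n) (Fin n) ℝ) *ᵥ sv e)) + 1)
      (by
        have := avg_nonneg (ι := Fin n)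
          (F := fun e => N ((1 : Matrix (Fin n) (Fin n) ℝ) *ᵥ sv e)) fun e => apply_nonneg N _
        linarith) (by linarith)
    intro h0
    rw [h0, abs_zero, mul_zero, det_one, abs_one] at h1
    linarith
  have hunit : IsUnit A.det := isUnit_iff_ne_zero.2 hdet
  refine ⟨A, hunit, ha', ?_⟩
  intro M
  set m := avg (fun e => N (M *ᵥ sv e)) with hm
  have hm0 : 0 ≤ m := avg_nonneg fun e => apply_nonneg N _
  have key : ∀ t : ℝ, 0 < t → (1 + t • (A⁻¹ * M)).det ≤ (1 + t * m) ^ n := by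
    intro t ht
    have h1 : avg (fun e => N ((A + t • M) *ᵥ sv e)) ≤ 1 + t * m := by
      calc avg (fun e => N ((A + t • M) *ᵥ sv e))
          ≤ avg (fun e => N (A *ᵥ sv e) + t * N (M *ᵥ sv e)) := by
            refine avg_mono fun e => ?_
            rw [add_mulVec, smul_mulVec]
            refine (map_add_le_add N _ _).trans ?_
            rw [map_smul_eq_mul, Real.norm_of_nonneg ht.le]
        _ = avg (fun e => N (A *ᵥ sv e)) + t * m := by rw [avg_add, avg_mul]
        _ ≤ 1 + t * m := by linarith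
    have h2 := hscale (A + t • M) (1 + t * m) (by positivity) h1
    have h3 : A + t • M = A * (1 + t • (A⁻¹ * M)) := by
      rw [mul_add, mul_one, mul_smul_comm, ← mul_assoc, mul_nonsing_inv A hunit, one_mul]
    rw [h3, det_mul, abs_mul, mul_comm] at h2
    have h4 : 0 < |A.det| := abs_pos.2 hdet
    exact (le_abs_self _).trans (le_of_mul_le_mul_right h2 h4)
  have hd1 := det_deriv (A⁻¹ * M)
  have hd2 : HasDerivAt (fun t : ℝ => (1 + t * m) ^ n) (n * m) 0 := by
    have h1 : HasDerivAt (fun t : ℝ => 1 + t * m) m 0 := by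
      simpa using ((hasDerivAt_id (0 : ℝ)).mul_const m).const_add 1
    have h2 := h1.fun_pow n
    simpa using h2
  have h5 := deriv_nonneg (hd2.sub hd1) (by simp) (fun t ht => by
    have := key t ht
    simp only [Pi.sub_apply]
    linarith)
  linarith

end LP

theorem stmt_KU (hKC : Stmt_KC) (hGC : Stmt_GCON) (hU : Stmt_URY) (hNRM : Stmt_NRM) :
    Stmt_KU := by
  obtain ⟨CK, hCK, hK⟩ := hKC
  obtain ⟨CG, hCG, hG⟩ := hGC
  obtain ⟨CU, hCU, hUr⟩ := hU
  refine ⟨CU * CG ^ 2 * CK, by positivity, ?_⟩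
  intro n hn N hN hvol
  obtain ⟨-, -, -, -, ⟨M, hM, hMd⟩, -, hatt⟩ := (hNRM (Fin n)).2 N hN
  choose g hg1 hg2 using hatt
  set f : (Fin n → Bool) → Fin n → ℝ := fun e => g (sv e) with hf
  have hL := LP.log_pos' hn
  set L := Real.log (n + 1) with hLdef
  have hn' : (0 : ℝ) < n := by exact_mod_cast hn
  have hs : 0 < Real.sqrt L := Real.sqrt_pos.2 hL
  have hss : Real.sqrt L * Real.sqrt L = L := Real.mul_self_sqrt hL.le
  -- the trace
  set T := (fc f).trace with hT
  have hT1 : T = avg (fun e => M (sv e)) := by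
    have h1 := LP.trace_fc (1 : Matrix (Fin n) (Fin n) ℝ) f
    rw [one_mul] at h1
    rw [hT, h1]
    congr 1
    funext e
    rw [one_mulVec, hMd]
    exact hg2 (sv e)
  have hw : ∫ x : Fin n → ℝ, dualN N x * gd x = ∫ x, M x * gd x := by
    refine integral_congr_ae (Filter.Eventually.of_forall fun x => ?_)
    simp only [hMd]
  have h1 := hUr n hn N hN
  rw [hw] at h1
  have hw0 : 0 ≤ ∫ x : Fin n → ℝ, M x * gd x :=
    integral_nonneg fun x => mul_nonneg (apply_nonneg M x) (Real.exp_pos _).le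
  have h2 : (n : ℝ) ≤ CU * ∫ x : Fin n → ℝ, M x * gd x := by
    by_contra hcon
    have h3 : CU * (∫ x : Fin n → ℝ, M x * gd x) / n < 1 := by
      rw [div_lt_one hn']; exact not_le.1 hcon
    have h4 : (CU * (∫ x : Fin n → ℝ, M x * gd x) / n) ^ n < 1 :=
      pow_lt_one₀ (by positivity) h3 (by omega)
    linarith
  have h3 := hG n hn M
  rw [← hT1] at h3
  have h4 : (n : ℝ) ≤ CU * CG * Real.sqrt L * T := by
    refine h2.trans ?_
    have := mul_le_mul_of_nonneg_left h3 hCU.le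
    linarith
  have hT0 : 0 < T := by
    by_contra hcon
    have : CU * CG * Real.sqrt L * T ≤ 0 := mul_nonpos_of_nonneg_of_nonpos (by positivity)
      (not_lt.1 hcon)
    linarith
  refine ⟨(n / T) • fc f, ?_, ?_⟩
  · rw [trace_smul, smul_eq_mul, ← hT]
    field_simp
  · have h5 : ∫ x, N (((n / T : ℝ) • fc f) *ᵥ x) * gd x = (n / T) * ∫ x, N (fc f *ᵥ x) * gd x := by
      rw [← integral_const_mul]
      refine integral_congr_ae (Filter.Eventually.of_forall fun x => ?_)
      simp only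
      rw [smul_mulVec, map_smul_eq_mul, Real.norm_of_nonneg (by positivity), mul_assoc]
    rw [h5]
    have h6 := hG n hn (N.comp (toLin' (fc f)))
    simp only [LP.comp_apply'] at h6
    have h7 := LP.avg_le_of_sq (by positivity) (hK n hn N hN f fun e => hg1 _)
    have h8 : ∫ x, N (fc f *ᵥ x) * gd x ≤ CG * Real.sqrt L * (CK * L) :=
      h6.trans (mul_le_mul_of_nonneg_left h7 (by positivity))
    have h9 : (n : ℝ) / T ≤ CU * CG * Real.sqrt L := by
      rw [div_le_iff₀ hT0]; exact h4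
    calc (n : ℝ) / T * ∫ x, N (fc f *ᵥ x) * gd x
        ≤ (CU * CG * Real.sqrt L) * (CG * Real.sqrt L * (CK * L)) :=
          mul_le_mul h9 h8 (integral_nonneg fun x =>
            mul_nonneg (apply_nonneg N _) (Real.exp_pos _).le) (by positivity)
      _ = CU * CG ^ 2 * CK * ((Real.sqrt L * Real.sqrt L) * L) := by ring
      _ = CU * CG ^ 2 * CK * L ^ 2 := by rw [hss]; ring

theorem stmt_LP (hKC : Stmt_KC) (hGC : Stmt_GCON) (hNRM : Stmt_NRM) : Stmt_LP := by
  obtain ⟨CK, hCK, hK⟩ := hKC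
  obtain ⟨CG, hCG, hG⟩ := hGC
  refine ⟨8 * CG ^ 2 * CK, by positivity, ?_⟩
  intro n hn N hN
  obtain ⟨-, -, -, -, ⟨M, hM, hMd⟩, -, hatt⟩ := (hNRM (Fin n)).2 N hN
  choose g hg1 hg2 using hatt
  obtain ⟨A, hA, hA1, hAtr⟩ := LP.exists_max hNRM hn hN
  have hL := LP.log_pos' hn
  set L := Real.log (n + 1) with hLdef
  have hn' : (0 : ℝ) < n := by exact_mod_cast hn
  have hs : 0 < Real.sqrt L := Real.sqrt_pos.2 hL
  have hss : Real.sqrt L * Real.sqrt L = L := Real.mul_self_sqrt hL.le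
  set f : (Fin n → Bool) → Fin n → ℝ := fun e => g ((A⁻¹)ᵀ *ᵥ sv e) with hf
  have h1 : (A⁻¹ * fc f).trace = avg (fun e => M ((A⁻¹)ᵀ *ᵥ sv e)) := by
    rw [LP.trace_fc]
    congr 1
    funext e
    have hv : ((A⁻¹)ᵀ *ᵥ sv e) ⬝ᵥ f e = sv e ⬝ᵥ (A⁻¹ *ᵥ f e) := by
      rw [mulVec_transpose, ← dotProduct_mulVec]
    rw [hMd, ← hg2]
    exact hv.symm
  have h2 := hAtr (fc f)
  rw [h1] at h2
  have h3 := LP.avg_le_of_sq (by positivity) (hK n hn N hN f fun e => hg1 _)
  have h4 : avg (fun e => M ((A⁻¹)ᵀ *ᵥ sv e)) ≤ n * (CK * L) :=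
    h2.trans (mul_le_mul_of_nonneg_left h3 hn'.le)
  set κ := 8 * (CG * Real.sqrt L) with hκ
  have hκ0 : 0 < κ := by positivity
  refine ⟨κ⁻¹ • A, ?_, ?_, ?_⟩
  · rw [det_smul]
    exact (isUnit_iff_ne_zero.2 (by positivity)).mul hA
  · have h5 : ∫ x, N ((κ⁻¹ • A) *ᵥ x) * gd x = κ⁻¹ * ∫ x, N (A *ᵥ x) * gd x := by
      rw [← integral_const_mul]
      refine integral_congr_ae (Filter.Eventually.of_forall fun x => ?_)
      simp only
      rw [smul_mulVec, map_smul_eq_mul, Real.norm_of_nonneg (by positivity), mul_assoc]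
    rw [h5]
    have h6 := hG n hn (N.comp (toLin' A))
    simp only [LP.comp_apply'] at h6
    have h7 : ∫ x, N (A *ᵥ x) * gd x ≤ CG * Real.sqrt L * 1 :=
      h6.trans (mul_le_mul_of_nonneg_left hA1 (by positivity))
    rw [inv_mul_le_iff₀ hκ0]
    linarith
  · have hinv : ((κ⁻¹ • A)⁻¹)ᵀ = κ • (A⁻¹)ᵀ := by
      have : (κ⁻¹ • A)⁻¹ = κ • A⁻¹ := by
        apply inv_eq_right_inv
        rw [smul_mul_smul_comm, mul_nonsing_inv A hA, inv_mul_cancel₀ hκ0.ne', one_smul]
      rw [this, transpose_smul]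
    have h5 : ∫ x, dualN N (((κ⁻¹ • A)⁻¹)ᵀ *ᵥ x) * gd x =
        κ * ∫ x, M ((A⁻¹)ᵀ *ᵥ x) * gd x := by
      rw [← integral_const_mul]
      refine integral_congr_ae (Filter.Eventually.of_forall fun x => ?_)
      simp only
      rw [hinv, ← hMd, smul_mulVec, map_smul_eq_mul, Real.norm_of_nonneg hκ0.le, mul_assoc]
    rw [h5]
    have h6 := hG n hn (M.comp (toLin' (A⁻¹)ᵀ))
    simp only [LP.comp_apply'] at h6
    have h7 : ∫ x, M ((A⁻¹)ᵀ *ᵥ x) * gd x ≤ CG * Real.sqrt L * (n * (CK * L)) :=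
      h6.trans (mul_le_mul_of_nonneg_left h4 (by positivity))
    calc κ * ∫ x, M ((A⁻¹)ᵀ *ᵥ x) * gd x ≤ κ * (CG * Real.sqrt L * (n * (CK * L))) :=
          mul_le_mul_of_nonneg_left h7 hκ0.le
      _ = 8 * CG ^ 2 * CK * n * ((Real.sqrt L * Real.sqrt L) * L) := by rw [hκ]; ring
      _ = 8 * CG ^ 2 * CK * n * L ^ 2 := by rw [hss]; ring

end Pool.Agent.Work.MP_b10815_co_flt

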