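import Pool.Agent.Work.MP_b10815_co_flt.RECaux
set_option autoImplicit false
set_option linter.unusedSectionVars false

namespace Pool.Agent.Work.MP_b10815_co_flt

open MeasureTheory Matrix

namespace REC

/-- covering factor -/
def gfac (n : ℕ) : ℝ := 2 * (Nat.log 2 n + 1)

def CovProp (F : ℝ) (n : ℕ) : Prop := ∀ K : Set (Fin n → ℝ), IsCompact K → Convex ℝ K →
  (interior K).Nonempty →
  (∀ z : Fin n → ℤ, z ≠ 0 → ∃ x ∈ K, ∃ y ∈ K, F < zc z ⬝ᵥ x - zc z ⬝ᵥ y) →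
  ∀ u : Fin n → ℝ, ∃ z : Fin n → ℤ, ∃ x ∈ K, u + zc z = (gfac n) • x

lemma gfac_mono {k n : ℕ} (h : k ≤ n) : gfac k ≤ gfac n := by
  unfold gfac
  have : (Nat.log 2 k : ℝ) ≤ Nat.log 2 n := by exact_mod_cast Nat.log_mono_right h
  linarith

lemma two_le_gfac (n : ℕ) : 2 ≤ gfac n := by
  unfold gfac
  have : (0 : ℝ) ≤ Nat.log 2 n := Nat.cast_nonneg _
  linarith

lemma gfac_step {k n : ℕ} (hk : 1 ≤ k) (h : 2 * k ≤ n) : gfac k + 2 ≤ gfac n := by
  unfold gfac
  have h1 : Nat.log 2 (2 * k) = Nat.log 2 k + 1 := by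
    rw [mul_comm]
    exact Nat.log_mul_base (by norm_num) (by omega)
  have h2 : Nat.log 2 k + 1 ≤ Nat.log 2 n := by
    rw [← h1]; exact Nat.log_mono_right h
  have h3 : (Nat.log 2 k : ℝ) + 1 ≤ Nat.log 2 n := by exact_mod_cast h2
  linarith

/-- membership in a dilate of a convex set containing `0` -/
lemma mem_dilate {ι : Type} (K : Set (ι → ℝ)) (hK : Convex ℝ K) (h0 : (0 : ι → ℝ) ∈ K) {s t : ℝ}
    (hs : 0 ≤ s) (hst : s ≤ t) (ht : 0 < t) {x : ι → ℝ} (hx : x ∈ K) :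
    ∃ y ∈ K, s • x = t • y := by
  refine ⟨(s / t) • x, ?_, ?_⟩
  · have h1 : 0 ≤ s / t := div_nonneg hs ht.le
    have h2 : s / t ≤ 1 := (div_le_one ht).2 hst
    have := hK hx h0 h1 (by linarith : 0 ≤ 1 - s / t) (by ring)
    simpa using this
  · rw [smul_smul, mul_div_cancel₀ _ ht.ne']

/-- sum of dilates -/
lemma add_dilate {ι : Type} (K : Set (ι → ℝ)) (hK : Convex ℝ K) {s t : ℝ}
    (hs : 0 ≤ s) (ht : 0 ≤ t) (hst : 0 < s + t) {x y : ι → ℝ} (hx : x ∈ K) (hy : y ∈ K) :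
    ∃ w ∈ K, s • x + t • y = (s + t) • w := by
  refine ⟨(s / (s + t)) • x + (t / (s + t)) • y, ?_, ?_⟩
  · refine hK hx hy (div_nonneg hs hst.le) (div_nonneg ht hst.le) ?_
    rw [← add_div, div_self hst.ne']
  · rw [smul_add, smul_smul, smul_smul, mul_div_cancel₀ _ hst.ne', mul_div_cancel₀ _ hst.ne']

section Trans

variable {n k l : ℕ} (U : Matrix (Fin n) (Fin k ⊕ Fin l) ℤ)
  (V : Matrix (Fin k ⊕ Fin l) (Fin n) ℤ) (h1 : U * V = 1) (h2 : V * U = 1)

include h1 h2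

lemma uv : cR U * cR V = 1 := by rw [← LatAux.cR_mul, h1, LatAux.cR_one]

lemma vu : cR V * cR U = 1 := by rw [← LatAux.cR_mul, h2, LatAux.cR_one]

/-- primal transformation -/
noncomputable def Lp : (Fin n → ℝ) ≃ₗ[ℝ] (Fin k ⊕ Fin l → ℝ) where
  toFun v := (cR U)ᵀ *ᵥ v
  map_add' a b := mulVec_add _ _ _
  map_smul' c a := mulVec_smul _ _ _
  invFun w := (cR V)ᵀ *ᵥ w
  left_inv v := by
    change (cR V)ᵀ *ᵥ ((cR U)ᵀ *ᵥ v) = v
    rw [mulVec_mulVec, ← transpose_mul, uv U V h1 h2, transpose_one, one_mulVec]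
  right_inv w := by
    change (cR U)ᵀ *ᵥ ((cR V)ᵀ *ᵥ w) = w
    rw [mulVec_mulVec, ← transpose_mul, vu U V h1 h2, transpose_one, one_mulVec]

/-- dual transformation -/
noncomputable def Ld : (Fin k ⊕ Fin l → ℝ) ≃ₗ[ℝ] (Fin n → ℝ) where
  toFun v := cR U *ᵥ v
  map_add' a b := mulVec_add _ _ _
  map_smul' c a := mulVec_smul _ _ _
  invFun w := cR V *ᵥ w
  left_inv v := by
    change cR V *ᵥ (cR U *ᵥ v) = v
    rw [mulVec_mulVec, vu U V h1 h2, one_mulVec]
  right_inv w := by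
    change cR U *ᵥ (cR V *ᵥ w) = w
    rw [mulVec_mulVec, uv U V h1 h2, one_mulVec]

lemma gram_inv (H : Matrix (Fin n) (Fin n) ℝ) (hH : IsUnit H.det) :
    (gram H U)⁻¹ = cR V * H⁻¹ * (cR V)ᵀ := by
  apply Matrix.inv_eq_left_inv
  unfold gram
  have e1 : cR V * H⁻¹ * (cR V)ᵀ * ((cR U)ᵀ * H * cR U) =
      cR V * (H⁻¹ * ((cR V)ᵀ * (cR U)ᵀ) * H) * cR U := by
    simp only [Matrix.mul_assoc]
  rw [e1, ← transpose_mul, uv U V h1 h2, transpose_one, Matrix.mul_one, nonsing_inv_mul H hH,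
    Matrix.mul_one,
    vu U V h1 h2]

lemma qf_primal (H : Matrix (Fin n) (Fin n) ℝ) (hH : IsUnit H.det) (v : Fin n → ℝ) :
    qf (gram H U)⁻¹ ((Lp U V h1 h2) v) = qf H⁻¹ v := by
  rw [gram_inv U V h1 h2 H hH]
  change ((cR U)ᵀ *ᵥ v) ⬝ᵥ ((cR V * H⁻¹ * (cR V)ᵀ) *ᵥ ((cR U)ᵀ *ᵥ v)) = v ⬝ᵥ (H⁻¹ *ᵥ v)
  have e1 : (cR V * H⁻¹ * (cR V)ᵀ) *ᵥ ((cR U)ᵀ *ᵥ v) = cR V *ᵥ (H⁻¹ *ᵥ v) := by
    rw [mulVec_mulVec, Matrix.mul_assoc, ← transpose_mul, uv U V h1 h2, transpose_one,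
      Matrix.mul_one,
      mulVec_mulVec]
  rw [e1, mulVec_transpose, ← dotProduct_mulVec, mulVec_mulVec, uv U V h1 h2, one_mulVec]

lemma dual_pair (c : Fin k → ℤ) (v : Fin n → ℝ) :
    zc (U *ᵥ Sum.elim c 0) ⬝ᵥ v = zc c ⬝ᵥ (((Lp U V h1 h2) v) ∘ Sum.inl) := by
  rw [← LatAux.cR_mulVec_zc]
  change _ = zc c ⬝ᵥ (((cR U)ᵀ *ᵥ v) ∘ Sum.inl)
  rw [dotProduct_comm, dotProduct_mulVec, ← mulVec_transpose]
  rw [dotProduct, Fintype.sum_sum_type]
  simp [dotProduct, zc, mul_comm]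

lemma dual_ne (c : Fin k → ℤ) (hc : c ≠ 0) : U *ᵥ Sum.elim c 0 ≠ 0 := by
  intro h
  have h3 : V *ᵥ (U *ᵥ Sum.elim c 0) = Sum.elim c 0 := by rw [mulVec_mulVec, h2, one_mulVec]
  rw [h, mulVec_zero] at h3
  apply hc
  funext i
  exact (congrFun h3 (Sum.inl i)).symm

lemma supp_dual (K : Set (Fin n → ℝ)) (c : Fin k ⊕ Fin l → ℝ) :
    supp ((Lp U V h1 h2) '' K) c = supp K ((Ld U V h1 h2) c) := by
  unfold supp
  congr 1
  ext t
  constructor
  · rintro ⟨w, ⟨v, hv, rfl⟩, rfl⟩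
    refine ⟨v, hv, ?_⟩
    change (cR U *ᵥ c) ⬝ᵥ v = c ⬝ᵥ ((cR U)ᵀ *ᵥ v)
    rw [dotProduct_mulVec, vecMul_transpose]
  · rintro ⟨v, hv, rfl⟩
    refine ⟨_, ⟨v, hv, rfl⟩, ?_⟩
    change c ⬝ᵥ ((cR U)ᵀ *ᵥ v) = (cR U *ᵥ c) ⬝ᵥ v
    rw [dotProduct_mulVec, vecMul_transpose]

end Trans

/-- the core step, for a centred body -/
theorem core (hJEN : Stmt_JEN) (hNRM : Stmt_NRM) (hQUO : Stmt_QUO) (hBLK : Stmt_BLK)
    (hCOV : Stmt_COV) (C1 C2 C3 : ℝ) (hC1 : 0 < C1) (hC2 : 1 ≤ C2) (hC3 : 1 ≤ C3)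
    (hLP : ∀ n : ℕ, 1 ≤ n → ∀ N : Seminorm ℝ (Fin n → ℝ), IsNorm N →
      ∃ A : Matrix (Fin n) (Fin n) ℝ, IsUnit A.det ∧ ∫ x, N (A *ᵥ x) * gd x ≤ 1 / 8 ∧
      ∫ x, dualN N ((A⁻¹)ᵀ *ᵥ x) * gd x ≤ C1 * n * Real.log (n + 1) ^ 2)
    (hRM : ∀ n : ℕ, 1 ≤ n → ∀ H : Matrix (Fin n) (Fin n) ℝ, H.PosDef →
      SubDet H ((C2 * Real.log (n + 1) ^ 3) ^ 2) →
      ∑' z : Fin n → ℤ, Real.exp (-Real.pi * qf H (zc z)) ≤ 3 / 2)
    (hCON : ∀ d e : ℕ, 1 ≤ d → e ≤ d →
      ∀ K : Set (Fin d ⊕ Fin e → ℝ), IsCompact K → Convex ℝ K → (interior K).Nonempty →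
      volume.real K ≤ 2 ^ (d + e) * volume.real (K ∩ {x | -x ∈ K}) →
      ∀ H : Matrix (Fin d ⊕ Fin e) (Fin d ⊕ Fin e) ℝ, H.PosDef → ∀ a τ : ℝ, 0 < a → 0 < τ →
      ∫ y, supp (K ∩ {x | -x ∈ K}) y * gH H y ≤ a * (d + e) →
      H.toBlocks₁₁.det ≤ τ ^ (2 * d) →
      ∃ c : Fin d → ℤ, c ≠ 0 ∧ ∀ x ∈ K, ∀ y ∈ K,
        (zc c) ⬝ᵥ (x ∘ Sum.inl) - (zc c) ⬝ᵥ (y ∘ Sum.inl) ≤ C3 * d * Real.log (d + 1) ^ 2 * a * τ)
    (m n : ℕ) (hn : 1 ≤ n) (hnm : n ≤ m) (F : ℝ)
    (hF : C3 * C1 * C2 * m * Real.log (m + 1) ^ 7 ≤ F)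
    (hIH : ∀ k, 1 ≤ k → k < n → CovProp F k)
    (K : Set (Fin n → ℝ)) (hKc : IsCompact K) (hKv : Convex ℝ K) (hKi : (interior K).Nonempty)
    (hvol : volume.real K ≤ 2 ^ n * volume.real (K ∩ {x | -x ∈ K}))
    (hw : ∀ z : Fin n → ℤ, z ≠ 0 → ∃ x ∈ K, ∃ y ∈ K, F < zc z ⬝ᵥ x - zc z ⬝ᵥ y)
    (u : Fin n → ℝ) : ∃ z : Fin n → ℤ, ∃ x ∈ K, u + zc z = (gfac n) • x := by
  classical
  -- logs
  have hm1 : 1 ≤ m := hn.trans hnm
  have hlogm : 0 < Real.log (m + 1) := Real.log_pos (by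
    have : (1 : ℝ) ≤ m := by exact_mod_cast hm1
    linarith)
  have hlogn : 0 < Real.log (n + 1) := Real.log_pos (by
    have : (1 : ℝ) ≤ n := by exact_mod_cast hn
    linarith)
  have hlog_mono : ∀ a b : ℕ, a ≤ b → Real.log ((a : ℝ) + 1) ≤ Real.log ((b : ℝ) + 1) := by
    intro a b hab
    apply Real.log_le_log (by positivity)
    have : (a : ℝ) ≤ b := by exact_mod_cast hab
    linarith
  have hlog_nn : ∀ a : ℕ, 0 ≤ Real.log ((a : ℝ) + 1) := by
    intro a
    apply Real.log_nonneg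
    have : (0 : ℝ) ≤ a := Nat.cast_nonneg a
    linarith
  -- the symmetric body
  set K' : Set (Fin n → ℝ) := K ∩ {x | -x ∈ K} with hK'
  have hK'c : IsCompact K' := by
    refine hKc.inter_right ?_
    exact hKc.isClosed.preimage continuous_neg
  have hK'v : Convex ℝ K' := by
    refine hKv.inter ?_
    intro x hx y hy a b ha hb hab
    have := hKv hx hy ha hb hab
    change -(a • x + b • y) ∈ K
    have e : -(a • x + b • y) = a • (-x) + b • (-y) := by module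
    rw [e]; exact this
  have hK's : ∀ x ∈ K', -x ∈ K' := fun x hx => ⟨hx.2, by
    change - -x ∈ K
    rw [neg_neg]; exact hx.1⟩
  have hK'vol : 0 < volume.real K' := by
    have h1 := pos_of_interior K hKc hKi
    by_contra hneg
    push Not at hneg
    have h2 : (2 : ℝ) ^ n * volume.real K' ≤ 0 := mul_nonpos_of_nonneg_of_nonpos (by positivity) hneg
    linarith
  have hK'i := interior_of_pos K' hK'v hK'vol
  obtain ⟨N, hN, hNK⟩ := (hNRM (Fin n)).1 K' hK'c hK'v hK's hK'i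
  have h0K' : (0 : Fin n → ℝ) ∈ K' := by
    rw [← hNK]
    change N 0 ≤ 1
    rw [map_zero]; norm_num
  obtain ⟨A, hA, hA1, hA2⟩ := hLP n hn N hN
  -- Gram matrices
  set H : Matrix (Fin n) (Fin n) ℝ := A * Aᵀ with hH
  have hHB : H = (Aᵀ)ᵀ * Aᵀ := by rw [transpose_transpose]
  have hAt : IsUnit (Aᵀ).det := by rwa [det_transpose]
  have hAi : IsUnit (A⁻¹).det := isUnit_nonsing_inv_det A hA
  have hHpd : H.PosDef := by
    have hinj : Function.Injective (Aᵀ).mulVec := by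
      rw [Matrix.mulVec_injective_iff_isUnit, Matrix.isUnit_iff_isUnit_det]
      exact hAt
    have := PosDef.conjTranspose_mul_self (Aᵀ) hinj
    rw [conjTranspose_eq_transpose_of_trivial] at this
    rw [hHB]; exact this
  have hHu : IsUnit H.det := isUnit_iff_ne_zero.2 hHpd.det_pos.ne'
  have hHi : H⁻¹ = (A⁻¹)ᵀ * A⁻¹ := by
    rw [hH, Matrix.mul_inv_rev, transpose_nonsing_inv]
  have hPpd : (H⁻¹).PosDef := hHpd.inv
  have hprimal : ∫ v, N v * gH H⁻¹ v ≤ 1 / 8 := by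
    rw [hHi, GB.change (A⁻¹) hAi (fun v => N v), nonsing_inv_nonsing_inv A hA]
    exact hA1
  have hdual : ∫ y, supp K' y * gH H y ≤ C1 * n * Real.log (n + 1) ^ 2 := by
    have h1 : ∀ y, supp K' y = dualN N y := by
      intro y; unfold dualN; rw [hNK]
    simp only [h1]
    rw [hHB, GB.change (Aᵀ) hAt (fun y => dualN N y)]
    have h2 : (Aᵀ)⁻¹ = (A⁻¹)ᵀ := by rw [transpose_nonsing_inv]
    rw [h2]
    exact hA2
  -- destabilising sublattice
  set τ : ℝ := C2 * Real.log (m + 1) ^ 3 with hτ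
  have hτpos : 0 < τ := by positivity
  obtain ⟨k, l, hkl, U, ⟨V, h1, h2⟩, hdet, hsub⟩ := hQUO n H hHpd (τ ^ 2) (by positivity)
  set L := Lp U V h1 h2 with hL
  set H' := gram H U with hH'
  have hUfull : FullRank U := LatAux.unimod_fullRank ⟨V, h1, h2⟩
  have hH'pd : H'.PosDef := LatAux.gram_posDef hHpd hUfull
  have hH'u : IsUnit H'.det := isUnit_iff_ne_zero.2 hH'pd.det_pos.ne'
  -- transformed body
  set Kt : Set (Fin k ⊕ Fin l → ℝ) := L '' K with hKt
  have hLcont : Continuous L := L.toLinearMap.continuous_of_finiteDimensional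
  have hLscont : Continuous L.symm := L.symm.toLinearMap.continuous_of_finiteDimensional
  have hKtc : IsCompact Kt := hKc.image hLcont
  have hKtv : Convex ℝ Kt := hKv.linear_image L.toLinearMap
  have hKtp : ∀ S : Set (Fin n → ℝ), L ⁻¹' (L '' S) = S := fun S =>
    L.injective.preimage_image S
  have hKt' : Kt ∩ {x | -x ∈ Kt} = L '' K' := by
    ext w
    constructor
    · rintro ⟨⟨v, hv, rfl⟩, ⟨v', hv', hvv⟩⟩
      refine ⟨v, ⟨hv, ?_⟩, rfl⟩
      have : v' = -v := by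
        apply L.injective
        rw [hvv, map_neg]
      change -v ∈ K
      rw [← this]; exact hv'
    · rintro ⟨v, ⟨hv, hv'⟩, rfl⟩
      exact ⟨⟨v, hv, rfl⟩, ⟨-v, hv', map_neg L v⟩⟩
  obtain ⟨cc, hcc, hscale⟩ := scale_real L
  have hvt : volume.real Kt ≤ 2 ^ (k + l) * volume.real (Kt ∩ {x | -x ∈ Kt}) := by
    have e1 := hscale Kt hKtc.measurableSet
    have e2 := hscale (L '' K') (hK'c.image hLcont).measurableSet
    rw [hKtp] at e1 e2
    rw [hKt', hkl]
    rw [e1, e2] at hvol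
    have : cc * volume.real Kt ≤ cc * (2 ^ n * volume.real (L '' K')) := by linarith
    exact le_of_mul_le_mul_left this hcc
  have hKti : (interior Kt).Nonempty := by
    apply interior_of_pos Kt hKtv
    have e1 := hscale Kt hKtc.measurableSet
    rw [hKtp] at e1
    have := pos_of_interior K hKc hKi
    rw [e1] at this
    exact (pos_iff_pos_of_mul_pos this).1 hcc
  -- widths in the new coordinates
  have hwt : ∀ c : Fin k → ℤ, c ≠ 0 → ∃ x ∈ Kt, ∃ y ∈ Kt,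
      F < zc c ⬝ᵥ (x ∘ Sum.inl) - zc c ⬝ᵥ (y ∘ Sum.inl) := by
    intro c hc
    obtain ⟨x, hx, y, hy, hxy⟩ := hw _ (dual_ne U V h1 h2 c hc)
    rw [dual_pair U V h1 h2, dual_pair U V h1 h2] at hxy
    exact ⟨L x, ⟨x, hx, rfl⟩, L y, ⟨y, hy, rfl⟩, hxy⟩
  have hlkn : (k : ℝ) + l = n := by exact_mod_cast hkl
  by_cases hcase : l ≤ k
  · -- contradiction
    exfalso
    have hk1 : 1 ≤ k := by omega
    have hdualt : ∫ y, supp (Kt ∩ {x | -x ∈ Kt}) y * gH H' y ≤
        (C1 * Real.log (n + 1) ^ 2) * (k + l) := by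
      rw [hKt']
      have e1 : ∀ c, supp (L '' K') c = supp K' ((Ld U V h1 h2) c) := supp_dual U V h1 h2 K'
      simp only [e1]
      rw [transport (Ld U V h1 h2) H' H hH'pd hHpd (fun v => ?_) (fun y => supp K' y), hlkn]
      · linarith
      · exact (LatAux.gram_qf H U v).symm
    obtain ⟨c, hc, hcw⟩ := hCON k l hk1 hcase Kt hKtc hKtv hKti hvt H' hH'pd
      (C1 * Real.log (n + 1) ^ 2) τ (by positivity) hτpos hdualt (by
        rw [pow_mul]; exact hdet)
    obtain ⟨x, hx, y, hy, hxy⟩ := hwt c hc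
    have h3 := hcw x hx y hy
    have hkm : (k : ℝ) ≤ m := by exact_mod_cast (by omega : k ≤ m)
    have hlk : Real.log ((k : ℝ) + 1) ≤ Real.log (m + 1) := hlog_mono k m (by omega)
    have hln : Real.log ((n : ℝ) + 1) ≤ Real.log (m + 1) := hlog_mono n m hnm
    have h4 : C3 * k * Real.log (k + 1) ^ 2 * (C1 * Real.log (n + 1) ^ 2) * τ ≤
        C3 * m * Real.log (m + 1) ^ 2 * (C1 * Real.log (m + 1) ^ 2) * τ := by
      have := hlog_nn k
      gcongr
    have h5 : C3 * m * Real.log (m + 1) ^ 2 * (C1 * Real.log (m + 1) ^ 2) * τ =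
        C3 * C1 * C2 * m * Real.log (m + 1) ^ 7 := by
      rw [hτ]; ring
    linarith
  · -- covering
    push Not at hcase
    have hl1 : 1 ≤ l := by omega
    obtain ⟨-, hSpd, -, hinv22, -, -⟩ := hBLK (Fin k) (Fin l) H' hH'pd
    set S := schur H' with hS
    have hRMS : ∑' z : Fin l → ℤ, Real.exp (-Real.pi * qf S (zc z)) ≤ 3 / 2 := by
      apply hRM l hl1 S hSpd
      intro j Z hZ
      refine le_trans ?_ (hsub j Z hZ)
      apply pow_le_pow_left₀ (by positivity)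
      have : Real.log ((l : ℝ) + 1) ≤ Real.log (m + 1) := hlog_mono l m (by omega)
      have := hlog_nn l
      rw [hτ]
      gcongr
    have hSu : IsUnit S.det := isUnit_iff_ne_zero.2 hSpd.det_pos.ne'
    -- norm of the transformed symmetric body
    let Nt : Seminorm ℝ (Fin k ⊕ Fin l → ℝ) := N.comp L.symm.toLinearMap
    have hNt : ∀ w, Nt w = N (L.symm w) := fun w => rfl
    have hNtK : ∀ w, Nt w ≤ 1 → w ∈ L '' K' := by
      intro w hw1
      refine ⟨L.symm w, ?_, L.apply_symm_apply w⟩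
      rw [← hNK]
      exact hw1
    let emb : (Fin l → ℝ) →ₗ[ℝ] (Fin k ⊕ Fin l → ℝ) :=
      { toFun := fun g => (Sum.elim 0 g : Fin k ⊕ Fin l → ℝ)
        map_add' := fun a b => by
          funext i; rcases i with i | i <;> simp
        map_smul' := fun c a => by
          funext i; rcases i with i | i <;> simp }
    let N0 : Seminorm ℝ (Fin l → ℝ) := Nt.comp emb
    have hN0 : ∀ g, N0 g = Nt (Sum.elim 0 g) := fun g => rfl
    have hJ := (hJEN (Fin k) (Fin l) H'⁻¹ Nt hH'pd.inv).1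
    rw [hinv22] at hJ
    have hT : ∫ w, Nt w * gH H'⁻¹ w ≤ 1 / 8 := by
      rw [← transport L H⁻¹ H'⁻¹ hPpd hH'pd.inv (fun v => qf_primal U V h1 h2 H hHu v)
        (fun w => Nt w)]
      have : ∀ v, Nt (L v) = N v := fun v => by rw [hNt, L.symm_apply_apply]
      simp only [this]
      exact hprimal
    have hN0int : ∫ g, N0 g * gH S⁻¹ g ≤ 1 / 8 := hJ.trans hT
    have hmass := markov N0 S⁻¹ hSpd.inv hN0int
    have hmeas : MeasurableSet {g : Fin l → ℝ | N0 g ≤ 1} :=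
      measurableSet_le (GB.seminorm_continuous N0).measurable measurable_const
    have hcov := hCOV l S⁻¹ hSpd.inv (by rw [nonsing_inv_nonsing_inv S hSu]; exact hRMS)
      {g : Fin l → ℝ | N0 g ≤ 1} hmeas hmass
    have hsubK : ∀ g : Fin l → ℝ, N0 g ≤ 1 → (Sum.elim 0 g : Fin k ⊕ Fin l → ℝ) ∈ Kt := by
      intro g hg
      obtain ⟨v, hv, hvw⟩ := hNtK _ hg
      exact ⟨v, hv.1, hvw⟩
    have h0Kt : (0 : Fin k ⊕ Fin l → ℝ) ∈ Kt := ⟨0, h0K'.1, map_zero L⟩
    -- it suffices to cover in the new coordinates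
    suffices hsuff : ∃ z : Fin k ⊕ Fin l → ℤ, ∃ x ∈ Kt, L u + zc z = (gfac n) • x by
      obtain ⟨z, x, ⟨x0, hx0, rfl⟩, hzx⟩ := hsuff
      refine ⟨Vᵀ *ᵥ z, x0, hx0, ?_⟩
      apply L.injective
      rw [map_add, map_smul, ← hzx]
      congr 1
      change (cR U)ᵀ *ᵥ zc (Vᵀ *ᵥ z) = zc z
      rw [← LatAux.cR_mulVec_zc, LatAux.cR_transpose, mulVec_mulVec, ← transpose_mul,
        vu U V h1 h2, transpose_one, one_mulVec]
    -- gather
    have hfin : ∀ (s : ℝ) (w : Fin k ⊕ Fin l → ℝ), 0 ≤ s → s + 2 ≤ gfac n → w ∈ Kt →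
        ∀ z1 : Fin k → ℤ, (L u) ∘ Sum.inl + zc z1 = s • (w ∘ Sum.inl) →
        ∃ z : Fin k ⊕ Fin l → ℤ, ∃ x ∈ Kt, L u + zc z = (gfac n) • x := by
      intro s w hs hs2 hwK z1 hz1
      obtain ⟨z2, x, hx, y, hy, hxy⟩ := hcov ((L u) ∘ Sum.inr - s • (w ∘ Sum.inr))
      obtain ⟨p, hp, hpe⟩ := add_dilate Kt hKtv (s := 1) (t := 1) zero_le_one zero_le_one
        (by norm_num) (hsubK x hx) (hsubK y hy)
      obtain ⟨q, hq, hqe⟩ := add_dilate Kt hKtv (s := s) (t := 1 + 1) hs (by norm_num)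
        (by linarith) hwK hp
      obtain ⟨r, hr, hre⟩ := mem_dilate Kt hKtv h0Kt (s := s + (1 + 1)) (t := gfac n)
        (by linarith) (by linarith) (by have := two_le_gfac n; linarith) hq
      refine ⟨Sum.elim z1 z2, r, hr, ?_⟩
      rw [← hre, ← hqe, ← hpe]
      funext i
      rcases i with i | i
      · have := congrFun hz1 i
        simp only [Pi.add_apply, Function.comp_apply, Pi.smul_apply, smul_eq_mul, zc,
          Sum.elim_inl, Pi.zero_apply] at this ⊢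
        linarith
      · have := congrFun hxy i
        simp only [Pi.add_apply, Pi.sub_apply, Function.comp_apply, Pi.smul_apply, smul_eq_mul, zc,
          Sum.elim_inr] at this ⊢
        linarith
    by_cases hk0 : k = 0
    · subst hk0
      refine hfin 0 0 le_rfl (by have := two_le_gfac n; linarith) h0Kt 0 ?_
      funext i
      exact i.elim0
    · have hk1 : 1 ≤ k := Nat.one_le_iff_ne_zero.2 hk0
      have hkn : k < n := by omega
      -- projection
      let pr : (Fin k ⊕ Fin l → ℝ) →ₗ[ℝ] (Fin k → ℝ) :=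
        { toFun := fun w => w ∘ Sum.inl
          map_add' := fun a b => rfl
          map_smul' := fun c a => rfl }
      have hprc : Continuous pr := pr.continuous_of_finiteDimensional
      have hprs : Function.Surjective pr := fun g => ⟨Sum.elim g 0, by
        funext i; rfl⟩
      have hprop := hIH k hk1 hkn (pr '' Kt) (hKtc.image hprc) (hKtv.linear_image pr) (by
        obtain ⟨w, hwi⟩ := hKti
        have hopen : IsOpenMap pr := by
          have : IsOpenMap (LinearMap.toContinuousLinearMap pr) :=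
            (LinearMap.toContinuousLinearMap pr).isOpenMap hprs
          exact this
        refine ⟨pr w, ?_⟩
        exact hopen.image_interior_subset Kt ⟨w, hwi, rfl⟩) (by
        intro c hc
        obtain ⟨x, hx, y, hy, hxy⟩ := hwt c hc
        exact ⟨pr x, ⟨x, hx, rfl⟩, pr y, ⟨y, hy, rfl⟩, hxy⟩) ((L u) ∘ Sum.inl)
      obtain ⟨z1, p, ⟨w, hwK, rfl⟩, hz1⟩ := hprop
      refine hfin (gfac k) w (by have := two_le_gfac k; linarith) ?_ hwK z1 hz1
      exact gfac_step hk1 (by omega)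

end REC

open REC in
theorem stmt_REC (hJEN : Stmt_JEN) (hNRM : Stmt_NRM) (hQUO : Stmt_QUO) (hBLK : Stmt_BLK)
    (hCOV : Stmt_COV) (hLP : Stmt_LP) (hRM : Stmt_RM) (hCON : Stmt_CON) (hVOL : Stmt_VOL1) :
    Stmt_REC := by
  obtain ⟨C1, hC1, hLP⟩ := hLP
  obtain ⟨C2, hC2, hRM⟩ := hRM
  obtain ⟨C3, hC3, hCON⟩ := hCON
  refine ⟨max 1 (C3 * C1 * C2), le_max_left _ _, ?_⟩
  intro m n
  set F : ℝ := max 1 (C3 * C1 * C2) * m * Real.log (m + 1) ^ 7 with hFdef
  have hF : C3 * C1 * C2 * m * Real.log (m + 1) ^ 7 ≤ F := by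
    have h1 : 0 ≤ Real.log ((m : ℝ) + 1) := by
      apply Real.log_nonneg
      have : (0 : ℝ) ≤ m := Nat.cast_nonneg m
      linarith
    rw [hFdef]
    gcongr
    exact le_max_right _ _
  have main : 1 ≤ n → n ≤ m → CovProp F n := by
    induction n using Nat.strong_induction_on with
    | _ n ih =>
      intro hn hnm K hKc hKv hKi hw u
      obtain ⟨c, hcK, hcvol⟩ := hVOL (Fin n) K hKc hKv hKi
      -- centre
      let K0 : Set (Fin n → ℝ) := (fun x => x + c) ⁻¹' K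
      have hK0 : ∀ x, x ∈ K0 ↔ x + c ∈ K := fun x => Iff.rfl
      have hcont : Continuous (fun x : Fin n → ℝ => x + c) := continuous_id.add continuous_const
      have hK0im : K0 = (fun x => x + (-c)) '' K := by
        ext x
        constructor
        · intro hx
          exact ⟨x + c, hx, by simp⟩
        · rintro ⟨y, hy, rfl⟩
          change y + -c + c ∈ K
          simpa using hy
      have hK0c : IsCompact K0 := by
        rw [hK0im]
        exact hKc.image (continuous_id.add continuous_const)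
      have hK0v : Convex ℝ K0 := hKv.translate_preimage_left c
      have hvol0 : volume.real K0 = volume.real K := by
        rw [Measure.real, Measure.real]
        congr 1
        exact measure_preimage_add_right volume c K
      have hK0i : (interior K0).Nonempty := by
        apply interior_of_pos K0 hK0v
        rw [hvol0]
        exact pos_of_interior K hKc hKi
      have hvol1 : volume.real (K0 ∩ {x | -x ∈ K0}) =
          volume.real (K ∩ {x | (2 : ℝ) • c - x ∈ K}) := by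
        rw [Measure.real, Measure.real]
        congr 1
        rw [← measure_preimage_add_right volume c (K ∩ {x | (2 : ℝ) • c - x ∈ K})]
        congr 1
        ext x
        have e : (2 : ℝ) • c - (x + c) = -x + c := by module
        constructor
        · rintro ⟨h1, h2⟩
          refine ⟨h1, ?_⟩
          change (2 : ℝ) • c - (x + c) ∈ K
          rw [e]; exact h2
        · rintro ⟨h1, h2⟩
          refine ⟨h1, ?_⟩
          change (2 : ℝ) • c - (x + c) ∈ K at h2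
          rw [e] at h2
          exact h2
      have hvol2 : volume.real K0 ≤ 2 ^ n * volume.real (K0 ∩ {x | -x ∈ K0}) := by
        rw [hvol0, hvol1]
        simpa using hcvol
      have hw0 : ∀ z : Fin n → ℤ, z ≠ 0 → ∃ x ∈ K0, ∃ y ∈ K0,
          F < zc z ⬝ᵥ x - zc z ⬝ᵥ y := by
        intro z hz
        obtain ⟨x, hx, y, hy, hxy⟩ := hw z hz
        refine ⟨x - c, by rw [hK0]; simpa using hx, y - c, by rw [hK0]; simpa using hy, ?_⟩
        rw [dotProduct_sub, dotProduct_sub]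
        linarith
      obtain ⟨z, x, hx, hzx⟩ := core hJEN hNRM hQUO hBLK hCOV C1 C2 C3 hC1 hC2 hC3 hLP hRM hCON
        m n hn hnm F hF (fun k hk1 hkn => ih k hkn hk1 (by omega)) K0 hK0c hK0v hK0i hvol2 hw0
        (u - gfac n • c)
      refine ⟨z, x + c, hx, ?_⟩
      rw [smul_add, ← hzx]
      abel
  intro hn hnm K hKc hKv hKi hw u
  exact main hn hnm K hKc hKv hKi hw u

theorem stmt_FLAT (hREC : Stmt_REC) : Stmt_FLAT := by
  obtain ⟨C, hC, h⟩ := hREC
  refine ⟨8 * C, by linarith, ?_⟩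
  intro n hn K hKv hKc hKi hz
  by_contra hcon
  push Not at hcon
  set g : ℝ := REC.gfac n with hg
  have hg2 : 2 ≤ g := REC.two_le_gfac n
  have hgpos : 0 < g := by linarith
  have hn1 : (1 : ℝ) ≤ n := by exact_mod_cast hn
  have hlog : 0 < Real.log ((n : ℝ) + 1) := Real.log_pos (by linarith)
  -- g ≤ 8 log (n+1)
  have hgl : g ≤ 8 * Real.log (n + 1) := by
    have h1 : (Nat.log 2 n : ℝ) * Real.log 2 ≤ Real.log n := by
      have h2 : (2 : ℝ) ^ Nat.log 2 n ≤ n := by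
        exact_mod_cast Nat.pow_log_le_self 2 (by omega)
      have h3 := Real.log_le_log (by positivity) h2
      rwa [Real.log_pow] at h3
    have h4 : Real.log n ≤ Real.log (n + 1) := Real.log_le_log (by linarith) (by linarith)
    have h5 : Real.log 2 ≤ Real.log (n + 1) := Real.log_le_log (by norm_num) (by linarith)
    have h6 : (0.6931471803 : ℝ) < Real.log 2 := Real.log_two_gt_d9
    rw [hg]
    unfold REC.gfac
    have h7 : (Nat.log 2 n : ℝ) * 0.5 ≤ Real.log (n + 1) := by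
      have : (0 : ℝ) ≤ Nat.log 2 n := Nat.cast_nonneg _
      nlinarith
    have h8 : (0.5 : ℝ) ≤ Real.log (n + 1) := by linarith
    linarith
  -- scaled body
  let K' : Set (Fin n → ℝ) := (fun x => g⁻¹ • x) '' K
  have hK'c : IsCompact K' := hKc.image (continuous_const_smul _)
  have hK'v : Convex ℝ K' := by
    have := hKv.smul g⁻¹
    exact this
  have hK'i : (interior K').Nonempty := by
    have h1 : IsOpenMap (fun x : Fin n → ℝ => g⁻¹ • x) := isOpenMap_smul₀ (inv_ne_zero hgpos.ne')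
    obtain ⟨x, hx⟩ := hKi
    exact ⟨_, h1.image_interior_subset K ⟨x, hx, rfl⟩⟩
  obtain ⟨z, x, ⟨y, hy, rfl⟩, hzx⟩ := h n n hn le_rfl K' hK'c hK'v hK'i (by
    intro z hz0
    obtain ⟨x, hx, y, hy, hxy⟩ := hcon z hz0
    refine ⟨g⁻¹ • x, ⟨x, hx, rfl⟩, g⁻¹ • y, ⟨y, hy, rfl⟩, ?_⟩
    rw [dotProduct_smul, dotProduct_smul, smul_eq_mul, smul_eq_mul, ← mul_sub,
      lt_inv_mul_iff₀ hgpos]
    refine lt_of_le_of_lt ?_ hxy
    calc g * (C * n * Real.log (n + 1) ^ 7) ≤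
          (8 * Real.log (n + 1)) * (C * n * Real.log (n + 1) ^ 7) := by
          apply mul_le_mul_of_nonneg_right hgl
          positivity
      _ = 8 * C * n * Real.log (n + 1) ^ 8 := by ring) 0
  apply hz z
  have e1 : zc z = y := by
    have h2 : (2 * (Nat.log 2 n + 1) : ℝ) = g := rfl
    rw [zero_add, h2] at hzx
    rw [hzx, smul_smul, mul_inv_cancel₀ hgpos.ne', one_smul]
  rw [e1]; exact hy

end Pool.Agent.Work.MP_b10815_co_flt
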