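import Pool.Agent.Work.MP_b10815_co_flt.Interface
set_option autoImplicit false

/-! # Block SAT: saturation of a sublattice and completion to a basis -/

namespace Pool.Agent.Work.MP_b10815_co_flt

open Matrix Module

theorem stmt_SAT : Stmt_SAT := by
  classical
  intro n k Z hZ
  have hinj : Function.Injective Z.mulVecLin := by
    rw [← LinearMap.ker_eq_bot, LinearMap.ker_eq_bot']
    intro v hv
    have h1 : Z *ᵥ v = 0 := hv
    refine Matrix.eq_zero_of_mulVec_eq_zero hZ ?_
    rw [← mulVec_mulVec, h1, mulVec_zero]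
  obtain ⟨m, snf⟩ := (LinearMap.range Z.mulVecLin).smithNormalForm (Pi.basisFun ℤ (Fin n))
  let bZ : Basis (Fin k) ℤ (LinearMap.range Z.mulVecLin) :=
    (Pi.basisFun ℤ (Fin k)).map (LinearEquiv.ofInjective Z.mulVecLin hinj)
  have hm : m = k := by
    have := Fintype.card_congr (snf.bN.indexEquiv bZ)
    simpa using this
  subst hm
  have hcard : Fintype.card {x : Fin n // x ∉ Set.range snf.f} = n - m := by
    rw [Fintype.card_subtype_compl]
    have : Fintype.card {x : Fin n // x ∈ Set.range snf.f} = m := by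
      rw [← Fintype.card_congr (Equiv.ofInjective snf.f snf.f.injective), Fintype.card_fin]
    rw [this, Fintype.card_fin]
  have hle : m ≤ n := by
    have := Fintype.card_le_of_embedding snf.f
    simpa using this
  let e : Fin m ⊕ Fin (n - m) ≃ Fin n :=
    (Equiv.sumCongr (Equiv.ofInjective snf.f snf.f.injective)
      (Fintype.equivFinOfCardEq hcard).symm).trans (Equiv.sumCompl (fun x => x ∈ Set.range snf.f))
  have he : ∀ j : Fin m, e (Sum.inl j) = snf.f j := by
    intro j
    simp [e]
  let b' : Basis (Fin m ⊕ Fin (n - m)) ℤ (Fin n → ℤ) := snf.bM.reindex e.symm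
  have hb' : ∀ j : Fin m, b' (Sum.inl j) = snf.bM (snf.f j) := by
    intro j
    simp [b', he]
  refine ⟨n - m, by omega, (Pi.basisFun ℤ (Fin n)).toMatrix b', ?_, ?_⟩
  · exact ⟨b'.toMatrix (Pi.basisFun ℤ (Fin n)), Basis.toMatrix_mul_toMatrix_flip _ _,
      Basis.toMatrix_mul_toMatrix_flip _ _⟩
  · let C : Matrix (Fin m) (Fin m) ℤ := fun i j => snf.a i * (snf.bN.repr (bZ j)) i
    have hZC : Z = ((Pi.basisFun ℤ (Fin n)).toMatrix b').submatrix id Sum.inl * C := by
      ext i j
      have h1 : ((bZ j : LinearMap.range Z.mulVecLin) : Fin n → ℤ) = fun i => Z i j := by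
        funext i
        simp [bZ, Pi.basisFun_apply]
      have h2 := snf.bN.sum_repr (bZ j)
      have h3 := congrArg (fun x : LinearMap.range Z.mulVecLin => (x : Fin n → ℤ) i) h2
      simp only [h1] at h3
      rw [← h3]
      rw [Submodule.coe_sum, Finset.sum_apply, Matrix.mul_apply]
      refine Finset.sum_congr rfl fun l _ => ?_
      rw [Submodule.coe_smul, snf.snf, submatrix_apply, Basis.toMatrix_apply, hb']
      simp [C]
      ring
    refine ⟨C, ?_, hZC⟩
    intro h0
    apply hZ
    rw [hZC, transpose_mul, Matrix.mul_assoc, det_mul, det_transpose, h0, zero_mul]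

end Pool.Agent.Work.MP_b10815_co_flt
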