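import Pool.Agent.Work.MP_b10815_co_flt.BLK
import Pool.Agent.Work.MP_b10815_co_flt.SAT
import Pool.Agent.Work.MP_b10815_co_flt.POI
set_option autoImplicit false
set_option linter.unusedSectionVars false
set_option linter.style.haveILetI false

/-! # Block RED: reduction theory -/

namespace Pool.Agent.Work.MP_b10815_co_flt

open Matrix

namespace REDaux

open BLKaux

variable {ι κ μ : Type} [Fintype ι] [Fintype κ] [Fintype μ]

theorem cR_mul {α β γ : Type} [Fintype β] (A : Matrix α β ℤ) (B : Matrix β γ ℤ) :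
    cR (A * B) = cR A * cR B := by
  unfold cR
  ext i j
  simp [Matrix.mul_apply]

theorem cR_transpose {α β : Type} (A : Matrix α β ℤ) : cR Aᵀ = (cR A)ᵀ := by
  unfold cR
  ext i j
  simp

theorem gram_mul (H : Matrix ι ι ℝ) (U : Matrix ι κ ℤ) (V : Matrix κ μ ℤ) :
    gram H (U * V) = gram (gram H U) V := by
  unfold gram
  rw [cR_mul, transpose_mul]
  simp only [Matrix.mul_assoc]

theorem gram_transpose {H : Matrix ι ι ℝ} (hs : Hᵀ = H) (U : Matrix ι κ ℤ) :
    (gram H U)ᵀ = gram H U := by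
  unfold gram
  rw [transpose_mul, transpose_mul, transpose_transpose, hs, Matrix.mul_assoc]

/-- diagonal entries of the Gram matrix -/
theorem gram_diag (H : Matrix ι ι ℝ) (U : Matrix ι κ ℤ) (j : κ) :
    gram H U j j = qf H (zc (fun i => U i j)) := by
  unfold gram qf
  rw [Matrix.mul_assoc, Matrix.mul_apply]
  simp only [dotProduct, transpose_apply, zc, cR, map_apply]
  refine Finset.sum_congr rfl fun i _ => ?_
  congr 1

theorem qf_gram (H : Matrix ι ι ℝ) (U : Matrix ι κ ℤ) (z : κ → ℤ) :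
    qf (gram H U) (zc z) = qf H (zc (U *ᵥ z)) := by
  have h1 : zc (U *ᵥ z) = cR U *ᵥ zc z := by
    funext i
    simp [zc, cR, mulVec, dotProduct]
  rw [h1]
  unfold qf gram
  rw [← mulVec_mulVec, ← mulVec_mulVec, dotProduct_mulVec, vecMul_transpose]

theorem unimod_one [DecidableEq ι] : Unimod (1 : Matrix ι ι ℤ) := ⟨1, by simp, by simp⟩

theorem unimod_mul [DecidableEq ι] [DecidableEq κ] [DecidableEq μ] {U : Matrix ι κ ℤ}
    {V : Matrix κ μ ℤ} (hU : Unimod U) (hV : Unimod V) : Unimod (U * V) := by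
  obtain ⟨U', h1, h2⟩ := hU
  obtain ⟨V', h3, h4⟩ := hV
  refine ⟨V' * U', ?_, ?_⟩
  · rw [Matrix.mul_assoc, ← Matrix.mul_assoc V V' U', h3, Matrix.one_mul, h1]
  · rw [Matrix.mul_assoc, ← Matrix.mul_assoc U' U V, h2, Matrix.one_mul, h4]

theorem unimod_reindex [DecidableEq ι] [DecidableEq κ] [DecidableEq μ] {U : Matrix ι κ ℤ}
    (hU : Unimod U) (e : μ ≃ κ) : Unimod (U.submatrix id e) := by
  obtain ⟨V, h1, h2⟩ := hU
  refine ⟨V.submatrix e id, ?_, ?_⟩
  · rw [submatrix_mul_equiv, h1]; simp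
  · have : (V * U).submatrix e e = 1 := by rw [h2]; simp
    rw [← this]
    ext i j
    simp [Matrix.mul_apply]

theorem cR_injective [DecidableEq ι] [DecidableEq κ] {U : Matrix ι κ ℤ} (hU : Unimod U) :
    Function.Injective (cR U).mulVec := by
  obtain ⟨V, h1, h2⟩ := hU
  have h3 : cR V * cR U = 1 := by rw [← cR_mul, h2, cR_one]
  intro x y hxy
  have := congrArg (fun w => cR V *ᵥ w) hxy
  simpa [mulVec_mulVec, h3] using this

theorem mulVec_ne_zero [DecidableEq ι] [DecidableEq κ] {U : Matrix ι κ ℤ} (hU : Unimod U)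
    {z : κ → ℤ} (hz : z ≠ 0) : U *ᵥ z ≠ 0 := by
  obtain ⟨V, h1, h2⟩ := hU
  intro h
  apply hz
  have := congrArg (fun w => V *ᵥ w) h
  simpa [mulVec_mulVec, h2] using this

theorem posDef_gram_of_inj {H : Matrix ι ι ℝ} (hH : H.PosDef) {U : Matrix ι κ ℤ}
    (hU : Function.Injective (cR U).mulVec) : (gram H U).PosDef := by
  have := hH.conjTranspose_mul_mul_same hU
  rwa [conjTranspose_eq_transpose_of_trivial] at this

theorem posDef_gram [DecidableEq ι] [DecidableEq κ] {H : Matrix ι ι ℝ} (hH : H.PosDef)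
    {U : Matrix ι κ ℤ} (hU : Unimod U) : (gram H U).PosDef :=
  posDef_gram_of_inj hH (cR_injective hU)

/-- unimodular changes of variables preserve the determinant -/
theorem det_gram [DecidableEq ι] [DecidableEq κ] (H : Matrix ι ι ℝ) {U : Matrix ι κ ℤ}
    (hU : Unimod U) : (gram H U).det = H.det := by
  have hpos : 0 < ((cR U) * (cR U)ᵀ).det := by
    obtain ⟨V, h1, h2⟩ := hU
    have h3 : cR U * cR V = 1 := by rw [← cR_mul, h1, cR_one]
    have hinj : Function.Injective ((cR U)ᵀ).mulVec := by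
      intro x y hxy
      have := congrArg (fun w => (cR V)ᵀ *ᵥ w) hxy
      simpa [mulVec_mulVec, ← transpose_mul, h3] using this
    have h4 : ((1 : Matrix κ κ ℝ)).PosDef := PosDef.one
    have h5 := h4.conjTranspose_mul_mul_same hinj
    rw [conjTranspose_eq_transpose_of_trivial, transpose_transpose, Matrix.mul_one] at h5
    exact h5.det_pos
  obtain ⟨V, h1, h2⟩ := hU
  have h3 : cR U * cR V = 1 := by rw [← cR_mul, h1, cR_one]
  have h4 : cR V * cR U = 1 := by rw [← cR_mul, h2, cR_one]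
  have h5 : (cR U)ᵀ * (cR V)ᵀ = 1 := by rw [← transpose_mul, h4, transpose_one]
  have h6 : (cR V)ᵀ * (cR U)ᵀ = 1 := by rw [← transpose_mul, h3, transpose_one]
  unfold gram
  rw [Matrix.mul_assoc, Matrix.det_comm' h5 h6, Matrix.mul_assoc, det_mul]
  -- the integer determinant is a unit
  have h7 : (U * Uᵀ).det * (Vᵀ * V).det = 1 := by
    rw [← det_mul, Matrix.mul_assoc, ← Matrix.mul_assoc Uᵀ Vᵀ V, ← transpose_mul, h2,
      transpose_one, Matrix.one_mul, h1, det_one]
  have h8 : ((U * Uᵀ).det : ℝ) = (cR U * (cR U)ᵀ).det := by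
    rw [← cR_transpose, ← cR_mul]
    unfold cR
    have := Int.cast_det (R := ℝ) (U * Uᵀ)
    rw [this]
  have h9 : (U * Uᵀ).det = 1 := by
    have hp : 0 < (U * Uᵀ).det := by
      rw [← h8] at hpos
      exact_mod_cast hpos
    rcases Int.isUnit_iff.1 (IsUnit.of_mul_eq_one _ h7) with h | h
    · exact h
    · omega
  rw [← h8, h9]
  simp

theorem exists_min {n : ℕ} (hn : 0 < n) (H : Matrix (Fin n) (Fin n) ℝ) (hH : H.PosDef) :
    ∃ v : Fin n → ℤ, v ≠ 0 ∧ ∀ z : Fin n → ℤ, z ≠ 0 → qf H (zc v) ≤ qf H (zc z) := by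
  classical
  obtain ⟨c, hc, hcv⟩ := POIaux.exists_lower H hH
  let e : Fin n → ℤ := fun _ => 1
  have he : e ≠ 0 := by
    intro h
    have := congrFun h ⟨0, hn⟩
    simp [e] at this
  obtain ⟨B, hB⟩ := exists_nat_ge (qf H (zc e) / c)
  let F : Finset (Fin n → ℤ) :=
    (Fintype.piFinset (fun _ => Finset.Icc (-(B + 1 : ℤ)) (B + 1))).filter (fun z => z ≠ 0)
  have heF : e ∈ F := by
    simp only [F, Finset.mem_filter, Fintype.mem_piFinset, Finset.mem_Icc]
    refine ⟨fun i => ⟨?_, ?_⟩, he⟩ <;> simp only [e] <;> omega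
  obtain ⟨v, hvF, hv⟩ := F.exists_min_image (fun z => qf H (zc z)) ⟨e, heF⟩
  refine ⟨v, (Finset.mem_filter.1 hvF).2, fun z hz => ?_⟩
  by_cases hzF : z ∈ F
  · exact hv z hzF
  · have h1 : ∃ i, ¬ (z i ∈ Finset.Icc (-(B + 1 : ℤ)) (B + 1)) := by
      by_contra h2
      push Not at h2
      exact hzF (Finset.mem_filter.2 ⟨Fintype.mem_piFinset.2 h2, hz⟩)
    obtain ⟨i, hi⟩ := h1
    have h3 : ((B : ℝ) + 1) ^ 2 ≤ (z i : ℝ) ^ 2 := by
      rw [Finset.mem_Icc] at hi
      have h4 : (B + 1 : ℤ) ^ 2 ≤ (z i) ^ 2 := by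
        rw [sq_le_sq]
        rw [abs_of_nonneg (by omega)]
        rcases le_total 0 (z i) with h | h
        · rw [abs_of_nonneg h]
          by_contra h5
          apply hi
          constructor <;> omega
        · rw [abs_of_nonpos h]
          by_contra h5
          apply hi
          constructor <;> omega
      exact_mod_cast h4
    have h5 : (z i : ℝ) ^ 2 ≤ zc z ⬝ᵥ zc z := by
      unfold dotProduct
      have := Finset.single_le_sum (f := fun j => zc z j * zc z j)
        (fun j _ => mul_self_nonneg _) (Finset.mem_univ i)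
      simpa [zc, pow_two] using this
    have h6 : qf H (zc e) ≤ c * B := by
      rw [div_le_iff₀ hc] at hB
      linarith
    have h7 : (B : ℝ) ≤ ((B : ℝ) + 1) ^ 2 := by nlinarith [(Nat.cast_nonneg B : (0 : ℝ) ≤ B)]
    calc qf H (zc v) ≤ qf H (zc e) := hv e heF
      _ ≤ c * B := h6
      _ ≤ c * (zc z ⬝ᵥ zc z) := by
          refine mul_le_mul_of_nonneg_left ?_ hc.le
          linarith
      _ ≤ qf H (zc z) := hcv _

theorem qf_one (A : Matrix (Fin 1) (Fin 1) ℝ) (w : Fin 1 → ℝ) : qf A w = A 0 0 * (w 0) ^ 2 := by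
  simp [qf, mulVec, dotProduct]
  ring

theorem zc_zero : zc (0 : ι → ℤ) = 0 := by
  funext i
  simp [zc]

theorem zc_ne_zero {z : ι → ℤ} (hz : z ≠ 0) : zc z ≠ 0 := by
  intro h
  apply hz
  funext i
  have := congrFun h i
  simpa [zc] using this

/-- one step of Hermite reduction -/
theorem step {n : ℕ} (H : Matrix (Fin (n + 1)) (Fin (n + 1)) ℝ) (hH : H.PosDef) :
    ∃ U : Matrix (Fin (n + 1)) (Fin 1 ⊕ Fin n) ℤ, Unimod U ∧
      (∀ z : Fin (n + 1) → ℤ, z ≠ 0 → (gram H U).toBlocks₁₁ 0 0 ≤ qf H (zc z)) ∧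
      (∃ z : Fin (n + 1) → ℤ, z ≠ 0 ∧ (gram H U).toBlocks₁₁ 0 0 = qf H (zc z)) ∧
      (∀ z : Fin n → ℤ, z ≠ 0 → 3 / 4 * (gram H U).toBlocks₁₁ 0 0 ≤
        qf (schur (gram H U)) (zc z)) := by
  classical
  obtain ⟨v, hv0, hv⟩ := exists_min (Nat.succ_pos n) H hH
  let Z : Matrix (Fin (n + 1)) (Fin 1) ℤ := fun i _ => v i
  have hZ : FullRank Z := by
    unfold FullRank
    rw [det_fin_one, Matrix.mul_apply]
    simp only [Z]
    intro h
    apply hv0
    exact dotProduct_self_eq_zero.1 h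
  obtain ⟨l, hl, U, hU, C, hC, hZC⟩ := stmt_SAT (n + 1) 1 Z hZ
  obtain rfl : l = n := by omega
  set H' := gram H U with hH'
  have hH'p : H'.PosDef := posDef_gram hH hU
  have hs' : H'ᵀ = H' := isHermitian_iff.1 hH'p.1
  have h11 := posDef_toBlocks₁₁ hH'p
  have hd : IsUnit H'.toBlocks₁₁.det := isUnit_iff_ne_zero.2 h11.det_pos.ne'
  set m := H'.toBlocks₁₁ 0 0 with hm
  have hmdet : H'.toBlocks₁₁.det = m := det_fin_one _
  have hmpos : 0 < m := by rw [← hmdet]; exact h11.det_pos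
  set u : Fin (l + 1) → ℤ := fun i => U i (Sum.inl 0) with hu
  have hmu : m = qf H (zc u) := by
    rw [hm]
    exact gram_diag H U (Sum.inl 0)
  have hu0 : u ≠ 0 := by
    intro h0
    rw [h0, zc_zero] at hmu
    simp [qf] at hmu
    linarith
  have hvu : v = C 0 0 • u := by
    funext i
    have := congrFun (congrFun hZC i) 0
    simp only [Z, Matrix.mul_apply, Finset.univ_unique, Fin.default_eq_zero, Finset.sum_singleton,
      submatrix_apply, id] at this
    rw [this]
    simp [hu, mul_comm]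
  have hC0 : C 0 0 ≠ 0 := by rwa [det_fin_one] at hC
  have hmv : m ≤ qf H (zc v) := by
    have h1 : qf H (zc v) = (C 0 0 : ℝ) ^ 2 * m := by
      have h2 : zc v = (C 0 0 : ℝ) • zc u := by
        funext i
        rw [hvu]
        simp [zc]
      rw [h2, hmu]
      unfold qf
      rw [mulVec_smul, dotProduct_smul, smul_dotProduct]
      simp only [smul_eq_mul]
      ring
    rw [h1]
    have h3 : (1 : ℝ) ≤ (C 0 0 : ℝ) ^ 2 := by
      have : (1 : ℤ) ≤ (C 0 0) ^ 2 := by
        have := sq_nonneg (C 0 0)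
        have h4 : (C 0 0) ^ 2 ≠ 0 := pow_ne_zero 2 hC0
        omega
      exact_mod_cast this
    nlinarith
  have hmin : ∀ z : Fin (l + 1) → ℤ, z ≠ 0 → m ≤ qf H (zc z) := fun z hz => hmv.trans (hv z hz)
  refine ⟨U, hU, hmin, ⟨u, hu0, hmu⟩, fun z hz => ?_⟩
  -- choose the lift
  set t : ℝ := ((H'.toBlocks₁₁)⁻¹ *ᵥ (H'.toBlocks₁₂ *ᵥ (zc z))) 0 with ht
  let a : ℤ := -round t
  let w : Fin 1 ⊕ Fin l → ℤ := Sum.elim (fun _ => a) z
  have hw : w ≠ 0 := by
    intro h0
    apply hz
    funext i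
    exact congrFun h0 (Sum.inr i)
  have h1 : m ≤ qf H' (zc w) := by
    rw [hH', qf_gram]
    exact hmin _ (mulVec_ne_zero hU hw)
  have h2 := qf_blk hs' hd (zc w)
  have hinr : zc w ∘ Sum.inr = zc z := by funext i; simp [zc, w]
  rw [hinr, qf_one] at h2
  have h3 : (zc w ∘ Sum.inl + (H'.toBlocks₁₁)⁻¹ *ᵥ (H'.toBlocks₁₂ *ᵥ zc z)) 0 = t - round t := by
    rw [Pi.add_apply, ← ht]
    simp [zc, w, a]
    ring
  rw [h3] at h2
  have h4 : (t - round t) ^ 2 ≤ 1 / 4 := by
    have := abs_sub_round t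
    rw [← sq_abs]
    nlinarith [abs_nonneg (t - round t)]
  rw [h2] at h1
  have h5 : H'.toBlocks₁₁ 0 0 * (t - round t) ^ 2 ≤ m * (1 / 4) :=
    mul_le_mul_of_nonneg_left h4 hmpos.le
  linarith

/-- Hermite's inequality with a bad constant -/
theorem hermite (n : ℕ) : ∃ k : ℝ, 0 < k ∧ ∀ H : Matrix (Fin n) (Fin n) ℝ, H.PosDef → ∀ c : ℝ,
    0 < c → (∀ z : Fin n → ℤ, z ≠ 0 → c ≤ qf H (zc z)) → k * c ^ n ≤ H.det := by
  induction n with
  | zero =>
    refine ⟨1, one_pos, fun H hH c hc h => ?_⟩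
    simp
  | succ n ih =>
    obtain ⟨k, hk, ih⟩ := ih
    refine ⟨k * (3 / 4) ^ n, by positivity, fun H hH c hc h => ?_⟩
    obtain ⟨U, hU, hmin, ⟨z0, hz0, hz0e⟩, hS⟩ := step H hH
    have hH'p : (gram H U).PosDef := posDef_gram hH hU
    have h11 := posDef_toBlocks₁₁ hH'p
    have hd : IsUnit (gram H U).toBlocks₁₁.det := isUnit_iff_ne_zero.2 h11.det_pos.ne'
    have h1 := det_blk hd
    rw [det_gram H hU, det_fin_one] at h1
    set m := (gram H U).toBlocks₁₁ 0 0 with hm
    have hcm : c ≤ m := by rw [hz0e]; exact h z0 hz0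
    have hmpos : 0 < m := hc.trans_le hcm
    have h2 := ih (schur (gram H U)) (posDef_schur hH'p) (3 / 4 * m) (by positivity) hS
    rw [h1]
    calc k * (3 / 4) ^ n * c ^ (n + 1) = c * (k * (3 / 4 * c) ^ n) := by
          rw [mul_pow]; ring
      _ ≤ m * (k * (3 / 4 * m) ^ n) := by
          gcongr
      _ ≤ m * (schur (gram H U)).det := by
          gcongr

theorem red_aux (n : ℕ) : ∀ (c : ℝ), 0 < c → ∀ D : ℝ, ∃ R : ℝ, ∀ H : Matrix (Fin n) (Fin n) ℝ,
    H.PosDef → (∀ z : Fin n → ℤ, z ≠ 0 → c ≤ qf H (zc z)) → H.det ≤ D →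
    ∃ U : Matrix (Fin n) (Fin n) ℤ, Unimod U ∧ ∀ i, gram H U i i ≤ R := by
  induction n with
  | zero =>
    intro c hc D
    exact ⟨0, fun H hH h hD => ⟨1, unimod_one, fun i => i.elim0⟩⟩
  | succ n ih =>
    intro c hc D
    obtain ⟨k, hk, hherm⟩ := hermite n
    obtain ⟨R', hR'⟩ := ih (3 / 4 * c) (by positivity) (D / c)
    set M : ℝ := max 1 (D / (k * (3 / 4) ^ n)) with hM
    refine ⟨max M (M / 4 + R'), fun H hH h hD => ?_⟩
    obtain ⟨U, hU, hmin, ⟨z0, hz0, hz0e⟩, hS⟩ := step H hH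
    have hH'p : (gram H U).PosDef := posDef_gram hH hU
    have hs' : (gram H U)ᵀ = gram H U := isHermitian_iff.1 hH'p.1
    have h11 := posDef_toBlocks₁₁ hH'p
    have hd : IsUnit (gram H U).toBlocks₁₁.det := isUnit_iff_ne_zero.2 h11.det_pos.ne'
    have h1 := det_blk hd
    rw [det_gram H hU, det_fin_one] at h1
    set H' := gram H U with hH'
    set m := H'.toBlocks₁₁ 0 0 with hm
    have hcm : c ≤ m := by rw [hz0e]; exact h z0 hz0
    have hmpos : 0 < m := hc.trans_le hcm
    have hSp := posDef_schur hH'p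
    -- bound for m
    have hmM : m ≤ M := by
      rcases le_total m 1 with h' | h'
      · exact h'.trans (le_max_left _ _)
      · have h2 := hherm (schur H') hSp (3 / 4 * m) (by positivity) hS
        have h3 : m * (k * (3 / 4 * m) ^ n) ≤ D := by
          refine le_trans ?_ hD
          rw [h1]
          gcongr
        have h4 : m * (k * (3 / 4) ^ n) ≤ D := by
          refine le_trans ?_ h3
          rw [mul_pow]
          have h5 : (1 : ℝ) ≤ m ^ n := one_le_pow₀ h'
          have h6 : 0 < m * (k * (3 / 4) ^ n) := by positivity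
          calc m * (k * (3 / 4) ^ n) = m * (k * (3 / 4) ^ n) * 1 := by ring
            _ ≤ m * (k * (3 / 4) ^ n) * m ^ n := mul_le_mul_of_nonneg_left h5 h6.le
            _ = m * (k * ((3 / 4) ^ n * m ^ n)) := by ring
        refine le_trans ?_ (le_max_right _ _)
        rw [le_div_iff₀ (by positivity)]
        exact h4
    have hdetS : (schur H').det ≤ D / c := by
      rw [le_div_iff₀ hc]
      refine le_trans ?_ hD
      rw [h1, mul_comm]
      exact mul_le_mul_of_nonneg_right hcm hSp.det_pos.le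
    obtain ⟨V, hV, hVR⟩ := hR' (schur H') hSp (fun z hz => by
      refine le_trans ?_ (hS z hz)
      gcongr) hdetS
    -- the lift
    let t : Fin n → ℝ := fun j =>
      ((H'.toBlocks₁₁)⁻¹ *ᵥ (H'.toBlocks₁₂ *ᵥ (zc (fun i => V i j)))) 0
    let A : Matrix (Fin 1) (Fin n) ℤ := fun _ j => -round (t j)
    let W : Matrix (Fin 1 ⊕ Fin n) (Fin 1 ⊕ Fin n) ℤ := fromBlocks 1 A 0 V
    have hW : Unimod W := by
      obtain ⟨V', hV1, hV2⟩ := hV
      refine ⟨fromBlocks 1 (-(A * V')) 0 V', ?_, ?_⟩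
      · rw [fromBlocks_multiply]
        simp [hV1]
      · rw [fromBlocks_multiply]
        simp [hV2, Matrix.mul_assoc]
    let e : Fin (n + 1) ≃ Fin 1 ⊕ Fin n := (finCongr (Nat.add_comm n 1)).trans finSumFinEquiv.symm
    refine ⟨(U * W).submatrix id e, unimod_reindex (unimod_mul hU hW) e, fun i => ?_⟩
    have hg : gram H ((U * W).submatrix id e) i i = gram H' W (e i) (e i) := by
      rw [hH', ← gram_mul, gram_diag, gram_diag]
      rfl
    rw [hg, gram_diag]
    rcases e i with j | j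
    · have h5 : qf H' (zc (fun i => W i (Sum.inl j))) = m := by
        obtain rfl : j = 0 := Subsingleton.elim _ _
        have h6 : (fun i => W i (Sum.inl 0)) = Pi.single (Sum.inl 0) 1 := by
          funext i
          rcases i with i | i
          · obtain rfl : i = 0 := Subsingleton.elim _ _
            simp [W]
          · simp [W]
        have h7 : zc (Pi.single (Sum.inl 0) 1 : Fin 1 ⊕ Fin n → ℤ) = Pi.single (Sum.inl 0) 1 := by
          funext i
          by_cases hi : i = Sum.inl 0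
          · subst hi; simp [zc]
          · simp [zc, hi]
        rw [h6, h7]
        simp [qf, hm, toBlocks₁₁]
      rw [h5]
      exact hmM.trans (le_max_left _ _)
    · have h2 := qf_blk hs' hd (zc (fun i => W i (Sum.inr j)))
      have hinr : zc (fun i => W i (Sum.inr j)) ∘ Sum.inr = zc (fun i => V i j) := by
        funext i; simp [zc, W]
      rw [hinr, qf_one] at h2
      have h3 : (zc (fun i => W i (Sum.inr j)) ∘ Sum.inl +
          (H'.toBlocks₁₁)⁻¹ *ᵥ (H'.toBlocks₁₂ *ᵥ zc (fun i => V i j))) 0 = t j - round (t j) := by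
        rw [Pi.add_apply]
        change ((W (Sum.inl 0) (Sum.inr j) : ℤ) : ℝ) + t j = _
        have : W (Sum.inl 0) (Sum.inr j) = -round (t j) := rfl
        rw [this]
        push_cast
        ring
      rw [h3] at h2
      have h4 : (t j - round (t j)) ^ 2 ≤ 1 / 4 := by
        have := abs_sub_round (t j)
        rw [← sq_abs]
        nlinarith [abs_nonneg (t j - round (t j))]
      have h5 : m * (t j - round (t j)) ^ 2 ≤ m * (1 / 4) :=
        mul_le_mul_of_nonneg_left h4 hmpos.le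
      have h6 := hVR j
      rw [gram_diag] at h6
      rw [h2]
      refine le_trans ?_ (le_max_right _ _)
      linarith

theorem qf_ge_of_subDet {n : ℕ} {H : Matrix (Fin n) (Fin n) ℝ} {t : ℝ} (h : SubDet H t)
    (z : Fin n → ℤ) (hz : z ≠ 0) : t ≤ qf H (zc z) := by
  let Z : Matrix (Fin n) (Fin 1) ℤ := fun i _ => z i
  have hZ : FullRank Z := by
    unfold FullRank
    rw [det_fin_one, Matrix.mul_apply]
    simp only [Z]
    intro h
    apply hz
    exact dotProduct_self_eq_zero.1 h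
  have h1 := h 1 Z hZ
  rw [pow_one, det_fin_one, gram_diag] at h1
  exact h1

end REDaux

open REDaux in
theorem stmt_RED : Stmt_RED := by
  intro n D
  obtain ⟨R, hR⟩ := red_aux n 1 one_pos D
  exact ⟨R, fun H hH hsub hD => hR H hH (fun z hz => qf_ge_of_subDet hsub z hz) hD⟩

end Pool.Agent.Work.MP_b10815_co_flt
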