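import Mathlib
import Pool.Agent.Work.MP_b10815_co_flt.Interface

/-!
# Block RM: the reverse Minkowski theorem, from the stable case
-/

set_option autoImplicit false

namespace Pool.Agent.Work.MP_b10815_co_flt

open MeasureTheory Matrix

namespace RM

theorem gram_smul {n k : ℕ} (a : ℝ) (H : Matrix (Fin n) (Fin n) ℝ) (Z : Matrix (Fin n) (Fin k) ℤ) :
    gram (a • H) Z = a • gram H Z := by
  unfold gram
  rw [Matrix.mul_smul, Matrix.smul_mul]

theorem gram_smul_det {n k : ℕ} (a : ℝ) (H : Matrix (Fin n) (Fin n) ℝ) (Z : Matrix (Fin n) (Fin k) ℤ) :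
    (gram (a • H) Z).det = a ^ k * (gram H Z).det := by
  rw [gram_smul, det_smul, Fintype.card_fin]

theorem subDet_smul {n : ℕ} {H : Matrix (Fin n) (Fin n) ℝ} {t : ℝ} (ht : 0 < t) (h : SubDet H t) :
    SubDet (t⁻¹ • H) 1 := by
  intro k Z hZ
  rw [gram_smul_det, one_pow, inv_pow, inv_mul_eq_div, le_div_iff₀ (by positivity), one_mul]
  exact h k Z hZ

theorem qf_smul {ι : Type} [Fintype ι] (a : ℝ) (H : Matrix ι ι ℝ) (v : ι → ℝ) : qf (a • H) v = a * qf H v := by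
  unfold qf
  rw [smul_mulVec, dotProduct_smul, smul_eq_mul]

/-- the zero dimensional case -/
theorem gam_zero (h3 : Stmt_GAM3) {H : Matrix (Fin 0) (Fin 0) ℝ} (hH : H.PosDef) {r : ℝ} (hr : 0 < r) :
    1 ≤ Gam H r := by
  have h := (h3 (Fin 0) (Fin 0) H hH r hr).2.2.2 (fun z hz => absurd (Subsingleton.elim z 0) hz)
  refine le_trans ?_ h
  have h1 : {x : Fin 0 → ℝ | x ⬝ᵥ x ≤ r ^ 2 / 4} = Set.univ := by
    ext x
    simp only [Set.mem_ofPred_eq, Set.mem_univ, iff_true]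
    rw [show x ⬝ᵥ x = 0 by simp [dotProduct]]
    positivity
  rw [h1, Measure.restrict_univ]
  have h2 : (gd : (Fin 0 → ℝ) → ℝ) = fun _ => 1 := by
    funext x
    unfold gd
    rw [show x ⬝ᵥ x = 0 by simp [dotProduct]]
    simp
  rw [h2, integral_const]
  simp [Measure.real, volume_pi]

theorem key (hBLK : Stmt_BLK) (h2 : Stmt_GAM2) (h3 : Stmt_GAM3) (hgen : Stmt_GEN) {r : ℝ} (hr : 0 < r) {m : ℕ} (hm : 1 ≤ m)
    (hR : ∀ n : ℕ, n ≤ m → ∀ H : Matrix (Fin n) (Fin n) ℝ, Stable H → 1 - (n : ℝ) / (3 * m) ≤ Gam H r) :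
    ∀ n : ℕ, n ≤ m → ∀ H : Matrix (Fin n) (Fin n) ℝ, H.PosDef → SubDet H 1 → 1 - (n : ℝ) / (3 * m) ≤ Gam H r := by
  intro n
  induction n using Nat.strong_induction_on with
  | _ n ih =>
    intro hn H hH hS
    rcases Nat.eq_zero_or_pos n with h0 | h0
    · subst h0
      have := gam_zero h3 hH hr
      simpa using this
    · obtain ⟨s, hs, k, l, hk, hkl, U, hU, hst, hsch⟩ := hgen n h0 H hH hS
      have hs0 : 0 < s⁻¹ := by positivity
      have hs1 : s⁻¹ ≤ 1 := inv_le_one_of_one_le₀ hs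
      have hH' : (s⁻¹ • H).PosDef := hH.smul hs0
      obtain ⟨e1, e2, e3, -⟩ := h3 (Fin n) (Fin k ⊕ Fin l) H hH r hr
      obtain ⟨f1, -, -, -⟩ := h3 (Fin n) (Fin k ⊕ Fin l) (s⁻¹ • H) hH' r hr
      obtain ⟨g1, g2, g3⟩ := f1 U hU
      have hb := h2 (Fin k) (Fin l) (gram (s⁻¹ • H) U) g1 r hr
      have hk1 := hR k (by omega) _ hst
      have hP : (schur (gram (s⁻¹ • H) U)).PosDef := (hBLK (Fin k) (Fin l) _ g1).2.1
      have hl1 := ih l (by omega) (by omega) _ hP hsch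
      have hm0 : (0:ℝ) < 3 * m := by positivity
      have hk2 : (k : ℝ) / (3 * m) ≤ 1 := by
        rw [div_le_one hm0]
        have : (k : ℝ) ≤ m := by exact_mod_cast (by omega : k ≤ m)
        have h0 : (0:ℝ) ≤ m := Nat.cast_nonneg _
        linarith
      have hl2 : (l : ℝ) / (3 * m) ≤ 1 := by
        rw [div_le_one hm0]
        have : (l : ℝ) ≤ m := by exact_mod_cast (by omega : l ≤ m)
        have h0 : (0:ℝ) ≤ m := Nat.cast_nonneg _
        linarith
      have hkl' : (n : ℝ) / (3 * m) = k / (3 * m) + l / (3 * m) := by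
        rw [← hkl]
        push_cast
        ring
      have ha0 : 0 ≤ (k : ℝ) / (3 * m) := by positivity
      have hb0 : 0 ≤ (l : ℝ) / (3 * m) := by positivity
      calc 1 - (n : ℝ) / (3 * m) ≤ (1 - (k : ℝ) / (3 * m)) * (1 - (l : ℝ) / (3 * m)) := by
            rw [hkl']
            nlinarith
        _ ≤ Gam (gram (s⁻¹ • H) U).toBlocks₁₁ r * Gam (schur (gram (s⁻¹ • H) U)) r :=
            mul_le_mul hk1 hl1 (by linarith) (le_trans (by linarith) hk1)
        _ ≤ Gam (gram (s⁻¹ • H) U) r := hb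
        _ = Gam (s⁻¹ • H) r := g3
        _ ≤ Gam H r := e2 s⁻¹ hs0 hs1

end RM

/-- BLOCK RM -/
theorem stmt_RM (hRMS : Stmt_RMS) (hGEN : Stmt_GEN) (h1 : Stmt_GAM1) (h2 : Stmt_GAM2) (h3 : Stmt_GAM3)
    (hBLK : Stmt_BLK) : Stmt_RM := by
  obtain ⟨C, hC, hR⟩ := hRMS
  refine ⟨C, hC, fun n hn H hH hS => ?_⟩
  have hn' : (1:ℝ) ≤ n := by exact_mod_cast hn
  have hlog : 0 < Real.log (n + 1) := Real.log_pos (by linarith)
  set r : ℝ := C * Real.log (n + 1) ^ 3 with hr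
  have hr0 : 0 < r := by positivity
  have hH' : ((r ^ 2)⁻¹ • H).PosDef := hH.smul (by positivity)
  have hk := RM.key hBLK h2 h3 hGEN hr0 hn (fun k hk H hst => hR n hn k hk H hst r le_rfl) n le_rfl _ hH'
    (RM.subDet_smul (by positivity) hS)
  obtain ⟨hsum, hle⟩ := h1 n _ hH' r hr0
  have hG : (2:ℝ) / 3 ≤ Gam ((r ^ 2)⁻¹ • H) r := by
    refine le_trans (le_of_eq ?_) hk
    field_simp
    norm_num
  have hq : ∀ z : Fin n → ℤ, Real.exp (-Real.pi * r ^ 2 * qf ((r ^ 2)⁻¹ • H) (zc z)) =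
      Real.exp (-Real.pi * qf H (zc z)) := by
    intro z
    rw [RM.qf_smul]
    congr 1
    field_simp
  simp only [hq] at hle
  have hpos : 0 ≤ ∑' z : Fin n → ℤ, Real.exp (-Real.pi * qf H (zc z)) := tsum_nonneg fun z => (Real.exp_pos _).le
  nlinarith

end Pool.Agent.Work.MP_b10815_co_flt
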