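import Mathlib
import Pool.Agent.Work.MP_b10815_co_flt.RM

/-!
# Block RMS: the reverse Minkowski theorem for stable forms
-/

set_option autoImplicit false

namespace Pool.Agent.Work.MP_b10815_co_flt

open MeasureTheory Matrix Filter Topology

namespace RMS

/-! ### the tail bound -/

theorem elem_bound {a x s : ℝ} (ha : 0 < a) (hx : 1 / 4 < x) (hs : 1 ≤ s) :
    x ≤ (1 + 1 / a) * Real.exp (-(a / 16 * s ^ 2)) * Real.exp (2 * a * (x * s) ^ 2) := by
  have h1 : x ≤ (1 + 1 / a) * Real.exp (a * x ^ 2) := by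
    have h2 := Real.add_one_le_exp (a * x ^ 2)
    have h3 : (1 + 1 / a) * (a * x ^ 2 + 1) ≤ (1 + 1 / a) * Real.exp (a * x ^ 2) :=
      mul_le_mul_of_nonneg_left h2 (by positivity)
    have h4 : (1 + 1 / a) * (a * x ^ 2 + 1) = a * x ^ 2 + x ^ 2 + 1 + 1 / a := by
      field_simp
      ring
    have h5 : 0 < 1 / a := by positivity
    nlinarith [sq_nonneg (x - 1), mul_pos ha (by positivity : 0 < x ^ 2)]
  refine h1.trans ?_
  rw [mul_assoc, ← Real.exp_add]
  apply mul_le_mul_of_nonneg_left _ (by positivity)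
  apply Real.exp_le_exp.mpr
  have hs2 : 1 ≤ s ^ 2 := by nlinarith
  have hx2 : 1 / 16 ≤ x ^ 2 := by nlinarith
  have h6 : a * x ^ 2 ≤ a * (x * s) ^ 2 := by
    rw [mul_pow]
    have : x ^ 2 * 1 ≤ x ^ 2 * s ^ 2 := mul_le_mul_of_nonneg_left hs2 (by positivity)
    nlinarith
  have h7 : a / 16 * s ^ 2 ≤ a * (x * s) ^ 2 := by
    rw [mul_pow]
    have : 1 / 16 * s ^ 2 ≤ x ^ 2 * s ^ 2 := mul_le_mul_of_nonneg_right hx2 (by positivity)
    nlinarith
  nlinarith

/-- pull back of a seminorm by a matrix -/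
noncomputable def pull {n : ℕ} (N : Seminorm ℝ (Fin n → ℝ)) (A : Matrix (Fin n) (Fin n) ℝ) :
    Seminorm ℝ (Fin n → ℝ) := N.comp (Matrix.mulVecLin A)

theorem pull_apply {n : ℕ} (N : Seminorm ℝ (Fin n → ℝ)) (A : Matrix (Fin n) (Fin n) ℝ) (x : Fin n → ℝ) :
    pull N A x = N (A *ᵥ x) := rfl

theorem gr_eq {n : ℕ} {H B : Matrix (Fin n) (Fin n) ℝ} (hB : H = Bᵀ * B) {r : ℝ} (hr : 0 < r) (v : Fin n → ℝ) :
    gr H r v = gH ((r • B)ᵀ * (r • B)) v := by
  have h1 : (r • B)ᵀ * (r • B) = (r ^ 2) • H := by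
    rw [transpose_smul, Matrix.smul_mul, Matrix.mul_smul, smul_smul, ← hB, sq]
  rw [h1]
  unfold gr gH
  rw [det_smul, Fintype.card_fin, RM.qf_smul]
  congr 1
  · rw [← pow_mul, mul_comm 2 n, pow_mul, Real.sqrt_mul (by positivity), Real.sqrt_sq (by positivity)]
  · congr 1
    ring

/-- the derivative bound -/
theorem derBound (hGB1 : Stmt_GB1) (hNRM : Stmt_NRM) (hDER : Stmt_DER) (hVOR : Stmt_VOR) {cF CF CK : ℝ}
    (hcF : 0 < cF)
    (hF : ∀ n : ℕ, ∀ N : Seminorm ℝ (Fin n → ℝ), ∀ m : ℝ, 0 < m → ∫ x, N x * gd x ≤ m →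
      Integrable (fun x => Real.exp (cF * (N x / m) ^ 2) * gd x) ∧
      ∫ x, Real.exp (cF * (N x / m) ^ 2) * gd x ≤ CF)
    (hK : ∀ n : ℕ, 1 ≤ n → ∀ N : Seminorm ℝ (Fin n → ℝ), IsNorm N → 1 ≤ volume.real {x | N x ≤ 1} →
      ∃ A : Matrix (Fin n) (Fin n) ℝ, A.trace = n ∧ ∫ x, N (A *ᵥ x) * gd x ≤ CK * Real.log (n + 1) ^ 2)
    {n : ℕ} (hn : 1 ≤ n) {H : Matrix (Fin n) (Fin n) ℝ} (hst : Stable H) {mm r : ℝ} (hmm : 0 < mm)
    (hm1 : CK * Real.log (n + 1) ^ 2 ≤ mm) (hr : mm ≤ r)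
    (iso : ∀ M : Matrix (Fin n) (Fin n) ℝ,
      (n : ℝ) * ∫ v in Vor H, (v ⬝ᵥ ((H * M) *ᵥ v)) * gr H r v =
        M.trace * ∫ v in Vor H, qf H v * gr H r v) :
    ∫ v in Vor H, (n - 2 * Real.pi * r ^ 2 * qf H v) * gr H r v ≤
      16 * n * ((1 + 1 / (cF / 2)) * CF * Real.exp (-(cF / 32 * (r / mm) ^ 2))) := by
  obtain ⟨hP, hdet, hS⟩ := hst
  have hr0 : 0 < r := hmm.trans_le hr
  obtain ⟨v1, v2, v3, v4, v5, -⟩ := hVOR (Fin n) H hP
  obtain ⟨N, hN, hNV⟩ := (hNRM (Fin n)).1 (Vor H) v2 v1 v3 v4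
  obtain ⟨-, g2, g3, -⟩ := hGB1 (Fin n)
  obtain ⟨B, hBu, hB⟩ := g2 H hP
  have hBdet : B.det ^ 2 = 1 := by
    rw [← hdet, hB, det_mul, det_transpose, sq]
  have hBabs : |B.det| = 1 := by
    rw [← sq_abs] at hBdet
    exact (pow_eq_one_iff_of_nonneg (abs_nonneg _) two_ne_zero).mp hBdet
  have hBne : B.det ≠ 0 := hBu.ne_zero
  -- the norm in the coordinates `x = B v`
  have hNB : IsNorm (pull N B⁻¹) := by
    intro x hx
    rw [pull_apply] at hx
    have h1 := hN _ hx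
    have h2 : B *ᵥ (B⁻¹ *ᵥ x) = x := by
      rw [mulVec_mulVec, mul_nonsing_inv _ hBu, one_mulVec]
    rw [← h2, h1, mulVec_zero]
  have hvol : volume.real {x | pull N B⁻¹ x ≤ 1} = 1 := by
    have h1 : {x | pull N B⁻¹ x ≤ 1} = (Matrix.mulVecLin B⁻¹) ⁻¹' (Vor H) := by
      rw [← hNV]
      rfl
    have h2 : LinearMap.det (Matrix.mulVecLin B⁻¹) = (B.det)⁻¹ := by
      rw [show Matrix.mulVecLin B⁻¹ = Matrix.toLin' B⁻¹ from rfl, LinearMap.det_toLin', det_nonsing_inv,
        Ring.inverse_eq_inv']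
    rw [h1, Measure.real, Measure.addHaar_preimage_linearMap _ (by rw [h2]; exact inv_ne_zero hBne), h2, inv_inv,
      hBabs, ENNReal.ofReal_one, one_mul]
    exact v5
  obtain ⟨A', hA'tr, hA'⟩ := hK n hn _ hNB hvol.ge
  have hiso' : ∀ M : Matrix (Fin n) (Fin n) ℝ,
      (n : ℝ) * ∫ v in {v | N v ≤ 1}, (v ⬝ᵥ ((H * M) *ᵥ v)) * gr H r v =
        M.trace * ∫ v in {v | N v ≤ 1}, qf H v * gr H r v := by
    rw [hNV]
    exact iso
  have htr : (B⁻¹ * A' * B).trace = n := by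
    rw [trace_mul_cycle, mul_nonsing_inv _ hBu, one_mul, hA'tr]
  have hD := hDER n hn N hN H hP r hr0 hiso' (B⁻¹ * A' * B) htr
  rw [hNV] at hD
  refine hD.trans ?_
  apply mul_le_mul_of_nonneg_left _ (by positivity)
  -- the change of variables
  set A := B⁻¹ * A' * B with hAdef
  set N' := pull N (r⁻¹ • (B⁻¹ * A')) with hN'
  have hcont : Continuous N := ((hNRM (Fin n)).2 N hN).2.2.2.1
  have hmeas : MeasurableSet {v | 1 / 4 < N (A *ᵥ v)} := by
    apply measurableSet_lt measurable_const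
    exact (hcont.comp (Matrix.mulVecLin A).continuous_of_finiteDimensional).measurable
  have hBr : IsUnit (r • B).det := by
    rw [det_smul]
    exact (isUnit_iff_ne_zero.mpr (mul_ne_zero (by positivity) hBne))
  have hcv := g3 (r • B) hBr (fun v => if 1 / 4 < N (A *ᵥ v) then N (A *ᵥ v) else 0)
  have hinv : (r • B)⁻¹ = r⁻¹ • B⁻¹ := by
    apply Matrix.inv_eq_left_inv
    rw [Matrix.smul_mul, Matrix.mul_smul, nonsing_inv_mul _ hBu, smul_smul, inv_mul_cancel₀ hr0.ne', one_smul]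
  have hNx : ∀ x, N (A *ᵥ ((r • B)⁻¹ *ᵥ x)) = N' x := by
    intro x
    rw [hinv, hN', pull_apply, mulVec_mulVec]
    congr 2
    rw [hAdef, Matrix.mul_smul, Matrix.mul_assoc, mul_nonsing_inv _ hBu, mul_one]
  have hint1 : ∫ x, N' x * gd x ≤ mm / r := by
    have h1 : ∀ x, N' x * gd x = r⁻¹ * (pull N B⁻¹ (A' *ᵥ x) * gd x) := by
      intro x
      rw [hN', pull_apply, pull_apply, smul_mulVec, map_smul_eq_mul, mulVec_mulVec, Real.norm_of_nonneg (by positivity)]
      ring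
    simp_rw [h1]
    rw [integral_const_mul, ← div_eq_inv_mul]
    exact div_le_div_of_nonneg_right (hA'.trans hm1) hr0.le
  obtain ⟨hi1, hi2⟩ := hF n N' (mm / r) (by positivity) hint1
  have hs : 1 ≤ r / mm := (one_le_div hmm).mpr hr
  calc ∫ v in {v | 1 / 4 < N (A *ᵥ v)}, N (A *ᵥ v) * gr H r v
      = ∫ v, (if 1 / 4 < N (A *ᵥ v) then N (A *ᵥ v) else 0) * gH ((r • B)ᵀ * (r • B)) v := by
        rw [← integral_indicator hmeas]
        congr 1
        funext v
        simp only [Set.indicator, Set.mem_ofPred_eq]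
        rw [gr_eq hB hr0]
        split_ifs with h
        · rfl
        · rw [zero_mul]
    _ = ∫ x, (if 1 / 4 < N' x then N' x else 0) * gd x := by
        rw [hcv]
        congr 1
        funext x
        simp only [hNx]
    _ ≤ ∫ x, ((1 + 1 / (cF / 2)) * Real.exp (-(cF / 32 * (r / mm) ^ 2))) *
          (Real.exp (cF * (N' x / (mm / r)) ^ 2) * gd x) := by
        apply integral_mono_of_nonneg
        · refine Eventually.of_forall fun x => ?_
          simp only [Pi.zero_apply]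
          apply mul_nonneg _ (Real.exp_pos _).le
          split_ifs
          · exact apply_nonneg N' x
          · exact le_rfl
        · exact hi1.const_mul _
        · refine Eventually.of_forall fun x => ?_
          simp only
          rw [← mul_assoc]
          apply mul_le_mul_of_nonneg_right _ (Real.exp_pos _).le
          split_ifs with h
          · have := elem_bound (a := cF / 2) (by positivity) h hs
            refine this.trans (le_of_eq ?_)
            have e1 : N' x / (mm / r) = N' x * (r / mm) := by rw [div_div_eq_mul_div, mul_div_assoc]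
            rw [e1, show 2 * (cF / 2) = cF by ring, show cF / 2 / 16 = cF / 32 by ring]
          · positivity
    _ = (1 + 1 / (cF / 2)) * Real.exp (-(cF / 32 * (r / mm) ^ 2)) *
          ∫ x, Real.exp (cF * (N' x / (mm / r)) ^ 2) * gd x := by rw [integral_const_mul]
    _ ≤ (1 + 1 / (cF / 2)) * Real.exp (-(cF / 32 * (r / mm) ^ 2)) * CF :=
        mul_le_mul_of_nonneg_left hi2 (by positivity)
    _ = _ := by ring

/-! ### large scales -/

/-- the Gaussian mass of large balls -/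
theorem ball_mass (hGB1 : Stmt_GB1) (n : ℕ) {ε : ℝ} (hε : 0 < ε) :
    ∃ R : ℝ, ∀ r : ℝ, R ≤ r → 1 - ε < ∫ x in {x : Fin n → ℝ | x ⬝ᵥ x ≤ r ^ 2 / 4}, gd x := by
  obtain ⟨⟨hi, h1⟩, -⟩ := hGB1 (Fin n)
  have hcont : Continuous fun x : Fin n → ℝ => x ⬝ᵥ x := by
    unfold dotProduct
    fun_prop
  have hms : ∀ r : ℝ, MeasurableSet {x : Fin n → ℝ | x ⬝ᵥ x ≤ r ^ 2 / 4} := fun r =>
    (isClosed_le hcont continuous_const).measurableSet
  have hmono : Monotone fun k : ℕ => {x : Fin n → ℝ | x ⬝ᵥ x ≤ (k : ℝ) ^ 2 / 4} := by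
    intro a b hab x hx
    have h2 : (a : ℝ) ≤ b := by exact_mod_cast hab
    have h3 : (a : ℝ) ^ 2 ≤ (b : ℝ) ^ 2 := pow_le_pow_left₀ (Nat.cast_nonneg _) h2 2
    simp only [Set.mem_ofPred_eq] at hx ⊢
    linarith
  have hU : (⋃ k : ℕ, {x : Fin n → ℝ | x ⬝ᵥ x ≤ (k : ℝ) ^ 2 / 4}) = Set.univ := by
    ext x
    simp only [Set.mem_iUnion, Set.mem_ofPred_eq, Set.mem_univ, iff_true]
    obtain ⟨k, hk⟩ := exists_nat_ge (4 * (x ⬝ᵥ x) + 1)
    refine ⟨k, ?_⟩
    have h0 : 0 ≤ x ⬝ᵥ x := by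
      unfold dotProduct
      exact Finset.sum_nonneg fun i _ => mul_self_nonneg _
    nlinarith
  have ht := tendsto_setIntegral_of_monotone (f := (gd : (Fin n → ℝ) → ℝ)) (μ := volume) (fun k : ℕ => hms k) hmono
    (by rw [hU]; exact hi.integrableOn)
  rw [hU, Measure.restrict_univ, h1] at ht
  obtain ⟨k, hk⟩ := (ht.eventually (lt_mem_nhds (by linarith : 1 - ε < 1))).exists
  refine ⟨k, fun r hr => hk.trans_le ?_⟩
  apply setIntegral_mono_set hi.integrableOn
  · exact Eventually.of_forall fun x => (Real.exp_pos _).le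
  · apply Filter.Eventually.of_forall
    intro x hx
    have h3 : (k : ℝ) ^ 2 ≤ r ^ 2 := pow_le_pow_left₀ (Nat.cast_nonneg _) hr 2
    have hx' : x ⬝ᵥ x ≤ (k : ℝ) ^ 2 / 4 := hx
    change x ⬝ᵥ x ≤ r ^ 2 / 4
    linarith

/-- stable forms have minimum at least one -/
theorem stable_min {n : ℕ} {H : Matrix (Fin n) (Fin n) ℝ} (hst : Stable H) (z : Fin n → ℤ) (hz : z ≠ 0) :
    1 ≤ qf H (zc z) := by
  have h := hst.2.2 1 (Matrix.of fun i _ => z i) (by
    unfold FullRank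
    rw [det_fin_one]
    intro h0
    apply hz
    simp only [mul_apply, transpose_apply, of_apply] at h0
    funext i
    have := (Finset.sum_eq_zero_iff_of_nonneg (fun i _ => mul_self_nonneg (z i))).mp h0 i (Finset.mem_univ i)
    simpa using this)
  rw [one_pow, det_fin_one] at h
  refine h.trans (le_of_eq ?_)
  unfold gram qf cR zc
  rw [Matrix.mul_assoc, mul_apply, dotProduct]
  apply Finset.sum_congr rfl
  intro i _
  rw [transpose_apply, mul_apply, mulVec, dotProduct]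
  rfl

/-- the error term -/
noncomputable def dl (D c mm r : ℝ) : ℝ := D * Real.exp (-(c * (r / mm) ^ 2))

theorem dl_pos {D c mm r : ℝ} (hD : 0 < D) : 0 < dl D c mm r := mul_pos hD (Real.exp_pos _)

theorem dl_hasDeriv (D c : ℝ) {mm : ℝ} (hmm : mm ≠ 0) (r : ℝ) :
    HasDerivAt (fun r => dl D c mm r) (-(2 * c * r / mm ^ 2) * dl D c mm r) r := by
  unfold dl
  have h1 : HasDerivAt (fun r : ℝ => -(c * (r / mm) ^ 2)) (-(2 * c * r / mm ^ 2)) r := by
    have h2 := (((hasDerivAt_id r).div_const mm).pow 2).const_mul c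
    have h3 := h2.neg
    refine h3.congr_deriv ?_
    norm_num
    field_simp
  have h4 := (h1.exp).const_mul D
  refine h4.congr_deriv ?_
  ring

/-! ### the main induction -/

theorem core (hGB1 : Stmt_GB1) (hNRM : Stmt_NRM) (hDER : Stmt_DER) (hVOR : Stmt_VOR) (hCMP : Stmt_CMP)
    (h2 : Stmt_GAM2) (h3 : Stmt_GAM3) (h5 : Stmt_GAM5) (h7 : Stmt_GAM7) (hDEC : Stmt_DEC) (hOPEN : Stmt_OPEN)
    (hISO : Stmt_ISO) {cF CF CK : ℝ} (hcF : 0 < cF)
    (hF : ∀ n : ℕ, ∀ N : Seminorm ℝ (Fin n → ℝ), ∀ m : ℝ, 0 < m → ∫ x, N x * gd x ≤ m →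
      Integrable (fun x => Real.exp (cF * (N x / m) ^ 2) * gd x) ∧
      ∫ x, Real.exp (cF * (N x / m) ^ 2) * gd x ≤ CF)
    (hK : ∀ n : ℕ, 1 ≤ n → ∀ N : Seminorm ℝ (Fin n → ℝ), IsNorm N → 1 ≤ volume.real {x | N x ≤ 1} →
      ∃ A : Matrix (Fin n) (Fin n) ℝ, A.trace = n ∧ ∫ x, N (A *ᵥ x) * gd x ≤ CK * Real.log (n + 1) ^ 2)
    {m : ℕ} {mm : ℝ} (hmm : 0 < mm) (hm1 : ∀ n : ℕ, n ≤ m → CK * Real.log (n + 1) ^ 2 ≤ mm) {D : ℝ}
    (hD1 : Real.exp (cF / 32) ≤ D) (hD2 : 16 * ((1 + 1 / (cF / 2)) * CF) < 2 * (cF / 32) * D) :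
    ∀ n : ℕ, n ≤ m → ∀ H : Matrix (Fin n) (Fin n) ℝ, Stable H → ∀ r : ℝ, mm ≤ r →
      1 - (n : ℝ) * dl D (cF / 32) mm r ≤ Gam H r := by
  have hD : 0 < D := (Real.exp_pos _).trans_le hD1
  intro n
  induction n using Nat.strong_induction_on with
  | _ n ih =>
    intro hn H1 hH1 r1 hr1
    rcases Nat.eq_zero_or_pos n with h0 | h0
    · subst h0
      have := RM.gam_zero h3 hH1.1 (hmm.trans_le hr1)
      simpa using this
    by_contra hcon
    push Not at hcon
    set q : Matrix (Fin n) (Fin n) ℝ × ℝ → ℝ := fun p => 1 - Gam p.1 p.2 - n * dl D (cF / 32) mm p.2 with hq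
    have hq1 : 0 < q (H1, r1) := by
      simp only [hq]
      linarith
    obtain ⟨R0, hR0⟩ := ball_mass hGB1 n hq1
    obtain ⟨S, hSc, hSst, hSU⟩ := hCMP n
    have hinv : ∀ (H : Matrix (Fin n) (Fin n) ℝ), Stable H → ∀ U : Matrix (Fin n) (Fin n) ℤ, Unimod U →
        ∀ r : ℝ, 0 < r → q (gram H U, r) = q (H, r) := by
      intro H hH U hU r hr
      have := ((h3 (Fin n) (Fin n) H hH.1 r hr).1 U hU).2.2
      simp only [hq]
      rw [this]
    have hlarge : ∀ H : Matrix (Fin n) (Fin n) ℝ, Stable H → ∀ r : ℝ, mm ≤ r → R0 ≤ r → q (H, r) ≤ q (H1, r1) := by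
      intro H hH r hr hr'
      have h4 := (h3 (Fin n) (Fin n) H hH.1 r (hmm.trans_le hr)).2.2.2 (stable_min hH)
      have h5 := hR0 r hr'
      have h6 : 0 ≤ (n : ℝ) * dl D (cF / 32) mm r := mul_nonneg (Nat.cast_nonneg _) (dl_pos hD).le
      have h7 : q (H, r) = 1 - Gam H r - n * dl D (cF / 32) mm r := rfl
      linarith
    set R := max R0 r1 with hR
    have hcomp : IsCompact (S ×ˢ Set.Icc mm R) := hSc.prod isCompact_Icc
    obtain ⟨U1, hU1, hU1S⟩ := hSU H1 hH1
    have hne : (S ×ˢ Set.Icc mm R).Nonempty := ⟨(gram H1 U1, r1), hU1S, hr1, le_max_right _ _⟩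
    have hcont : ContinuousOn q (S ×ˢ Set.Icc mm R) := by
      have h6 : ContinuousOn (fun p : Matrix (Fin n) (Fin n) ℝ × ℝ => Gam p.1 p.2) (S ×ˢ Set.Icc mm R) :=
        (h5 n).mono fun p hp => ⟨(hSst p.1 hp.1).1, hmm.trans_le hp.2.1⟩
      have h8 : Continuous fun p : Matrix (Fin n) (Fin n) ℝ × ℝ => (n : ℝ) * dl D (cF / 32) mm p.2 := by
        unfold dl
        fun_prop
      exact (continuousOn_const.sub h6).sub h8.continuousOn
    obtain ⟨⟨H0, r0⟩, ⟨hH0S, hr0⟩, hmax⟩ := hcomp.exists_isMaxOn hne hcont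
    have hmax' : ∀ H ∈ S, ∀ r : ℝ, mm ≤ r → r ≤ R → q (H, r) ≤ q (H0, r0) := fun H hH r h6 h8 =>
      hmax (show (H, r) ∈ S ×ˢ Set.Icc mm R from ⟨hH, h6, h8⟩)
    have hq0 : q (H1, r1) ≤ q (H0, r0) := by
      rw [← hinv H1 hH1 U1 hU1 r1 (hmm.trans_le hr1)]
      exact hmax' _ hU1S r1 hr1 (le_max_right _ _)
    have hglob : ∀ H : Matrix (Fin n) (Fin n) ℝ, Stable H → ∀ r : ℝ, mm ≤ r → q (H, r) ≤ q (H0, r0) := by
      intro H hH r hr
      rcases le_total r R with h | h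
      · obtain ⟨U, hU, hUS⟩ := hSU H hH
        rw [← hinv H hH U hU r (hmm.trans_le hr)]
        exact hmax' _ hUS r hr h
      · exact (hlarge H hH r hr ((le_max_left _ _).trans h)).trans hq0
    have hH0 : Stable H0 := hSst H0 hH0S
    have hr00 : 0 < r0 := hmm.trans_le hr0.1
    obtain ⟨hu, -, hG01, -⟩ := h3 (Fin n) (Fin n) H0 hH0.1 r0 hr00
    have hn1 : (1:ℝ) ≤ n := by exact_mod_cast h0
    have hqpos : 0 < q (H0, r0) := hq1.trans_le hq0
    have hqdef : q (H0, r0) = 1 - Gam H0 r0 - n * dl D (cF / 32) mm r0 := rfl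
    have hgt : mm < r0 := by
      rcases hr0.1.lt_or_eq with h | h
      · exact h
      · exfalso
        change mm = r0 at h
        have h6 : dl D (cF / 32) mm r0 = D * Real.exp (-(cF / 32)) := by
          unfold dl
          rw [← h, div_self hmm.ne']
          congr 2
          ring
        have h8 : 1 ≤ dl D (cF / 32) mm r0 := by
          rw [h6, Real.exp_neg, ← div_eq_mul_inv, one_le_div (Real.exp_pos _)]
          exact hD1
        nlinarith [hG01.1]
    by_cases hstr : Strict H0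
    · -- the maximum is at a strictly stable form: isotropy
      have hiso := hISO n H0 hH0.1 r0 hr00 (fun p w hpw => by
        obtain ⟨δ, hδ, hp⟩ := hOPEN n H0 hH0 hstr p w hpw
        refine ⟨δ, hδ, fun t ht => ?_⟩
        have h6 := hglob _ (hp t ht) r0 hgt.le
        have h8 : q (pert H0 p w t, r0) = 1 - Gam (pert H0 p w t) r0 - n * dl D (cF / 32) mm r0 := rfl
        linarith)
      have hb := derBound hGB1 hNRM hDER hVOR hcF hF hK h0 hH0 hmm (hm1 n hn) hgt.le hiso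
      set I := ∫ v in Vor H0, (n - 2 * Real.pi * r0 ^ 2 * qf H0 v) * gr H0 r0 v with hI
      have hd1 := h7 n H0 hH0.1 r0 hr00
      rw [← hI] at hd1
      have hd2 := (dl_hasDeriv D (cF / 32) hmm.ne' r0).const_mul (n : ℝ)
      have hd3 : HasDerivAt (fun s => q (H0, s)) (-(r0⁻¹ * I) - n * (-(2 * (cF / 32) * r0 / mm ^ 2) * dl D (cF / 32) mm r0))
          r0 := by
        have := ((hasDerivAt_const r0 (1:ℝ)).sub hd1).sub hd2
        refine this.congr_deriv ?_
        ring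
      have hloc : IsLocalMax (fun s => q (H0, s)) r0 := by
        filter_upwards [lt_mem_nhds hgt] with s hs
        exact hglob H0 hH0 s hs.le
      have hz := hloc.hasDerivAt_eq_zero hd3
      have hI2 : I = n * (2 * (cF / 32) * (r0 / mm) ^ 2 * dl D (cF / 32) mm r0) := by
        have h9 : r0⁻¹ * I = n * (2 * (cF / 32) * r0 / mm ^ 2 * dl D (cF / 32) mm r0) := by linarith
        calc I = r0 * (r0⁻¹ * I) := by
              rw [← mul_assoc, mul_inv_cancel₀ hr00.ne', one_mul]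
          _ = r0 * (n * (2 * (cF / 32) * r0 / mm ^ 2 * dl D (cF / 32) mm r0)) := by rw [h9]
          _ = _ := by
              rw [div_pow]
              ring
      have hs1 : 1 ≤ (r0 / mm) ^ 2 := one_le_pow₀ ((one_le_div hmm).mpr hgt.le)
      set E := Real.exp (-(cF / 32 * (r0 / mm) ^ 2)) with hE
      have hE0 : 0 < E := Real.exp_pos _
      have hlow : n * (2 * (cF / 32) * D * E) ≤ I := by
        rw [hI2]
        apply mul_le_mul_of_nonneg_left _ (by positivity)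
        unfold dl
        rw [← hE]
        have : 2 * (cF / 32) * D * E * 1 ≤ 2 * (cF / 32) * D * E * (r0 / mm) ^ 2 :=
          mul_le_mul_of_nonneg_left hs1 (by positivity)
        nlinarith
      have hfin : 2 * (cF / 32) * D * E ≤ 16 * ((1 + 1 / (cF / 2)) * CF) * E := by
        have h10 := hlow.trans hb
        have h11 : (0:ℝ) < n := by linarith
        have h12 : 16 * (n:ℝ) * ((1 + 1 / (cF / 2)) * CF * E) = n * (16 * ((1 + 1 / (cF / 2)) * CF) * E) := by ring
        rw [h12] at h10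
        exact le_of_mul_le_mul_left h10 h11
      have := (mul_lt_mul_of_pos_right hD2 hE0)
      linarith
    · -- not strictly stable: decomposition
      obtain ⟨k, l, hk, hl, hkl, U, hU, hs1, hs2⟩ := hDEC n H0 hH0 hstr
      obtain ⟨hu, -, -, -⟩ := h3 (Fin n) (Fin k ⊕ Fin l) H0 hH0.1 r0 hr00
      obtain ⟨g1, g2, g3⟩ := hu U hU
      have hb := h2 (Fin k) (Fin l) (gram H0 U) g1 r0 hr00
      have hk1 := ih k (by omega) (by omega) _ hs1 r0 hgt.le
      have hl1 := ih l (by omega) (by omega) _ hs2 r0 hgt.le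
      have hkl' : (n : ℝ) = k + l := by
        rw [← hkl]
        push_cast
        rfl
      have hk0 : (0:ℝ) ≤ k := Nat.cast_nonneg _
      have hl0 : (0:ℝ) ≤ l := Nat.cast_nonneg _
      have hd0 := dl_pos (c := cF / 32) (mm := mm) (r := r0) hD
      set δ := dl D (cF / 32) mm r0 with hδ
      rw [g3] at hb
      rw [hqdef, hkl'] at hqpos
      rcases le_total 1 ((k + l : ℝ) * δ) with h | h
      · linarith [hG01.1]
      · have hk2 : (k : ℝ) * δ ≤ 1 := by nlinarith [mul_nonneg hl0 hd0.le]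
        have hl2 : (l : ℝ) * δ ≤ 1 := by nlinarith [mul_nonneg hk0 hd0.le]
        have h8 : (1 - (k : ℝ) * δ) * (1 - (l : ℝ) * δ) ≤ Gam H0 r0 :=
          (mul_le_mul hk1 hl1 (by linarith) (le_trans (by linarith) hk1)).trans hb
        nlinarith [mul_nonneg (mul_nonneg hk0 hd0.le) (mul_nonneg hl0 hd0.le)]

end RMS

/-- BLOCK RMS -/
theorem stmt_RMS (hGB1 : Stmt_GB1) (hNRM : Stmt_NRM) (hFERN : Stmt_FERN) (hKU : Stmt_KU) (hDER : Stmt_DER)
    (hVOR : Stmt_VOR) (hCMP : Stmt_CMP)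
    (h2 : Stmt_GAM2) (h3 : Stmt_GAM3) (h5 : Stmt_GAM5) (h7 : Stmt_GAM7) (hDEC : Stmt_DEC) (hOPEN : Stmt_OPEN)
    (hISO : Stmt_ISO) : Stmt_RMS := by
  obtain ⟨cF, CF, hcF, hCF, hF⟩ := hFERN
  obtain ⟨CK, hCK, hK⟩ := hKU
  set c := cF / 32 with hc
  have hc0 : 0 < c := by positivity
  set C1 := (1 + 1 / (cF / 2)) * CF with hC1
  have hC10 : 0 < C1 := by positivity
  set D := Real.exp c + 16 * C1 / (2 * c) with hD
  have hD1 : Real.exp c ≤ D := by
    rw [hD]
    have : 0 < 16 * C1 / (2 * c) := by positivity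
    linarith
  have hDge : 1 ≤ D := (Real.one_le_exp hc0.le).trans hD1
  have hD2 : 16 * C1 < 2 * c * D := by
    rw [hD, mul_add, mul_div_cancel₀ _ (by positivity : 2 * c ≠ 0)]
    have : 0 < 2 * c * Real.exp c := by positivity
    linarith
  have hl3 : 0 ≤ Real.log (3 * D) := Real.log_nonneg (by linarith)
  set B := 1 + (1 + 2 * Real.log (3 * D)) / (2 * c) with hB
  have hB1 : 1 ≤ B := by
    rw [hB]
    have : 0 ≤ (1 + 2 * Real.log (3 * D)) / (2 * c) := by positivity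
    linarith
  have hBc : 1 + 2 * Real.log (3 * D) ≤ 2 * c * B := by
    rw [hB, mul_add (2 * c) 1, mul_div_cancel₀ _ (by positivity : 2 * c ≠ 0)]
    linarith
  refine ⟨2 * CK * B + 1, by nlinarith [mul_pos hCK (by linarith : 0 < B)], ?_⟩
  intro m hm n hn H hH r hr
  have hm' : (1:ℝ) ≤ m := by exact_mod_cast hm
  have hlog2 : (1:ℝ) / 2 < Real.log 2 := by linarith [Real.log_two_gt_d9]
  set L := Real.log (m + 1) with hL
  have hL1 : 1 / 2 ≤ L := by
    have : Real.log 2 ≤ L := Real.log_le_log (by norm_num) (by linarith)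
    linarith
  have hL0 : 0 < L := by linarith
  set mm := CK * L ^ 2 with hmm
  have hmm0 : 0 < mm := by positivity
  have hm1 : ∀ n : ℕ, n ≤ m → CK * Real.log (n + 1) ^ 2 ≤ mm := by
    intro n hn
    apply mul_le_mul_of_nonneg_left _ hCK.le
    have hn' : (n : ℝ) ≤ m := by exact_mod_cast hn
    have hn0 : (0:ℝ) ≤ n := Nat.cast_nonneg _
    exact pow_le_pow_left₀ (Real.log_nonneg (by linarith)) (Real.log_le_log (by linarith) (by linarith)) 2
  have hr2 : 2 * B * L * mm ≤ r := by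
    refine le_trans ?_ hr
    have : 0 ≤ L ^ 3 := by positivity
    rw [hmm]
    nlinarith
  have hrm : mm ≤ r := by
    refine le_trans ?_ hr2
    have h6 : 1 ≤ 2 * B * L := by nlinarith
    nlinarith
  have hmain := RMS.core hGB1 hNRM hDER hVOR hCMP h2 h3 h5 h7 hDEC hOPEN hISO hcF hF hK hmm0 hm1 hD1 hD2 n hn H hH r hrm
  refine le_trans ?_ hmain
  have hdl : RMS.dl D c mm r ≤ 1 / (3 * m) := by
    unfold RMS.dl
    have hrat : 2 * B * L ≤ r / mm := by
      rw [le_div_iff₀ hmm0]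
      exact hr2
    have h8 : Real.log (3 * D) + L ≤ c * (r / mm) ^ 2 := by
      have h9 : (2 * B * L) ^ 2 ≤ (r / mm) ^ 2 := pow_le_pow_left₀ (by positivity) hrat 2
      have h10 : c * (2 * B * L) ^ 2 ≤ c * (r / mm) ^ 2 := mul_le_mul_of_nonneg_left h9 hc0.le
      refine le_trans ?_ h10
      have h11 : 2 * c * B * L ≤ c * (2 * B * L) ^ 2 := by
        have e1 : c * (2 * B * L) ^ 2 = 2 * c * B * L * (2 * B * L) := by ring
        rw [e1]
        have h6 : 1 ≤ 2 * B * L := by nlinarith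
        exact le_mul_of_one_le_right (by positivity) h6
      refine le_trans ?_ h11
      have h12 : (1 + 2 * Real.log (3 * D)) * L ≤ 2 * c * B * L := mul_le_mul_of_nonneg_right hBc hL0.le
      nlinarith
    calc D * Real.exp (-(c * (r / mm) ^ 2)) ≤ D * Real.exp (-(Real.log (3 * D) + L)) := by
          apply mul_le_mul_of_nonneg_left _ (by linarith)
          exact Real.exp_le_exp.mpr (by linarith)
      _ = 1 / (3 * (m + 1)) := by
          rw [Real.exp_neg, Real.exp_add, Real.exp_log (by linarith), hL, Real.exp_log (by linarith)]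
          have : D ≠ 0 := by linarith
          field_simp
      _ ≤ 1 / (3 * m) := by
          apply one_div_le_one_div_of_le <;> linarith
  have hn0 : (0:ℝ) ≤ n := Nat.cast_nonneg _
  have : (n : ℝ) * RMS.dl D c mm r ≤ n * (1 / (3 * m)) := mul_le_mul_of_nonneg_left hdl hn0
  have e2 : (n : ℝ) * (1 / (3 * m)) = n / (3 * m) := by ring
  rw [e2] at this
  linarith

end Pool.Agent.Work.MP_b10815_co_flt
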