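import Mathlib
import Pool.Agent.Work.MP_b10815_co_flt.Interface

/-!
# Block URY: Urysohn's inequality up to a constant, via a chain of dual Sudakov estimates
-/

set_option autoImplicit false

namespace Pool.Agent.Work.MP_b10815_co_flt

open MeasureTheory Matrix
open scoped Pointwise

namespace URY

variable {n : ℕ}

lemma gd_pos (x : Fin n → ℝ) : 0 < gd x := Real.exp_pos _

lemma gd_cont : Continuous (gd : (Fin n → ℝ) → ℝ) := by
  unfold gd
  simp only [dotProduct]
  fun_prop

lemma gd_neg (x : Fin n → ℝ) : gd (-x) = gd x := by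
  simp [gd]

lemma two_gd (x z : Fin n → ℝ) :
    2 * (Real.exp (-Real.pi * (z ⬝ᵥ z)) * gd x) ≤ gd (x + z) + gd (-x + z) := by
  have h1 : gd (x + z) = Real.exp (-Real.pi * (z ⬝ᵥ z)) * gd x *
      Real.exp (-(2 * Real.pi * (x ⬝ᵥ z))) := by
    unfold gd
    rw [← Real.exp_add, ← Real.exp_add]
    congr 1
    rw [add_dotProduct, dotProduct_add, dotProduct_add, dotProduct_comm z x]
    ring
  have h2 : gd (-x + z) = Real.exp (-Real.pi * (z ⬝ᵥ z)) * gd x *
      Real.exp (2 * Real.pi * (x ⬝ᵥ z)) := by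
    unfold gd
    rw [← Real.exp_add, ← Real.exp_add]
    congr 1
    rw [add_dotProduct, dotProduct_add, dotProduct_add, dotProduct_comm z (-x), neg_dotProduct,
      neg_dotProduct, dotProduct_neg]
    ring
  rw [h1, h2]
  have h3 : 0 < Real.exp (-Real.pi * (z ⬝ᵥ z)) * gd x := mul_pos (Real.exp_pos _) (gd_pos x)
  have h4 : 2 ≤ Real.exp (-(2 * Real.pi * (x ⬝ᵥ z))) + Real.exp (2 * Real.pi * (x ⬝ᵥ z)) := by
    have h5 := Real.exp_pos (2 * Real.pi * (x ⬝ᵥ z))
    rw [Real.exp_neg]
    have h6 : (Real.exp (2 * Real.pi * (x ⬝ᵥ z)))⁻¹ * Real.exp (2 * Real.pi * (x ⬝ᵥ z)) = 1 :=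
      inv_mul_cancel₀ h5.ne'
    have h7 := inv_pos.2 h5
    nlinarith [sq_nonneg ((Real.exp (2 * Real.pi * (x ⬝ᵥ z)))⁻¹ - Real.exp (2 * Real.pi * (x ⬝ᵥ z))),
      sq_nonneg ((Real.exp (2 * Real.pi * (x ⬝ᵥ z)))⁻¹ + Real.exp (2 * Real.pi * (x ⬝ᵥ z)) - 2)]
  nlinarith

/-- translated set -/
def tr (P : Set (Fin n → ℝ)) (z : Fin n → ℝ) : Set (Fin n → ℝ) := {y | y - z ∈ P}

lemma tr_meas {P : Set (Fin n → ℝ)} (hP : MeasurableSet P) (z : Fin n → ℝ) :
    MeasurableSet (tr P z) := by
  unfold tr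
  exact (measurable_id.sub_const z) hP

lemma int_tr {P : Set (Fin n → ℝ)} (hP : MeasurableSet P) (z : Fin n → ℝ) :
    ∫ y in tr P z, gd y = ∫ x in P, gd (x + z) := by
  rw [← integral_indicator (tr_meas hP z), ← integral_indicator hP,
    ← integral_sub_right_eq_self (fun x => P.indicator (fun x => gd (x + z)) x) z]
  refine integral_congr_ae (Filter.Eventually.of_forall fun y => ?_)
  simp only
  by_cases h : y - z ∈ P
  · rw [Set.indicator_of_mem h, Set.indicator_of_mem (show y ∈ tr P z from h), sub_add_cancel]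
  · rw [Set.indicator_of_notMem h, Set.indicator_of_notMem (show y ∉ tr P z from h)]

lemma int_flip {P : Set (Fin n → ℝ)} (hP : MeasurableSet P) (hs : ∀ x ∈ P, -x ∈ P)
    (z : Fin n → ℝ) : ∫ x in P, gd (x + z) = ∫ x in P, gd (-x + z) := by
  rw [← integral_indicator hP, ← integral_indicator hP,
    ← integral_neg_eq_self (fun x => P.indicator (fun x => gd (x + z)) x)]
  refine integral_congr_ae (Filter.Eventually.of_forall fun y => ?_)
  simp only
  by_cases h : y ∈ P
  · rw [Set.indicator_of_mem h, Set.indicator_of_mem (hs y h)]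
  · have h' : -y ∉ P := fun h1 => h (by have := hs _ h1; rwa [neg_neg] at this)
    rw [Set.indicator_of_notMem h, Set.indicator_of_notMem h']

lemma shift_lower (hi : Integrable (gd : (Fin n → ℝ) → ℝ)) {P : Set (Fin n → ℝ)}
    (hP : MeasurableSet P) (hs : ∀ x ∈ P, -x ∈ P) (z : Fin n → ℝ) :
    Real.exp (-Real.pi * (z ⬝ᵥ z)) * ∫ x in P, gd x ≤ ∫ y in tr P z, gd y := by
  rw [int_tr hP z]
  have i1 : Integrable (fun x : Fin n → ℝ => gd (x + z)) := hi.comp_add_right z
  have i2 : Integrable (fun x : Fin n → ℝ => gd (-x + z)) := i1.comp_neg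
  have h1 : 2 * ∫ x in P, gd (x + z) = ∫ x in P, (gd (x + z) + gd (-x + z)) := by
    rw [integral_add i1.integrableOn i2.integrableOn, ← int_flip hP hs z]
    ring
  have h2 : ∫ x in P, 2 * (Real.exp (-Real.pi * (z ⬝ᵥ z)) * gd x) ≤
      ∫ x in P, (gd (x + z) + gd (-x + z)) := by
    refine integral_mono ((hi.integrableOn.const_mul _).const_mul _)
      (i1.integrableOn.add i2.integrableOn) fun x => two_gd x z
  rw [integral_const_mul, integral_const_mul] at h2
  linarith

/-- the data of the argument -/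
structure Dat (n : ℕ) (N M : Seminorm ℝ (Fin n → ℝ)) (w : ℝ) : Prop where
  hi : Integrable (gd : (Fin n → ℝ) → ℝ)
  h1 : ∫ x : Fin n → ℝ, gd x = 1
  hM : Integrable (fun v : Fin n → ℝ => M v * gd v)
  hw : ∫ x : Fin n → ℝ, M x * gd x = w
  hc : Continuous M
  hMN : ∀ x y : Fin n → ℝ, y ⬝ᵥ x ≤ M y * N x

variable {N M : Seminorm ℝ (Fin n → ℝ)} {w : ℝ}

lemma half (D : Dat n N M w) (hw0 : 0 < w) : 1 / 2 ≤ ∫ x in {x | M x ≤ 2 * w}, gd x := by
  have hP : MeasurableSet {x : Fin n → ℝ | M x ≤ 2 * w} :=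
    (isClosed_le D.hc continuous_const).measurableSet
  have h1 : ∫ x in {x | M x ≤ 2 * w}ᶜ, gd x ≤ 1 / 2 := by
    have h2 : ∫ x in {x | M x ≤ 2 * w}ᶜ, (2 * w) * gd x ≤ ∫ x in {x | M x ≤ 2 * w}ᶜ, M x * gd x := by
      refine setIntegral_mono_on (D.hi.integrableOn.const_mul _) D.hM.integrableOn hP.compl ?_
      intro x hx
      have : 2 * w < M x := not_le.1 hx
      exact mul_le_mul_of_nonneg_right this.le (gd_pos x).le
    have h3 : ∫ x in {x | M x ≤ 2 * w}ᶜ, M x * gd x ≤ ∫ x, M x * gd x :=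
      setIntegral_le_integral D.hM
        (Filter.Eventually.of_forall fun x => mul_nonneg (apply_nonneg M x) (gd_pos x).le)
    rw [integral_const_mul] at h2
    rw [D.hw] at h3
    have h4 : 2 * w * ∫ x in {x | M x ≤ 2 * w}ᶜ, gd x ≤ 2 * w * (1 / 2) := by linarith
    exact le_of_mul_le_mul_left h4 (by linarith)
  have h5 := integral_add_compl hP D.hi
  rw [D.h1] at h5
  linarith

/-- dual Sudakov -/
lemma ds (D : Dat n N M w) (hw0 : 0 < w) (S : Finset (Fin n → ℝ)) {ρ s : ℝ} (hs : 0 < s)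
    (hρ : ∀ x ∈ S, x ⬝ᵥ x ≤ ρ ^ 2) (hsep : ∀ x ∈ S, ∀ y ∈ S, x ≠ y → s < M (x - y)) :
    (S.card : ℝ) ≤ 2 * Real.exp (Real.pi * (4 * w * ρ / s) ^ 2) := by
  set P : Set (Fin n → ℝ) := {x | M x ≤ 2 * w} with hPdef
  have hP : MeasurableSet P := (isClosed_le D.hc continuous_const).measurableSet
  have hsym : ∀ x ∈ P, -x ∈ P := by
    intro x hx
    change M (-x) ≤ 2 * w
    rw [map_neg_eq_map]
    exact hx
  set l : ℝ := 4 * w / s with hl
  have hl0 : 0 < l := by positivity
  have hdis : Set.Pairwise (↑S) (Function.onFun Disjoint fun x : Fin n → ℝ => tr P (l • x)) := by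
    intro x hx y hy hxy
    change Disjoint (tr P (l • x)) (tr P (l • y))
    rw [Set.disjoint_left]
    intro u hu hu'
    have h1 : M (u - l • x) ≤ 2 * w := hu
    have h2 : M (u - l • y) ≤ 2 * w := hu'
    have h3 : M (l • (x - y)) ≤ M (u - l • y) + M (u - l • x) := by
      have : l • (x - y) = (u - l • y) - (u - l • x) := by
        rw [smul_sub]; abel
      rw [this]
      exact map_sub_le_add M _ _
    rw [map_smul_eq_mul, Real.norm_of_nonneg hl0.le] at h3
    have h4 := hsep x hx y hy hxy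
    have h5 : l * s = 4 * w := by rw [hl]; field_simp
    nlinarith
  have h1 : ∫ y in ⋃ x ∈ S, tr P (l • x), gd y = ∑ x ∈ S, ∫ y in tr P (l • x), gd y :=
    integral_biUnion_finset S (fun x _ => tr_meas hP _) hdis (fun x _ => D.hi.integrableOn)
  have h2 : ∫ y in ⋃ x ∈ S, tr P (l • x), gd y ≤ 1 := by
    rw [← D.h1]
    exact setIntegral_le_integral D.hi (Filter.Eventually.of_forall fun x => (gd_pos x).le)
  have h3 : ∀ x ∈ S, Real.exp (-(Real.pi * (4 * w * ρ / s) ^ 2)) * (1 / 2) ≤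
      ∫ y in tr P (l • x), gd y := by
    intro x hx
    refine le_trans ?_ (shift_lower D.hi hP hsym (l • x))
    have h4 := half D hw0
    have h5 : Real.exp (-(Real.pi * (4 * w * ρ / s) ^ 2)) ≤
        Real.exp (-Real.pi * ((l • x) ⬝ᵥ (l • x))) := by
      apply Real.exp_le_exp.2
      rw [smul_dotProduct, dotProduct_smul, smul_eq_mul, smul_eq_mul]
      have h6 := hρ x hx
      have h7 : (4 * w * ρ / s) ^ 2 = l * (l * ρ ^ 2) := by rw [hl]; ring
      rw [h7]
      have h8 : l * (l * (x ⬝ᵥ x)) ≤ l * (l * ρ ^ 2) := by gcongr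
      have := mul_le_mul_of_nonneg_left h8 Real.pi_pos.le
      linarith
    exact mul_le_mul h5 h4 (by norm_num) (Real.exp_pos _).le
  have h4 : (S.card : ℝ) * (Real.exp (-(Real.pi * (4 * w * ρ / s) ^ 2)) * (1 / 2)) ≤ 1 := by
    calc (S.card : ℝ) * (Real.exp (-(Real.pi * (4 * w * ρ / s) ^ 2)) * (1 / 2))
        = ∑ x ∈ S, Real.exp (-(Real.pi * (4 * w * ρ / s) ^ 2)) * (1 / 2) := by
          rw [Finset.sum_const, nsmul_eq_mul]
      _ ≤ ∑ x ∈ S, ∫ y in tr P (l • x), gd y := Finset.sum_le_sum h3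
      _ ≤ 1 := by rw [← h1]; exact h2
  have h5 := Real.exp_pos (Real.pi * (4 * w * ρ / s) ^ 2)
  rw [Real.exp_neg] at h4
  have h6 : (S.card : ℝ) * (Real.exp (Real.pi * (4 * w * ρ / s) ^ 2))⁻¹ ≤ 2 := by linarith
  rw [← div_eq_mul_inv, div_le_iff₀ h5] at h6
  exact h6

/-- the set `Q` and separated subsets -/
def Sep (N : Seminorm ℝ (Fin n → ℝ)) (t : ℝ) (S : Finset (Fin n → ℝ)) : Prop :=
  (∀ x ∈ S, N x ≤ 1) ∧ ∀ x ∈ S, ∀ y ∈ S, x ≠ y → t ^ 2 < (x - y) ⬝ᵥ (x - y)

lemma step (D : Dat n N M w) (hw0 : 0 < w) {t : ℝ} (ht : 0 < t) {K : ℝ}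
    (hK : ∀ T : Finset (Fin n → ℝ), Sep N (2 * t) T → (T.card : ℝ) ≤ K)
    {S : Finset (Fin n → ℝ)} (hS : Sep N t S) :
    (S.card : ℝ) ≤ K * (2 * Real.exp (Real.pi * (16 * w / t) ^ 2)) := by
  classical
  obtain ⟨T, hT, hmax⟩ := Finset.exists_max_image (S.powerset.filter fun T => Sep N (2 * t) T)
    Finset.card ⟨∅, by
      rw [Finset.mem_filter]
      exact ⟨Finset.empty_mem_powerset S, by simp, by simp⟩⟩
  rw [Finset.mem_filter, Finset.mem_powerset] at hT
  obtain ⟨hTS, hTsep⟩ := hT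
  have hcov : ∀ x ∈ S, ∃ y ∈ T, (x - y) ⬝ᵥ (x - y) ≤ (2 * t) ^ 2 := by
    intro x hx
    by_contra hcon
    push Not at hcon
    have hxT : x ∉ T := by
      intro hxT
      have := hcon x hxT
      rw [sub_self, dotProduct_zero] at this
      nlinarith
    have h1 : Sep N (2 * t) (insert x T) := by
      refine ⟨?_, ?_⟩
      · intro y hy
        rw [Finset.mem_insert] at hy
        rcases hy with rfl | hy
        · exact hS.1 _ hx
        · exact hS.1 _ (hTS hy)
      · intro y hy z hz hyz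
        rw [Finset.mem_insert] at hy hz
        rcases hy with rfl | hy <;> rcases hz with rfl | hz
        · exact absurd rfl hyz
        · exact hcon z hz
        · have := hcon y hy
          have e : (y - z) ⬝ᵥ (y - z) = (z - y) ⬝ᵥ (z - y) := by
            rw [← neg_sub z y, neg_dotProduct, dotProduct_neg, neg_neg]
          rw [e]; exact this
        · exact hTsep.2 y hy z hz hyz
    have h2 := hmax (insert x T) (by
      rw [Finset.mem_filter, Finset.mem_powerset]
      exact ⟨Finset.insert_subset hx hTS, h1⟩)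
    rw [Finset.card_insert_of_notMem hxT] at h2
    omega
  have hsub : S ⊆ T.biUnion fun y => S.filter fun x => (x - y) ⬝ᵥ (x - y) ≤ (2 * t) ^ 2 := by
    intro x hx
    obtain ⟨y, hy, hxy⟩ := hcov x hx
    rw [Finset.mem_biUnion]
    exact ⟨y, hy, Finset.mem_filter.2 ⟨hx, hxy⟩⟩
  set B : ℝ := 2 * Real.exp (Real.pi * (16 * w / t) ^ 2) with hB
  have hloc : ∀ y ∈ T, ((S.filter fun x => (x - y) ⬝ᵥ (x - y) ≤ (2 * t) ^ 2).card : ℝ) ≤ B := by
    intro y _
    have h1 := ds D hw0 ((S.filter fun x => (x - y) ⬝ᵥ (x - y) ≤ (2 * t) ^ 2).image fun x => x - y)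
      (ρ := 2 * t) (s := t ^ 2 / 2) (by positivity) ?_ ?_
    · rw [Finset.card_image_of_injective _ (sub_left_injective)] at h1
      have h2 : 4 * w * (2 * t) / (t ^ 2 / 2) = 16 * w / t := by field_simp; ring
      rw [h2] at h1
      exact h1
    · intro z hz
      rw [Finset.mem_image] at hz
      obtain ⟨x, hx, rfl⟩ := hz
      exact (Finset.mem_filter.1 hx).2
    · intro z hz z' hz' hne
      rw [Finset.mem_image] at hz hz'
      obtain ⟨x, hx, rfl⟩ := hz
      obtain ⟨x', hx', rfl⟩ := hz'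
      rw [Finset.mem_filter] at hx hx'
      have hxx : x ≠ x' := fun h => hne (by rw [h])
      have h3 := hS.2 x hx.1 x' hx'.1 hxx
      have h4 := D.hMN (x - x') (x - x')
      have h5 : N (x - x') ≤ 2 := by
        refine (map_sub_le_add N x x').trans ?_
        have := hS.1 x hx.1
        have := hS.1 x' hx'.1
        linarith
      have h6 : M (x - x') * N (x - x') ≤ M (x - x') * 2 :=
        mul_le_mul_of_nonneg_left h5 (apply_nonneg M _)
      have h7 : x - y - (x' - y) = x - x' := by abel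
      rw [h7]
      linarith
  have hB0 : 0 ≤ B := by positivity
  calc (S.card : ℝ) ≤ ((T.biUnion fun y => S.filter fun x =>
        (x - y) ⬝ᵥ (x - y) ≤ (2 * t) ^ 2).card : ℝ) := by exact_mod_cast Finset.card_le_card hsub
    _ ≤ ((∑ y ∈ T, (S.filter fun x => (x - y) ⬝ᵥ (x - y) ≤ (2 * t) ^ 2).card : ℕ) : ℝ) := by
        exact_mod_cast Finset.card_biUnion_le
    _ = ∑ y ∈ T, ((S.filter fun x => (x - y) ⬝ᵥ (x - y) ≤ (2 * t) ^ 2).card : ℝ) := by
        push_cast; rfl
    _ ≤ ∑ y ∈ T, B := Finset.sum_le_sum hloc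
    _ = T.card * B := by rw [Finset.sum_const, nsmul_eq_mul]
    _ ≤ K * B := mul_le_mul_of_nonneg_right (hK T hTsep) hB0

lemma chain (D : Dat n N M w) (hw0 : 0 < w) (k : ℕ) : ∀ t : ℝ, 0 < t →
    (∀ x y, N x ≤ 1 → N y ≤ 1 → (x - y) ⬝ᵥ (x - y) ≤ (2 ^ k * t) ^ 2) →
    ∀ S : Finset (Fin n → ℝ), Sep N t S →
      (S.card : ℝ) ≤ 2 ^ k * Real.exp (512 * Real.pi * (w / t) ^ 2) := by
  induction k with
  | zero =>
    intro t ht hd S hS
    have h1 : S.card ≤ 1 := by
      rw [Finset.card_le_one]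
      intro x hx y hy
      by_contra hne
      have h2 := hS.2 x hx y hy hne
      have h3 := hd x y (hS.1 x hx) (hS.1 y hy)
      rw [pow_zero, one_mul] at h3
      linarith
    have h4 : (S.card : ℝ) ≤ 1 := by exact_mod_cast h1
    have h5 : 1 ≤ Real.exp (512 * Real.pi * (w / t) ^ 2) := Real.one_le_exp (by positivity)
    rw [pow_zero, one_mul]
    linarith
  | succ k ih =>
    intro t ht hd S hS
    have h1 := step D hw0 ht (K := 2 ^ k * Real.exp (512 * Real.pi * (w / (2 * t)) ^ 2))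
      (fun T hT => ih (2 * t) (by positivity) (fun x y hx hy => by
        have := hd x y hx hy
        have e : (2 : ℝ) ^ (k + 1) * t = 2 ^ k * (2 * t) := by ring
        rwa [e] at this) T hT) hS
    refine h1.trans ?_
    have e : (2 : ℝ) ^ k * Real.exp (512 * Real.pi * (w / (2 * t)) ^ 2) *
        (2 * Real.exp (Real.pi * (16 * w / t) ^ 2)) = 2 ^ (k + 1) *
        Real.exp (384 * Real.pi * (w / t) ^ 2) := by
      have e1 : 384 * Real.pi * (w / t) ^ 2 = 512 * Real.pi * (w / (2 * t)) ^ 2 +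
          Real.pi * (16 * w / t) ^ 2 := by
        field_simp; ring
      rw [e1, Real.exp_add]
      ring
    rw [e]
    have h2 : Real.exp (384 * Real.pi * (w / t) ^ 2) ≤ Real.exp (512 * Real.pi * (w / t) ^ 2) := by
      apply Real.exp_le_exp.2
      have : 0 ≤ Real.pi * (w / t) ^ 2 := by positivity
      linarith
    exact mul_le_mul_of_nonneg_left h2 (by positivity)

/-- Euclidean ball -/
def eb (n : ℕ) (t : ℝ) : Set (Fin n → ℝ) := {u | u ⬝ᵥ u ≤ t ^ 2}

lemma dot_cont : Continuous (fun u : Fin n → ℝ => u ⬝ᵥ u) := by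
  simp only [dotProduct]
  fun_prop

lemma eb_meas (t : ℝ) : MeasurableSet (eb n t) :=
  (isClosed_le dot_cont continuous_const).measurableSet

lemma coord_le {u : Fin n → ℝ} {t : ℝ} (ht : 0 ≤ t) (hu : u ⬝ᵥ u ≤ t ^ 2) (i : Fin n) :
    |u i| ≤ t := by
  have h1 : u i ^ 2 ≤ u ⬝ᵥ u := by
    rw [dotProduct, pow_two]
    exact Finset.single_le_sum (f := fun i => u i * u i) (fun i _ => mul_self_nonneg _)
      (Finset.mem_univ i)
  exact abs_le_of_sq_le_sq (h1.trans hu) ht

lemma eb_fin {t : ℝ} (ht : 0 ≤ t) : volume (eb n t) ≠ ⊤ := by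
  have h1 : eb n t ⊆ Metric.closedBall 0 t := by
    intro u hu
    rw [mem_closedBall_zero_iff, pi_norm_le_iff_of_nonneg ht]
    intro i
    rw [Real.norm_eq_abs]
    exact coord_le ht hu i
  exact ((measure_mono h1).trans_lt measure_closedBall_lt_top).ne

lemma eb_vol (hi : Integrable (gd : (Fin n → ℝ) → ℝ)) (h1 : ∫ x : Fin n → ℝ, gd x = 1) {t : ℝ}
    (ht : 0 ≤ t) : volume.real (eb n t) ≤ Real.exp (Real.pi * t ^ 2) := by
  have h2 : ∫ x in eb n t, Real.exp (-(Real.pi * t ^ 2)) ≤ ∫ x in eb n t, gd x := by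
    refine setIntegral_mono_on (integrableOn_const (eb_fin ht)) hi.integrableOn (eb_meas t) ?_
    intro x hx
    apply Real.exp_le_exp.2
    have h3 : x ⬝ᵥ x ≤ t ^ 2 := hx
    have := mul_le_mul_of_nonneg_left h3 Real.pi_pos.le
    linarith
  have h3 : ∫ x in eb n t, gd x ≤ 1 := by
    rw [← h1]
    exact setIntegral_le_integral hi (Filter.Eventually.of_forall fun x => (gd_pos x).le)
  rw [setIntegral_const, smul_eq_mul, Real.exp_neg] at h2
  have h4 := Real.exp_pos (Real.pi * t ^ 2)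
  have h5 : volume.real (eb n t) * (Real.exp (Real.pi * t ^ 2))⁻¹ ≤ 1 := h2.trans h3
  rwa [← div_eq_mul_inv, div_le_one h4] at h5

lemma eb_scale (hn : 0 < n) (hi : Integrable (gd : (Fin n → ℝ) → ℝ))
    (h1 : ∫ x : Fin n → ℝ, gd x = 1) {t : ℝ} (ht : 0 < t) :
    volume.real (eb n t) ≤ (t / Real.sqrt n) ^ n * Real.exp (Real.pi * n) := by
  have hn' : 0 < (n : ℝ) := by exact_mod_cast hn
  have hs : 0 < Real.sqrt n := Real.sqrt_pos.2 hn'
  have h2 : eb n t ⊆ (t / Real.sqrt n) • eb n (Real.sqrt n) := by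
    intro u hu
    refine ⟨(Real.sqrt n / t) • u, ?_, ?_⟩
    · change ((Real.sqrt n / t) • u) ⬝ᵥ ((Real.sqrt n / t) • u) ≤ Real.sqrt n ^ 2
      rw [smul_dotProduct, dotProduct_smul, smul_eq_mul, smul_eq_mul]
      have h3 : u ⬝ᵥ u ≤ t ^ 2 := hu
      calc Real.sqrt n / t * (Real.sqrt n / t * (u ⬝ᵥ u))
          ≤ Real.sqrt n / t * (Real.sqrt n / t * t ^ 2) := by gcongr
        _ = Real.sqrt n ^ 2 := by field_simp
    · change (t / Real.sqrt n) • (Real.sqrt n / t) • u = u
      rw [smul_smul]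
      have : t / Real.sqrt n * (Real.sqrt n / t) = 1 := by field_simp
      rw [this, one_smul]
  have h3 : volume ((t / Real.sqrt n) • eb n (Real.sqrt n)) =
      ENNReal.ofReal (|(t / Real.sqrt n) ^ n|) * volume (eb n (Real.sqrt n)) := by
    rw [Measure.addHaar_smul, Module.finrank_fin_fun]
  have h4 : volume ((t / Real.sqrt n) • eb n (Real.sqrt n)) ≠ ⊤ := by
    rw [h3]
    exact ENNReal.mul_ne_top ENNReal.ofReal_ne_top (eb_fin hs.le)
  have h5 : volume.real (eb n t) ≤ volume.real ((t / Real.sqrt n) • eb n (Real.sqrt n)) :=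
    measureReal_mono h2 h4
  refine h5.trans ?_
  rw [Measure.real, h3, ENNReal.toReal_mul, ENNReal.toReal_ofReal (abs_nonneg _),
    abs_of_nonneg (by positivity)]
  have h6 := eb_vol hi h1 hs.le
  rw [Real.sq_sqrt hn'.le] at h6
  exact mul_le_mul_of_nonneg_left h6 (by positivity)

/-- flip all coordinates except the `i`-th -/
def flip (i : Fin n) (y : Fin n → ℝ) : Fin n → ℝ := fun j => if j = i then y j else -y j

lemma flip_flip (i : Fin n) (y : Fin n → ℝ) : flip i (flip i y) = y := by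
  funext j
  unfold flip
  by_cases h : j = i
  · simp [h]
  · simp [h]

lemma flip_gd (i : Fin n) (y : Fin n → ℝ) : gd (flip i y) = gd y := by
  have h : flip i y ⬝ᵥ flip i y = y ⬝ᵥ y := by
    unfold dotProduct
    refine Finset.sum_congr rfl fun j _ => ?_
    unfold flip
    by_cases h : j = i
    · simp [h]
    · simp [h]
  unfold gd
  rw [h]

lemma flip_mp (i : Fin n) : MeasurePreserving (flip i) (volume : Measure (Fin n → ℝ)) volume := by
  have := volume_preserving_pi (α' := fun _ : Fin n => ℝ) (β' := fun _ : Fin n => ℝ)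
    (f := fun j (x : ℝ) => if j = i then x else -x) (fun j => by
      by_cases h : j = i
      · simp only [h, if_true]
        exact MeasurePreserving.id _
      · simp only [h, if_false]
        exact Measure.measurePreserving_neg volume)
  exact this

lemma flip_meas (i : Fin n) : Measurable (flip i : (Fin n → ℝ) → Fin n → ℝ) := (flip_mp i).measurable

/-- flip as a measurable equivalence -/
def flipE (i : Fin n) : (Fin n → ℝ) ≃ᵐ (Fin n → ℝ) where
  toFun := flip i
  invFun := flip i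
  left_inv := flip_flip i
  right_inv := flip_flip i
  measurable_toFun := flip_meas i
  measurable_invFun := flip_meas i

lemma int_flip' (i : Fin n) (f : (Fin n → ℝ) → ℝ) : ∫ y, f (flip i y) = ∫ y, f y :=
  (flip_mp i).integral_comp (flipE i).measurableEmbedding f

lemma int_abs : ∫ t : ℝ, |t| * Real.exp (-Real.pi * (t * t)) = 1 / Real.pi := by
  have h1 : ∫ t : ℝ, (fun r => r * Real.exp (-Real.pi * (r * r))) |t| =
      2 * ∫ t in Set.Ioi (0 : ℝ), t * Real.exp (-Real.pi * (t * t)) :=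
    integral_comp_abs (f := fun r => r * Real.exp (-Real.pi * (r * r)))
  have h2 : ∫ t : ℝ, |t| * Real.exp (-Real.pi * (t * t)) =
      ∫ t : ℝ, (fun r => r * Real.exp (-Real.pi * (r * r))) |t| := by
    refine integral_congr_ae (Filter.Eventually.of_forall fun t => ?_)
    simp only [abs_mul_abs_self]
  rw [h2, h1]
  have h3 := integral_mul_cexp_neg_mul_sq (b := (Real.pi : ℂ)) (by simpa using Real.pi_pos)
  have h4 : ((∫ t in Set.Ioi (0 : ℝ), t * Real.exp (-Real.pi * (t * t)) : ℝ) : ℂ) =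
      (2 * (Real.pi : ℂ))⁻¹ := by
    rw [← h3, ← integral_complex_ofReal]
    refine integral_congr_ae (Filter.Eventually.of_forall fun t => ?_)
    simp only
    push_cast
    rw [pow_two]
  have h5 : ∫ t in Set.Ioi (0 : ℝ), t * Real.exp (-Real.pi * (t * t)) = (2 * Real.pi)⁻¹ := by
    exact_mod_cast h4
  rw [h5]
  have := Real.pi_pos
  field_simp

lemma int_one : ∫ t : ℝ, Real.exp (-Real.pi * (t * t)) = 1 := by
  have h := integral_gaussian Real.pi
  rw [div_self Real.pi_pos.ne', Real.sqrt_one] at h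
  rw [← h]
  refine integral_congr_ae (Filter.Eventually.of_forall fun t => ?_)
  simp only
  rw [pow_two]

lemma gd_prod (x : Fin n → ℝ) : gd x = ∏ j, Real.exp (-Real.pi * (x j * x j)) := by
  rw [← Real.exp_sum, ← Finset.mul_sum]
  rfl

lemma int_coord (i : Fin n) : ∫ y : Fin n → ℝ, |y i| * gd y = 1 / Real.pi := by
  have h1 : ∀ y : Fin n → ℝ, |y i| * gd y =
      ∏ j, (if j = i then |y j| * Real.exp (-Real.pi * (y j * y j)) else
        Real.exp (-Real.pi * (y j * y j))) := by
    intro y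
    rw [gd_prod, ← Finset.mul_prod_erase Finset.univ _ (Finset.mem_univ i),
      ← Finset.mul_prod_erase Finset.univ (fun j => if j = i then _ else _) (Finset.mem_univ i)]
    rw [if_pos rfl, mul_assoc]
    congr 2
    refine Finset.prod_congr rfl fun j hj => ?_
    rw [if_neg (Finset.ne_of_mem_erase hj)]
  rw [integral_congr_ae (Filter.Eventually.of_forall h1)]
  rw [integral_fintype_prod_volume_eq_prod (fun (j : Fin n) (t : ℝ) => if j = i then
    |t| * Real.exp (-Real.pi * (t * t)) else Real.exp (-Real.pi * (t * t)))]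
  rw [← Finset.mul_prod_erase Finset.univ _ (Finset.mem_univ i)]
  simp only [if_true, int_abs]
  rw [Finset.prod_eq_one, mul_one]
  intro j hj
  simp only [if_neg (Finset.ne_of_mem_erase hj), int_one]

lemma coord (D : Dat n N M w) {x : Fin n → ℝ} (hx : N x ≤ 1) (i : Fin n) :
    |x i| ≤ Real.pi * w := by
  have hM : ∀ y, |y ⬝ᵥ x| ≤ M y := by
    intro y
    have h1 := D.hMN x y
    have h2 := D.hMN x (-y)
    rw [neg_dotProduct, map_neg_eq_map] at h2
    have h3 : M y * N x ≤ M y := mul_le_of_le_one_right (apply_nonneg M y) hx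
    rw [abs_le]
    constructor <;> linarith
  have h1 : ∀ y, 2 * (|x i| * (|y i| * gd y)) ≤ M y * gd y + M (flip i y) * gd (flip i y) := by
    intro y
    rw [flip_gd, ← add_mul]
    have h2 : 2 * (|x i| * |y i|) ≤ M y + M (flip i y) := by
      have h3 := hM y
      have h4 := hM (flip i y)
      have h5 : y ⬝ᵥ x + flip i y ⬝ᵥ x = 2 * (x i * y i) := by
        unfold dotProduct
        rw [← Finset.sum_add_distrib, Finset.sum_eq_single i]
        · unfold flip; rw [if_pos rfl]; ring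
        · intro j _ hj
          unfold flip; rw [if_neg hj]; ring
        · intro h; exact absurd (Finset.mem_univ i) h
      have h6 : |2 * (x i * y i)| ≤ |y ⬝ᵥ x| + |flip i y ⬝ᵥ x| := by
        rw [← h5]; exact abs_add_le _ _
      rw [abs_mul, abs_mul, abs_two] at h6
      linarith
    have := mul_le_mul_of_nonneg_right h2 (gd_pos y).le
    linarith
  have i1 : Integrable (fun y : Fin n → ℝ => M (flip i y) * gd (flip i y)) :=
    (flip_mp i).integrable_comp_of_integrable D.hM
  have i2 : Integrable (fun y : Fin n → ℝ => |y i| * gd y) := by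
    by_contra hcon
    have h3 := int_coord i
    rw [integral_undef hcon] at h3
    have := Real.pi_pos
    have : (0 : ℝ) < 1 / Real.pi := by positivity
    linarith
  have h2 := integral_mono ((i2.const_mul |x i|).const_mul 2) (D.hM.add i1) h1
  rw [integral_const_mul, integral_const_mul, integral_add' D.hM i1,
    int_flip' i (fun y => M y * gd y), D.hw, int_coord] at h2
  have h3 := Real.pi_pos
  have h4 : |x i| * (1 / Real.pi) ≤ w := by linarith
  rw [mul_one_div, div_le_iff₀ h3] at h4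
  linarith

lemma dist_le (D : Dat n N M w) {x y : Fin n → ℝ} (hx : N x ≤ 1) (hy : N y ≤ 1) :
    (x - y) ⬝ᵥ (x - y) ≤ n * (2 * Real.pi * w) ^ 2 := by
  have h1 : ∀ i, (x - y) i * (x - y) i ≤ (2 * Real.pi * w) ^ 2 := by
    intro i
    rw [← pow_two]
    apply sq_le_sq'
    · have h2 := abs_le.1 (coord D hx i)
      have h3 := abs_le.1 (coord D hy i)
      rw [Pi.sub_apply]
      linarith [h2.1, h3.2]
    · have h2 := abs_le.1 (coord D hx i)
      have h3 := abs_le.1 (coord D hy i)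
      rw [Pi.sub_apply]
      linarith [h2.2, h3.1]
  unfold dotProduct
  refine (Finset.sum_le_card_nsmul _ _ _ fun i _ => h1 i).trans ?_
  rw [Finset.card_univ, Fintype.card_fin, nsmul_eq_mul]

lemma vol (D : Dat n N M w) (hw0 : 0 < w) (hn : 0 < n) :
    volume.real {x | N x ≤ 1} ≤ (64 * Real.exp (2 * Real.pi) * w / n) ^ n := by
  have hn' : 0 < (n : ℝ) := by exact_mod_cast hn
  have hs : 0 < Real.sqrt n := Real.sqrt_pos.2 hn'
  set t : ℝ := 32 * w / Real.sqrt n with ht
  have ht0 : 0 < t := by positivity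
  have hd : ∀ x y, N x ≤ 1 → N y ≤ 1 → (x - y) ⬝ᵥ (x - y) ≤ (2 ^ n * t) ^ 2 := by
    intro x y hx hy
    refine (dist_le D hx hy).trans ?_
    have h1 : (2 ^ n * t) ^ 2 * n = (2 ^ n * (32 * w)) ^ 2 := by
      rw [ht, mul_pow, div_pow, Real.sq_sqrt hn'.le]
      field_simp
    have h2 : (n : ℝ) ≤ 2 ^ n := by
      exact_mod_cast Nat.lt_two_pow_self.le
    have h3 : (n : ℝ) * (2 * Real.pi * w) ≤ 2 ^ n * (32 * w) := by
      have := Real.pi_le_four
      have h4 : 2 * Real.pi * w ≤ 32 * w := by nlinarith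
      exact mul_le_mul h2 h4 (by positivity) (by positivity)
    have h5 : ((n : ℝ) * (2 * Real.pi * w)) ^ 2 ≤ (2 ^ n * (32 * w)) ^ 2 :=
      pow_le_pow_left₀ (by positivity) h3 2
    have h6 : (n * (2 * Real.pi * w) ^ 2) * n ≤ (2 ^ n * t) ^ 2 * n := by
      rw [h1]
      calc (n : ℝ) * (2 * Real.pi * w) ^ 2 * n = (n * (2 * Real.pi * w)) ^ 2 := by ring
        _ ≤ _ := h5
    exact le_of_mul_le_mul_right h6 hn'
  have hcard := chain D hw0 n t ht0 hd
  have hwt : (w / t) ^ 2 = n / 1024 := by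
    rw [ht, div_div_eq_mul_div, div_pow, mul_pow, Real.sq_sqrt hn'.le]
    field_simp
    norm_num
  rw [hwt] at hcard
  have hexp : 512 * Real.pi * (n / 1024) = Real.pi / 2 * n := by ring
  rw [hexp] at hcard
  -- a maximal separated set
  have hbdd : BddAbove {m : ℕ | ∃ S : Finset (Fin n → ℝ), Sep N t S ∧ S.card = m} := by
    refine ⟨⌊(2 : ℝ) ^ n * Real.exp (Real.pi / 2 * n)⌋₊, ?_⟩
    rintro m ⟨S, hS, rfl⟩
    exact Nat.le_floor (hcard S hS)
  have hne : {m : ℕ | ∃ S : Finset (Fin n → ℝ), Sep N t S ∧ S.card = m}.Nonempty :=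
    ⟨0, ∅, ⟨by simp, by simp⟩, rfl⟩
  obtain ⟨S, hS, hSm⟩ := Nat.sSup_mem hne hbdd
  have hmax : ∀ S', Sep N t S' → S'.card ≤ S.card := by
    intro S' hS'
    rw [hSm]
    exact le_csSup hbdd ⟨S', hS', rfl⟩
  have hcov : {x | N x ≤ 1} ⊆ ⋃ y ∈ S, {x : Fin n → ℝ | x - y ∈ eb n t} := by
    classical
    intro x hx
    by_contra hcon
    have hcon' : ∀ y ∈ S, t ^ 2 < (x - y) ⬝ᵥ (x - y) := by
      intro y hy
      by_contra h
      apply hcon
      simp only [Set.mem_iUnion]
      exact ⟨y, hy, not_lt.1 h⟩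
    have hxS : x ∉ S := by
      intro hxS
      have := hcon' x hxS
      rw [sub_self, dotProduct_zero] at this
      nlinarith
    have h1 : Sep N t (insert x S) := by
      refine ⟨?_, ?_⟩
      · intro y hy
        rw [Finset.mem_insert] at hy
        rcases hy with rfl | hy
        · exact hx
        · exact hS.1 _ hy
      · intro y hy z hz hyz
        rw [Finset.mem_insert] at hy hz
        rcases hy with rfl | hy <;> rcases hz with rfl | hz
        · exact absurd rfl hyz
        · exact hcon' z hz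
        · have := hcon' y hy
          have e : (y - z) ⬝ᵥ (y - z) = (z - y) ⬝ᵥ (z - y) := by
            rw [← neg_sub z y, neg_dotProduct, dotProduct_neg, neg_neg]
          rw [e]; exact this
        · exact hS.2 y hy z hz hyz
    have h2 := hmax _ h1
    rw [Finset.card_insert_of_notMem hxS] at h2
    omega
  have hvt : ∀ y : Fin n → ℝ, volume {x : Fin n → ℝ | x - y ∈ eb n t} = volume (eb n t) := by
    intro y
    have := measure_preimage_add_right (volume : Measure (Fin n → ℝ)) (-y) (eb n t)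
    simp only [← sub_eq_add_neg] at this
    exact this
  have hfin : volume (⋃ y ∈ S, {x : Fin n → ℝ | x - y ∈ eb n t}) ≠ ⊤ := by
    refine ((measure_biUnion_finset_le S _).trans_lt ?_).ne
    refine ENNReal.sum_lt_top.2 fun y _ => ?_
    rw [hvt y]
    exact (eb_fin ht0.le).lt_top
  have h1 : volume.real {x | N x ≤ 1} ≤ S.card * volume.real (eb n t) := by
    refine (measureReal_mono hcov hfin).trans ((measureReal_biUnion_finset_le S _).trans ?_)
    have : ∀ y ∈ S, volume.real {x : Fin n → ℝ | x - y ∈ eb n t} = volume.real (eb n t) := by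
      intro y _
      rw [Measure.real, hvt y, Measure.real]
    rw [Finset.sum_congr rfl this, Finset.sum_const, nsmul_eq_mul]
  have h2 := eb_scale hn D.hi D.h1 ht0
  have h3 := hcard S hS
  have h4 : t / Real.sqrt n = 32 * w / n := by
    rw [ht, div_div, Real.mul_self_sqrt hn'.le]
  rw [h4] at h2
  calc volume.real {x | N x ≤ 1} ≤ S.card * volume.real (eb n t) := h1
    _ ≤ (2 ^ n * Real.exp (Real.pi / 2 * n)) * ((32 * w / n) ^ n * Real.exp (Real.pi * n)) :=
        mul_le_mul h3 h2 measureReal_nonneg (by positivity)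
    _ = (64 * Real.exp (Real.pi * (3 / 2)) * w / n) ^ n := by
        have e1 : Real.exp (Real.pi / 2 * n) = Real.exp (Real.pi / 2) ^ n := by
          rw [← Real.exp_nat_mul]; ring_nf
        have e2 : Real.exp (Real.pi * n) = Real.exp Real.pi ^ n := by
          rw [← Real.exp_nat_mul]; ring_nf
        have e3 : Real.exp (Real.pi * (3 / 2)) = Real.exp (Real.pi / 2) * Real.exp Real.pi := by
          rw [← Real.exp_add]; ring_nf
        rw [e1, e2, e3, ← mul_pow, ← mul_pow, ← mul_pow]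
        ring
    _ ≤ _ := by
        apply pow_le_pow_left₀ (by positivity)
        have : Real.exp (Real.pi * (3 / 2)) ≤ Real.exp (2 * Real.pi) := by
          apply Real.exp_le_exp.2
          linarith [Real.pi_pos]
        gcongr

end URY

theorem stmt_URY (hGB : Stmt_GB1) (hNRM : Stmt_NRM) : Stmt_URY := by
  refine ⟨64 * Real.exp (2 * Real.pi), by positivity, ?_⟩
  intro n hn N hN
  obtain ⟨-, -, -, -, ⟨M, hM, hMd⟩, hMN, -⟩ := (hNRM (Fin n)).2 N hN
  obtain ⟨-, -, -, hMc, -, -, -⟩ := (hNRM (Fin n)).2 M hM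
  obtain ⟨⟨hi, h1⟩, -, -, -, -, -, hint⟩ := hGB (Fin n)
  have hD : URY.Dat n N M (∫ x, M x * gd x) := by
    refine ⟨hi, h1, hint M, rfl, hMc, ?_⟩
    intro x y
    rw [hMd]
    exact hMN x y
  have hw : ∫ x : Fin n → ℝ, dualN N x * gd x = ∫ x, M x * gd x := by
    refine integral_congr_ae (Filter.Eventually.of_forall fun x => ?_)
    simp only [hMd]
  rw [hw]
  have hn0 : 0 < n := hn
  have hw0 : 0 < ∫ x : Fin n → ℝ, M x * gd x := by
    set i : Fin n := ⟨0, hn0⟩ with hi0
    set x : Fin n → ℝ := Pi.single i 1 with hx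
    have hx0 : x ≠ 0 := by
      intro h
      have := congrFun h i
      rw [hx, Pi.single_eq_same] at this
      exact one_ne_zero this
    have hNx : 0 < N x := lt_of_le_of_ne (apply_nonneg N x) fun h => hx0 (hN x h.symm)
    have h3 : N ((N x)⁻¹ • x) ≤ 1 := by
      rw [map_smul_eq_mul, Real.norm_of_nonneg (inv_nonneg.2 hNx.le), inv_mul_cancel₀ hNx.ne']
    have h4 := URY.coord hD h3 i
    have h5 : ((N x)⁻¹ • x) i = (N x)⁻¹ := by
      rw [Pi.smul_apply, hx, Pi.single_eq_same, smul_eq_mul, mul_one]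
    rw [h5] at h4
    have h6 : 0 < |(N x)⁻¹| := abs_pos.2 (inv_ne_zero hNx.ne')
    have h7 := lt_of_lt_of_le h6 h4
    exact pos_of_mul_pos_right h7 Real.pi_pos.le
  exact URY.vol hD hw0 hn0

end Pool.Agent.Work.MP_b10815_co_flt
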