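import Pool.Agent.Work.MP_b10815_co_flt.BLK
import Pool.Agent.Work.MP_b10815_co_flt.CMP
import Pool.Agent.Work.MP_b10815_co_flt.CONB
import Pool.Agent.Work.MP_b10815_co_flt.COV
import Pool.Agent.Work.MP_b10815_co_flt.DER
import Pool.Agent.Work.MP_b10815_co_flt.DHC
import Pool.Agent.Work.MP_b10815_co_flt.FERN
import Pool.Agent.Work.MP_b10815_co_flt.FIN
import Pool.Agent.Work.MP_b10815_co_flt.GAM1
import Pool.Agent.Work.MP_b10815_co_flt.GAM2
import Pool.Agent.Work.MP_b10815_co_flt.GAM3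
import Pool.Agent.Work.MP_b10815_co_flt.GAM5
import Pool.Agent.Work.MP_b10815_co_flt.GAM7
import Pool.Agent.Work.MP_b10815_co_flt.GB1
import Pool.Agent.Work.MP_b10815_co_flt.GCON
import Pool.Agent.Work.MP_b10815_co_flt.ISO
import Pool.Agent.Work.MP_b10815_co_flt.JEN
import Pool.Agent.Work.MP_b10815_co_flt.KC
import Pool.Agent.Work.MP_b10815_co_flt.LP
import Pool.Agent.Work.MP_b10815_co_flt.NRM
import Pool.Agent.Work.MP_b10815_co_flt.POI
import Pool.Agent.Work.MP_b10815_co_flt.QUO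
import Pool.Agent.Work.MP_b10815_co_flt.REC
import Pool.Agent.Work.MP_b10815_co_flt.RED
import Pool.Agent.Work.MP_b10815_co_flt.RM
import Pool.Agent.Work.MP_b10815_co_flt.RMS
import Pool.Agent.Work.MP_b10815_co_flt.SAT
import Pool.Agent.Work.MP_b10815_co_flt.URY
import Pool.Agent.Work.MP_b10815_co_flt.VOL
import Pool.Agent.Work.MP_b10815_co_flt.VOR
import Pool.Agent.Work.MP_b10815_co_flat.Upper

set_option autoImplicit false

namespace Pool.Agent.Work.MP_b10815_co_flt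

open Pool.Agent.Work.MP_b10815_co Pool.Agent.Work.MP_b10815_co_flat MeasureTheory Matrix

theorem kc : Stmt_KC := KC.stmt_KC stmt_NRM

theorem gcon : Stmt_GCON := GCON.stmt_GCON stmt_GB1

theorem ury : Stmt_URY := stmt_URY stmt_GB1 stmt_NRM

theorem lp : Stmt_LP := stmt_LP kc gcon stmt_NRM

theorem ku : Stmt_KU := stmt_KU kc gcon ury stmt_NRM

theorem der : Stmt_DER := stmt_DER stmt_GB1 stmt_NRM

theorem iso : Stmt_ISO := stmt_ISO stmt_VOR stmt_DHC

theorem gam2 : Stmt_GAM2 := stmt_GAM2 stmt_BLK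

theorem cmp : Stmt_CMP := stmt_CMP stmt_RED

theorem quo : Stmt_QUO := stmt_QUO stmt_SAT stmt_FIN stmt_BLK

theorem dec : Stmt_DEC := stmt_DEC stmt_SAT stmt_BLK

theorem gen : Stmt_GEN := stmt_GEN stmt_SAT stmt_FIN stmt_BLK

theorem con : Stmt_CON := stmt_CON stmt_JEN ury lp

/-- the reverse Minkowski theorem for stable forms -/
theorem rms : Stmt_RMS := stmt_RMS stmt_GB1 stmt_NRM stmt_FERN ku der stmt_VOR cmp gam2 stmt_GAM3
  stmt_GAM5 stmt_GAM7 dec stmt_OPEN iso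

/-- the reverse Minkowski theorem -/
theorem rm : Stmt_RM := stmt_RM rms gen stmt_GAM1 gam2 stmt_GAM3 stmt_BLK

theorem rec' : Stmt_REC := stmt_REC stmt_JEN stmt_NRM quo stmt_BLK stmt_COV lp rm con stmt_VOL1

/-- the near-linear flatness theorem -/
theorem flat : Stmt_FLAT := stmt_FLAT rec'

/-- the near-linear flatness theorem in the notation of the problem -/
theorem flatness : ∃ C : ℝ, 0 < C ∧ ∀ n : ℕ, 1 ≤ n →
    FlatnessBound n (C * n * Real.log (n + 1) ^ 8) := by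
  obtain ⟨C, hC, h⟩ := flat
  refine ⟨C, hC, fun n hn K hKv hKc hKi hz => ?_⟩
  obtain ⟨z, hz0, hw⟩ := h n hn K hKv hKc hKi (fun z hzK => by
    have : zc z ∈ integerPoints K := ⟨hzK, fun i => ⟨z i, rfl⟩⟩
    rw [hz] at this
    exact this)
  exact ⟨z, hz0, fun x hx y hy => hw x hx y hy⟩

lemma admissible_mono {d : ℕ} {c c' : ℝ} (h : Admissible d c) (hc : c ≤ c') : Admissible d c' := by
  refine ⟨lt_of_lt_of_le h.1 hc, fun K hKv hKc hKi N hN hcov => ?_⟩
  obtain ⟨M, hM, hpar⟩ := h.2 K hKv hKc hKi N hN hcov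
  exact ⟨M, hM.trans (mul_le_mul_of_nonneg_right hc (Nat.cast_nonneg N)), hpar⟩

/-- near-linear upper bound for the covering constant -/
theorem upper_near_linear : ∃ C : ℝ, 0 < C ∧ ∀ d : ℕ, 1 ≤ d →
    Admissible d (C * d * Real.log (d + 1) ^ 8) := by
  obtain ⟨C, hC, h⟩ := flatness
  have h2 : (0.6931471803 : ℝ) < Real.log 2 := Real.log_two_gt_d9
  refine ⟨3 / 2 * C + 1 / 2 * 2 ^ 8, by positivity, fun d hd => ?_⟩
  refine admissible_mono (upper d hd _ (h d hd)) ?_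
  have hd1 : (1 : ℝ) ≤ d := by exact_mod_cast hd
  have hlog : (1 / 2 : ℝ) ≤ Real.log (d + 1) := by
    have : Real.log 2 ≤ Real.log (d + 1) := Real.log_le_log (by norm_num) (by linarith)
    linarith
  have h3 : (1 / 2 : ℝ) ^ 8 ≤ Real.log (d + 1) ^ 8 := pow_le_pow_left₀ (by norm_num) hlog 8
  have h4 : (1 : ℝ) ≤ 2 ^ 8 * (d * Real.log (d + 1) ^ 8) := by
    have h5 : (1 : ℝ) ≤ 2 ^ 8 * Real.log (d + 1) ^ 8 := by
      have : (1 : ℝ) = 2 ^ 8 * (1 / 2) ^ 8 := by norm_num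
      calc (1 : ℝ) = 2 ^ 8 * (1 / 2) ^ 8 := this
        _ ≤ 2 ^ 8 * Real.log (d + 1) ^ 8 := by gcongr
    have h6 : (0 : ℝ) ≤ 2 ^ 8 * Real.log (d + 1) ^ 8 := by linarith
    nlinarith
  nlinarith

end Pool.Agent.Work.MP_b10815_co_flt
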