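import Pool.Agent.Work.MP_b10815_co_flt.LatAux
set_option autoImplicit false
set_option linter.unusedSectionVars false

/-!
# Blocks QUO, GEN, DEC: most destabilising sublattices
-/

namespace Pool.Agent.Work.MP_b10815_co_flt

open MeasureTheory Matrix

namespace QUO

open LatAux

variable {n : ℕ}

/-- a sublattice may be replaced by a primitive one -/
theorem sat_le (hSAT : Stmt_SAT) {H : Matrix (Fin n) (Fin n) ℝ} (hH : H.PosDef) {k : ℕ}
    {Z : Matrix (Fin n) (Fin k) ℤ} (hZ : FullRank Z) :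
    ∃ l : ℕ, k + l = n ∧ ∃ U : Matrix (Fin n) (Fin k ⊕ Fin l) ℤ, Unimod U ∧
      (gram H U).toBlocks₁₁.det ≤ (gram H Z).det := by
  obtain ⟨l, hl, U, hU, C, hC, hZC⟩ := hSAT n k Z hZ
  refine ⟨l, hl, U, hU, ?_⟩
  have h1 : 0 < (gram H (U.submatrix id (Sum.inl : Fin k → Fin k ⊕ Fin l))).det :=
    gram_det_pos hH (fullRank_inl (unimod_fullRank hU))
  rw [gram_toBlocks₁₁, hZC, gram_det_mul]
  have h2 : (1 : ℝ) ≤ (C.det : ℝ) ^ 2 := by
    have : (1 : ℤ) ≤ C.det ^ 2 := by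
      have := pow_pos (abs_pos.2 hC) 2
      rw [sq_abs] at this
      linarith
    exact_mod_cast this
  nlinarith

theorem rank_le (hSAT : Stmt_SAT) {k : ℕ} {Z : Matrix (Fin n) (Fin k) ℤ} (hZ : FullRank Z) :
    k ≤ n := by
  obtain ⟨l, hl, -⟩ := hSAT n k Z hZ
  omega

/-- sublattices of the quotient lift -/
theorem schur_sub (hBLK : Stmt_BLK) {H : Matrix (Fin n) (Fin n) ℝ} (hH : H.PosDef) {k l : ℕ}
    {U : Matrix (Fin n) (Fin k ⊕ Fin l) ℤ} (hU : Unimod U) {j : ℕ}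
    {Z : Matrix (Fin l) (Fin j) ℤ} (hZ : FullRank Z) :
    ∃ W : Matrix (Fin n) (Fin (k + j)) ℤ, FullRank W ∧
      (gram H W).det = (gram H U).toBlocks₁₁.det * (gram (schur (gram H U)) Z).det := by
  obtain ⟨-, -, -, -, h5, -⟩ := hBLK (Fin k) (Fin l) (gram H U) (gram_posDef hH (unimod_fullRank hU))
  obtain ⟨W, hW, hdet⟩ := h5 j Z hZ
  refine ⟨(U * W).submatrix id finSumFinEquiv.symm,
    fullRank_reindex finSumFinEquiv (FullRank.mul_right' (unimod_fullRank hU) hW), ?_⟩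
  rw [gram_det_reindex, gram_mul, hdet]

theorem subDet_schur (hBLK : Stmt_BLK) {H : Matrix (Fin n) (Fin n) ℝ} (hH : H.PosDef) {k l : ℕ}
    {U : Matrix (Fin n) (Fin k ⊕ Fin l) ℤ} (hU : Unimod U) {t : ℝ}
    (h : ∀ (j : ℕ) (W : Matrix (Fin n) (Fin (k + j)) ℤ), FullRank W →
      t ^ j * (gram H U).toBlocks₁₁.det ≤ (gram H W).det) :
    SubDet (schur (gram H U)) t := by
  intro j Z hZ
  obtain ⟨W, hW, hdet⟩ := schur_sub hBLK hH hU hZ
  have h1 := h j W hW
  rw [hdet, mul_comm] at h1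
  have h2 : 0 < (gram H U).toBlocks₁₁.det := by
    rw [gram_toBlocks₁₁]
    exact gram_det_pos hH (fullRank_inl (unimod_fullRank hU))
  exact le_of_mul_le_mul_left h1 h2

/-- decomposition along a sublattice of determinant one -/
theorem blocks_of_one (hBLK : Stmt_BLK) {H : Matrix (Fin n) (Fin n) ℝ} (hH : H.PosDef)
    (hS : SubDet H 1) {k l : ℕ} {U : Matrix (Fin n) (Fin k ⊕ Fin l) ℤ} (hU : Unimod U)
    (h1 : (gram H U).toBlocks₁₁.det = 1) :
    Stable (gram H U).toBlocks₁₁ ∧ SubDet (schur (gram H U)) 1 ∧ (schur (gram H U)).PosDef ∧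
      (schur (gram H U)).det = H.det := by
  obtain ⟨hb1, hb2, hb3, -, -, -⟩ :=
    hBLK (Fin k) (Fin l) (gram H U) (gram_posDef hH (unimod_fullRank hU))
  refine ⟨⟨hb1, h1, ?_⟩, ?_, hb2, ?_⟩
  · rw [gram_toBlocks₁₁]
    exact subDet_gram hS (fullRank_inl (unimod_fullRank hU))
  · refine subDet_schur hBLK hH hU ?_
    intro j W hW
    rw [h1, one_pow, one_mul]
    have := hS _ W hW
    rwa [one_pow] at this
  · rw [h1, one_mul, gram_det_unimod H hU] at hb3
    exact hb3.symm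

/-- finiteness of the set of (weighted) determinants below given bounds -/
theorem finite_values (hFIN : Stmt_FIN) {H : Matrix (Fin n) (Fin n) ℝ} (hH : H.PosDef)
    (B : ℕ → ℝ) (w : ℕ → ℝ → ℝ) :
    {x : ℝ | ∃ k : ℕ, k ≤ n ∧ ∃ Z : Matrix (Fin n) (Fin k) ℤ, FullRank Z ∧
      (gram H Z).det ≤ B k ∧ x = w k (gram H Z).det}.Finite := by
  obtain ⟨c, hc, hcH⟩ := exists_lower hH
  choose F hF using fun k : ℕ => hFIN n k c (B k) hc
  have h1 : (⋃ k ∈ Finset.range (n + 1), (fun Z : Matrix (Fin n) (Fin k) ℤ => w k (gram H Z).det) ''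
      (F k : Set (Matrix (Fin n) (Fin k) ℤ))).Finite := by
    refine Set.Finite.biUnion (Finset.finite_toSet _) fun k _ => ?_
    exact (Finset.finite_toSet _).image _
  refine h1.subset ?_
  rintro x ⟨k, hk, Z, hZ, hZB, rfl⟩
  obtain ⟨U, hU, hZU⟩ := hF k H hH hcH Z hZ hZB
  simp only [Set.mem_iUnion]
  refine ⟨k, by simp; omega, Z * U, hZU, ?_⟩
  show w k (gram H (Z * U)).det = _
  rw [gram_det_unimod_right H Z hU]

theorem gram_empty (H : Matrix (Fin n) (Fin n) ℝ) (Z : Matrix (Fin n) (Fin 0) ℤ) :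
    FullRank Z ∧ (gram H Z).det = 1 := by
  constructor
  · unfold FullRank
    rw [Matrix.det_isEmpty]
    exact one_ne_zero
  · exact Matrix.det_isEmpty

end QUO

open LatAux QUO in
theorem stmt_QUO (hSAT : Stmt_SAT) (hFIN : Stmt_FIN) (hBLK : Stmt_BLK) : Stmt_QUO := by
  intro n H hH t ht
  let V : Set ℝ := {x : ℝ | ∃ k : ℕ, k ≤ n ∧ ∃ Z : Matrix (Fin n) (Fin k) ℤ, FullRank Z ∧
      (gram H Z).det ≤ t ^ k ∧ x = (gram H Z).det / t ^ k}
  have hV : V.Finite := finite_values hFIN hH (fun k => t ^ k) (fun k x => x / t ^ k)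
  have hV1 : (1 : ℝ) ∈ V := by
    obtain ⟨h1, h2⟩ := gram_empty H (0 : Matrix (Fin n) (Fin 0) ℤ)
    exact ⟨0, Nat.zero_le _, 0, h1, by rw [h2, pow_zero], by rw [h2, pow_zero, div_one]⟩
  obtain ⟨m, hmV, hmin⟩ := Set.exists_min_image V id hV ⟨1, hV1⟩
  obtain ⟨k, hk, Z, hZ, hZt, hm⟩ := hmV
  have hm1 : m ≤ 1 := hmin 1 hV1
  -- `m` bounds all values from below
  have hall : ∀ (j : ℕ) (W : Matrix (Fin n) (Fin j) ℤ), FullRank W →
      m * t ^ j ≤ (gram H W).det := by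
    intro j W hW
    have hj := rank_le hSAT hW
    have htj : 0 < t ^ j := pow_pos ht j
    by_cases hle : (gram H W).det ≤ t ^ j
    · have := hmin _ ⟨j, hj, W, hW, hle, rfl⟩
      simp only [id] at this
      rwa [le_div_iff₀ htj] at this
    · push Not at hle
      nlinarith
  obtain ⟨l, hl, U, hU, hUZ⟩ := sat_le hSAT hH hZ
  refine ⟨k, l, hl, U, hU, hUZ.trans hZt, ?_⟩
  refine subDet_schur hBLK hH hU ?_
  intro j W hW
  have h1 := hall _ W hW
  have htk : 0 < t ^ k := pow_pos ht k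
  have h2 : (gram H Z).det = m * t ^ k := by rw [hm]; field_simp
  calc t ^ j * (gram H U).toBlocks₁₁.det ≤ t ^ j * (m * t ^ k) := by
        rw [← h2]; exact mul_le_mul_of_nonneg_left hUZ (pow_pos ht j).le
    _ = m * t ^ (k + j) := by rw [pow_add]; ring
    _ ≤ _ := h1

open LatAux QUO in
theorem stmt_DEC (hSAT : Stmt_SAT) (hBLK : Stmt_BLK) : Stmt_DEC := by
  intro n H hH hns
  unfold Strict at hns
  push Not at hns
  obtain ⟨k, Z, hk0, hkn, hZ, hdet⟩ := hns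
  obtain ⟨l, hl, U, hU, hUZ⟩ := sat_le hSAT hH.1 hZ
  have h1 : (gram H U).toBlocks₁₁.det = 1 := by
    apply le_antisymm (hUZ.trans hdet)
    rw [gram_toBlocks₁₁]
    have := hH.2.2 _ _ (fullRank_inl (unimod_fullRank hU))
    rwa [one_pow] at this
  obtain ⟨h2, h3, h4, h5⟩ := blocks_of_one hBLK hH.1 hH.2.2 hU h1
  exact ⟨k, l, hk0, by omega, hl, U, hU, h2, h4, by rw [h5, hH.2.1], h3⟩

open LatAux QUO in
theorem stmt_GEN (hSAT : Stmt_SAT) (hFIN : Stmt_FIN) (hBLK : Stmt_BLK) : Stmt_GEN := by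
  intro n hn H hH hS
  -- the value of a sublattice
  let w : ℕ → ℝ → ℝ := fun k x => if k = 0 then H.det ^ ((n : ℝ)⁻¹) else x ^ ((k : ℝ)⁻¹)
  have hdetH : 1 ≤ H.det := by
    have := hS n 1 (unimod_fullRank unimod_one)
    rwa [one_pow, gram_one] at this
  set s0 : ℝ := H.det ^ ((n : ℝ)⁻¹) with hs0
  have hs0n : s0 ^ n = H.det := Real.rpow_inv_natCast_pow (by linarith) (by omega)
  have hs01 : 1 ≤ s0 := Real.one_le_rpow hdetH (by positivity)
  let V : Set ℝ := {x : ℝ | ∃ k : ℕ, k ≤ n ∧ ∃ Z : Matrix (Fin n) (Fin k) ℤ, FullRank Z ∧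
      (gram H Z).det ≤ s0 ^ k ∧ x = w k (gram H Z).det}
  have hV : V.Finite := finite_values hFIN hH (fun k => s0 ^ k) w
  have hV' : (V ∩ {x | ∃ k : ℕ, 1 ≤ k ∧ k ≤ n ∧ ∃ Z : Matrix (Fin n) (Fin k) ℤ, FullRank Z ∧
      (gram H Z).det ≤ s0 ^ k ∧ x = (gram H Z).det ^ ((k : ℝ)⁻¹)}).Finite := hV.inter_of_left _
  obtain ⟨m, hmV, hmin⟩ := Set.exists_min_image _ id hV' (by
    refine ⟨s0, ⟨n, le_rfl, 1, unimod_fullRank unimod_one, ?_, ?_⟩,
      n, hn, le_rfl, 1, unimod_fullRank unimod_one, ?_, ?_⟩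
    · rw [gram_one, hs0n]
    · rw [gram_one]
      simp only [w, if_neg (by omega : ¬ n = 0)]
      exact hs0
    · rw [gram_one, hs0n]
    · rw [gram_one])
  obtain ⟨-, k, hk1, hkn, Z, hZ, hZt, hm⟩ := hmV
  have hk0 : k ≠ 0 := by omega
  have hdet1 : ∀ {j : ℕ} (W : Matrix (Fin n) (Fin j) ℤ), FullRank W → 1 ≤ (gram H W).det := by
    intro j W hW
    have := hS j W hW
    rwa [one_pow] at this
  have hm1 : 1 ≤ m := by
    rw [hm]
    exact Real.one_le_rpow (hdet1 Z hZ) (by positivity)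
  have hmk : m ^ k = (gram H Z).det := by
    rw [hm]
    exact Real.rpow_inv_natCast_pow (by linarith [hdet1 Z hZ]) hk0
  have hms0 : m ≤ s0 := by
    have : m ^ k ≤ s0 ^ k := by rw [hmk]; exact hZt
    exact le_of_pow_le_pow_left₀ hk0 (by linarith) this
  have hall : SubDet H m := by
    intro j W hW
    have hj := rank_le hSAT hW
    by_cases hj0 : j = 0
    · subst hj0
      rw [(gram_empty H W).2, pow_zero]
    have h0 : 0 ≤ (gram H W).det := by linarith [hdet1 W hW]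
    by_cases hle : (gram H W).det ≤ s0 ^ j
    · have h1 := hmin ((gram H W).det ^ ((j : ℝ)⁻¹))
        ⟨⟨j, hj, W, hW, hle, by simp only [w, if_neg hj0]⟩,
          j, by omega, hj, W, hW, hle, rfl⟩
      simp only [id] at h1
      calc m ^ j ≤ ((gram H W).det ^ ((j : ℝ)⁻¹)) ^ j :=
            pow_le_pow_left₀ (by linarith) h1 j
        _ = _ := Real.rpow_inv_natCast_pow h0 hj0
    · push Not at hle
      exact (pow_le_pow_left₀ (by linarith) hms0 j).trans hle.le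
  have hm0 : 0 < m := by linarith
  obtain ⟨l, hl, U, hU, hUZ⟩ := sat_le hSAT hH hZ
  have hUm : (gram H U).toBlocks₁₁.det = m ^ k := by
    apply le_antisymm (hUZ.trans hmk.ge)
    rw [gram_toBlocks₁₁]
    exact hall _ _ (fullRank_inl (unimod_fullRank hU))
  have hH' : (m⁻¹ • H).PosDef := hH.smul (inv_pos.2 hm0)
  have hS' : SubDet (m⁻¹ • H) 1 := by
    intro j W hW
    rw [gram_smul, Matrix.det_smul, Fintype.card_fin, one_pow, inv_pow]
    have := hall j W hW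
    rw [← div_eq_inv_mul, le_div_iff₀ (pow_pos hm0 j), one_mul]
    exact this
  have h1' : (gram (m⁻¹ • H) U).toBlocks₁₁.det = 1 := by
    rw [gram_toBlocks₁₁, gram_smul, Matrix.det_smul, Fintype.card_fin, ← gram_toBlocks₁₁, hUm,
      inv_pow, inv_mul_cancel₀ (pow_pos hm0 k).ne']
  obtain ⟨h2, h3, -, -⟩ := blocks_of_one hBLK hH' hS' hU h1'
  exact ⟨m, hm1, k, l, hk1, hl, U, hU, h2, h3⟩

end Pool.Agent.Work.MP_b10815_co_flt
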