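import Pool.Agent.Work.MP_b10815_co_flt.JEN
import Pool.Agent.Work.MP_b10815_co_flt.LatAux
set_option autoImplicit false
set_option linter.unusedSectionVars false

namespace Pool.Agent.Work.MP_b10815_co_flt

open MeasureTheory Matrix

namespace REC

variable {ι κ : Type} [Fintype ι] [Fintype κ] [DecidableEq ι] [DecidableEq κ]

/-- Haar scaling between coordinate spaces -/
lemma exists_scale (L : (ι → ℝ) ≃ₗ[ℝ] (κ → ℝ)) :
    ∃ c : ℝ, 0 < c ∧ ∀ F : (κ → ℝ) → ℝ, ∫ v, F (L v) = c * ∫ w, F w := by
  let L' := L.toContinuousLinearEquiv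
  have h1 : (Measure.map L' (volume : Measure (ι → ℝ))).IsAddHaarMeasure :=
    L'.isAddHaarMeasure_map _
  have h2 := Measure.isAddLeftInvariant_eq_smul (Measure.map L' (volume : Measure (ι → ℝ)))
    (volume : Measure (κ → ℝ))
  have h3 := Measure.addHaarScalarFactor_pos_of_isAddHaarMeasure
    (Measure.map L' (volume : Measure (ι → ℝ))) (volume : Measure (κ → ℝ))
  refine ⟨_, NNReal.coe_pos.2 h3, fun F => ?_⟩
  have h4 : ∫ v, F (L v) = ∫ w, F w ∂(Measure.map L' (volume : Measure (ι → ℝ))) := by
    have hemb : MeasurableEmbedding L' := L'.toHomeomorph.measurableEmbedding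
    rw [hemb.integral_map]
    rfl
  rw [h4]
  have h5 : ∫ w, F w ∂(Measure.map L' (volume : Measure (ι → ℝ))) =
      ∫ w, F w ∂((Measure.map L' (volume : Measure (ι → ℝ))).addHaarScalarFactor volume •
        (volume : Measure (κ → ℝ))) := congrArg (fun μ => ∫ w, F w ∂μ) h2
  rw [h5, integral_smul_nnreal_measure]
  rfl

lemma scale_real (L : (ι → ℝ) ≃ₗ[ℝ] (κ → ℝ)) :
    ∃ c : ℝ, 0 < c ∧ ∀ S : Set (κ → ℝ), MeasurableSet S →
      volume.real (L ⁻¹' S) = c * volume.real S := by
  obtain ⟨c, hc, h⟩ := exists_scale L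
  refine ⟨c, hc, fun S hS => ?_⟩
  have h1 := h (S.indicator 1)
  rw [integral_indicator_one hS] at h1
  rw [← h1]
  have hm : MeasurableSet (L ⁻¹' S) := by
    have hcont : Continuous L := L.toLinearMap.continuous_of_finiteDimensional
    exact hcont.measurable hS
  rw [← integral_indicator_one hm]
  rfl

/-- transport of Gaussian integrals -/
lemma transport (L : (ι → ℝ) ≃ₗ[ℝ] (κ → ℝ)) (P : Matrix ι ι ℝ) (P' : Matrix κ κ ℝ)
    (hP : P.PosDef) (hP' : P'.PosDef) (h : ∀ v, qf P' (L v) = qf P v) (F : (κ → ℝ) → ℝ) :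
    ∫ v, F (L v) * gH P v = ∫ w, F w * gH P' w := by
  obtain ⟨c, hc, hs⟩ := exists_scale L
  have s1 : 0 < Real.sqrt P.det := Real.sqrt_pos.2 hP.det_pos
  have s2 : 0 < Real.sqrt P'.det := Real.sqrt_pos.2 hP'.det_pos
  have key : ∀ G : (κ → ℝ) → ℝ, ∫ v, G (L v) * gH P v =
      c * (Real.sqrt P.det / Real.sqrt P'.det) * ∫ w, G w * gH P' w := by
    intro G
    have := hs (fun w => G w * gH P' w)
    have h2 : ∀ v, G (L v) * gH P v =
        (Real.sqrt P.det / Real.sqrt P'.det) * (G (L v) * gH P' (L v)) := by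
      intro v
      unfold gH
      rw [h]
      field_simp
    simp only [h2]
    rw [integral_const_mul, this]
    ring
  have h1 := key (fun _ => 1)
  simp only [one_mul] at h1
  rw [(GB.integrable_gH P hP).2, (GB.integrable_gH P' hP').2, mul_one] at h1
  rw [key F, ← h1, one_mul]

/-- Markov for a seminorm against a Gaussian -/
lemma markov (N : Seminorm ℝ (ι → ℝ)) (P : Matrix ι ι ℝ) (hP : P.PosDef)
    (h : ∫ v, N v * gH P v ≤ 1 / 8) : 3 / 4 < ∫ v in {v | N v ≤ 1}, gH P v := by
  have hcont := GB.seminorm_continuous N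
  have hm : MeasurableSet {v : ι → ℝ | N v ≤ 1} := measurableSet_le hcont.measurable measurable_const
  obtain ⟨hi, h1⟩ := GB.integrable_gH P hP
  have h2 := integral_add_compl hm hi
  have hnn : ∀ v, 0 ≤ gH P v := fun v => by unfold gH; positivity
  have h3 : ∫ v in {v : ι → ℝ | N v ≤ 1}ᶜ, gH P v ≤ ∫ v, N v * gH P v := by
    calc ∫ v in {v : ι → ℝ | N v ≤ 1}ᶜ, gH P v
        ≤ ∫ v in {v : ι → ℝ | N v ≤ 1}ᶜ, N v * gH P v := by
          refine setIntegral_mono_on hi.integrableOn
            (GB.integrable_seminorm_gH N P hP).integrableOn hm.compl fun v hv => ?_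
          have : 1 ≤ N v := by
            simp only [Set.mem_compl_iff, Set.mem_ofPred_eq, not_le] at hv
            exact hv.le
          calc gH P v = 1 * gH P v := (one_mul _).symm
            _ ≤ N v * gH P v := mul_le_mul_of_nonneg_right this (hnn v)
      _ ≤ ∫ v, N v * gH P v :=
          setIntegral_le_integral (GB.integrable_seminorm_gH N P hP)
            (Filter.Eventually.of_forall fun v => mul_nonneg (apply_nonneg _ _) (hnn v))
  rw [h1] at h2
  linarith

/-- a convex set of positive volume has interior points -/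
lemma interior_of_pos (K : Set (ι → ℝ)) (hK : Convex ℝ K) (h : 0 < volume.real K) :
    (interior K).Nonempty := by
  by_contra hne
  rw [Set.not_nonempty_iff_eq_empty] at hne
  have h1 := hK.addHaar_frontier (μ := (volume : Measure (ι → ℝ)))
  have h2 : K ⊆ frontier K := by
    intro x hx
    rw [frontier, hne, Set.sdiff_empty]
    exact subset_closure hx
  have h3 : volume K = 0 := measure_mono_null h2 h1
  rw [Measure.real, h3] at h
  simp at h

lemma pos_of_interior (K : Set (ι → ℝ)) (hc : IsCompact K) (h : (interior K).Nonempty) :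
    0 < volume.real K := by
  rw [Measure.real, ENNReal.toReal_pos_iff]
  refine ⟨?_, hc.measure_lt_top⟩
  exact lt_of_lt_of_le (isOpen_interior.measure_pos volume h) (measure_mono interior_subset)

end REC

end Pool.Agent.Work.MP_b10815_co_flt
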